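import Pool.Agent.Run7.h134.PF4

/-!
# Homomorphisms from elementary groups
-/

set_option autoImplicit false
set_option linter.unusedSectionVars false

namespace Run7.h134.PE

open Pool.Agent.Helper460_PR Pool.Agent.Helper460_OutF Pool.Agent.Helper460_CSP

/-- A homomorphism which is trivial on the integral elementary matrices is trivial. -/
lemma triv_of_th {m : ℕ} (hm : 5 ≤ m) {R : Type} [Ring R] {G : Type} [Group G] (f : EE m R →* G)
    (h : ∀ y, f (th m R y) = 1) (g : EE m R) : f g = 1 := by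
  have h1 : ∀ i j, i ≠ j → f (xE i j 1) = 1 := by
    intro i j hij
    have h2 := th_comp (m := m) (R := R) j i hij.symm
    rw [← sE_x, ← h2]
    exact h _
  have h3 : f = 1 := by
    apply hom_ext
    intro i j hij r
    obtain ⟨k, hk1, hk2, -, -⟩ := Stb.exists_ne4 hm i j j j
    have h4 := congrArg f ((sE m R).mul i k j hk1.symm hk2 hij r 1)
    rw [mul_one, map_mul, map_mul, map_mul, sE_x, sE_x, sE_x, h1 k j hk2, mul_one, mul_one] at h4
    exact (mul_eq_right.1 h4.symm)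
  rw [h3]
  rfl

/-- **Homomorphisms from elementary groups.** -/
theorem mainG {n m : ℕ} (hn : 3 ≤ n) (hm : 5 ≤ m) (hnm : n ≤ m) (R : Type) [Ring R]
    (Λ : Type) [Group Λ] (hfg : Group.FG Λ)
    (hRF : ∀ g : Λ, g ≠ 1 → ∃ H : Subgroup Λ, H.index ≠ 0 ∧ g ∉ H)
    (hq : ∀ (Q : Type) [Group Q] [Finite Q], (∃ f : Λ →* Q, Function.Surjective f) ↔
      (∃ f : Matrix.SpecialLinearGroup (Fin n) ℤ →* Q, Function.Surjective f))
    (f : EE m R →* Λ) (hf : ∃ g, f g ≠ 1) :
    m = n ∧ Nonempty (Λ ≃* Matrix.SpecialLinearGroup (Fin n) ℤ) ∧ Function.Surjective f ∧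
      Nonempty (R →+* ℤ) ∧ (Function.Injective f → Nonempty (R ≃+* ℤ)) := by
  have h1 : ∃ y, (f.comp (th m R)) y ≠ 1 := by
    by_contra hcon
    push Not at hcon
    obtain ⟨g, hg⟩ := hf
    exact hg (triv_of_th hm f hcon g)
  obtain ⟨-, -, hs⟩ := mainF hn hm hnm Λ hfg hRF hq (f.comp (th m R)) h1
  have hsf : Function.Surjective f := fun x => by
    obtain ⟨y, hy⟩ := hs x
    exact ⟨th m R y, hy⟩
  obtain ⟨e1, e2, e3, e4⟩ := mainE hn hm hnm R Λ hfg hRF hq f hsf
  exact ⟨e1, e2, hsf, e3, e4⟩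

end Run7.h134.PE
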