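import Pool.Agent.Run7.h134.BSpans

set_option autoImplicit false
set_option linter.style.haveILetI false

namespace Run7.h134

open Module Submodule

attribute [local instance] rightModB

/-- The data of the window argument, over a general ring `B` containing a division ring `E` and a
unit `X` normalising it. -/
structure SetupB (k E B : Type*) [Field k] [DivisionRing E] [Algebra k E] [Ring B] [Algebra k B]
    [Module E B] [Module Eᵐᵒᵖ B] extends Bim k E B where
  nt : Nontrivial B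
  σ : RingAut E
  X : Bˣ
  hX : ∀ e, (X : B) * ι e = ι (σ e) * X
  Eg : ℤ → Submodule k B
  mul_mem : ∀ {s t : ℤ} {a b : B}, a ∈ Eg s → b ∈ Eg t → a * b ∈ Eg (s + t)
  ind : iSupIndep Eg
  ιE : ∀ e, ι e ∈ Eg 0
  XE : (X : B) ∈ Eg 1
  W : Submodule k E
  fdW : FiniteDimensional k W
  oneW : (1 : E) ∈ W
  u : E
  uW : u ∈ W
  tr : Transcendental k u
  z : Bˣ
  m : ℤ
  zE : (z : B) ∈ Eg m

namespace SetupB

variable {k E B : Type*} [Field k] [DivisionRing E] [Algebra k E] [Ring B] [Algebra k B]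
    [Module E B] [Module Eᵐᵒᵖ B] (T : SetupB k E B)

/-- the image of `W` in `B` -/
def WB : Submodule k B := T.W.map T.ι.toLinearMap

/-- `zW + zXW` -/
def A : Submodule k B :=
  T.WB.map (LinearMap.mulLeft k (T.z : B)) ⊔ T.WB.map (LinearMap.mulLeft k ((T.z : B) * T.X))

lemma zw_mem {w : E} (hw : w ∈ T.W) : (T.z : B) * T.ι w ∈ T.A :=
  (le_sup_left : _ ≤ T.A) ⟨T.ι w, ⟨w, hw, rfl⟩, rfl⟩

lemma zxw_mem {w : E} (hw : w ∈ T.W) : (T.z : B) * T.X * T.ι w ∈ T.A :=
  (le_sup_right : _ ≤ T.A) ⟨T.ι w, ⟨w, hw, rfl⟩, rfl⟩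

lemma fdA : FiniteDimensional k T.A := by
  have := T.fdW
  unfold A WB
  infer_instance

lemma fdApow (n : ℕ) : FiniteDimensional k (T.A ^ n : Submodule k B) := by
  have := T.fdA
  exact (Submodule.fg_iff_finiteDimensional _).mp
    (((Submodule.fg_iff_finiteDimensional T.A).mpr this).pow n)

/-- the homogeneous pieces -/
def P (i j : ℕ) : Submodule k B := T.A ^ (i + j) ⊓ T.Eg (T.m * ((i : ℤ) + j) + j)

lemma fdP (i j : ℕ) : FiniteDimensional k (T.P i j) := by
  have := T.fdApow (i + j)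
  exact Submodule.finiteDimensional_of_le (inf_le_left : T.P i j ≤ T.A ^ (i + j))

lemma Eg_cast {s t : ℤ} {a : B} (h : a ∈ T.Eg s) (e : s = t) : a ∈ T.Eg t := e ▸ h

lemma P1 {i j : ℕ} {p : B} {w : E} (hp : p ∈ T.P i j) (hw : w ∈ T.W) :
    T.z * T.ι w * p ∈ T.P (i + 1) j := by
  refine ⟨?_, ?_⟩
  · have h : T.z * T.ι w * p ∈ T.A * T.A ^ (i + j) := Submodule.mul_mem_mul (T.zw_mem hw) hp.1
    rw [← pow_succ'] at h
    have e : i + 1 + j = i + j + 1 := by ring
    rw [e]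
    exact h
  · refine T.Eg_cast (T.mul_mem (T.mul_mem T.zE (T.ιE w)) hp.2) ?_
    push_cast
    ring

lemma P2 {i j : ℕ} {p : B} {w : E} (hp : p ∈ T.P i j) (hw : w ∈ T.W) :
    p * (T.z * T.ι w) ∈ T.P (i + 1) j := by
  refine ⟨?_, ?_⟩
  · have h : p * (T.z * T.ι w) ∈ T.A ^ (i + j) * T.A := Submodule.mul_mem_mul hp.1 (T.zw_mem hw)
    rw [← pow_succ] at h
    have e : i + 1 + j = i + j + 1 := by ring
    rw [e]
    exact h
  · refine T.Eg_cast (T.mul_mem hp.2 (T.mul_mem T.zE (T.ιE w))) ?_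
    push_cast
    ring

lemma P3 {i j : ℕ} {p : B} {w : E} (hp : p ∈ T.P i j) (hw : w ∈ T.W) :
    T.z * T.X * T.ι w * p ∈ T.P i (j + 1) := by
  refine ⟨?_, ?_⟩
  · have h : T.z * T.X * T.ι w * p ∈ T.A * T.A ^ (i + j) :=
      Submodule.mul_mem_mul (T.zxw_mem hw) hp.1
    rw [← pow_succ'] at h
    have e : i + (j + 1) = i + j + 1 := by ring
    rw [e]
    exact h
  · refine T.Eg_cast (T.mul_mem (T.mul_mem (T.mul_mem T.zE T.XE) (T.ιE w)) hp.2) ?_
    push_cast
    ring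

lemma P4 {i j : ℕ} {p : B} {w : E} (hp : p ∈ T.P i j) (hw : w ∈ T.W) :
    p * (T.z * T.X * T.ι w) ∈ T.P i (j + 1) := by
  refine ⟨?_, ?_⟩
  · have h : p * (T.z * T.X * T.ι w) ∈ T.A ^ (i + j) * T.A :=
      Submodule.mul_mem_mul hp.1 (T.zxw_mem hw)
    rw [← pow_succ] at h
    have e : i + (j + 1) = i + j + 1 := by ring
    rw [e]
    exact h
  · refine T.Eg_cast (T.mul_mem hp.2 (T.mul_mem (T.mul_mem T.zE T.XE) (T.ιE w))) ?_
    push_cast
    ring

lemma sumP (n : ℕ) :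
    ∑ j ∈ Finset.range (n + 1), finrank k (T.P (n - j) j) ≤ finrank k (T.A ^ n : Submodule k B) := by
  apply sum_finrank_le _ _ _ (T.fdApow n)
  · intro j hj
    simp only [Finset.mem_range] at hj
    have e : n - j + j = n := by omega
    have : T.P (n - j) j ≤ T.A ^ (n - j + j) := inf_le_left
    rwa [e] at this
  · intro t hts i his hit
    have h1 : T.P (n - i) i ≤ T.Eg (T.m * (((n - i : ℕ) : ℤ) + i) + i) := inf_le_right
    simp only [Finset.mem_range] at his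
    have e1 : (((n - i : ℕ) : ℤ) + i) = n := by
      push_cast [Nat.cast_sub (by omega : i ≤ n)]
      ring
    rw [e1] at h1
    refine (T.ind (T.m * n + i)).mono h1 ?_
    apply Finset.sup_le
    intro j hj
    have hjs := hts hj
    simp only [Finset.mem_range] at hjs
    have h2 : T.P (n - j) j ≤ T.Eg (T.m * (((n - j : ℕ) : ℤ) + j) + j) := inf_le_right
    have e2 : (((n - j : ℕ) : ℤ) + j) = n := by
      push_cast [Nat.cast_sub (by omega : j ≤ n)]
      ring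
    rw [e2] at h2
    refine h2.trans ?_
    have hne : T.m * n + (j : ℤ) ≠ T.m * n + i := by
      intro h
      have : j = i := by
        have := add_left_cancel h
        exact_mod_cast this
      exact hit (this ▸ hj)
    exact le_iSup₂_of_le (T.m * n + (j : ℤ)) hne le_rfl

/-- the field generated by `u` -/
def U : Subfield E := Subfield.closure (Set.range (algebraMap k E) ∪ {T.u})

lemma kU (c : k) : algebraMap k E c ∈ T.U :=
  Subfield.subset_closure (Or.inl ⟨c, rfl⟩)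

lemma uU : T.u ∈ T.U := Subfield.subset_closure (Or.inr rfl)

/-- left structure -/
noncomputable def L (i j : ℕ) : Submodule T.U B := span T.U (T.P i j : Set B)

/-- `P i j` times `z` -/
def Q (i j : ℕ) : Submodule k B := (T.P i j).map (LinearMap.mulRight k (T.z : B))

lemma fdQ (i j : ℕ) : FiniteDimensional k (T.Q i j) := by
  have := T.fdP i j
  unfold Q
  infer_instance

/-- right structure -/
noncomputable def R (i j : ℕ) : Submodule (↥T.U)ᵐᵒᵖ B := span (↥T.U)ᵐᵒᵖ (T.Q i j : Set B)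

lemma finL' (i j : ℕ) : Module.Finite T.U (T.L i j) := T.toBim.finL T.U T.kU _ (T.fdP i j)

lemma finR' (i j : ℕ) : Module.Finite (↥T.U)ᵐᵒᵖ (T.R i j) := T.toBim.finR T.U T.kU _ (T.fdQ i j)

noncomputable def rL (i j : ℕ) : ℕ := finrank T.U (T.L i j)
noncomputable def rR (i j : ℕ) : ℕ := finrank (↥T.U)ᵐᵒᵖ (T.R i j)

lemma Q1 {i j : ℕ} {p : B} {w : E} (hp : p ∈ T.Q i j) (hw : w ∈ T.W) :
    T.z * T.ι w * p ∈ T.Q (i + 1) j := by
  obtain ⟨q, hq, rfl⟩ := hp
  refine ⟨T.z * T.ι w * q, T.P1 hq hw, ?_⟩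
  simp [mul_assoc]

lemma Q3 {i j : ℕ} {p : B} {w : E} (hp : p ∈ T.Q i j) (hw : w ∈ T.W) :
    T.z * T.X * T.ι w * p ∈ T.Q i (j + 1) := by
  obtain ⟨q, hq, rfl⟩ := hp
  refine ⟨T.z * T.X * T.ι w * q, T.P3 hq hw, ?_⟩
  simp [mul_assoc]

lemma zw0 {w : E} (hw : w ≠ 0) : IsUnit ((T.z : B) * T.ι w) := T.z.isUnit.mul (T.unit_ι hw)
lemma zxw0 {w : E} (hw : w ≠ 0) : IsUnit ((T.z : B) * T.X * T.ι w) :=
  (T.z.isUnit.mul T.X.isUnit).mul (T.unit_ι hw)

lemma rL1 (i j : ℕ) : T.rL i j ≤ T.rL (i + 1) j :=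
  finrank_span_le_of (T.mulR T.U (T.z * T.ι 1)) (T.mulR_inj T.U (T.zw0 one_ne_zero))
    (fun _ hp => T.P2 hp T.oneW) (T.finL' (i + 1) j)

lemma rL2 (i j : ℕ) : T.rL i j ≤ T.rL i (j + 1) :=
  finrank_span_le_of (T.mulR T.U (T.z * T.X * T.ι 1)) (T.mulR_inj T.U (T.zxw0 one_ne_zero))
    (fun _ hp => T.P4 hp T.oneW) (T.finL' i (j + 1))

lemma rR1 (i j : ℕ) : T.rR i j ≤ T.rR (i + 1) j :=
  finrank_span_le_of (T.mulL T.U (T.z * T.ι 1)) (T.mulL_inj T.U (T.zw0 one_ne_zero))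
    (fun _ hp => T.Q1 hp T.oneW) (T.finR' (i + 1) j)

lemma rR2 (i j : ℕ) : T.rR i j ≤ T.rR i (j + 1) :=
  finrank_span_le_of (T.mulL T.U (T.z * T.X * T.ι 1)) (T.mulL_inj T.U (T.zxw0 one_ne_zero))
    (fun _ hp => T.Q3 hp T.oneW) (T.finR' i (j + 1))

lemma mulLeft_inj' {g : B} (hg : IsUnit g) : Function.Injective (LinearMap.mulLeft k g) := by
  intro a b h
  exact hg.mul_right_injective h

lemma mulRight_inj' {g : B} (hg : IsUnit g) : Function.Injective (LinearMap.mulRight k g) := by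
  intro a b h
  exact hg.mul_left_injective h

lemma fL (i j : ℕ) : finrank k (T.P i j) + T.rL i j ≤ finrank k (T.P (i + 1) j) := by
  have h1 := T.stringL T.U T.kU T.uU T.tr (T.P i j) (T.fdP i j)
  refine h1.trans ?_
  rw [← finrank_map_inj (LinearMap.mulLeft k (T.z : B)) (mulLeft_inj' T.z.isUnit)]
  have := T.fdP (i + 1) j
  apply Submodule.finrank_mono
  rw [Submodule.map_sup]
  apply sup_le
  · rintro _ ⟨p, hp, rfl⟩
    have := T.P1 hp T.oneW
    simpa using this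
  · rintro _ ⟨_, ⟨p, hp, rfl⟩, rfl⟩
    have := T.P1 hp T.uW
    simpa [mul_assoc] using this

lemma fR (i j : ℕ) : finrank k (T.P i j) + T.rR i j ≤ finrank k (T.P (i + 1) j) := by
  have h1 := T.stringR T.U T.kU T.uU T.tr (T.Q i j) (T.fdQ i j)
  have h0 : finrank k (T.Q i j) = finrank k (T.P i j) :=
    finrank_map_inj (LinearMap.mulRight k (T.z : B)) (mulRight_inj' T.z.isUnit) _
  rw [h0] at h1
  refine h1.trans ?_
  have := T.fdP (i + 1) j
  apply Submodule.finrank_mono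
  apply sup_le
  · rintro _ ⟨p, hp, rfl⟩
    have := T.P2 hp T.oneW
    simpa using this
  · rintro _ ⟨_, ⟨p, hp, rfl⟩, rfl⟩
    have := T.P2 hp T.uW
    simpa [mul_assoc] using this

/-- the division subring generated by `k` and `σ^i W`, `|i| ≤ l` -/
def G (l : ℕ) : Subfield E := Subfield.closure (Set.range (algebraMap k E) ∪
  {y | ∃ i : ℤ, |i| ≤ l ∧ ∃ w ∈ T.W, y = (T.σ ^ i) w})

lemma G_mono {l l' : ℕ} (h : l ≤ l') : T.G l ≤ T.G l' := by
  apply Subfield.closure_mono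
  rintro y (hy | ⟨i, hi, w, hw, rfl⟩)
  · exact Or.inl hy
  · exact Or.inr ⟨i, hi.trans (by exact_mod_cast h), w, hw, rfl⟩

lemma kG (l : ℕ) (c : k) : algebraMap k E c ∈ T.G l :=
  Subfield.subset_closure (Or.inl ⟨c, rfl⟩)

lemma WG (l : ℕ) {w : E} (hw : w ∈ T.W) : w ∈ T.G l :=
  Subfield.subset_closure (Or.inr ⟨0, by simp, w, hw, by simp⟩)

lemma UG (l : ℕ) : T.U ≤ T.G l := by
  apply Subfield.closure_le.mpr
  rintro y (⟨c, rfl⟩ | hy)
  · exact T.kG l c
  · rw [Set.mem_singleton_iff] at hy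
    subst hy
    exact T.WG l T.uW

lemma ι_inj : Function.Injective T.ι := by
  have := T.nt
  exact T.ι.toRingHom.injective

lemma σ_k (c : k) : T.σ (algebraMap k E c) = algebraMap k E c := by
  apply T.ι_inj
  have h := T.hX (algebraMap k E c)
  rw [T.ι.commutes, ← Algebra.commutes, ← T.ι.commutes] at h
  exact (T.X.isUnit.mul_left_injective h).symm

lemma G_conj (l : ℕ) {y : E} (hy : y ∈ T.G l) :
    T.σ y ∈ T.G (l + 1) ∧ T.σ⁻¹ y ∈ T.G (l + 1) := by
  induction hy using Subfield.closure_induction with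
  | mem y hy =>
    rcases hy with ⟨c, rfl⟩ | ⟨i, hi, w, hw, rfl⟩
    · have e1 := T.σ_k c
      have e2 : T.σ⁻¹ (algebraMap k E c) = algebraMap k E c := by
        rw [← e1]
        show (T.σ⁻¹ * T.σ) (algebraMap k E c) = _
        rw [inv_mul_cancel, e1]
        rfl
      rw [e1, e2]
      exact ⟨T.kG _ c, T.kG _ c⟩
    · constructor
      · apply Subfield.subset_closure
        refine Or.inr ⟨1 + i, ?_, w, hw, ?_⟩
        · push_cast
          rw [add_comm]
          exact (abs_add_le i 1).trans (by simpa using hi)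
        · rw [zpow_add, zpow_one]
          rfl
      · apply Subfield.subset_closure
        refine Or.inr ⟨-1 + i, ?_, w, hw, ?_⟩
        · push_cast
          rw [add_comm]
          exact (abs_add_le i (-1)).trans (by simpa using hi)
        · rw [zpow_add, zpow_neg_one]
          rfl
  | one =>
    rw [map_one, map_one]
    exact ⟨one_mem _, one_mem _⟩
  | add a b _ _ ha hb =>
    rw [map_add, map_add]
    exact ⟨add_mem ha.1 hb.1, add_mem ha.2 hb.2⟩
  | neg a _ ha =>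
    rw [map_neg, map_neg]
    exact ⟨neg_mem ha.1, neg_mem ha.2⟩
  | inv a _ ha =>
    rw [map_inv₀, map_inv₀]
    exact ⟨(T.G (l + 1)).inv_mem ha.1, (T.G (l + 1)).inv_mem ha.2⟩
  | mul a b _ _ ha hb =>
    rw [map_mul, map_mul]
    exact ⟨(T.G (l + 1)).mul_mem ha.1 hb.1, (T.G (l + 1)).mul_mem ha.2 hb.2⟩

lemma P_ne (i j : ℕ) : ∃ p ∈ T.P i j, p ≠ 0 := by
  have := T.nt
  have h0 : ∃ p ∈ T.P 0 0, p ≠ 0 := by
    refine ⟨1, ⟨?_, ?_⟩, one_ne_zero⟩
    · show (1 : B) ∈ (T.A ^ (0 + 0) : Submodule k B)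
      rw [add_zero, pow_zero]
      exact Submodule.one_le.mp le_rfl
    · have := T.ιE 1
      simpa using this
  have hu : ∀ {a b : B}, IsUnit a → b ≠ 0 → a * b ≠ 0 := by
    intro a b ha hb h
    exact hb ((ha.mul_right_eq_zero).mp h)
  have h1 : ∀ i, ∃ p ∈ T.P i 0, p ≠ 0 := by
    intro i
    induction i with
    | zero => exact h0
    | succ i ih =>
      obtain ⟨p, hp, hp0⟩ := ih
      exact ⟨_, T.P1 hp T.oneW, hu (T.zw0 one_ne_zero) hp0⟩
  induction j with
  | zero => exact h1 i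
  | succ j ih =>
    obtain ⟨p, hp, hp0⟩ := ih
    exact ⟨_, T.P3 hp T.oneW, hu (T.zxw0 one_ne_zero) hp0⟩

end SetupB

end Run7.h134
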