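import Pool.Agent.Run7.h134.BCore

set_option autoImplicit false
set_option linter.style.haveILetI false

namespace Run7.h134

open Module Submodule

attribute [local instance] rightModB

namespace SetupB

variable {k E B : Type*} [Field k] [DivisionRing E] [Algebra k E] [Ring B] [Algebra k B]
    [Module E B] [Module Eᵐᵒᵖ B] (T : SetupB k E B)

/-- the inverse of `X` -/
def Xi : B := ((T.X⁻¹ : Bˣ) : B)

lemma X_Xi : (T.X : B) * T.Xi = 1 := T.X.mul_inv
lemma Xi_X : T.Xi * (T.X : B) = 1 := T.X.inv_mul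

lemma pow_X_Xi (n : ℕ) : (T.X : B) ^ n * T.Xi ^ n = 1 := by
  have : Commute (T.X : B) T.Xi := by
    show _ = _
    rw [T.X_Xi, T.Xi_X]
  rw [← this.mul_pow, T.X_Xi, one_pow]

lemma pow_Xi_X (n : ℕ) : T.Xi ^ n * (T.X : B) ^ n = 1 := by
  have : Commute T.Xi (T.X : B) := by
    show _ = _
    rw [T.X_Xi, T.Xi_X]
  rw [← this.mul_pow, T.Xi_X, one_pow]

lemma hXi (e : E) : T.Xi * T.ι e = T.ι (T.σ⁻¹ e) * T.Xi := by
  have h := T.hX (T.σ⁻¹ e)
  have e1 : T.σ (T.σ⁻¹ e) = e := by
    show (T.σ * T.σ⁻¹) e = e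
    rw [mul_inv_cancel]
    rfl
  rw [e1] at h
  calc T.Xi * T.ι e = T.Xi * (T.ι e * (T.X * T.Xi)) := by rw [T.X_Xi, mul_one]
    _ = T.Xi * (T.ι e * T.X) * T.Xi := by simp only [mul_assoc]
    _ = T.Xi * (T.X * T.ι (T.σ⁻¹ e)) * T.Xi := by rw [h]
    _ = T.Xi * T.X * T.ι (T.σ⁻¹ e) * T.Xi := by simp only [mul_assoc]
    _ = _ := by rw [T.Xi_X, one_mul]

lemma hXn (n : ℕ) (e : E) : (T.X : B) ^ n * T.ι e = T.ι ((T.σ ^ n) e) * (T.X : B) ^ n := by
  induction n with
  | zero => simp
  | succ n ih =>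
    rw [pow_succ', mul_assoc, ih, ← mul_assoc, T.hX, mul_assoc, ← pow_succ', pow_succ' T.σ]
    rfl

lemma hXin (n : ℕ) (e : E) : T.Xi ^ n * T.ι e = T.ι ((T.σ⁻¹ ^ n) e) * T.Xi ^ n := by
  induction n with
  | zero => simp
  | succ n ih =>
    rw [pow_succ', mul_assoc, ih, ← mul_assoc, T.hXi, mul_assoc, ← pow_succ', pow_succ' T.σ⁻¹]
    rfl

lemma Lstep1 {i j : ℕ} (h : T.rL i j = T.rL (i + 1) j) {w : E} (hw : w ∈ T.W) (hw0 : w ≠ 0) :
    (T.L i j).map (T.mulR T.U (T.z * T.ι w)) = T.L (i + 1) j :=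
  map_span_eq_of (T.mulR T.U (T.z * T.ι w)) (T.mulR_inj T.U (T.zw0 hw0))
    (fun _ hp => T.P2 hp hw) (T.finL' (i + 1) j) h

lemma Rstep1 {i j : ℕ} (h : T.rR i j = T.rR (i + 1) j) {w : E} (hw : w ∈ T.W) (hw0 : w ≠ 0) :
    (T.R i j).map (T.mulL T.U (T.z * T.ι w)) = T.R (i + 1) j :=
  map_span_eq_of (T.mulL T.U (T.z * T.ι w)) (T.mulL_inj T.U (T.zw0 hw0))
    (fun _ hp => T.Q1 hp hw) (T.finR' (i + 1) j) h

lemma Rstep3 {i j : ℕ} (h : T.rR i j = T.rR i (j + 1)) {w : E} (hw : w ∈ T.W) (hw0 : w ≠ 0) :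
    (T.R i j).map (T.mulL T.U (T.z * T.X * T.ι w)) = T.R i (j + 1) :=
  map_span_eq_of (T.mulL T.U (T.z * T.X * T.ι w)) (T.mulL_inj T.U (T.zxw0 hw0))
    (fun _ hp => T.Q3 hp hw) (T.finR' i (j + 1)) h

lemma wR {i j : ℕ} (h : T.rR i j = T.rR (i + 1) j) {w : E} {y : B} (hw : w ∈ T.W)
    (hy : y ∈ T.R i j) : T.ι w * y ∈ T.R i j := by
  by_cases hw0 : w = 0
  · subst hw0
    rw [map_zero, zero_mul]
    exact Submodule.zero_mem _
  · have h1 : T.z * T.ι w * y ∈ T.R (i + 1) j := by
      rw [← T.Rstep1 h hw hw0]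
      exact ⟨y, hy, rfl⟩
    rw [← T.Rstep1 h T.oneW one_ne_zero] at h1
    obtain ⟨y', hy', he⟩ := h1
    rw [Bim.mulL_apply, map_one, mul_one, mul_assoc] at he
    rw [← T.z.isUnit.mul_right_injective he]
    exact hy'

lemma xR {i j : ℕ} (h1 : T.rR (i + 1) j = T.rR (i + 1) (j + 1))
    (h2 : T.rR i (j + 1) = T.rR (i + 1) (j + 1)) {y : B} (hy : y ∈ T.R (i + 1) j) :
    T.X * y ∈ T.R i (j + 1) := by
  have h3 : T.z * T.X * T.ι 1 * y ∈ T.R (i + 1) (j + 1) := by
    rw [← T.Rstep3 h1 T.oneW one_ne_zero]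
    exact ⟨y, hy, rfl⟩
  rw [← T.Rstep1 h2 T.oneW one_ne_zero] at h3
  obtain ⟨y', hy', he⟩ := h3
  rw [Bim.mulL_apply, map_one, mul_one, mul_one, mul_assoc] at he
  rw [← T.z.isUnit.mul_right_injective he]
  exact hy'

lemma xinvR {i j : ℕ} (h1 : T.rR (i + 1) j = T.rR (i + 1) (j + 1))
    (h2 : T.rR i (j + 1) = T.rR (i + 1) (j + 1)) {y : B} (hy : y ∈ T.R i (j + 1)) :
    T.Xi * y ∈ T.R (i + 1) j := by
  have h3 : T.z * T.ι 1 * y ∈ T.R (i + 1) (j + 1) := by
    rw [← T.Rstep1 h2 T.oneW one_ne_zero]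
    exact ⟨y, hy, rfl⟩
  rw [← T.Rstep3 h1 T.oneW one_ne_zero] at h3
  obtain ⟨y', hy', he⟩ := h3
  rw [Bim.mulL_apply, map_one, mul_one, mul_one, mul_assoc] at he
  have h4 := T.z.isUnit.mul_right_injective he
  change (T.X : B) * y' = y at h4
  rw [← h4, ← mul_assoc, T.Xi_X, one_mul]
  exact hy'

section Win

variable {N c : ℕ} (hc : N + 1 ≤ c)
  (hwin : ∀ i j, c ≤ i + (N + 1) → i ≤ c + (N + 1) → c ≤ j + (N + 1) → j ≤ c + (N + 1) →
        T.rL i j = T.rL c c ∧ T.rR i j = T.rR c c)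

include hc hwin

lemma winA (n : ℕ) (hn : n ≤ N + 1) {y : B} (hy : y ∈ T.R c c) :
    T.Xi ^ n * y ∈ T.R (c + n) (c - n) := by
  induction n with
  | zero => simpa using hy
  | succ n ih =>
    have h := ih (by omega)
    obtain ⟨j, hj⟩ : ∃ j, c - n = j + 1 := ⟨c - n - 1, by omega⟩
    have hj2 : c - (n + 1) = j := by omega
    rw [hj] at h
    rw [hj2, pow_succ', mul_assoc, ← add_assoc]
    apply T.xinvR _ _ h
    · exact ((hwin _ _ (by omega) (by omega) (by omega) (by omega)).2).trans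
          ((hwin _ _ (by omega) (by omega) (by omega) (by omega)).2).symm
    · exact ((hwin _ _ (by omega) (by omega) (by omega) (by omega)).2).trans
          ((hwin _ _ (by omega) (by omega) (by omega) (by omega)).2).symm

lemma winA' (n : ℕ) (hn : n ≤ N + 1) : ∀ {y : B}, y ∈ T.R (c + n) (c - n) →
    (T.X : B) ^ n * y ∈ T.R c c := by
  induction n with
  | zero => intro y hy; simpa using hy
  | succ n ih =>
    intro y hy
    obtain ⟨j, hj⟩ : ∃ j, c - n = j + 1 := ⟨c - n - 1, by omega⟩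
    have hj2 : c - (n + 1) = j := by omega
    rw [hj2, ← add_assoc] at hy
    rw [pow_succ, mul_assoc]
    apply ih (by omega)
    rw [hj]
    apply T.xR _ _ hy
    · exact ((hwin _ _ (by omega) (by omega) (by omega) (by omega)).2).trans
          ((hwin _ _ (by omega) (by omega) (by omega) (by omega)).2).symm
    · exact ((hwin _ _ (by omega) (by omega) (by omega) (by omega)).2).trans
          ((hwin _ _ (by omega) (by omega) (by omega) (by omega)).2).symm

lemma winB (n : ℕ) (hn : n ≤ N + 1) {y : B} (hy : y ∈ T.R c c) :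
    (T.X : B) ^ n * y ∈ T.R (c - n) (c + n) := by
  induction n with
  | zero => simpa using hy
  | succ n ih =>
    have h := ih (by omega)
    obtain ⟨i, hi⟩ : ∃ i, c - n = i + 1 := ⟨c - n - 1, by omega⟩
    have hi2 : c - (n + 1) = i := by omega
    rw [hi] at h
    rw [hi2, pow_succ', mul_assoc, ← add_assoc]
    apply T.xR _ _ h
    · exact ((hwin _ _ (by omega) (by omega) (by omega) (by omega)).2).trans
          ((hwin _ _ (by omega) (by omega) (by omega) (by omega)).2).symm
    · exact ((hwin _ _ (by omega) (by omega) (by omega) (by omega)).2).trans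
          ((hwin _ _ (by omega) (by omega) (by omega) (by omega)).2).symm

lemma winB' (n : ℕ) (hn : n ≤ N + 1) : ∀ {y : B}, y ∈ T.R (c - n) (c + n) →
    T.Xi ^ n * y ∈ T.R c c := by
  induction n with
  | zero => intro y hy; simpa using hy
  | succ n ih =>
    intro y hy
    obtain ⟨i, hi⟩ : ∃ i, c - n = i + 1 := ⟨c - n - 1, by omega⟩
    have hi2 : c - (n + 1) = i := by omega
    rw [hi2, ← add_assoc] at hy
    rw [pow_succ, mul_assoc]
    apply ih (by omega)
    rw [hi]
    apply T.xinvR _ _ hy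
    · exact ((hwin _ _ (by omega) (by omega) (by omega) (by omega)).2).trans
          ((hwin _ _ (by omega) (by omega) (by omega) (by omega)).2).symm
    · exact ((hwin _ _ (by omega) (by omega) (by omega) (by omega)).2).trans
          ((hwin _ _ (by omega) (by omega) (by omega) (by omega)).2).symm

lemma G_le_stab : T.G N ≤ T.stabL T.U (T.R c c) (T.finR' c c) := by
  apply Subfield.closure_le.mpr
  rintro y (⟨a, rfl⟩ | ⟨i, hi, w, hw, rfl⟩)
  · intro y hy
    have h1 : T.ι (algebraMap k E a) * y = y * T.ι (algebraMap k E a) := by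
      rw [T.ι.commutes, Algebra.commutes]
    rw [h1]
    have h2 := (T.R c c).smul_mem (MulOpposite.op (⟨_, T.kU a⟩ : T.U)) hy
    rw [T.smulR'] at h2
    exact h2
  · intro y hy
    rcases le_total 0 i with h0 | h0
    · obtain ⟨n, rfl⟩ := Int.eq_ofNat_of_zero_le h0
      have hn : n ≤ N := by
        rw [abs_of_nonneg h0] at hi
        exact_mod_cast hi
      have e : T.ι ((T.σ ^ (n : ℤ)) w) * y = (T.X : B) ^ n * (T.ι w * (T.Xi ^ n * y)) := by
        rw [zpow_natCast]
        calc T.ι ((T.σ ^ n) w) * y = T.ι ((T.σ ^ n) w) * (((T.X : B) ^ n * T.Xi ^ n) * y) := by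
              rw [T.pow_X_Xi, one_mul]
          _ = (T.ι ((T.σ ^ n) w) * (T.X : B) ^ n) * (T.Xi ^ n * y) := by simp only [mul_assoc]
          _ = _ := by rw [← T.hXn]; simp only [mul_assoc]
      rw [e]
      apply T.winA' hc hwin n (by omega)
      apply T.wR _ hw
      · exact T.winA hc hwin n (by omega) hy
      · exact ((hwin _ _ (by omega) (by omega) (by omega) (by omega)).2).trans
          ((hwin _ _ (by omega) (by omega) (by omega) (by omega)).2).symm
    · obtain ⟨n, hn⟩ := Int.eq_ofNat_of_zero_le (neg_nonneg.mpr h0)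
      have hi' : i = -(n : ℤ) := by omega
      subst hi'
      have hn : n ≤ N := by
        rw [abs_neg, abs_of_nonneg (by positivity)] at hi
        exact_mod_cast hi
      have e : T.ι ((T.σ ^ (-(n : ℤ))) w) * y = T.Xi ^ n * (T.ι w * ((T.X : B) ^ n * y)) := by
        rw [zpow_neg, zpow_natCast, ← inv_pow]
        calc T.ι ((T.σ⁻¹ ^ n) w) * y = T.ι ((T.σ⁻¹ ^ n) w) * ((T.Xi ^ n * (T.X : B) ^ n) * y) := by
              rw [T.pow_Xi_X, one_mul]
          _ = (T.ι ((T.σ⁻¹ ^ n) w) * T.Xi ^ n) * ((T.X : B) ^ n * y) := by simp only [mul_assoc]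
          _ = _ := by rw [← T.hXin]; simp only [mul_assoc]
      rw [e]
      apply T.winB' hc hwin n (by omega)
      apply T.wR _ hw
      · exact T.winB hc hwin n (by omega) hy
      · exact ((hwin _ _ (by omega) (by omega) (by omega) (by omega)).2).trans
          ((hwin _ _ (by omega) (by omega) (by omega) (by omega)).2).symm

lemma U_le_stab : T.U ≤ T.stabR T.U (T.L (c + 1) c) (T.finL' (c + 1) c) := by
  apply Subfield.closure_le.mpr
  have key : ∀ w ∈ T.W, ∀ y ∈ T.L (c + 1) c, y * T.ι w ∈ T.L (c + 1) c := by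
    intro w hw y hy
    have hr : T.rL c c = T.rL (c + 1) c := by
      rw [(hwin (c + 1) c (by omega) (by omega) (by omega) (by omega)).1]
    by_cases hw0 : w = 0
    · subst hw0
      rw [map_zero, mul_zero]
      exact Submodule.zero_mem _
    · rw [← T.Lstep1 hr T.oneW one_ne_zero] at hy
      obtain ⟨y', hy', rfl⟩ := hy
      rw [← T.Lstep1 hr hw hw0]
      refine ⟨y', hy', ?_⟩
      simp only [Bim.mulR_apply, map_one, mul_one, mul_assoc]
  rintro y (⟨a, rfl⟩ | hy)
  · intro y hy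
    have h1 : y * T.ι (algebraMap k E a) = T.ι (algebraMap k E a) * y := by
      rw [T.ι.commutes, Algebra.commutes]
    rw [h1]
    have h2 := (T.L (c + 1) c).smul_mem (⟨_, T.kU a⟩ : T.U) hy
    rw [T.smulL'] at h2
    exact h2
  · rw [Set.mem_singleton_iff] at hy
    subst hy
    exact key _ T.uW

lemma R_sub_L {y : B} (hy : y ∈ T.R c c) : y ∈ T.L (c + 1) c := by
  unfold R at hy
  induction hy using Submodule.span_induction with
  | mem q hq =>
    obtain ⟨p, hp, rfl⟩ := hq
    apply subset_span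
    have := T.P2 hp T.oneW
    rw [map_one, mul_one] at this
    exact this
  | zero => exact Submodule.zero_mem _
  | add a b _ _ ha hb => exact Submodule.add_mem _ ha hb
  | smul a y _ hy =>
    rw [T.smulR']
    exact T.U_le_stab hc hwin (MulOpposite.unop a).2 _ hy

lemma finrank_G_le : Module.Finite T.U (span T.U (T.G N : Set E)) ∧
    finrank T.U (span T.U (T.G N : Set E)) ≤ T.rL c c := by
  obtain ⟨p, hp, hp0⟩ := T.P_ne c c
  have hr : p * T.z ∈ T.R c c := subset_span ⟨p, hp, rfl⟩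
  have hr0 : p * T.z ≠ 0 := fun h => hp0 ((T.z.isUnit.mul_left_eq_zero).mp h)
  let φ : E →ₗ[T.U] B :=
    { toFun := fun y => T.ι y * (p * T.z)
      map_add' := by
        intro a b
        rw [map_add, add_mul]
      map_smul' := by
        intro c a
        rw [T.smulL', RingHom.id_apply]
        show T.ι ((c : E) * a) * _ = _
        rw [map_mul, mul_assoc] }
  have hφ : Function.Injective φ := by
    rw [injective_iff_map_eq_zero]
    intro a ha
    by_contra h0
    apply hr0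
    exact ((T.unit_ι h0).mul_right_eq_zero).mp ha
  have h1 : (span T.U (T.G N : Set E)).map φ ≤ T.L (c + 1) c := by
    rw [Submodule.map_span]
    apply span_le.mpr
    rintro _ ⟨g, hg, rfl⟩
    exact T.R_sub_L hc hwin (T.G_le_stab hc hwin hg _ hr)
  have f0 := T.finL' (c + 1) c
  have f1 : Module.Finite T.U ((span T.U (T.G N : Set E)).map φ) :=
    Submodule.finiteDimensional_of_le h1
  have f2 : Module.Finite T.U (span T.U (T.G N : Set E)) :=
    Module.Finite.equiv (Submodule.equivMapOfInjective φ hφ (span T.U (T.G N : Set E))).symm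
  refine ⟨f2, ?_⟩
  have h2 := Submodule.finrank_mono h1
  rw [← LinearEquiv.finrank_eq (Submodule.equivMapOfInjective φ hφ (span T.U (T.G N : Set E)))] at h2
  have h3 : T.rL (c + 1) c = T.rL c c :=
    (hwin (c + 1) c (by omega) (by omega) (by omega) (by omega)).1
  exact h2.trans (le_of_eq h3)

end Win

/-- Core theorem over a ring `B`. -/
theorem main (q n₀ : ℕ)
    (ha : ∀ n ≥ n₀, (finrank k (T.A ^ n : Submodule k B)) ^ (q + 1) ≤ n ^ (3 * q + 2)) :
    ∃ F : Subfield E, (∀ c : k, algebraMap k E c ∈ F) ∧ (∀ w ∈ T.W, w ∈ F) ∧ T.U ≤ F ∧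
      (∀ y ∈ F, T.σ y ∈ F ∧ T.σ⁻¹ y ∈ F) ∧
      Module.Finite T.U (span T.U (F : Set E)) := by
  obtain ⟨N, c, hc, hwin, hlt⟩ := window (fun i j => finrank k (T.P i j)) T.rL T.rR
    (fun n => finrank k (T.A ^ n : Submodule k B)) T.rL1 T.rL2 T.rR1 T.rR2 T.fL T.fR T.sumP q n₀ ha
  obtain ⟨hf, hle⟩ := T.finrank_G_le hc hwin
  have hex : ∃ l < N, T.G l = T.G (l + 1) := by
    by_contra hcon
    push Not at hcon
    have key : ∀ l ≤ N, 2 ^ l ≤ finrank T.U (span T.U (T.G l : Set E)) := by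
      intro l
      induction l with
      | zero =>
        intro _
        have h1 : 0 < finrank T.U (span T.U (T.G 0 : Set E)) := by
          have f0 : Module.Finite T.U (span T.U (T.G 0 : Set E)) :=
            Submodule.finiteDimensional_of_le (span_mono (fun y hy => T.G_mono (Nat.zero_le N) hy))
          rw [Module.finrank_pos_iff_exists_ne_zero]
          refine ⟨⟨1, subset_span (one_mem (T.G 0))⟩, ?_⟩
          intro h
          exact one_ne_zero (congrArg Subtype.val h)
        rw [pow_zero]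
        exact h1
      | succ l ih =>
        intro hl
        have h1 := ih (by omega)
        have h2 : T.G l < T.G (l + 1) :=
          lt_of_le_of_ne (T.G_mono (Nat.le_succ l)) (hcon l (by omega))
        have f1 : Module.Finite T.U (span T.U (T.G (l + 1) : Set E)) :=
          Submodule.finiteDimensional_of_le (span_mono (fun y hy => T.G_mono hl hy))
        have h3 := doubling T.U (T.G l) (T.G (l + 1)) (T.UG l) h2 f1
        rw [pow_succ]
        omega
    have := key N le_rfl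
    omega
  obtain ⟨l, hl, he⟩ := hex
  refine ⟨T.G l, T.kG l, fun w hw => T.WG l hw, T.UG l, ?_, ?_⟩
  · intro y hy
    have := T.G_conj l hy
    rwa [← he] at this
  · exact Submodule.finiteDimensional_of_le (span_mono (fun y hy => T.G_mono hl.le hy))

end SetupB

end Run7.h134
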