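import Pool.Agent.Run7.h134.BCore3

set_option autoImplicit false
set_option linter.style.haveILetI false

namespace Run7.h134

open Module Submodule

/-- The ring of `k`-endomorphisms of the functions `ℤ → E`; it contains the twisted Laurent
polynomials over `E`. -/
def BB (k E : Type*) [Field k] [DivisionRing E] [Algebra k E] (_τ : E ≃ₐ[k] E) : Type _ :=
  Module.End k (ℤ → E)

namespace BB

variable {k E : Type*} [Field k] [DivisionRing E] [Algebra k E] (τ : E ≃ₐ[k] E)

noncomputable instance : Ring (BB k E τ) := inferInstanceAs (Ring (Module.End k (ℤ → E)))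
noncomputable instance : Algebra k (BB k E τ) := inferInstanceAs (Algebra k (Module.End k (ℤ → E)))

/-- the embedding of `E` -/
noncomputable def ι : E →ₐ[k] BB k E τ where
  toFun e :=
    ({ toFun := fun φ s => (τ ^ (-s)) e * φ s
       map_add' := fun φ ψ => by
        funext s
        exact mul_add _ _ _
       map_smul' := fun c φ => by
        funext s
        exact mul_smul_comm _ _ _ } : Module.End k (ℤ → E))
  map_one' := by
    apply LinearMap.ext
    intro φ
    funext s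
    show (τ ^ (-s)) 1 * φ s = φ s
    rw [map_one, one_mul]
  map_mul' a b := by
    apply LinearMap.ext
    intro φ
    funext s
    show (τ ^ (-s)) (a * b) * φ s = (τ ^ (-s)) a * ((τ ^ (-s)) b * φ s)
    rw [map_mul, mul_assoc]
  map_zero' := by
    apply LinearMap.ext
    intro φ
    funext s
    show (τ ^ (-s)) 0 * φ s = 0
    rw [map_zero, zero_mul]
  map_add' a b := by
    apply LinearMap.ext
    intro φ
    funext s
    show (τ ^ (-s)) (a + b) * φ s = (τ ^ (-s)) a * φ s + (τ ^ (-s)) b * φ s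
    rw [map_add, add_mul]
  commutes' c := by
    apply LinearMap.ext
    intro φ
    funext s
    show (τ ^ (-s)) (algebraMap k E c) * φ s = c • φ s
    rw [AlgEquiv.commutes, Algebra.smul_def]

/-- evaluation -/
noncomputable def ev (b : BB k E τ) (φ : ℤ → E) : ℤ → E := (show Module.End k (ℤ → E) from b) φ

noncomputable instance : Module E (BB k E τ) := Module.compHom (BB k E τ) (ι τ).toRingHom
noncomputable instance : Module Eᵐᵒᵖ (BB k E τ) :=
  Module.compHom (BB k E τ) (RingHom.op (ι τ).toRingHom)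

/-- the bimodule data -/
noncomputable def bim : Bim k E (BB k E τ) where
  ι := ι τ
  smulL _ _ := rfl
  smulR _ _ := rfl

/-- shift by `t` -/
noncomputable def sh (t : ℤ) : BB k E τ :=
  ({ toFun := fun φ s => φ (s - t)
     map_add' := fun _ _ => rfl
     map_smul' := fun _ _ => rfl } : Module.End k (ℤ → E))

lemma sh_mul (s t : ℤ) : sh τ s * sh τ t = sh τ (s + t) := by
  apply LinearMap.ext
  intro φ
  funext a
  show φ (a - s - t) = φ (a - (s + t))
  congr 1
  ring

lemma sh_zero : sh τ 0 = 1 := by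
  apply LinearMap.ext
  intro φ
  funext a
  show φ (a - 0) = φ a
  rw [sub_zero]

/-- the unit `X` -/
noncomputable def X : (BB k E τ)ˣ where
  val := sh τ 1
  inv := sh τ (-1)
  val_inv := by rw [sh_mul, add_neg_cancel, sh_zero]
  inv_val := by rw [sh_mul, neg_add_cancel, sh_zero]

/-- the unit `sh t` -/
noncomputable def shU (t : ℤ) : (BB k E τ)ˣ where
  val := sh τ t
  inv := sh τ (-t)
  val_inv := by rw [sh_mul, add_neg_cancel, sh_zero]
  inv_val := by rw [sh_mul, neg_add_cancel, sh_zero]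

lemma sh_ι (t : ℤ) (e : E) : sh τ t * ι τ e = ι τ ((τ ^ t) e) * sh τ t := by
  apply LinearMap.ext
  intro φ
  funext a
  show (τ ^ (-(a - t))) e * φ (a - t) = (τ ^ (-a)) ((τ ^ t) e) * φ (a - t)
  rw [← AlgEquiv.mul_apply, ← zpow_add]
  congr 3
  ring

/-- homogeneous component -/
noncomputable def Eg (s : ℤ) : Submodule k (BB k E τ) :=
  LinearMap.range ((LinearMap.mulRight k (sh τ s)).comp (ι τ).toLinearMap)

lemma mem_Eg {s : ℤ} {b : BB k E τ} : b ∈ Eg τ s ↔ ∃ e, ι τ e * sh τ s = b := Iff.rfl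

lemma mul_mem {s t : ℤ} {a b : BB k E τ} (ha : a ∈ Eg τ s) (hb : b ∈ Eg τ t) :
    a * b ∈ Eg τ (s + t) := by
  obtain ⟨e, rfl⟩ := (mem_Eg τ).mp ha
  obtain ⟨f, rfl⟩ := (mem_Eg τ).mp hb
  rw [mem_Eg]
  refine ⟨e * (τ ^ s) f, ?_⟩
  calc ι τ (e * (τ ^ s) f) * sh τ (s + t) = ι τ e * (ι τ ((τ ^ s) f) * sh τ s) * sh τ t := by
        rw [map_mul, ← sh_mul]; simp only [mul_assoc]
    _ = ι τ e * (sh τ s * ι τ f) * sh τ t := by rw [sh_ι]
    _ = _ := by simp only [mul_assoc]

/-- the coordinate functional -/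
noncomputable def Λ (s : ℤ) : BB k E τ →ₗ[k] E where
  toFun b := ev τ b (Pi.single 0 1) s
  map_add' _ _ := rfl
  map_smul' _ _ := rfl

lemma Λ_apply (s t : ℤ) (e : E) : Λ τ s (ι τ e * sh τ t) = if s = t then (τ ^ (-s)) e else 0 := by
  show (τ ^ (-s)) e * (Pi.single (0 : ℤ) (1 : E) : ℤ → E) (s - t) = _
  by_cases h : s = t
  · subst h
    rw [if_pos rfl, sub_self, Pi.single_eq_same, mul_one]
  · rw [if_neg h, Pi.single_eq_of_ne (by omega), mul_zero]

lemma ind : iSupIndep (Eg τ) := by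
  intro s
  rw [Submodule.disjoint_def]
  intro b hb hb2
  have h1 : (⨆ t, ⨆ (_ : t ≠ s), Eg τ t) ≤ LinearMap.ker (Λ τ s) := by
    refine iSup₂_le fun t ht => ?_
    rintro _ ⟨e, rfl⟩
    rw [LinearMap.mem_ker]
    exact (Λ_apply τ s t e).trans (if_neg (Ne.symm ht))
  have h2 := h1 hb2
  obtain ⟨e, rfl⟩ := (mem_Eg τ).mp hb
  rw [LinearMap.mem_ker, Λ_apply, if_pos rfl] at h2
  have h3 : e = 0 := (map_eq_zero_iff _ (τ ^ (-s)).injective).mp h2
  rw [h3, map_zero, zero_mul]

instance : Nontrivial (BB k E τ) := by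
  refine ⟨⟨1, 0, ?_⟩⟩
  intro h
  have h1 := congrArg (Λ τ 0) h
  have h2 := Λ_apply τ 0 0 (1 : E)
  have e1 : ι τ (1 : E) * sh τ 0 = 1 := by rw [map_one, sh_zero, mul_one]
  rw [e1, if_pos rfl, map_one (τ ^ (-(0 : ℤ)))] at h2
  rw [h2, map_zero] at h1
  exact one_ne_zero h1

/-- the automorphism as a ring automorphism -/
def τr : RingAut E := τ.toRingEquiv

/-- the set-up -/
noncomputable def setup (W : Submodule k E) (fdW : FiniteDimensional k W) (oneW : (1 : E) ∈ W)
    (u : E) (uW : u ∈ W) (tr : Transcendental k u) (z : (BB k E τ)ˣ) (m : ℤ)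
    (zE : (z : BB k E τ) ∈ Eg τ m) : SetupB k E (BB k E τ) where
  toBim := bim τ
  nt := inferInstance
  σ := τr τ
  X := X τ
  hX e := by
    have := sh_ι τ 1 e
    rw [zpow_one] at this
    exact this
  Eg := Eg τ
  mul_mem := mul_mem τ
  ind := ind τ
  ιE e := (mem_Eg τ).mpr ⟨e, by rw [sh_zero, mul_one]; rfl⟩
  XE := (mem_Eg τ).mpr ⟨1, by rw [map_one, one_mul]; rfl⟩
  W := W
  fdW := fdW
  oneW := oneW
  u := u
  uW := uW
  tr := tr
  z := z
  m := m
  zE := zE

end BB

end Run7.h134
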