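import Pool.Agent.Run7.h134.Core2

set_option autoImplicit false
set_option linter.style.haveILetI false

namespace Run7.h134

open Module Submodule

/-- A `k`-algebra `B` containing a division algebra `E`, with the bimodule structure recorded. -/
structure Bim (k E B : Type*) [Field k] [DivisionRing E] [Algebra k E] [Ring B] [Algebra k B]
    [Module E B] [Module Eᵐᵒᵖ B] where
  ι : E →ₐ[k] B
  smulL : ∀ (c : E) (b : B), c • b = ι c * b
  smulR : ∀ (c : E) (b : B), MulOpposite.op c • b = b * ι c

/-- the right structure over a division subring `U` -/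
@[reducible] def rightModB {E B : Type*} [DivisionRing E] [Ring B] [Module Eᵐᵒᵖ B]
    (U : Subfield E) : Module (↥U)ᵐᵒᵖ B :=
  Module.compHom B (RingHom.op U.subtype)

attribute [local instance] rightModB

namespace Bim

variable {k E B : Type*} [Field k] [DivisionRing E] [Algebra k E] [Ring B] [Algebra k B]
    [Module E B] [Module Eᵐᵒᵖ B] (T : Bim k E B)

lemma smulL' (U : Subfield E) (c : U) (b : B) : c • b = T.ι c * b := T.smulL c b

lemma smulR' (U : Subfield E) (c : (↥U)ᵐᵒᵖ) (b : B) :
    c • b = b * T.ι ((MulOpposite.unop c : U) : E) := T.smulR _ b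

/-- right multiplication -/
def mulR (U : Subfield E) (g : B) : B →ₗ[U] B where
  toFun y := y * g
  map_add' a b := add_mul a b g
  map_smul' c a := by
    rw [T.smulL', RingHom.id_apply, T.smulL', mul_assoc]

/-- left multiplication -/
def mulL (U : Subfield E) (g : B) : B →ₗ[(↥U)ᵐᵒᵖ] B where
  toFun y := g * y
  map_add' a b := mul_add g a b
  map_smul' c a := by
    rw [T.smulR', RingHom.id_apply, T.smulR', mul_assoc]

@[simp] lemma mulR_apply (U : Subfield E) (g y : B) : T.mulR U g y = y * g := rfl
@[simp] lemma mulL_apply (U : Subfield E) (g y : B) : T.mulL U g y = g * y := rfl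

lemma mulR_inj (U : Subfield E) {g : B} (hg : IsUnit g) : Function.Injective (T.mulR U g) := by
  intro a b h
  exact hg.mul_left_injective h

lemma mulL_inj (U : Subfield E) {g : B} (hg : IsUnit g) : Function.Injective (T.mulL U g) := by
  intro a b h
  exact hg.mul_right_injective h

include T in
lemma finL (U : Subfield E) (hk : ∀ c : k, algebraMap k E c ∈ U) (P : Submodule k B)
    (hP : FiniteDimensional k P) : Module.Finite U (span U (P : Set B)) := by
  letI := algSub U hk
  have : IsScalarTower k U B := ⟨fun c y d => by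
    rw [T.smulL', T.smulL']
    show T.ι (c • (y : E)) * d = c • (T.ι y * d)
    rw [map_smul, smul_mul_assoc]⟩
  exact span_eq_of_fg (S := U) P

include T in
lemma finR (U : Subfield E) (hk : ∀ c : k, algebraMap k E c ∈ U) (P : Submodule k B)
    (hP : FiniteDimensional k P) : Module.Finite (↥U)ᵐᵒᵖ (span (↥U)ᵐᵒᵖ (P : Set B)) := by
  letI := algSub U hk
  have : IsScalarTower k (↥U)ᵐᵒᵖ B := ⟨fun c y d => by
    rw [T.smulR', T.smulR']
    show d * T.ι (c • ((MulOpposite.unop y : U) : E)) = c • (d * T.ι ((MulOpposite.unop y : U) : E))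
    rw [map_smul, mul_smul_comm]⟩
  exact span_eq_of_fg (S := (↥U)ᵐᵒᵖ) P

lemma stringL (U : Subfield E) (hk : ∀ c : k, algebraMap k E c ∈ U) {u : E} (huU : u ∈ U)
    (hu : Transcendental k u) (P : Submodule k B) (hP : FiniteDimensional k P) :
    finrank k P + finrank U (span U (P : Set B)) ≤
      finrank k ((P ⊔ P.map (LinearMap.mulLeft k (T.ι u)) : Submodule k B)) := by
  letI := algSub U hk
  have : IsScalarTower k U B := ⟨fun c y d => by
    rw [T.smulL', T.smulL']
    show T.ι (c • (y : E)) * d = c • (T.ι y * d)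
    rw [map_smul, smul_mul_assoc]⟩
  have hu' : Transcendental k (⟨u, huU⟩ : U) := by
    intro h
    apply hu
    let φ : U →ₐ[k] E := { U.subtype with commutes' := fun c => rfl }
    exact h.algHom φ
  have h1 := string_lemma (S := U) (X := B) hu' P
  have h2 : P.map (Algebra.lsmul k k B (⟨u, huU⟩ : U)) = P.map (LinearMap.mulLeft k (T.ι u)) := by
    congr 1
    ext y
    show (⟨u, huU⟩ : U) • y = T.ι u * y
    rw [T.smulL']
  rw [h2] at h1
  exact h1

lemma stringR (U : Subfield E) (hk : ∀ c : k, algebraMap k E c ∈ U) {u : E} (huU : u ∈ U)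
    (hu : Transcendental k u) (P : Submodule k B) (hP : FiniteDimensional k P) :
    finrank k P + finrank (↥U)ᵐᵒᵖ (span (↥U)ᵐᵒᵖ (P : Set B)) ≤
      finrank k ((P ⊔ P.map (LinearMap.mulRight k (T.ι u)) : Submodule k B)) := by
  letI := algSub U hk
  have : IsScalarTower k (↥U)ᵐᵒᵖ B := ⟨fun c y d => by
    rw [T.smulR', T.smulR']
    show d * T.ι (c • ((MulOpposite.unop y : U) : E)) = c • (d * T.ι ((MulOpposite.unop y : U) : E))
    rw [map_smul, mul_smul_comm]⟩
  have hu' : Transcendental k (MulOpposite.op (⟨u, huU⟩ : U)) := by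
    intro h
    apply hu
    obtain ⟨p, hp, hpe⟩ := h
    refine ⟨p, hp, ?_⟩
    have h2 : Polynomial.aeval (MulOpposite.op (⟨u, huU⟩ : U)) p =
        MulOpposite.op (Polynomial.aeval (⟨u, huU⟩ : U) p) := by
      rw [Polynomial.aeval_eq_sum_range, Polynomial.aeval_eq_sum_range, Finset.op_sum]
      apply Finset.sum_congr rfl
      intro i _
      rw [MulOpposite.op_smul, MulOpposite.op_pow]
    rw [h2] at hpe
    have h3 : Polynomial.aeval (⟨u, huU⟩ : U) p = 0 := by
      simpa using hpe
    let φ : U →ₐ[k] E := { U.subtype with commutes' := fun c => rfl }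
    have h4 := Polynomial.aeval_algHom_apply φ (⟨u, huU⟩ : U) p
    rw [h3, map_zero] at h4
    exact h4
  have h1 := string_lemma (S := (↥U)ᵐᵒᵖ) (X := B) hu' P
  have h2 : P.map (Algebra.lsmul k k B (MulOpposite.op (⟨u, huU⟩ : U))) =
      P.map (LinearMap.mulRight k (T.ι u)) := by
    congr 1
    ext y
    show MulOpposite.op (⟨u, huU⟩ : U) • y = y * T.ι u
    rw [T.smulR']
    rfl
  rw [h2] at h1
  exact h1

lemma unit_ι {w : E} (hw : w ≠ 0) : IsUnit (T.ι w) :=
  (IsUnit.mk0 w hw).map T.ι

/-- the elements of `E` whose left multiplication preserves a finite-dimensional right space -/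
def stabL (U : Subfield E) (R : Submodule (↥U)ᵐᵒᵖ B)
    (hR : Module.Finite (↥U)ᵐᵒᵖ R) : Subfield E where
  carrier := {g | ∀ y ∈ R, T.ι g * y ∈ R}
  mul_mem' := by
    intro a b ha hb y hy
    rw [map_mul, mul_assoc]
    exact ha _ (hb _ hy)
  one_mem' := by
    intro y hy
    rwa [map_one, one_mul]
  add_mem' := by
    intro a b ha hb y hy
    rw [map_add, add_mul]
    exact R.add_mem (ha _ hy) (hb _ hy)
  zero_mem' := by
    intro y _
    rw [map_zero, zero_mul]
    exact R.zero_mem
  neg_mem' := by
    intro a ha y hy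
    rw [map_neg, neg_mul]
    exact R.neg_mem (ha _ hy)
  inv_mem' := by
    intro g hg
    by_cases h0 : g = 0
    · subst h0
      rw [inv_zero]
      exact hg
    · have h1 : R.map (T.mulL U (T.ι g)) ≤ R := by
        rintro _ ⟨y, hy, rfl⟩
        exact hg y hy
      have h2 : R.map (T.mulL U (T.ι g)) = R := by
        apply Submodule.eq_of_le_of_finrank_eq h1
        exact finrank_map_injS _ (T.mulL_inj U (T.unit_ι h0)) _
      intro y hy
      rw [← h2] at hy
      obtain ⟨y', hy', rfl⟩ := hy
      rw [mulL_apply, ← mul_assoc, ← map_mul, inv_mul_cancel₀ h0, map_one, one_mul]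
      exact hy'

/-- the elements whose right multiplication preserves a finite-dimensional left space -/
def stabR (U : Subfield E) (L : Submodule U B)
    (hL : Module.Finite U L) : Subfield E where
  carrier := {g | ∀ y ∈ L, y * T.ι g ∈ L}
  mul_mem' := by
    intro a b ha hb y hy
    rw [map_mul, ← mul_assoc]
    exact hb _ (ha _ hy)
  one_mem' := by
    intro y hy
    rwa [map_one, mul_one]
  add_mem' := by
    intro a b ha hb y hy
    rw [map_add, mul_add]
    exact L.add_mem (ha _ hy) (hb _ hy)
  zero_mem' := by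
    intro y _
    rw [map_zero, mul_zero]
    exact L.zero_mem
  neg_mem' := by
    intro a ha y hy
    rw [map_neg, mul_neg]
    exact L.neg_mem (ha _ hy)
  inv_mem' := by
    intro g hg
    by_cases h0 : g = 0
    · subst h0
      rw [inv_zero]
      exact hg
    · have h1 : L.map (T.mulR U (T.ι g)) ≤ L := by
        rintro _ ⟨y, hy, rfl⟩
        exact hg y hy
      have h2 : L.map (T.mulR U (T.ι g)) = L := by
        apply Submodule.eq_of_le_of_finrank_eq h1
        exact finrank_map_injS _ (T.mulR_inj U (T.unit_ι h0)) _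
      intro y hy
      rw [← h2] at hy
      obtain ⟨y', hy', rfl⟩ := hy
      rw [mulR_apply, mul_assoc, ← map_mul, mul_inv_cancel₀ h0, map_one, mul_one]
      exact hy'

end Bim

end Run7.h134
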