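import Mathlib

set_option autoImplicit false

namespace Run7.h134

lemma mono_of_step {r : ℕ → ℕ → ℕ} (h1 : ∀ i j, r i j ≤ r (i + 1) j)
    (h2 : ∀ i j, r i j ≤ r i (j + 1)) {i j i' j' : ℕ} (hi : i ≤ i') (hj : j ≤ j') :
    r i j ≤ r i' j' := by
  have a : r i j ≤ r i' j := by
    induction i', hi using Nat.le_induction with
    | base => exact le_rfl
    | succ n _ ih => exact ih.trans (h1 n j)
  have b : r i' j ≤ r i' j' := by
    clear a
    induction j', hj using Nat.le_induction with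
    | base => exact le_rfl
    | succ n _ ih => exact ih.trans (h2 i' n)
  exact a.trans b

lemma growth_aux {f r : ℕ → ℕ → ℕ} {a : ℕ → ℕ} (h1 : ∀ i j, r i j ≤ r (i + 1) j)
    (h2 : ∀ i j, r i j ≤ r i (j + 1)) (hf : ∀ i j, f i j + r i j ≤ f (i + 1) j)
    (hsum : ∀ n, ∑ j ∈ Finset.range (n + 1), f (n - j) j ≤ a n) (n : ℕ) :
    n ^ 2 * r n n ≤ a (4 * n) := by
  have h3 : ∀ t j, n ≤ j → t * r n n ≤ f (n + t) j := by
    intro t j hj
    induction t with
    | zero => simp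
    | succ t ih =>
      have := hf (n + t) j
      have h4 : r n n ≤ r (n + t) j := mono_of_step h1 h2 (by omega) hj
      have e : (t + 1) * r n n = t * r n n + r n n := by ring
      rw [e]
      have e2 : n + (t + 1) = n + t + 1 := by ring
      rw [e2]
      omega
  have h5 : ∑ j ∈ Finset.Icc n (2 * n), f (4 * n - j) j ≤
      ∑ j ∈ Finset.range (4 * n + 1), f (4 * n - j) j := by
    apply Finset.sum_le_sum_of_subset
    intro j hj
    simp only [Finset.mem_Icc] at hj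
    simp only [Finset.mem_range]
    omega
  have h6 : ∑ _j ∈ Finset.Icc n (2 * n), n * r n n ≤
      ∑ j ∈ Finset.Icc n (2 * n), f (4 * n - j) j := by
    apply Finset.sum_le_sum
    intro j hj
    simp only [Finset.mem_Icc] at hj
    have h7 := h3 (3 * n - j) j hj.1
    have e : n + (3 * n - j) = 4 * n - j := by omega
    rw [e] at h7
    refine le_trans ?_ h7
    apply Nat.mul_le_mul_right
    omega
  have h8 := hsum (4 * n)
  simp only [Finset.sum_const, Nat.card_Icc, smul_eq_mul] at h6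
  have e3 : 2 * n + 1 - n = n + 1 := by omega
  rw [e3] at h6
  nlinarith [h6.trans (h5.trans h8), Nat.zero_le (n * r n n)]

lemma pow_bound {f r : ℕ → ℕ → ℕ} {a : ℕ → ℕ} (h1 : ∀ i j, r i j ≤ r (i + 1) j)
    (h2 : ∀ i j, r i j ≤ r i (j + 1)) (hf : ∀ i j, f i j + r i j ≤ f (i + 1) j)
    (hsum : ∀ n, ∑ j ∈ Finset.range (n + 1), f (n - j) j ≤ a n) (q n₀ : ℕ)
    (ha : ∀ n ≥ n₀, (a n) ^ (q + 1) ≤ n ^ (3 * q + 2)) (n : ℕ) (hn : 1 ≤ n) (hn0 : n₀ ≤ n) :
    (r n n) ^ (q + 1) ≤ 4 ^ (3 * q + 2) * n ^ q := by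
  have h3 := growth_aux h1 h2 hf hsum n
  have h4 := ha (4 * n) (by omega)
  have h5 : (n ^ 2 * r n n) ^ (q + 1) ≤ (4 * n) ^ (3 * q + 2) :=
    (Nat.pow_le_pow_left h3 (q + 1)).trans h4
  have h6 : n ^ (2 * q + 2) * (r n n) ^ (q + 1) ≤ n ^ (2 * q + 2) * (4 ^ (3 * q + 2) * n ^ q) := by
    calc n ^ (2 * q + 2) * (r n n) ^ (q + 1) = (n ^ 2 * r n n) ^ (q + 1) := by
          rw [mul_pow, ← pow_mul]; ring
      _ ≤ (4 * n) ^ (3 * q + 2) := h5
      _ = n ^ (2 * q + 2) * (4 ^ (3 * q + 2) * n ^ q) := by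
          rw [mul_pow]
          have : n ^ (3 * q + 2) = n ^ (2 * q + 2) * n ^ q := by
            rw [← pow_add]; congr 1; ring
          rw [this]; ring
  exact Nat.le_of_mul_le_mul_left h6 (by positivity)

lemma exp_bound (K d : ℕ) : ∃ N₀ : ℕ, ∀ N ≥ N₀, K * (2 * N + 2) ^ d < 2 ^ N := by
  have h1 := tendsto_pow_const_div_const_pow_of_one_lt d (r := (2 : ℝ)) (by norm_num)
  have h2 : ∀ᶠ n : ℕ in Filter.atTop, (n : ℝ) ^ d / 2 ^ n < 1 / ((K : ℝ) * 4 ^ d + 1) := by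
    apply h1.eventually_lt_const
    positivity
  obtain ⟨N₀, hN₀⟩ := Filter.eventually_atTop.mp h2
  refine ⟨max N₀ 1, fun N hN => ?_⟩
  have h3 := hN₀ N (le_trans (le_max_left _ _) hN)
  have hN1 : 1 ≤ N := le_trans (le_max_right _ _) hN
  have h4 : (N : ℝ) ^ d * ((K : ℝ) * 4 ^ d + 1) < 2 ^ N := by
    rw [div_lt_div_iff₀ (by positivity) (by positivity)] at h3
    linarith
  have h5 : ((K * (2 * N + 2) ^ d : ℕ) : ℝ) < ((2 ^ N : ℕ) : ℝ) := by
    push_cast
    have h6 : ((2 : ℝ) * N + 2) ^ d ≤ (4 * N) ^ d := by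
      apply pow_le_pow_left₀ (by positivity)
      have : (1 : ℝ) ≤ N := by exact_mod_cast hN1
      linarith
    calc (K : ℝ) * (2 * N + 2) ^ d ≤ K * (4 * N) ^ d :=
          mul_le_mul_of_nonneg_left h6 (by positivity)
      _ = (N : ℝ) ^ d * ((K : ℝ) * 4 ^ d) := by rw [mul_pow]; ring
      _ ≤ (N : ℝ) ^ d * ((K : ℝ) * 4 ^ d + 1) := by
          apply mul_le_mul_of_nonneg_left _ (by positivity)
          linarith
      _ < 2 ^ N := h4
  exact_mod_cast h5

/-- The window lemma. -/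
theorem window (f rL rR : ℕ → ℕ → ℕ) (a : ℕ → ℕ)
    (hL1 : ∀ i j, rL i j ≤ rL (i + 1) j) (hL2 : ∀ i j, rL i j ≤ rL i (j + 1))
    (hR1 : ∀ i j, rR i j ≤ rR (i + 1) j) (hR2 : ∀ i j, rR i j ≤ rR i (j + 1))
    (hfL : ∀ i j, f i j + rL i j ≤ f (i + 1) j) (hfR : ∀ i j, f i j + rR i j ≤ f (i + 1) j)
    (hsum : ∀ n, ∑ j ∈ Finset.range (n + 1), f (n - j) j ≤ a n)
    (q n₀ : ℕ) (ha : ∀ n ≥ n₀, (a n) ^ (q + 1) ≤ n ^ (3 * q + 2)) :
    ∃ N c : ℕ, N + 1 ≤ c ∧
      (∀ i j, c ≤ i + (N + 1) → i ≤ c + (N + 1) → c ≤ j + (N + 1) → j ≤ c + (N + 1) →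
        rL i j = rL c c ∧ rR i j = rR c c) ∧ rL c c < 2 ^ N := by
  set C := 4 ^ (3 * q + 2) with hC
  have hC1 : 1 ≤ C := Nat.one_le_pow _ _ (by norm_num)
  obtain ⟨N₁, hN₁⟩ := exp_bound (C * (2 ^ (q + 1) * C + 1)) (q + 1)
  obtain ⟨N, hN1, hN2⟩ : ∃ N, n₀ ≤ N ∧ N₁ ≤ N := ⟨max n₀ N₁, le_max_left _ _, le_max_right _ _⟩
  have hexp := hN₁ N hN2
  set L := 2 * N + 2 with hL
  set t := 2 ^ (q + 1) * C * L ^ q + 1 with ht
  have hL1' : 1 ≤ L := by omega
  have htL : t * L ≥ N := by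
    have : t * L ≥ 1 * L := Nat.mul_le_mul_right _ (by omega)
    omega
  have htL1 : 1 ≤ t * L := Nat.mul_pos (by omega) (by omega)
  have bL := pow_bound hL1 hL2 hfL hsum q n₀ ha (t * L) htL1 (by omega)
  have bR := pow_bound hR1 hR2 hfR hsum q n₀ ha (t * L) htL1 (by omega)
  rw [← hC] at bL bR
  have hex : ∃ b < t, rL (b * L) (b * L) + rR (b * L) (b * L) =
      rL ((b + 1) * L) ((b + 1) * L) + rR ((b + 1) * L) ((b + 1) * L) := by
    by_contra hcon
    push Not at hcon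
    have h1 : ∀ b ≤ t, b ≤ rL (b * L) (b * L) + rR (b * L) (b * L) := by
      intro b
      induction b with
      | zero => intro _; exact Nat.zero_le _
      | succ b ih =>
        intro hb
        have h2 := ih (by omega)
        have h3 := hcon b (by omega)
        have le1 : b * L ≤ (b + 1) * L := Nat.mul_le_mul_right _ (by omega)
        have h4 : rL (b * L) (b * L) ≤ rL ((b + 1) * L) ((b + 1) * L) :=
          mono_of_step hL1 hL2 le1 le1
        have h5 : rR (b * L) (b * L) ≤ rR ((b + 1) * L) ((b + 1) * L) :=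
          mono_of_step hR1 hR2 le1 le1
        omega
    have h2 := h1 t le_rfl
    set m := max (rL (t * L) (t * L)) (rR (t * L) (t * L)) with hm
    have h3 : t ≤ 2 * m := by
      have a1 : rL (t * L) (t * L) ≤ m := le_max_left _ _
      have a2 : rR (t * L) (t * L) ≤ m := le_max_right _ _
      omega
    have h4 : m ^ (q + 1) ≤ C * (t * L) ^ q := by
      rcases max_choice (rL (t * L) (t * L)) (rR (t * L) (t * L)) with h | h
      · rw [hm, h]; exact bL
      · rw [hm, h]; exact bR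
    have h5 : t ^ q * t ≤ t ^ q * (2 ^ (q + 1) * C * L ^ q) := by
      calc t ^ q * t = t ^ (q + 1) := by rw [pow_succ]
        _ ≤ (2 * m) ^ (q + 1) := Nat.pow_le_pow_left h3 _
        _ = 2 ^ (q + 1) * m ^ (q + 1) := by rw [mul_pow]
        _ ≤ 2 ^ (q + 1) * (C * (t * L) ^ q) := Nat.mul_le_mul_left _ h4
        _ = t ^ q * (2 ^ (q + 1) * C * L ^ q) := by rw [mul_pow]; ring
    have h6 : t ≤ 2 ^ (q + 1) * C * L ^ q :=
      Nat.le_of_mul_le_mul_left h5 (pow_pos (by omega) _)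
    omega
  obtain ⟨b, hb, hbe⟩ := hex
  have le1 : b * L ≤ (b + 1) * L := Nat.mul_le_mul_right _ (by omega)
  have h4 : rL (b * L) (b * L) ≤ rL ((b + 1) * L) ((b + 1) * L) := mono_of_step hL1 hL2 le1 le1
  have h5 : rR (b * L) (b * L) ≤ rR ((b + 1) * L) ((b + 1) * L) := mono_of_step hR1 hR2 le1 le1
  have eL : rL (b * L) (b * L) = rL ((b + 1) * L) ((b + 1) * L) := by omega
  have eR : rR (b * L) (b * L) = rR ((b + 1) * L) ((b + 1) * L) := by omega
  have eb : (b + 1) * L = b * L + L := by ring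
  have key : ∀ i j, b * L ≤ i → i ≤ (b + 1) * L → b * L ≤ j → j ≤ (b + 1) * L →
      rL i j = rL (b * L) (b * L) ∧ rR i j = rR (b * L) (b * L) := by
    intro i j h1 h2 h3 h4
    have a1 : rL (b * L) (b * L) ≤ rL i j := mono_of_step hL1 hL2 h1 h3
    have a2 : rL i j ≤ rL ((b + 1) * L) ((b + 1) * L) := mono_of_step hL1 hL2 h2 h4
    have a3 : rR (b * L) (b * L) ≤ rR i j := mono_of_step hR1 hR2 h1 h3
    have a4 : rR i j ≤ rR ((b + 1) * L) ((b + 1) * L) := mono_of_step hR1 hR2 h2 h4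
    omega
  refine ⟨N, b * L + (N + 1), by omega, ?_, ?_⟩
  · intro i j h1 h2 h3 h4
    have c0 := key (b * L + (N + 1)) (b * L + (N + 1)) (by omega) (by omega) (by omega) (by omega)
    have c1 := key i j (by omega) (by omega) (by omega) (by omega)
    exact ⟨c1.1.trans c0.1.symm, c1.2.trans c0.2.symm⟩
  · have le2 : b * L + (N + 1) ≤ t * L := by
      have : (b + 1) * L ≤ t * L := Nat.mul_le_mul_right _ hb
      omega
    have h6 : rL (b * L + (N + 1)) (b * L + (N + 1)) ≤ rL (t * L) (t * L) :=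
      mono_of_step hL1 hL2 le2 le2
    have h7 : C * (t * L) < 2 ^ N := by
      refine lt_of_le_of_lt ?_ hexp
      have e1 : t ≤ (2 ^ (q + 1) * C + 1) * L ^ q := by
        rw [ht, add_mul, one_mul]
        have : 1 ≤ L ^ q := Nat.one_le_pow _ _ (by omega)
        omega
      calc C * (t * L) ≤ C * (((2 ^ (q + 1) * C + 1) * L ^ q) * L) :=
            Nat.mul_le_mul_left _ (Nat.mul_le_mul_right _ e1)
        _ = C * (2 ^ (q + 1) * C + 1) * L ^ (q + 1) := by rw [pow_succ]; ring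
    have h8 : (rL (b * L + (N + 1)) (b * L + (N + 1))) ^ (q + 1) < (2 ^ N) ^ (q + 1) := by
      calc (rL (b * L + (N + 1)) (b * L + (N + 1))) ^ (q + 1) ≤
            (rL (t * L) (t * L)) ^ (q + 1) := Nat.pow_le_pow_left h6 _
        _ ≤ C * (t * L) ^ q := bL
        _ ≤ C * ((t * L) ^ q * 1) := by rw [mul_one]
        _ ≤ (C * (t * L)) ^ (q + 1) := by
            rw [mul_pow C (t * L) (q + 1)]
            apply Nat.mul_le_mul
            · exact Nat.le_self_pow (by omega) C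
            · rw [pow_succ]
              exact Nat.mul_le_mul_left _ htL1
        _ < (2 ^ N) ^ (q + 1) := Nat.pow_lt_pow_left h7 (by omega)
    exact lt_of_pow_lt_pow_left₀ (q + 1) (Nat.zero_le _) h8

end Run7.h134
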