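import Pool.Agent.Run7.h134.Spans
import Pool.Agent.Run7.h134.Window

set_option autoImplicit false
set_option linter.style.haveILetI false

namespace Run7.h134

open Module Submodule

attribute [local instance] rightMod

lemma sum_finrank_le {k D ι : Type*} [Field k] [AddCommGroup D] [Module k D]
    [DecidableEq ι] (s : Finset ι) (V : ι → Submodule k D) (B : Submodule k D)
    (hB : FiniteDimensional k B) (hV : ∀ i ∈ s, V i ≤ B)
    (hind : ∀ t ⊆ s, ∀ i ∈ s, i ∉ t → Disjoint (V i) (t.sup V)) :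
    ∑ i ∈ s, finrank k (V i) ≤ finrank k B := by
  have key : ∀ t ⊆ s, ∑ i ∈ t, finrank k (V i) = finrank k ((t.sup V : Submodule k D)) := by
    intro t
    induction t using Finset.induction_on with
    | empty => intro _; rw [Finset.sum_empty, Finset.sup_empty, finrank_bot]
    | insert a t ha ih =>
      intro hts
      have hts' : t ⊆ s := fun i hi => hts (Finset.mem_insert_of_mem hi)
      have has : a ∈ s := hts (Finset.mem_insert_self a t)
      rw [Finset.sum_insert ha, ih hts', Finset.sup_insert]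
      have hd := hind t hts' a has ha
      have f1 : FiniteDimensional k (V a) := Submodule.finiteDimensional_of_le (hV a has)
      have f2 : FiniteDimensional k (t.sup V : Submodule k D) :=
        Submodule.finiteDimensional_of_le (Finset.sup_le (fun i hi => hV i (hts' hi)))
      have h1 := Submodule.finrank_sup_add_finrank_inf_eq (V a) (t.sup V)
      rw [disjoint_iff.mp hd] at h1
      simp at h1
      omega
  rw [key s (Finset.Subset.refl s)]
  exact Submodule.finrank_mono (Finset.sup_le hV)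

/-- The data of the window argument: a graded family of `k`-subspaces of a division ring. -/
structure Setup (k D : Type*) [Field k] [DivisionRing D] [Algebra k D] where
  Eg : ℤ → Submodule k D
  mul_mem : ∀ {s t : ℤ} {a b : D}, a ∈ Eg s → b ∈ Eg t → a * b ∈ Eg (s + t)
  ind : iSupIndep Eg
  W : Submodule k D
  fdW : FiniteDimensional k W
  oneW : (1 : D) ∈ W
  WE : W ≤ Eg 0
  u : D
  uW : u ∈ W
  tr : Transcendental k u
  x : D
  z : D
  m : ℤ
  xE : x ∈ Eg 1
  zE : z ∈ Eg m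
  x0 : x ≠ 0
  z0 : z ≠ 0

namespace Setup

variable {k D : Type*} [Field k] [DivisionRing D] [Algebra k D] (T : Setup k D)

/-- `zW + zxW` -/
def A : Submodule k D :=
  T.W.map (LinearMap.mulLeft k T.z) ⊔ T.W.map (LinearMap.mulLeft k (T.z * T.x))

lemma zw_mem {w : D} (hw : w ∈ T.W) : T.z * w ∈ T.A :=
  (le_sup_left : _ ≤ T.A) ⟨w, hw, rfl⟩

lemma zxw_mem {w : D} (hw : w ∈ T.W) : T.z * T.x * w ∈ T.A :=
  (le_sup_right : _ ≤ T.A) ⟨w, hw, rfl⟩

lemma fdA : FiniteDimensional k T.A := by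
  have := T.fdW
  unfold A
  infer_instance

lemma fdApow (n : ℕ) : FiniteDimensional k (T.A ^ n : Submodule k D) := by
  have := T.fdA
  exact (Submodule.fg_iff_finiteDimensional _).mp
    (((Submodule.fg_iff_finiteDimensional T.A).mpr this).pow n)

/-- the homogeneous pieces -/
def P (i j : ℕ) : Submodule k D := T.A ^ (i + j) ⊓ T.Eg (T.m * ((i : ℤ) + j) + j)

lemma fdP (i j : ℕ) : FiniteDimensional k (T.P i j) := by
  have := T.fdApow (i + j)
  exact Submodule.finiteDimensional_of_le (inf_le_left : T.P i j ≤ T.A ^ (i + j))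

lemma Eg_cast {s t : ℤ} {a : D} (h : a ∈ T.Eg s) (e : s = t) : a ∈ T.Eg t := e ▸ h

lemma P1 {i j : ℕ} {p w : D} (hp : p ∈ T.P i j) (hw : w ∈ T.W) : T.z * w * p ∈ T.P (i + 1) j := by
  refine ⟨?_, ?_⟩
  · have h : T.z * w * p ∈ T.A * T.A ^ (i + j) := Submodule.mul_mem_mul (T.zw_mem hw) hp.1
    rw [← pow_succ'] at h
    have e : i + 1 + j = i + j + 1 := by ring
    rw [e]
    exact h
  · refine T.Eg_cast (T.mul_mem (T.mul_mem T.zE (T.WE hw)) hp.2) ?_
    push_cast
    ring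

lemma P2 {i j : ℕ} {p w : D} (hp : p ∈ T.P i j) (hw : w ∈ T.W) :
    p * (T.z * w) ∈ T.P (i + 1) j := by
  refine ⟨?_, ?_⟩
  · have h : p * (T.z * w) ∈ T.A ^ (i + j) * T.A := Submodule.mul_mem_mul hp.1 (T.zw_mem hw)
    rw [← pow_succ] at h
    have e : i + 1 + j = i + j + 1 := by ring
    rw [e]
    exact h
  · refine T.Eg_cast (T.mul_mem hp.2 (T.mul_mem T.zE (T.WE hw))) ?_
    push_cast
    ring

lemma P3 {i j : ℕ} {p w : D} (hp : p ∈ T.P i j) (hw : w ∈ T.W) :
    T.z * T.x * w * p ∈ T.P i (j + 1) := by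
  refine ⟨?_, ?_⟩
  · have h : T.z * T.x * w * p ∈ T.A * T.A ^ (i + j) :=
      Submodule.mul_mem_mul (T.zxw_mem hw) hp.1
    rw [← pow_succ'] at h
    have e : i + (j + 1) = i + j + 1 := by ring
    rw [e]
    exact h
  · refine T.Eg_cast (T.mul_mem (T.mul_mem (T.mul_mem T.zE T.xE) (T.WE hw)) hp.2) ?_
    push_cast
    ring

lemma P4 {i j : ℕ} {p w : D} (hp : p ∈ T.P i j) (hw : w ∈ T.W) :
    p * (T.z * T.x * w) ∈ T.P i (j + 1) := by
  refine ⟨?_, ?_⟩
  · have h : p * (T.z * T.x * w) ∈ T.A ^ (i + j) * T.A :=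
      Submodule.mul_mem_mul hp.1 (T.zxw_mem hw)
    rw [← pow_succ] at h
    have e : i + (j + 1) = i + j + 1 := by ring
    rw [e]
    exact h
  · refine T.Eg_cast (T.mul_mem hp.2 (T.mul_mem (T.mul_mem T.zE T.xE) (T.WE hw))) ?_
    push_cast
    ring

lemma sumP (n : ℕ) :
    ∑ j ∈ Finset.range (n + 1), finrank k (T.P (n - j) j) ≤ finrank k (T.A ^ n : Submodule k D) := by
  apply sum_finrank_le _ _ _ (T.fdApow n)
  · intro j hj
    simp only [Finset.mem_range] at hj
    have e : n - j + j = n := by omega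
    have : T.P (n - j) j ≤ T.A ^ (n - j + j) := inf_le_left
    rwa [e] at this
  · intro t hts i his hit
    have h1 : T.P (n - i) i ≤ T.Eg (T.m * (((n - i : ℕ) : ℤ) + i) + i) := inf_le_right
    simp only [Finset.mem_range] at his
    have e1 : (((n - i : ℕ) : ℤ) + i) = n := by
      push_cast [Nat.cast_sub (by omega : i ≤ n)]
      ring
    rw [e1] at h1
    refine (T.ind (T.m * n + i)).mono h1 ?_
    apply Finset.sup_le
    intro j hj
    have hjs := hts hj
    simp only [Finset.mem_range] at hjs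
    have h2 : T.P (n - j) j ≤ T.Eg (T.m * (((n - j : ℕ) : ℤ) + j) + j) := inf_le_right
    have e2 : (((n - j : ℕ) : ℤ) + j) = n := by
      push_cast [Nat.cast_sub (by omega : j ≤ n)]
      ring
    rw [e2] at h2
    refine h2.trans ?_
    have hne : T.m * n + (j : ℤ) ≠ T.m * n + i := by
      intro h
      have : j = i := by
        have := add_left_cancel h
        exact_mod_cast this
      exact hit (this ▸ hj)
    exact le_iSup₂_of_le (T.m * n + (j : ℤ)) hne le_rfl

/-- the field generated by `u` -/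
def U : Subfield D := Subfield.closure (Set.range (algebraMap k D) ∪ {T.u})

lemma kU (c : k) : algebraMap k D c ∈ T.U :=
  Subfield.subset_closure (Or.inl ⟨c, rfl⟩)

lemma uU : T.u ∈ T.U := Subfield.subset_closure (Or.inr rfl)

/-- left structure -/
noncomputable def L (i j : ℕ) : Submodule T.U D := span T.U (T.P i j : Set D)

/-- `P i j` times `z` -/
def Q (i j : ℕ) : Submodule k D := (T.P i j).map (LinearMap.mulRight k T.z)

lemma fdQ (i j : ℕ) : FiniteDimensional k (T.Q i j) := by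
  have := T.fdP i j
  unfold Q
  infer_instance

/-- right structure -/
noncomputable def R (i j : ℕ) : Submodule (↥T.U)ᵐᵒᵖ D := span (↥T.U)ᵐᵒᵖ (T.Q i j : Set D)

lemma finL' (i j : ℕ) : Module.Finite T.U (T.L i j) := finL T.U T.kU _ (T.fdP i j)

lemma finR' (i j : ℕ) : Module.Finite (↥T.U)ᵐᵒᵖ (T.R i j) := finR T.U T.kU _ (T.fdQ i j)

noncomputable def rL (i j : ℕ) : ℕ := finrank T.U (T.L i j)
noncomputable def rR (i j : ℕ) : ℕ := finrank (↥T.U)ᵐᵒᵖ (T.R i j)

lemma Q1 {i j : ℕ} {p w : D} (hp : p ∈ T.Q i j) (hw : w ∈ T.W) : T.z * w * p ∈ T.Q (i + 1) j := by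
  obtain ⟨q, hq, rfl⟩ := hp
  refine ⟨T.z * w * q, T.P1 hq hw, ?_⟩
  simp [mul_assoc]

lemma Q3 {i j : ℕ} {p w : D} (hp : p ∈ T.Q i j) (hw : w ∈ T.W) :
    T.z * T.x * w * p ∈ T.Q i (j + 1) := by
  obtain ⟨q, hq, rfl⟩ := hp
  refine ⟨T.z * T.x * w * q, T.P3 hq hw, ?_⟩
  simp [mul_assoc]

lemma zw0 {w : D} (hw : w ≠ 0) : T.z * w ≠ 0 := mul_ne_zero T.z0 hw
lemma zxw0 {w : D} (hw : w ≠ 0) : T.z * T.x * w ≠ 0 := mul_ne_zero (mul_ne_zero T.z0 T.x0) hw

lemma rL1 (i j : ℕ) : T.rL i j ≤ T.rL (i + 1) j :=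
  finrank_span_le_of (mulR T.U (T.z * 1)) (mulR_inj T.U (T.zw0 one_ne_zero))
    (fun _ hp => T.P2 hp T.oneW) (T.finL' (i + 1) j)

lemma rL2 (i j : ℕ) : T.rL i j ≤ T.rL i (j + 1) :=
  finrank_span_le_of (mulR T.U (T.z * T.x * 1)) (mulR_inj T.U (T.zxw0 one_ne_zero))
    (fun _ hp => T.P4 hp T.oneW) (T.finL' i (j + 1))

lemma rR1 (i j : ℕ) : T.rR i j ≤ T.rR (i + 1) j :=
  finrank_span_le_of (mulL T.U (T.z * 1)) (mulL_inj T.U (T.zw0 one_ne_zero))
    (fun _ hp => T.Q1 hp T.oneW) (T.finR' (i + 1) j)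

lemma rR2 (i j : ℕ) : T.rR i j ≤ T.rR i (j + 1) :=
  finrank_span_le_of (mulL T.U (T.z * T.x * 1)) (mulL_inj T.U (T.zxw0 one_ne_zero))
    (fun _ hp => T.Q3 hp T.oneW) (T.finR' i (j + 1))

lemma mulLeft_inj' {g : D} (hg : g ≠ 0) : Function.Injective (LinearMap.mulLeft k g) := by
  intro a b h
  exact mul_left_cancel₀ hg h

lemma mulRight_inj' {g : D} (hg : g ≠ 0) : Function.Injective (LinearMap.mulRight k g) := by
  intro a b h
  exact mul_right_cancel₀ hg h

lemma fL (i j : ℕ) : finrank k (T.P i j) + T.rL i j ≤ finrank k (T.P (i + 1) j) := by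
  have h1 := stringL T.U T.kU T.uU T.tr (T.P i j) (T.fdP i j)
  refine h1.trans ?_
  rw [← finrank_map_inj (LinearMap.mulLeft k T.z) (mulLeft_inj' T.z0)]
  have := T.fdP (i + 1) j
  apply Submodule.finrank_mono
  rw [Submodule.map_sup]
  apply sup_le
  · rintro _ ⟨p, hp, rfl⟩
    have := T.P1 hp T.oneW
    simpa using this
  · rintro _ ⟨_, ⟨p, hp, rfl⟩, rfl⟩
    have := T.P1 hp T.uW
    simpa [mul_assoc] using this

lemma fR (i j : ℕ) : finrank k (T.P i j) + T.rR i j ≤ finrank k (T.P (i + 1) j) := by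
  have h1 := stringR T.U T.kU T.uU T.tr (T.Q i j) (T.fdQ i j)
  have h0 : finrank k (T.Q i j) = finrank k (T.P i j) :=
    finrank_map_inj (LinearMap.mulRight k T.z) (mulRight_inj' T.z0) _
  rw [h0] at h1
  refine h1.trans ?_
  have := T.fdP (i + 1) j
  apply Submodule.finrank_mono
  apply sup_le
  · rintro _ ⟨p, hp, rfl⟩
    have := T.P2 hp T.oneW
    simpa using this
  · rintro _ ⟨_, ⟨p, hp, rfl⟩, rfl⟩
    have := T.P2 hp T.uW
    simpa [mul_assoc] using this

end Setup

end Run7.h134
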