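import Pool.Agent.Run7.h134.Core

set_option autoImplicit false
set_option linter.style.haveILetI false

namespace Run7.h134

open Module Submodule

attribute [local instance] rightMod

/-- the elements whose left multiplication preserves a finite-dimensional right space -/
def stabL {D : Type*} [DivisionRing D] (U : Subfield D) (R : Submodule (↥U)ᵐᵒᵖ D)
    (hR : Module.Finite (↥U)ᵐᵒᵖ R) : Subfield D where
  carrier := {g | ∀ y ∈ R, g * y ∈ R}
  mul_mem' := by
    intro a b ha hb y hy
    rw [mul_assoc]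
    exact ha _ (hb _ hy)
  one_mem' := by
    intro y hy
    rwa [one_mul]
  add_mem' := by
    intro a b ha hb y hy
    rw [add_mul]
    exact R.add_mem (ha _ hy) (hb _ hy)
  zero_mem' := by
    intro y _
    rw [zero_mul]
    exact R.zero_mem
  neg_mem' := by
    intro a ha y hy
    rw [neg_mul]
    exact R.neg_mem (ha _ hy)
  inv_mem' := by
    intro g hg
    by_cases h0 : g = 0
    · subst h0
      rw [inv_zero]
      exact hg
    · have h1 : R.map (mulL U g) ≤ R := by
        rintro _ ⟨y, hy, rfl⟩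
        exact hg y hy
      have h2 : R.map (mulL U g) = R := by
        apply Submodule.eq_of_le_of_finrank_eq h1
        exact finrank_map_injS _ (mulL_inj U h0) _
      intro y hy
      rw [← h2] at hy
      obtain ⟨y', hy', rfl⟩ := hy
      rw [mulL_apply, ← mul_assoc, inv_mul_cancel₀ h0, one_mul]
      exact hy'

/-- the elements whose right multiplication preserves a finite-dimensional left space -/
def stabR {D : Type*} [DivisionRing D] (U : Subfield D) (L : Submodule U D)
    (hL : Module.Finite U L) : Subfield D where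
  carrier := {g | ∀ y ∈ L, y * g ∈ L}
  mul_mem' := by
    intro a b ha hb y hy
    rw [← mul_assoc]
    exact hb _ (ha _ hy)
  one_mem' := by
    intro y hy
    rwa [mul_one]
  add_mem' := by
    intro a b ha hb y hy
    rw [mul_add]
    exact L.add_mem (ha _ hy) (hb _ hy)
  zero_mem' := by
    intro y _
    rw [mul_zero]
    exact L.zero_mem
  neg_mem' := by
    intro a ha y hy
    rw [mul_neg]
    exact L.neg_mem (ha _ hy)
  inv_mem' := by
    intro g hg
    by_cases h0 : g = 0
    · subst h0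
      rw [inv_zero]
      exact hg
    · have h1 : L.map (mulR U g) ≤ L := by
        rintro _ ⟨y, hy, rfl⟩
        exact hg y hy
      have h2 : L.map (mulR U g) = L := by
        apply Submodule.eq_of_le_of_finrank_eq h1
        exact finrank_map_injS _ (mulR_inj U h0) _
      intro y hy
      rw [← h2] at hy
      obtain ⟨y', hy', rfl⟩ := hy
      rw [mulR_apply, mul_assoc, mul_inv_cancel₀ h0, mul_one]
      exact hy'

lemma mem_stabL {D : Type*} [DivisionRing D] (U : Subfield D) (R : Submodule (↥U)ᵐᵒᵖ D)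
    (hR : Module.Finite (↥U)ᵐᵒᵖ R) (g : D) : g ∈ stabL U R hR ↔ ∀ y ∈ R, g * y ∈ R := Iff.rfl

lemma mem_stabR {D : Type*} [DivisionRing D] (U : Subfield D) (L : Submodule U D)
    (hL : Module.Finite U L) (g : D) : g ∈ stabR U L hL ↔ ∀ y ∈ L, y * g ∈ L := Iff.rfl

/-- doubling -/
lemma doubling {D : Type*} [DivisionRing D] (U G G' : Subfield D) (hUG : U ≤ G) (hGG : G < G')
    (hfin : Module.Finite U (span U (G' : Set D))) :
    2 * finrank U (span U (G : Set D)) ≤ finrank U (span U (G' : Set D)) := by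
  have hsG : ∀ H : Subfield D, U ≤ H → ∀ y, y ∈ span U (H : Set D) ↔ y ∈ H := by
    intro H hH y
    constructor
    · intro hy
      induction hy using Submodule.span_induction with
      | mem y hy => exact hy
      | zero => exact H.zero_mem
      | add a b _ _ ha hb => exact H.add_mem ha hb
      | smul c a _ ha => exact H.mul_mem (hH c.2) ha
    · intro hy
      exact subset_span hy
  obtain ⟨g, hgG', hgG⟩ := Set.exists_of_ssubset (SetLike.coe_ssubset_coe.mpr hGG)
  have hle : G ≤ G' := hGG.le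
  have hg0 : g ≠ 0 := by
    rintro rfl
    exact hgG G.zero_mem
  set S := span U (G : Set D) with hS
  have h1 : S ≤ span U (G' : Set D) := span_mono (fun y hy => hle hy)
  have h2 : S.map (mulR U g) ≤ span U (G' : Set D) := by
    rintro _ ⟨y, hy, rfl⟩
    have hy' := (hsG G hUG y).mp hy
    rw [mulR_apply]
    exact subset_span (G'.mul_mem (hle hy') hgG')
  have f1 : Module.Finite U S := Submodule.finiteDimensional_of_le h1
  have f2 : Module.Finite U (S.map (mulR U g)) := Submodule.finiteDimensional_of_le h2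
  have hdisj : S ⊓ S.map (mulR U g) = ⊥ := by
    rw [eq_bot_iff]
    rintro y ⟨hy1, y', hy', hyy⟩
    rw [mulR_apply] at hyy
    have a1 := (hsG G hUG y).mp hy1
    have a2 := (hsG G hUG y').mp hy'
    by_contra hy0
    have hy0' : y' ≠ 0 := by
      rintro rfl
      rw [zero_mul] at hyy
      exact hy0 (by rw [← hyy]; exact Submodule.zero_mem _)
    apply hgG
    have : g = y'⁻¹ * y := by
      rw [← hyy, ← mul_assoc, inv_mul_cancel₀ hy0', one_mul]
    rw [this]
    exact G.mul_mem (G.inv_mem a2) a1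
  have h3 := Submodule.finrank_sup_add_finrank_inf_eq S (S.map (mulR U g))
  rw [hdisj, finrank_bot, finrank_map_injS _ (mulR_inj U hg0)] at h3
  have h4 : finrank U ((S ⊔ S.map (mulR U g) : Submodule U D)) ≤
      finrank U (span U (G' : Set D)) := Submodule.finrank_mono (sup_le h1 h2)
  omega

namespace Setup

variable {k D : Type*} [Field k] [DivisionRing D] [Algebra k D] (T : Setup k D)

/-- the division subring generated by `k` and `x^i W x^{-i}`, `|i| ≤ l` -/
def G (l : ℕ) : Subfield D := Subfield.closure (Set.range (algebraMap k D) ∪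
  {y | ∃ i : ℤ, |i| ≤ l ∧ ∃ w ∈ T.W, y = T.x ^ i * w * T.x ^ (-i)})

lemma G_mono {l l' : ℕ} (h : l ≤ l') : T.G l ≤ T.G l' := by
  apply Subfield.closure_mono
  rintro y (hy | ⟨i, hi, w, hw, rfl⟩)
  · exact Or.inl hy
  · exact Or.inr ⟨i, hi.trans (by exact_mod_cast h), w, hw, rfl⟩

lemma kG (l : ℕ) (c : k) : algebraMap k D c ∈ T.G l :=
  Subfield.subset_closure (Or.inl ⟨c, rfl⟩)

lemma WG (l : ℕ) {w : D} (hw : w ∈ T.W) : w ∈ T.G l :=
  Subfield.subset_closure (Or.inr ⟨0, by simp, w, hw, by simp⟩)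

lemma UG (l : ℕ) : T.U ≤ T.G l := by
  apply Subfield.closure_le.mpr
  rintro y (⟨c, rfl⟩ | hy)
  · exact T.kG l c
  · rw [Set.mem_singleton_iff] at hy
    subst hy
    exact T.WG l T.uW

lemma G_conj (l : ℕ) {y : D} (hy : y ∈ T.G l) :
    T.x * y * T.x⁻¹ ∈ T.G (l + 1) ∧ T.x⁻¹ * y * T.x ∈ T.G (l + 1) := by
  have hx := T.x0
  induction hy using Subfield.closure_induction with
  | mem y hy =>
    rcases hy with ⟨c, rfl⟩ | ⟨i, hi, w, hw, rfl⟩
    · have e1 : T.x * algebraMap k D c * T.x⁻¹ = algebraMap k D c := by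
        rw [← Algebra.commutes c T.x, mul_assoc, mul_inv_cancel₀ hx, mul_one]
      have e2 : T.x⁻¹ * algebraMap k D c * T.x = algebraMap k D c := by
        rw [← Algebra.commutes c T.x⁻¹, mul_assoc, inv_mul_cancel₀ hx, mul_one]
      rw [e1, e2]
      exact ⟨T.kG _ c, T.kG _ c⟩
    · constructor
      · apply Subfield.subset_closure
        refine Or.inr ⟨i + 1, ?_, w, hw, ?_⟩
        · push_cast
          exact (abs_add_le i 1).trans (by simpa using hi)
        · rw [show T.x ^ (i + 1) = T.x * T.x ^ i by rw [add_comm, zpow_add₀ hx, zpow_one]]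
          rw [show T.x ^ (-(i + 1)) = T.x ^ (-i) * T.x⁻¹ by
            rw [neg_add, zpow_add₀ hx, zpow_neg_one]]
          simp only [mul_assoc]
      · apply Subfield.subset_closure
        refine Or.inr ⟨i - 1, ?_, w, hw, ?_⟩
        · push_cast
          rw [sub_eq_add_neg]
          exact (abs_add_le i (-1)).trans (by simpa using hi)
        · rw [show T.x ^ (i - 1) = T.x⁻¹ * T.x ^ i by
            rw [sub_eq_add_neg, add_comm, zpow_add₀ hx, zpow_neg_one]]
          rw [show T.x ^ (-(i - 1)) = T.x ^ (-i) * T.x by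
            rw [neg_sub, sub_eq_add_neg, add_comm, zpow_add₀ hx, zpow_one]]
          simp only [mul_assoc]
  | one => 
    constructor
    · rw [mul_one, mul_inv_cancel₀ hx]; exact one_mem _
    · rw [mul_one, inv_mul_cancel₀ hx]; exact one_mem _
  | add a b _ _ ha hb =>
    rw [mul_add, add_mul, mul_add, add_mul]
    exact ⟨add_mem ha.1 hb.1, add_mem ha.2 hb.2⟩
  | neg a _ ha =>
    rw [mul_neg, neg_mul, mul_neg, neg_mul]
    exact ⟨neg_mem ha.1, neg_mem ha.2⟩
  | inv a _ ha =>
    have e1 : T.x * a⁻¹ * T.x⁻¹ = (T.x * a * T.x⁻¹)⁻¹ := by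
      rw [mul_inv_rev, mul_inv_rev, inv_inv, mul_assoc]
    have e2 : T.x⁻¹ * a⁻¹ * T.x = (T.x⁻¹ * a * T.x)⁻¹ := by
      rw [mul_inv_rev, mul_inv_rev, inv_inv, mul_assoc]
    rw [e1, e2]
    exact ⟨(T.G (l + 1)).inv_mem ha.1, (T.G (l + 1)).inv_mem ha.2⟩
  | mul a b _ _ ha hb =>
    have e1 : T.x * (a * b) * T.x⁻¹ = (T.x * a * T.x⁻¹) * (T.x * b * T.x⁻¹) := by
      simp only [mul_assoc]
      rw [← mul_assoc T.x⁻¹ T.x, inv_mul_cancel₀ hx, one_mul]
    have e2 : T.x⁻¹ * (a * b) * T.x = (T.x⁻¹ * a * T.x) * (T.x⁻¹ * b * T.x) := by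
      simp only [mul_assoc]
      rw [← mul_assoc T.x T.x⁻¹, mul_inv_cancel₀ hx, one_mul]
    rw [e1, e2]
    exact ⟨(T.G (l + 1)).mul_mem ha.1 hb.1, (T.G (l + 1)).mul_mem ha.2 hb.2⟩

lemma P_ne (i j : ℕ) : ∃ p ∈ T.P i j, p ≠ 0 := by
  have h0 : ∃ p ∈ T.P 0 0, p ≠ 0 := by
    refine ⟨1, ⟨?_, ?_⟩, one_ne_zero⟩
    · show (1 : D) ∈ (T.A ^ (0 + 0) : Submodule k D)
      rw [add_zero, pow_zero]
      exact Submodule.one_le.mp le_rfl
    · simpa using T.WE T.oneW
  have h1 : ∀ i, ∃ p ∈ T.P i 0, p ≠ 0 := by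
    intro i
    induction i with
    | zero => exact h0
    | succ i ih =>
      obtain ⟨p, hp, hp0⟩ := ih
      exact ⟨_, T.P1 hp T.oneW, mul_ne_zero (T.zw0 one_ne_zero) hp0⟩
  induction j with
  | zero => exact h1 i
  | succ j ih =>
    obtain ⟨p, hp, hp0⟩ := ih
    exact ⟨_, T.P3 hp T.oneW, mul_ne_zero (T.zxw0 one_ne_zero) hp0⟩

end Setup

end Run7.h134
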