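import Pool.Agent.Run7.h134.Core2

set_option autoImplicit false
set_option linter.style.haveILetI false

namespace Run7.h134

open Module Submodule

attribute [local instance] rightMod

namespace Setup

variable {k D : Type*} [Field k] [DivisionRing D] [Algebra k D] (T : Setup k D)

lemma Lstep1 {i j : ℕ} (h : T.rL i j = T.rL (i + 1) j) {w : D} (hw : w ∈ T.W) (hw0 : w ≠ 0) :
    (T.L i j).map (mulR T.U (T.z * w)) = T.L (i + 1) j :=
  map_span_eq_of (mulR T.U (T.z * w)) (mulR_inj T.U (T.zw0 hw0))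
    (fun _ hp => T.P2 hp hw) (T.finL' (i + 1) j) h

lemma Rstep1 {i j : ℕ} (h : T.rR i j = T.rR (i + 1) j) {w : D} (hw : w ∈ T.W) (hw0 : w ≠ 0) :
    (T.R i j).map (mulL T.U (T.z * w)) = T.R (i + 1) j :=
  map_span_eq_of (mulL T.U (T.z * w)) (mulL_inj T.U (T.zw0 hw0))
    (fun _ hp => T.Q1 hp hw) (T.finR' (i + 1) j) h

lemma Rstep3 {i j : ℕ} (h : T.rR i j = T.rR i (j + 1)) {w : D} (hw : w ∈ T.W) (hw0 : w ≠ 0) :
    (T.R i j).map (mulL T.U (T.z * T.x * w)) = T.R i (j + 1) :=
  map_span_eq_of (mulL T.U (T.z * T.x * w)) (mulL_inj T.U (T.zxw0 hw0))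
    (fun _ hp => T.Q3 hp hw) (T.finR' i (j + 1)) h

lemma wR {i j : ℕ} (h : T.rR i j = T.rR (i + 1) j) {w y : D} (hw : w ∈ T.W) (hy : y ∈ T.R i j) :
    w * y ∈ T.R i j := by
  by_cases hw0 : w = 0
  · subst hw0
    rw [zero_mul]
    exact Submodule.zero_mem _
  · have h1 : T.z * w * y ∈ T.R (i + 1) j := by
      rw [← T.Rstep1 h hw hw0]
      exact ⟨y, hy, rfl⟩
    rw [← T.Rstep1 h T.oneW one_ne_zero] at h1
    obtain ⟨y', hy', he⟩ := h1
    rw [mulL_apply, mul_one, mul_assoc] at he
    rw [← mul_left_cancel₀ T.z0 he]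
    exact hy'

lemma xR {i j : ℕ} (h1 : T.rR (i + 1) j = T.rR (i + 1) (j + 1))
    (h2 : T.rR i (j + 1) = T.rR (i + 1) (j + 1)) {y : D} (hy : y ∈ T.R (i + 1) j) :
    T.x * y ∈ T.R i (j + 1) := by
  have h3 : T.z * T.x * 1 * y ∈ T.R (i + 1) (j + 1) := by
    rw [← T.Rstep3 h1 T.oneW one_ne_zero]
    exact ⟨y, hy, rfl⟩
  rw [← T.Rstep1 h2 T.oneW one_ne_zero] at h3
  obtain ⟨y', hy', he⟩ := h3
  rw [mulL_apply, mul_one, mul_one, mul_assoc] at he
  rw [← mul_left_cancel₀ T.z0 he]
  exact hy'

lemma xinvR {i j : ℕ} (h1 : T.rR (i + 1) j = T.rR (i + 1) (j + 1))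
    (h2 : T.rR i (j + 1) = T.rR (i + 1) (j + 1)) {y : D} (hy : y ∈ T.R i (j + 1)) :
    T.x⁻¹ * y ∈ T.R (i + 1) j := by
  have h3 : T.z * 1 * y ∈ T.R (i + 1) (j + 1) := by
    rw [← T.Rstep1 h2 T.oneW one_ne_zero]
    exact ⟨y, hy, rfl⟩
  rw [← T.Rstep3 h1 T.oneW one_ne_zero] at h3
  obtain ⟨y', hy', he⟩ := h3
  rw [mulL_apply, mul_one, mul_one, mul_assoc] at he
  have h4 := mul_left_cancel₀ T.z0 he
  rw [← h4, ← mul_assoc, inv_mul_cancel₀ T.x0, one_mul]
  exact hy'

section Win

variable {N c : ℕ} (hc : N + 1 ≤ c)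
  (hwin : ∀ i j, c ≤ i + (N + 1) → i ≤ c + (N + 1) → c ≤ j + (N + 1) → j ≤ c + (N + 1) →
        T.rL i j = T.rL c c ∧ T.rR i j = T.rR c c)

include hc hwin

lemma winA (n : ℕ) (hn : n ≤ N + 1) {y : D} (hy : y ∈ T.R c c) :
    (T.x⁻¹) ^ n * y ∈ T.R (c + n) (c - n) := by
  induction n with
  | zero => simpa using hy
  | succ n ih =>
    have h := ih (by omega)
    obtain ⟨j, hj⟩ : ∃ j, c - n = j + 1 := ⟨c - n - 1, by omega⟩
    have hj2 : c - (n + 1) = j := by omega
    rw [hj] at h
    rw [hj2, pow_succ', mul_assoc, ← add_assoc]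
    apply T.xinvR _ _ h
    · exact ((hwin _ _ (by omega) (by omega) (by omega) (by omega)).2).trans
          ((hwin _ _ (by omega) (by omega) (by omega) (by omega)).2).symm
    · exact ((hwin _ _ (by omega) (by omega) (by omega) (by omega)).2).trans
          ((hwin _ _ (by omega) (by omega) (by omega) (by omega)).2).symm

lemma winA' (n : ℕ) (hn : n ≤ N + 1) : ∀ {y : D}, y ∈ T.R (c + n) (c - n) →
    T.x ^ n * y ∈ T.R c c := by
  induction n with
  | zero => intro y hy; simpa using hy
  | succ n ih =>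
    intro y hy
    obtain ⟨j, hj⟩ : ∃ j, c - n = j + 1 := ⟨c - n - 1, by omega⟩
    have hj2 : c - (n + 1) = j := by omega
    rw [hj2, ← add_assoc] at hy
    rw [pow_succ, mul_assoc]
    apply ih (by omega)
    rw [hj]
    apply T.xR _ _ hy
    · exact ((hwin _ _ (by omega) (by omega) (by omega) (by omega)).2).trans
          ((hwin _ _ (by omega) (by omega) (by omega) (by omega)).2).symm
    · exact ((hwin _ _ (by omega) (by omega) (by omega) (by omega)).2).trans
          ((hwin _ _ (by omega) (by omega) (by omega) (by omega)).2).symm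

lemma winB (n : ℕ) (hn : n ≤ N + 1) {y : D} (hy : y ∈ T.R c c) :
    T.x ^ n * y ∈ T.R (c - n) (c + n) := by
  induction n with
  | zero => simpa using hy
  | succ n ih =>
    have h := ih (by omega)
    obtain ⟨i, hi⟩ : ∃ i, c - n = i + 1 := ⟨c - n - 1, by omega⟩
    have hi2 : c - (n + 1) = i := by omega
    rw [hi] at h
    rw [hi2, pow_succ', mul_assoc, ← add_assoc]
    apply T.xR _ _ h
    · exact ((hwin _ _ (by omega) (by omega) (by omega) (by omega)).2).trans
          ((hwin _ _ (by omega) (by omega) (by omega) (by omega)).2).symm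
    · exact ((hwin _ _ (by omega) (by omega) (by omega) (by omega)).2).trans
          ((hwin _ _ (by omega) (by omega) (by omega) (by omega)).2).symm

lemma winB' (n : ℕ) (hn : n ≤ N + 1) : ∀ {y : D}, y ∈ T.R (c - n) (c + n) →
    (T.x⁻¹) ^ n * y ∈ T.R c c := by
  induction n with
  | zero => intro y hy; simpa using hy
  | succ n ih =>
    intro y hy
    obtain ⟨i, hi⟩ : ∃ i, c - n = i + 1 := ⟨c - n - 1, by omega⟩
    have hi2 : c - (n + 1) = i := by omega
    rw [hi2, ← add_assoc] at hy
    rw [pow_succ, mul_assoc]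
    apply ih (by omega)
    rw [hi]
    apply T.xinvR _ _ hy
    · exact ((hwin _ _ (by omega) (by omega) (by omega) (by omega)).2).trans
          ((hwin _ _ (by omega) (by omega) (by omega) (by omega)).2).symm
    · exact ((hwin _ _ (by omega) (by omega) (by omega) (by omega)).2).trans
          ((hwin _ _ (by omega) (by omega) (by omega) (by omega)).2).symm

lemma G_le_stab : T.G N ≤ stabL T.U (T.R c c) (T.finR' c c) := by
  apply Subfield.closure_le.mpr
  rintro y (⟨a, rfl⟩ | ⟨i, hi, w, hw, rfl⟩)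
  · intro y hy
    rw [← Algebra.smul_def]
    -- right space is a k-space
    have : a • y = y * algebraMap k D a := by
      rw [Algebra.smul_def, Algebra.commutes]
    rw [this]
    exact (T.R c c).smul_mem (MulOpposite.op (⟨_, T.kU a⟩ : T.U)) hy
  · intro y hy
    rcases le_total 0 i with h0 | h0
    · obtain ⟨n, rfl⟩ := Int.eq_ofNat_of_zero_le h0
      have hn : n ≤ N := by
        rw [abs_of_nonneg h0] at hi
        exact_mod_cast hi
      have e : T.x ^ (n : ℤ) * w * T.x ^ (-(n : ℤ)) * y =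
          T.x ^ n * (w * ((T.x⁻¹) ^ n * y)) := by
        rw [zpow_neg, zpow_natCast, inv_pow]
        simp only [mul_assoc]
      rw [e]
      apply T.winA' hc hwin n (by omega)
      apply T.wR _ hw
      · exact T.winA hc hwin n (by omega) hy
      · exact ((hwin _ _ (by omega) (by omega) (by omega) (by omega)).2).trans
          ((hwin _ _ (by omega) (by omega) (by omega) (by omega)).2).symm
    · obtain ⟨n, hn⟩ := Int.eq_ofNat_of_zero_le (neg_nonneg.mpr h0)
      have hi' : i = -(n : ℤ) := by omega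
      subst hi'
      have hn : n ≤ N := by
        rw [abs_neg, abs_of_nonneg (by positivity)] at hi
        exact_mod_cast hi
      have e : T.x ^ (-(n : ℤ)) * w * T.x ^ (-(-(n : ℤ))) * y =
          (T.x⁻¹) ^ n * (w * (T.x ^ n * y)) := by
        rw [neg_neg, zpow_neg, zpow_natCast, inv_pow]
        simp only [mul_assoc]
      rw [e]
      apply T.winB' hc hwin n (by omega)
      apply T.wR _ hw
      · exact T.winB hc hwin n (by omega) hy
      · exact ((hwin _ _ (by omega) (by omega) (by omega) (by omega)).2).trans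
          ((hwin _ _ (by omega) (by omega) (by omega) (by omega)).2).symm

lemma U_le_stab : T.U ≤ stabR T.U (T.L (c + 1) c) (T.finL' (c + 1) c) := by
  apply Subfield.closure_le.mpr
  have key : ∀ w ∈ T.W, ∀ y ∈ T.L (c + 1) c, y * w ∈ T.L (c + 1) c := by
    intro w hw y hy
    have hr : T.rL c c = T.rL (c + 1) c := by
      rw [(hwin (c + 1) c (by omega) (by omega) (by omega) (by omega)).1]
    by_cases hw0 : w = 0
    · subst hw0
      rw [mul_zero]
      exact Submodule.zero_mem _
    · rw [← T.Lstep1 hr T.oneW one_ne_zero] at hy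
      obtain ⟨y', hy', rfl⟩ := hy
      rw [← T.Lstep1 hr hw hw0]
      refine ⟨y', hy', ?_⟩
      simp only [mulR_apply, mul_one, mul_assoc]
  rintro y (⟨a, rfl⟩ | hy)
  · intro y hy
    rw [← Algebra.commutes]
    exact (T.L (c + 1) c).smul_mem (⟨_, T.kU a⟩ : T.U) hy
  · rw [Set.mem_singleton_iff] at hy
    subst hy
    exact key _ T.uW

lemma R_sub_L {y : D} (hy : y ∈ T.R c c) : y ∈ T.L (c + 1) c := by
  unfold R at hy
  induction hy using Submodule.span_induction with
  | mem q hq =>
    obtain ⟨p, hp, rfl⟩ := hq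
    apply subset_span
    have := T.P2 hp T.oneW
    rw [mul_one] at this
    exact this
  | zero => exact Submodule.zero_mem _
  | add a b _ _ ha hb => exact Submodule.add_mem _ ha hb
  | smul a y _ hy =>
    rw [rsmul_def]
    exact T.U_le_stab hc hwin (MulOpposite.unop a).2 _ hy

lemma finrank_G_le : Module.Finite T.U (span T.U (T.G N : Set D)) ∧
    finrank T.U (span T.U (T.G N : Set D)) ≤ T.rL c c := by
  obtain ⟨p, hp, hp0⟩ := T.P_ne c c
  have hr : p * T.z ∈ T.R c c := subset_span ⟨p, hp, rfl⟩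
  have hr0 : p * T.z ≠ 0 := mul_ne_zero hp0 T.z0
  have h1 : (span T.U (T.G N : Set D)).map (mulR T.U (p * T.z)) ≤ T.L (c + 1) c := by
    rw [Submodule.map_span]
    apply span_le.mpr
    rintro _ ⟨g, hg, rfl⟩
    exact T.R_sub_L hc hwin (T.G_le_stab hc hwin hg _ hr)
  have f0 := T.finL' (c + 1) c
  have f1 : Module.Finite T.U ((span T.U (T.G N : Set D)).map (mulR T.U (p * T.z))) :=
    Submodule.finiteDimensional_of_le h1
  have f2 : Module.Finite T.U (span T.U (T.G N : Set D)) :=
    Module.Finite.equiv (Submodule.equivMapOfInjective (mulR T.U (p * T.z))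
      (mulR_inj T.U hr0) (span T.U (T.G N : Set D))).symm
  refine ⟨f2, ?_⟩
  have h2 := Submodule.finrank_mono h1
  rw [finrank_map_injS _ (mulR_inj T.U hr0)] at h2
  have h3 : T.rL (c + 1) c = T.rL c c :=
    (hwin (c + 1) c (by omega) (by omega) (by omega) (by omega)).1
  exact h2.trans (le_of_eq h3)

end Win

/-- Core theorem: if the powers of `zW + zxW` grow subcubically, the division ring generated by
all conjugates `x^i W x^{-i}` is finite-dimensional over `k(u)`. -/
theorem main (q n₀ : ℕ)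
    (ha : ∀ n ≥ n₀, (finrank k (T.A ^ n : Submodule k D)) ^ (q + 1) ≤ n ^ (3 * q + 2)) :
    ∃ F : Subfield D, (∀ c : k, algebraMap k D c ∈ F) ∧ (∀ w ∈ T.W, w ∈ F) ∧ T.U ≤ F ∧
      (∀ y ∈ F, T.x * y * T.x⁻¹ ∈ F ∧ T.x⁻¹ * y * T.x ∈ F) ∧
      Module.Finite T.U (span T.U (F : Set D)) := by
  obtain ⟨N, c, hc, hwin, hlt⟩ := window (fun i j => finrank k (T.P i j)) T.rL T.rR
    (fun n => finrank k (T.A ^ n : Submodule k D)) T.rL1 T.rL2 T.rR1 T.rR2 T.fL T.fR T.sumP q n₀ ha
  obtain ⟨hf, hle⟩ := T.finrank_G_le hc hwin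
  have hex : ∃ l < N, T.G l = T.G (l + 1) := by
    by_contra hcon
    push Not at hcon
    have key : ∀ l ≤ N, 2 ^ l ≤ finrank T.U (span T.U (T.G l : Set D)) := by
      intro l
      induction l with
      | zero =>
        intro _
        have h1 : 0 < finrank T.U (span T.U (T.G 0 : Set D)) := by
          have f0 : Module.Finite T.U (span T.U (T.G 0 : Set D)) :=
            Submodule.finiteDimensional_of_le (span_mono (fun y hy => T.G_mono (Nat.zero_le N) hy))
          rw [Module.finrank_pos_iff_exists_ne_zero]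
          refine ⟨⟨1, subset_span (one_mem (T.G 0))⟩, ?_⟩
          intro h
          exact one_ne_zero (congrArg Subtype.val h)
        rw [pow_zero]
        exact h1
      | succ l ih =>
        intro hl
        have h1 := ih (by omega)
        have h2 : T.G l < T.G (l + 1) :=
          lt_of_le_of_ne (T.G_mono (Nat.le_succ l)) (hcon l (by omega))
        have f1 : Module.Finite T.U (span T.U (T.G (l + 1) : Set D)) :=
          Submodule.finiteDimensional_of_le (span_mono (fun y hy => T.G_mono hl hy))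
        have h3 := doubling T.U (T.G l) (T.G (l + 1)) (T.UG l) h2 f1
        rw [pow_succ]
        omega
    have := key N le_rfl
    omega
  obtain ⟨l, hl, he⟩ := hex
  refine ⟨T.G l, T.kG l, fun w hw => T.WG l hw, T.UG l, ?_, ?_⟩
  · intro y hy
    have := T.G_conj l hy
    rwa [← he] at this
  · exact Submodule.finiteDimensional_of_le (span_mono (fun y hy => T.G_mono hl.le hy))

end Setup

end Run7.h134
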