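import Pool.Agent.Run7.h134.Sym2
import Pool.Agent.Run7.h134.Core3

set_option autoImplicit false
set_option linter.style.haveILetI false

namespace Run7.h134

open Module Submodule

/-- the space `bW + bxW` -/
def BW {k D : Type*} [Field k] [DivisionRing D] [Algebra k D] (W : Submodule k D) (b x : D) :
    Submodule k D :=
  W.map (LinearMap.mulLeft k b) ⊔ W.map (LinearMap.mulLeft k (b * x))

namespace Gr

variable {k D : Type*} [Field k] [DivisionRing D] [Algebra k D] (G : Gr k D)

/-- the window data attached to `E`, `x`, `W`, `z` -/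
def toSetup (W : Submodule k D) (fdW : FiniteDimensional k W) (oneW : (1 : D) ∈ W)
    (WE : ∀ w ∈ W, w ∈ G.E) (u : D) (uW : u ∈ W) (tr : Transcendental k u) (z : D) (m : ℤ)
    (zE : z ∈ G.Eg m) (z0 : z ≠ 0) : Setup k D where
  Eg := G.Eg
  mul_mem := G.mul_mem_Eg
  ind := G.ind
  W := W
  fdW := fdW
  oneW := oneW
  WE := fun w hw => G.E_mem_Eg (WE w hw)
  u := u
  uW := uW
  tr := tr
  x := G.x
  z := z
  m := m
  xE := G.x_mem_Eg
  zE := zE
  x0 := G.x0
  z0 := z0

lemma compare (W : Submodule k D) (fdW : FiniteDimensional k W) (oneW : (1 : D) ∈ W)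
    (WE : ∀ w ∈ W, w ∈ G.E) (u : D) (uW : u ∈ W) (tr : Transcendental k u) (z : D) (m : ℤ)
    (zE : z ∈ G.Eg m) (z0 : z ≠ 0) (b : D) (hb : G.Lead b z m) (n : ℕ) :
    finrank k ((G.toSetup W fdW oneW WE u uW tr z m zE z0).A ^ n : Submodule k D) ≤
      finrank k ((BW W b G.x) ^ n : Submodule k D) := by
  classical
  set T := G.toSetup W fdW oneW WE u uW tr z m zE z0 with hT
  set B := BW W b G.x with hB
  let Hs : ℕ → Set D := fun n => {h | h ∈ (T.A ^ n : Submodule k D) ∧
    ∃ d ∈ (B ^ n : Submodule k D), ∃ s, G.Lead d h s}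
  have fdB : FiniteDimensional k B := by
    rw [hB]
    unfold BW
    infer_instance
  have fdBn : ∀ n, FiniteDimensional k (B ^ n : Submodule k D) := fun n =>
    (Submodule.fg_iff_finiteDimensional _).mp
      (((Submodule.fg_iff_finiteDimensional B).mpr fdB).pow n)
  have key : ∀ n, (T.A ^ n : Submodule k D) ≤ span k (Hs n) := by
    intro n
    induction n with
    | zero =>
      rw [pow_zero, Submodule.one_eq_span]
      apply span_mono
      rintro y hy
      rw [Set.mem_singleton_iff] at hy
      subst hy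
      refine ⟨?_, 1, ?_, 0, ?_⟩
      · rw [pow_zero]; exact Submodule.one_le.mp le_rfl
      · rw [pow_zero]; exact Submodule.one_le.mp le_rfl
      · exact G.Lead_self (G.E_mem_Eg G.E.one_mem) one_ne_zero
    | succ n ih =>
      rw [pow_succ', Submodule.mul_le]
      intro a ha y hy
      have hy2 := ih hy
      induction hy2 using Submodule.span_induction with
      | mem h hh =>
        obtain ⟨hA, d, hd, s, hL⟩ := hh
        have hA' : ∀ a ∈ T.A, a * h ∈ (T.A ^ (n + 1) : Submodule k D) := by
          intro a ha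
          rw [pow_succ']
          exact Submodule.mul_mem_mul ha hA
        have hBm : ∀ a ∈ B, a * d ∈ (B ^ (n + 1) : Submodule k D) := by
          intro a ha
          rw [pow_succ']
          exact Submodule.mul_mem_mul ha hd
        obtain ⟨_, ⟨w, hw, rfl⟩, _, ⟨w', hw', rfl⟩, rfl⟩ := Submodule.mem_sup.mp ha
        rw [add_mul]
        apply add_mem
        · by_cases hw0 : w = 0
          · subst hw0
            rw [map_zero, zero_mul]
            exact Submodule.zero_mem _
          · apply subset_span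
            refine ⟨hA' _ (T.zw_mem hw), b * w * d, hBm _ ?_, m + 0 + s, ?_⟩
            · exact (le_sup_left : _ ≤ B) ⟨w, hw, rfl⟩
            · exact G.Lead_mul (G.Lead_mul hb (G.Lead_self (G.E_mem_Eg (WE w hw)) hw0)) hL
        · by_cases hw0 : w' = 0
          · subst hw0
            rw [map_zero, zero_mul]
            exact Submodule.zero_mem _
          · apply subset_span
            refine ⟨hA' _ (T.zxw_mem hw'), b * G.x * w' * d, hBm _ ?_, m + 1 + 0 + s, ?_⟩
            · exact (le_sup_right : _ ≤ B) ⟨w', hw', rfl⟩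
            · exact G.Lead_mul (G.Lead_mul (G.Lead_mul hb (G.Lead_self G.x_mem_Eg G.x0))
                (G.Lead_self (G.E_mem_Eg (WE w' hw')) hw0)) hL
      | zero =>
        rw [mul_zero]
        exact Submodule.zero_mem _
      | add y₁ y₂ h₁ h₂ i₁ i₂ =>
        rw [mul_add]
        have hle : span k (Hs n) ≤ T.A ^ n := span_le.mpr (fun h hh => hh.1)
        exact add_mem (i₁ (hle h₁)) (i₂ (hle h₂))
      | smul c y h₁ i₁ =>
        have hle : span k (Hs n) ≤ T.A ^ n := span_le.mpr (fun h hh => hh.1)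
        rw [mul_smul_comm]
        exact Submodule.smul_mem _ c (i₁ (hle h₁))
  have hle : span k (Hs n) ≤ T.A ^ n := span_le.mpr (fun h hh => hh.1)
  have heq : (T.A ^ n : Submodule k D) = span k (Hs n) := le_antisymm (key n) hle
  have fdA := T.fdApow n
  obtain ⟨S, hS, hspan, hli⟩ := exists_linearIndependent k (Hs n)
  have hli2 : LinearIndependent k (fun y : S => (⟨y.1, (hS y.2).1⟩ : (T.A ^ n : Submodule k D))) := by
    apply LinearIndependent.of_comp (T.A ^ n : Submodule k D).subtype
    exact hli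
  have hfin : Finite S := hli2.finite
  letI := Fintype.ofFinite S
  have hcard : finrank k (T.A ^ n : Submodule k D) = Fintype.card S := by
    rw [heq, ← hspan, finrank_span_set_eq_card hli]
    simp
  rw [hcard]
  choose d hd s hL using fun y : S => (hS y.2).2
  have h1 : LinearIndependent k d := G.Lead_indep d (fun y : S => (y : D)) s hL hli
  have fdBn' := fdBn n
  have h2 : LinearIndependent k (fun y : S => (⟨d y, hd y⟩ : (B ^ n : Submodule k D))) := by
    apply LinearIndependent.of_comp (B ^ n : Submodule k D).subtype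
    exact h1
  exact h2.fintype_card_le_finrank

/-- Combined theorem. -/
theorem stable (W : Submodule k D) (fdW : FiniteDimensional k W) (oneW : (1 : D) ∈ W)
    (WE : ∀ w ∈ W, w ∈ G.E) (u : D) (uW : u ∈ W) (tr : Transcendental k u) (b : D) (hb : b ≠ 0)
    (q n₀ : ℕ)
    (hgr : ∀ n ≥ n₀, (finrank k ((BW W b G.x) ^ n : Submodule k D)) ^ (q + 1) ≤ n ^ (3 * q + 2)) :
    ∃ F : Subfield D, (∀ c : k, algebraMap k D c ∈ F) ∧ (∀ w ∈ W, w ∈ F) ∧
      Subfield.closure (Set.range (algebraMap k D) ∪ {u}) ≤ F ∧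
      (∀ y ∈ F, G.x * y * G.x⁻¹ ∈ F ∧ G.x⁻¹ * y * G.x ∈ F) ∧
      Module.Finite (Subfield.closure (Set.range (algebraMap k D) ∪ {u}))
        (span (Subfield.closure (Set.range (algebraMap k D) ∪ {u})) (F : Set D)) := by
  obtain ⟨z, m, hL⟩ := G.Lead_exists hb
  have hz : z ∈ G.Eg m ∧ z ≠ 0 := by
    obtain ⟨t, _, H⟩ := hL
    exact ⟨H.1, H.2.1⟩
  exact (G.toSetup W fdW oneW WE u uW tr z m hz.1 hz.2).main q n₀ (fun n hn =>
    (Nat.pow_le_pow_left (G.compare W fdW oneW WE u uW tr z m hz.1 hz.2 b hL n) (q + 1)).trans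
      (hgr n hn))

end Gr

end Run7.h134
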