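import Mathlib

set_option autoImplicit false

namespace Run7.h134

open Module

/-- The GK-transcendence degree, as in the problem. -/
noncomputable def Tdeg (k : Type*) [Field k] (D : Type*) [DivisionRing D] [Algebra k D] : EReal :=
  ⨆ (V : Submodule k D) (_ : FiniteDimensional k ↥V) (_ : (1 : D) ∈ V),
    ⨅ (b : D) (_ : b ≠ 0),
      ⨆ (W : Submodule k D) (_ : FiniteDimensional k ↥W) (_ : (1 : D) ∈ W)
        (_ : W ≤ Subalgebra.toSubmodule
            (Algebra.adjoin k (Set.image (fun v : D => b * v) (V : Set D)))),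
        Filter.limsup
          (fun n : ℕ =>
            (((Real.log (Module.finrank k ↥((W ^ n : Submodule k D)) : ℝ))
                / Real.log (n : ℝ) : ℝ) : EReal))
          Filter.atTop

theorem tdeg_extract {k : Type*} [Field k] {D : Type*} [DivisionRing D] [Algebra k D]
    (h : Tdeg k D < 3) (V : Submodule k D) (fdV : FiniteDimensional k V) (oneV : (1 : D) ∈ V) :
    ∃ b : D, b ≠ 0 ∧ ∃ q n₀ : ℕ, ∀ n ≥ n₀,
      (finrank k (((V.map (LinearMap.mulLeft k b)) ^ n : Submodule k D))) ^ (q + 1) ≤
        n ^ (3 * q + 2) := by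
  have h1 : (⨅ (b : D) (_ : b ≠ 0),
      ⨆ (W : Submodule k D) (_ : FiniteDimensional k ↥W) (_ : (1 : D) ∈ W)
        (_ : W ≤ Subalgebra.toSubmodule
            (Algebra.adjoin k (Set.image (fun v : D => b * v) (V : Set D)))),
        Filter.limsup
          (fun n : ℕ =>
            (((Real.log (Module.finrank k ↥((W ^ n : Submodule k D)) : ℝ))
                / Real.log (n : ℝ) : ℝ) : EReal))
          Filter.atTop) < 3 := by
    refine lt_of_le_of_lt ?_ h
    exact le_iSup_of_le V (le_iSup_of_le fdV (le_iSup_of_le oneV le_rfl))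
  rw [iInf_lt_iff] at h1
  obtain ⟨b, h2⟩ := h1
  rw [iInf_lt_iff] at h2
  obtain ⟨hb, h3⟩ := h2
  refine ⟨b, hb, ?_⟩
  set bV := V.map (LinearMap.mulLeft k b) with hbV
  set W : Submodule k D := 1 ⊔ bV with hW
  have fdbV : FiniteDimensional k bV := by
    rw [hbV]; infer_instance
  have fd1 : FiniteDimensional k (1 : Submodule k D) := by
    rw [Submodule.one_eq_span]
    infer_instance
  have fdW : FiniteDimensional k W := by
    rw [hW]; infer_instance
  have oneW : (1 : D) ∈ W := (le_sup_left : (1 : Submodule k D) ≤ W) (Submodule.one_le.mp le_rfl)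
  have WA : W ≤ Subalgebra.toSubmodule
            (Algebra.adjoin k (Set.image (fun v : D => b * v) (V : Set D))) := by
    apply sup_le
    · rw [Submodule.one_le]
      exact Subalgebra.one_mem _
    · rintro _ ⟨v, hv, rfl⟩
      exact Algebra.subset_adjoin ⟨v, hv, rfl⟩
  have h4 : Filter.limsup
          (fun n : ℕ =>
            (((Real.log (Module.finrank k ↥((W ^ n : Submodule k D)) : ℝ))
                / Real.log (n : ℝ) : ℝ) : EReal))
          Filter.atTop < 3 := by
    refine lt_of_le_of_lt ?_ h3
    exact le_iSup_of_le W (le_iSup_of_le fdW (le_iSup_of_le oneW (le_iSup_of_le WA le_rfl)))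
  obtain ⟨c, hc1, hc2⟩ := EReal.lt_iff_exists_real_btwn.mp h4
  have hc3 : c < 3 := by
    have e : ((3 : ℝ) : EReal) = 3 := rfl
    rw [← e] at hc2
    exact EReal.coe_lt_coe_iff.mp hc2
  obtain ⟨q, hq⟩ := exists_nat_one_div_lt (sub_pos.mpr hc3)
  have h5 := Filter.eventually_lt_of_limsup_lt hc1
  obtain ⟨n₁, hn₁⟩ := Filter.eventually_atTop.mp h5
  have fdWn : ∀ n, FiniteDimensional k (W ^ n : Submodule k D) := fun n =>
    (Submodule.fg_iff_finiteDimensional _).mp
      (((Submodule.fg_iff_finiteDimensional W).mpr fdW).pow n)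
  refine ⟨q, max n₁ 2, fun n hn => ?_⟩
  have hn1 : n₁ ≤ n := le_trans (le_max_left _ _) hn
  have hn2 : 2 ≤ n := le_trans (le_max_right _ _) hn
  have h6 := hn₁ n hn1
  have h7 : Real.log (finrank k (W ^ n : Submodule k D)) / Real.log n < c := by
    exact_mod_cast h6
  have hlog : 0 < Real.log n := Real.log_pos (by exact_mod_cast hn2)
  have h8 : (finrank k (W ^ n : Submodule k D)) ^ (q + 1) ≤ n ^ (3 * q + 2) := by
    rcases Nat.eq_zero_or_pos (finrank k (W ^ n : Submodule k D)) with h0 | hpos
    · rw [h0, zero_pow (by omega)]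
      exact Nat.zero_le _
    · have h9 : Real.log (finrank k (W ^ n : Submodule k D)) ≤ c * Real.log n := by
        rw [div_lt_iff₀ hlog] at h7
        exact h7.le
      have h10 : ((q : ℝ) + 1) * c ≤ 3 * q + 2 := by
        have : 1 < ((q : ℝ) + 1) * (3 - c) := by
          rw [div_lt_iff₀ (by positivity)] at hq
          linarith
        linarith
      have h11 : Real.log (((finrank k (W ^ n : Submodule k D) : ℝ)) ^ (q + 1)) ≤
          Real.log ((n : ℝ) ^ (3 * q + 2)) := by
        rw [Real.log_pow, Real.log_pow]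
        push_cast
        calc ((q : ℝ) + 1) * Real.log (finrank k (W ^ n : Submodule k D)) ≤
              ((q : ℝ) + 1) * (c * Real.log n) := by
                apply mul_le_mul_of_nonneg_left h9 (by positivity)
          _ = (((q : ℝ) + 1) * c) * Real.log n := by ring
          _ ≤ (3 * q + 2) * Real.log n := mul_le_mul_of_nonneg_right h10 hlog.le
      have hposR : (0 : ℝ) < (finrank k (W ^ n : Submodule k D) : ℝ) := by exact_mod_cast hpos
      have hnR : (0 : ℝ) < (n : ℝ) := by
        have : 0 < n := by omega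
        exact_mod_cast this
      have h12 := (Real.log_le_log_iff (by positivity) (by positivity)).mp h11
      exact_mod_cast h12
  refine le_trans ?_ h8
  apply Nat.pow_le_pow_left
  have := fdWn n
  apply Submodule.finrank_mono
  exact pow_le_pow_left' (le_sup_right : bV ≤ W) n

end Run7.h134
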