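import Pool.Agent.Run7.h134.BModel
import Pool.Agent.Run7.h134.Sym3
import Pool.Agent.Run7.h134.TdegX

set_option autoImplicit false
set_option linter.style.haveILetI false

namespace Run7.h134

open Module Submodule

/-- A discrete valuation on the division algebra `D`, recorded by its filtration
(`Fil s` is the set of elements of degree at most `s`), with an element `x` of degree one. -/
structure DV (k D : Type*) [Field k] [DivisionRing D] [Algebra k D] where
  Fil : ℤ → Submodule k D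
  mono : ∀ {s t : ℤ}, s ≤ t → Fil s ≤ Fil t
  mul_mem : ∀ {s t : ℤ} {a b : D}, a ∈ Fil s → b ∈ Fil t → a * b ∈ Fil (s + t)
  one_mem : (1 : D) ∈ Fil 0
  one_nmem : (1 : D) ∉ Fil (-1)
  x : D
  x0 : x ≠ 0
  x_mem : x ∈ Fil 1
  xi_mem : x⁻¹ ∈ Fil (-1)
  ex : ∀ d : D, d ≠ 0 → ∃ s : ℤ, d ∈ Fil s ∧ d⁻¹ ∈ Fil (-s)

namespace DV

variable {k D : Type*} [Field k] [DivisionRing D] [Algebra k D] (V : DV k D)

lemma Fil_cast {s t : ℤ} {a : D} (h : a ∈ V.Fil s) (e : s = t) : a ∈ V.Fil t := e ▸ h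

/-- the valuation ring -/
def O : Subalgebra k D where
  carrier := V.Fil 0
  mul_mem' := fun ha hb => V.Fil_cast (V.mul_mem ha hb) (by ring)
  one_mem' := V.one_mem
  add_mem' := fun ha hb => (V.Fil 0).add_mem ha hb
  zero_mem' := (V.Fil 0).zero_mem
  algebraMap_mem' c := by
    rw [Algebra.algebraMap_eq_smul_one]
    exact (V.Fil 0).smul_mem c V.one_mem

/-- the maximal ideal -/
def m : Ideal V.O where
  carrier := {a | (a : D) ∈ V.Fil (-1)}
  add_mem' := fun ha hb => (V.Fil (-1)).add_mem ha hb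
  zero_mem' := (V.Fil (-1)).zero_mem
  smul_mem' := fun c a ha => V.Fil_cast (V.mul_mem c.2 ha) (by ring)

instance : V.m.IsTwoSided := ⟨fun b ha => V.Fil_cast (V.mul_mem ha b.2) (by ring)⟩

/-- the residue division ring -/
def Res : Type _ := V.O ⧸ V.m

noncomputable instance : Ring V.Res := inferInstanceAs (Ring (V.O ⧸ V.m))

lemma mem_m {a : V.O} : a ∈ V.m ↔ (a : D) ∈ V.Fil (-1) := Iff.rfl

lemma inv_mem_O {a : D} (h : a ∉ V.Fil (-1)) : a⁻¹ ∈ V.Fil 0 := by
  have ha0 : a ≠ 0 := by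
    rintro rfl
    exact h (Submodule.zero_mem _)
  obtain ⟨s, hs1, hs2⟩ := V.ex a ha0
  have hs : 0 ≤ s := by
    by_contra hneg
    push Not at hneg
    exact h (V.mono (by omega) hs1)
  exact V.mono (by omega) hs2

instance : Nontrivial V.Res := by
  have : V.m ≠ ⊤ := by
    intro h
    have h1 : (1 : V.O) ∈ V.m := by rw [h]; trivial
    exact V.one_nmem h1
  exact Ideal.Quotient.nontrivial_iff.mpr this

lemma isUnit_or (a : V.Res) : IsUnit a ∨ a = 0 := by
  obtain ⟨a, rfl⟩ := Ideal.Quotient.mk_surjective a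
  by_cases h : (a : D) ∈ V.Fil (-1)
  · right
    exact Ideal.Quotient.eq_zero_iff_mem.mpr h
  · left
    have ha0 : (a : D) ≠ 0 := by
      intro h0
      rw [h0] at h
      exact h (Submodule.zero_mem _)
    have h1 : (a : D)⁻¹ ∈ V.O := V.inv_mem_O h
    have e1 : (Ideal.Quotient.mk V.m a : V.O ⧸ V.m) * Ideal.Quotient.mk V.m ⟨_, h1⟩ = 1 := by
      rw [← map_mul]
      have : a * ⟨_, h1⟩ = (1 : V.O) := Subtype.ext (mul_inv_cancel₀ ha0)
      rw [this, map_one]
    have e2 : (Ideal.Quotient.mk V.m ⟨_, h1⟩ : V.O ⧸ V.m) * Ideal.Quotient.mk V.m a = 1 := by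
      rw [← map_mul]
      have : (⟨_, h1⟩ : V.O) * a = (1 : V.O) := Subtype.ext (inv_mul_cancel₀ ha0)
      rw [this, map_one]
    exact ⟨⟨Ideal.Quotient.mk V.m a, Ideal.Quotient.mk V.m ⟨_, h1⟩, e1, e2⟩, rfl⟩

noncomputable instance : DivisionRing V.Res := DivisionRing.ofIsUnitOrEqZero V.isUnit_or

noncomputable instance : Algebra k V.Res := inferInstanceAs (Algebra k (V.O ⧸ V.m))

/-- the residue map -/
noncomputable def res : V.O →ₐ[k] V.Res := Ideal.Quotient.mkₐ k V.m

lemma res_surj : Function.Surjective V.res := Ideal.Quotient.mkₐ_surjective k V.m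

lemma res_eq_zero {a : V.O} : V.res a = 0 ↔ (a : D) ∈ V.Fil (-1) :=
  Ideal.Quotient.eq_zero_iff_mem

lemma zpow_mem (s : ℤ) : V.x ^ s ∈ V.Fil s := by
  induction s with
  | zero => simpa using V.one_mem
  | succ i ih =>
    rw [zpow_add₀ V.x0, zpow_one]
    exact V.mul_mem ih V.x_mem
  | pred i ih =>
    rw [sub_eq_add_neg, zpow_add₀ V.x0, zpow_neg_one]
    exact V.mul_mem ih V.xi_mem

lemma mul_zpow_mem {s t : ℤ} {d : D} (hd : d ∈ V.Fil s) : d * V.x ^ t ∈ V.Fil (s + t) :=
  V.mul_mem hd (V.zpow_mem t)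

lemma conj_mem (s : ℤ) {t : ℤ} {a : D} (ha : a ∈ V.Fil t) :
    V.x ^ s * a * V.x ^ (-s) ∈ V.Fil t :=
  V.Fil_cast (V.mul_mem (V.mul_mem (V.zpow_mem s) ha) (V.zpow_mem (-s))) (by ring)

/-- conjugation by `x^s` on the valuation ring -/
def cj (s : ℤ) : V.O →ₐ[k] V.O where
  toFun a := ⟨V.x ^ s * a * V.x ^ (-s), V.conj_mem s a.2⟩
  map_one' := by
    apply Subtype.ext
    show V.x ^ s * 1 * V.x ^ (-s) = 1
    rw [mul_one, ← zpow_add₀ V.x0, add_neg_cancel, zpow_zero]
  map_mul' a b := by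
    apply Subtype.ext
    show V.x ^ s * ((a : D) * b) * V.x ^ (-s) = (V.x ^ s * a * V.x ^ (-s)) * (V.x ^ s * b * V.x ^ (-s))
    calc V.x ^ s * ((a : D) * b) * V.x ^ (-s)
        = V.x ^ s * a * (V.x ^ (-s) * V.x ^ s) * b * V.x ^ (-s) := by
          rw [← zpow_add₀ V.x0, neg_add_cancel, zpow_zero, mul_one]
          simp only [mul_assoc]
      _ = _ := by simp only [mul_assoc]
  map_zero' := by
    apply Subtype.ext
    show V.x ^ s * 0 * V.x ^ (-s) = 0
    rw [mul_zero, zero_mul]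
  map_add' a b := by
    apply Subtype.ext
    show V.x ^ s * ((a : D) + b) * V.x ^ (-s) = V.x ^ s * a * V.x ^ (-s) + V.x ^ s * b * V.x ^ (-s)
    rw [mul_add, add_mul]
  commutes' c := by
    apply Subtype.ext
    show V.x ^ s * algebraMap k D c * V.x ^ (-s) = algebraMap k D c
    rw [← Algebra.commutes, mul_assoc, ← zpow_add₀ V.x0, add_neg_cancel, zpow_zero, mul_one]

lemma cj_coe (s : ℤ) (a : V.O) : ((V.cj s a : V.O) : D) = V.x ^ s * a * V.x ^ (-s) := rfl

/-- conjugation on the residue ring -/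
noncomputable def rc (s : ℤ) : V.Res →ₐ[k] V.Res :=
  Ideal.Quotient.liftₐ V.m (V.res.comp (V.cj s)) (by
    intro a ha
    exact V.res_eq_zero.mpr (V.conj_mem s ha))

lemma rc_res (s : ℤ) (a : V.O) : V.rc s (V.res a) = V.res (V.cj s a) := rfl

lemma rc_rc (s t : ℤ) (e : V.Res) : V.rc s (V.rc t e) = V.rc (s + t) e := by
  obtain ⟨a, rfl⟩ := V.res_surj e
  rw [rc_res, rc_res, rc_res]
  congr 1
  apply Subtype.ext
  rw [cj_coe, cj_coe, cj_coe, zpow_add₀ V.x0, neg_add, add_comm (-s), zpow_add₀ V.x0]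
  simp only [mul_assoc]

lemma rc_zero (e : V.Res) : V.rc 0 e = e := by
  obtain ⟨a, rfl⟩ := V.res_surj e
  rw [rc_res]
  congr 1
  apply Subtype.ext
  rw [cj_coe]
  simp

/-- the automorphism of the residue ring -/
noncomputable def τ : V.Res ≃ₐ[k] V.Res :=
  AlgEquiv.ofAlgHom (V.rc 1) (V.rc (-1))
    (by
      apply AlgHom.ext
      intro e
      exact (V.rc_rc 1 (-1) e).trans (V.rc_zero e))
    (by
      apply AlgHom.ext
      intro e
      exact (V.rc_rc (-1) 1 e).trans (V.rc_zero e))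

lemma τ_zpow (s : ℤ) (e : V.Res) : (V.τ ^ s) e = V.rc s e := by
  induction s with
  | zero =>
    rw [zpow_zero, rc_zero]
    rfl
  | succ i ih =>
    rw [add_comm, zpow_add, zpow_one, AlgEquiv.mul_apply, ih]
    exact V.rc_rc 1 i e
  | pred i ih =>
    rw [sub_eq_add_neg, add_comm, zpow_add, zpow_neg_one, AlgEquiv.mul_apply, ih]
    exact V.rc_rc (-1) (-(i : ℤ)) e

/-- the ring containing the graded ring -/
abbrev B := BB k V.Res V.τ

/-- pairs (element, leading term) of degree `s` -/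
noncomputable def LD (s : ℤ) : Submodule k (D × V.B) where
  carrier := {q | ∃ a : V.O, (a : D) = q.1 * V.x ^ (-s) ∧ q.2 = BB.ι V.τ (V.res a) * BB.sh V.τ s}
  add_mem' := by
    rintro ⟨d, h⟩ ⟨d', h'⟩ ⟨a, ha, hh⟩ ⟨a', ha', hh'⟩
    refine ⟨a + a', ?_, ?_⟩
    · show (a : D) + a' = (d + d') * V.x ^ (-s)
      rw [add_mul, ha, ha']
    · show h + h' = _
      simp only at hh hh'
      rw [hh, hh', map_add, map_add, add_mul]
  zero_mem' := by
    refine ⟨0, ?_, ?_⟩
    · show (0 : D) = 0 * V.x ^ (-s)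
      rw [zero_mul]
    · show (0 : V.B) = _
      rw [map_zero, map_zero, zero_mul]
  smul_mem' := by
    rintro c ⟨d, h⟩ ⟨a, ha, hh⟩
    refine ⟨c • a, ?_, ?_⟩
    · show c • (a : D) = (c • d) * V.x ^ (-s)
      rw [ha, smul_mul_assoc]
    · show c • h = _
      simp only at hh
      rw [hh, map_smul, map_smul, smul_mul_assoc]

lemma LD_mul {s t : ℤ} {d d' : D} {h h' : V.B} (H : (d, h) ∈ V.LD s) (H' : (d', h') ∈ V.LD t) :
    (d * d', h * h') ∈ V.LD (s + t) := by
  obtain ⟨a, ha, hh⟩ := H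
  obtain ⟨a', ha', hh'⟩ := H'
  simp only at ha ha' hh hh'
  refine ⟨a * V.cj s a', ?_, ?_⟩
  · show (a : D) * (V.x ^ s * a' * V.x ^ (-s)) = d * d' * V.x ^ (-(s + t))
    rw [ha, ha', neg_add, add_comm (-s), zpow_add₀ V.x0]
    calc d * V.x ^ (-s) * (V.x ^ s * (d' * V.x ^ (-t)) * V.x ^ (-s))
        = d * (V.x ^ (-s) * V.x ^ s) * d' * V.x ^ (-t) * V.x ^ (-s) := by simp only [mul_assoc]
      _ = _ := by
        rw [← zpow_add₀ V.x0, neg_add_cancel, zpow_zero, mul_one]
        simp only [mul_assoc]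
  · show h * h' = _
    rw [hh, hh', map_mul, map_mul, ← V.rc_res, ← V.τ_zpow, ← BB.sh_mul]
    calc BB.ι V.τ (V.res a) * BB.sh V.τ s * (BB.ι V.τ (V.res a') * BB.sh V.τ t)
        = BB.ι V.τ (V.res a) * (BB.sh V.τ s * BB.ι V.τ (V.res a')) * BB.sh V.τ t := by
          simp only [mul_assoc]
      _ = _ := by
        rw [BB.sh_ι]
        simp only [mul_assoc]

lemma LD_fst {s : ℤ} {d : D} {h : V.B} (H : (d, h) ∈ V.LD s) : d ∈ V.Fil s := by
  obtain ⟨a, ha, _⟩ := H
  simp only at ha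
  have h1 : d = a * V.x ^ s := by
    rw [ha, mul_assoc, ← zpow_add₀ V.x0, neg_add_cancel, zpow_zero, mul_one]
  rw [h1]
  exact V.Fil_cast (V.mul_zpow_mem a.2) (by ring)

lemma LD_zero {s : ℤ} {d : D} {h : V.B} (H : (d, h) ∈ V.LD s) (hd : d ∈ V.Fil (s - 1)) :
    h = 0 := by
  obtain ⟨a, ha, hh⟩ := H
  simp only at ha hh
  have h1 : V.res a = 0 := by
    rw [V.res_eq_zero, ha]
    exact V.Fil_cast (V.mul_zpow_mem hd) (by ring)
  rw [hh, h1, map_zero, zero_mul]

lemma LD_of_O (a : V.O) : ((a : D), BB.ι V.τ (V.res a)) ∈ V.LD 0 := by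
  refine ⟨a, ?_, ?_⟩
  · simp
  · rw [BB.sh_zero, mul_one]

lemma LD_x : (V.x, BB.sh V.τ 1) ∈ V.LD 1 := by
  refine ⟨1, ?_, ?_⟩
  · show (1 : D) = V.x * V.x ^ (-1 : ℤ)
    rw [zpow_neg_one, mul_inv_cancel₀ V.x0]
  · show BB.sh V.τ 1 = _
    rw [map_one, map_one, one_mul]

lemma LD_exists {d : D} (hd : d ≠ 0) : ∃ (s : ℤ) (z : (V.B)ˣ), (d, (z : V.B)) ∈ V.LD s ∧
    (z : V.B) ∈ BB.Eg V.τ s := by
  obtain ⟨s, hs1, hs2⟩ := V.ex d hd
  have h1 : d * V.x ^ (-s) ∈ V.Fil 0 := V.Fil_cast (V.mul_zpow_mem hs1) (by ring)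
  have h2 : V.res ⟨_, h1⟩ ≠ 0 := by
    intro h
    rw [V.res_eq_zero] at h
    apply V.one_nmem
    have h3 : d ∈ V.Fil (s - 1) := by
      have e : d = d * V.x ^ (-s) * V.x ^ s := by
        rw [mul_assoc, ← zpow_add₀ V.x0, neg_add_cancel, zpow_zero, mul_one]
      rw [e]
      exact V.Fil_cast (V.mul_zpow_mem h) (by ring)
    have h4 := V.mul_mem h3 hs2
    rw [mul_inv_cancel₀ hd] at h4
    exact V.Fil_cast h4 (by ring)
  have hu : IsUnit (BB.ι V.τ (V.res ⟨_, h1⟩)) := (IsUnit.mk0 _ h2).map (BB.ι V.τ)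
  refine ⟨s, hu.unit * BB.shU V.τ s, ⟨⟨_, h1⟩, rfl, rfl⟩, ?_⟩
  exact (BB.mem_Eg V.τ).mpr ⟨_, rfl⟩

lemma LD_indep {ι : Type*} [Fintype ι] (d : ι → D) (h : ι → V.B) (s : ι → ℤ)
    (H : ∀ i, (d i, h i) ∈ V.LD (s i)) (hind : LinearIndependent k h) :
    LinearIndependent k d := by
  classical
  rw [Fintype.linearIndependent_iff]
  intro c hc
  by_contra hcon
  push Not at hcon
  set J := Finset.univ.filter (fun i => c i ≠ 0) with hJ
  have hJne : J.Nonempty := by
    obtain ⟨i, hi⟩ := hcon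
    exact ⟨i, by simp [hJ, hi]⟩
  obtain ⟨i₀, hi₀, hmax⟩ := Finset.exists_max_image J s hJne
  set S := s i₀ with hS
  set K := J.filter (fun i => s i = S) with hK
  have h0 : ∑ i ∈ J, c i • d i = 0 := by
    have h1 : ∑ i ∈ J, c i • d i = ∑ i, c i • d i := by
      apply Finset.sum_subset (Finset.subset_univ _)
      intro i _ hi
      have : c i = 0 := by
        by_contra h
        exact hi (by simp [hJ, h])
      rw [this, zero_smul]
    rw [h1, hc]
  have h1 : ∑ i ∈ K, c i • d i ∈ V.Fil (S - 1) := by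
    have e1 : ∑ i ∈ J \ K, c i • d i + ∑ i ∈ K, c i • d i = 0 := by
      rw [Finset.sum_sdiff (Finset.filter_subset _ _), h0]
    have e : ∑ i ∈ K, c i • d i = -(∑ i ∈ J \ K, c i • d i) :=
      eq_neg_of_add_eq_zero_right e1
    rw [e]
    apply neg_mem
    apply Submodule.sum_mem
    intro i hi
    apply Submodule.smul_mem
    have hiJ : i ∈ J := (Finset.mem_sdiff.mp hi).1
    have hlt : s i < S := by
      refine lt_of_le_of_ne (hmax i hiJ) ?_
      intro h
      exact (Finset.mem_sdiff.mp hi).2 (Finset.mem_filter.mpr ⟨hiJ, h⟩)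
    exact V.mono (by omega) (V.LD_fst (H i))
  have h2 : (∑ i ∈ K, c i • d i, ∑ i ∈ K, c i • h i) ∈ V.LD S := by
    have e : (∑ i ∈ K, c i • d i, ∑ i ∈ K, c i • h i) = ∑ i ∈ K, c i • (d i, h i) := by
      rw [Prod.ext_iff]
      constructor
      · rw [Prod.fst_sum]
        rfl
      · rw [Prod.snd_sum]
        rfl
    rw [e]
    apply Submodule.sum_mem
    intro i hi
    apply Submodule.smul_mem
    have h3 : s i = S := (Finset.mem_filter.mp hi).2
    rw [← h3]
    exact H i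
  have h3 := V.LD_zero h2 h1
  have h4 := (linearIndependent_iff'.mp hind) K c h3 i₀ (Finset.mem_filter.mpr ⟨hi₀, rfl⟩)
  have h5 : c i₀ ≠ 0 := by
    have := hi₀
    simp only [hJ, Finset.mem_filter, Finset.mem_univ, true_and] at this
    exact this
  exact h5 h4

lemma compare (W : Submodule k V.Res) (fdW : FiniteDimensional k W) (oneW : (1 : V.Res) ∈ W)
    (u : V.Res) (uW : u ∈ W) (tr : Transcendental k u)
    (W' : Submodule k D) (fdW' : FiniteDimensional k W')
    (hW' : ∀ w ∈ W, ∃ a : V.O, (a : D) ∈ W' ∧ V.res a = w)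
    (z : (V.B)ˣ) (m : ℤ) (zE : (z : V.B) ∈ BB.Eg V.τ m) (b : D)
    (hb : (b, (z : V.B)) ∈ V.LD m) (n : ℕ) :
    finrank k ((BB.setup V.τ W fdW oneW u uW tr z m zE).A ^ n : Submodule k V.B) ≤
      finrank k ((BW W' b V.x) ^ n : Submodule k D) := by
  classical
  set T := BB.setup V.τ W fdW oneW u uW tr z m zE with hT
  set B := BW W' b V.x with hB
  let Hs : ℕ → Set V.B := fun n => {h | h ∈ (T.A ^ n : Submodule k V.B) ∧
    ∃ d ∈ (B ^ n : Submodule k D), ∃ s, (d, h) ∈ V.LD s}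
  have fdB : FiniteDimensional k B := by
    rw [hB]
    unfold BW
    infer_instance
  have fdBn : ∀ n, FiniteDimensional k (B ^ n : Submodule k D) := fun n =>
    (Submodule.fg_iff_finiteDimensional _).mp
      (((Submodule.fg_iff_finiteDimensional B).mpr fdB).pow n)
  have key : ∀ n, (T.A ^ n : Submodule k V.B) ≤ span k (Hs n) := by
    intro n
    induction n with
    | zero =>
      rw [pow_zero, Submodule.one_eq_span]
      apply span_mono
      rintro y hy
      rw [Set.mem_singleton_iff] at hy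
      subst hy
      refine ⟨?_, 1, ?_, 0, ?_⟩
      · rw [pow_zero]; exact Submodule.one_le.mp le_rfl
      · rw [pow_zero]; exact Submodule.one_le.mp le_rfl
      · have := V.LD_of_O 1
        rw [map_one, map_one] at this
        exact this
    | succ n ih =>
      rw [pow_succ', Submodule.mul_le]
      intro a ha y hy
      have hy2 := ih hy
      induction hy2 using Submodule.span_induction with
      | mem h hh =>
        obtain ⟨hA, d, hd, s, hL⟩ := hh
        have hA' : ∀ a ∈ T.A, a * h ∈ (T.A ^ (n + 1) : Submodule k V.B) := by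
          intro a ha
          rw [pow_succ']
          exact Submodule.mul_mem_mul ha hA
        have hBm : ∀ a ∈ B, a * d ∈ (B ^ (n + 1) : Submodule k D) := by
          intro a ha
          rw [pow_succ']
          exact Submodule.mul_mem_mul ha hd
        obtain ⟨_, ⟨_, ⟨w, hw, rfl⟩, rfl⟩, _, ⟨_, ⟨w', hw', rfl⟩, rfl⟩, rfl⟩ :=
          Submodule.mem_sup.mp ha
        rw [add_mul]
        apply add_mem
        · obtain ⟨a, ha, hres⟩ := hW' w hw
          apply subset_span
          refine ⟨hA' _ (T.zw_mem hw), b * a * d, hBm _ ?_, m + 0 + s, ?_⟩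
          · exact (le_sup_left : _ ≤ B) ⟨a, ha, rfl⟩
          · have h1 := V.LD_of_O a
            rw [hres] at h1
            exact V.LD_mul (V.LD_mul hb h1) hL
        · obtain ⟨a, ha, hres⟩ := hW' w' hw'
          apply subset_span
          refine ⟨hA' _ (T.zxw_mem hw'), b * V.x * a * d, hBm _ ?_, m + 1 + 0 + s, ?_⟩
          · exact (le_sup_right : _ ≤ B) ⟨a, ha, rfl⟩
          · have h1 := V.LD_of_O a
            rw [hres] at h1
            exact V.LD_mul (V.LD_mul (V.LD_mul hb V.LD_x) h1) hL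
      | zero =>
        rw [mul_zero]
        exact Submodule.zero_mem _
      | add y₁ y₂ h₁ h₂ i₁ i₂ =>
        rw [mul_add]
        have hle : span k (Hs n) ≤ T.A ^ n := span_le.mpr (fun h hh => hh.1)
        exact add_mem (i₁ (hle h₁)) (i₂ (hle h₂))
      | smul c y h₁ i₁ =>
        have hle : span k (Hs n) ≤ T.A ^ n := span_le.mpr (fun h hh => hh.1)
        rw [mul_smul_comm]
        exact Submodule.smul_mem _ c (i₁ (hle h₁))
  have hle : span k (Hs n) ≤ T.A ^ n := span_le.mpr (fun h hh => hh.1)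
  have heq : (T.A ^ n : Submodule k V.B) = span k (Hs n) := le_antisymm (key n) hle
  have fdA := T.fdApow n
  obtain ⟨S, hS, hspan, hli⟩ := exists_linearIndependent k (Hs n)
  have hli2 : LinearIndependent k (fun y : S => (⟨y.1, (hS y.2).1⟩ : (T.A ^ n : Submodule k V.B))) := by
    apply LinearIndependent.of_comp (T.A ^ n : Submodule k V.B).subtype
    exact hli
  have hfin : Finite S := hli2.finite
  letI := Fintype.ofFinite S
  have hcard : finrank k (T.A ^ n : Submodule k V.B) = Fintype.card S := by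
    rw [heq, ← hspan, finrank_span_set_eq_card hli]
    simp
  rw [hcard]
  choose d hd s hL using fun y : S => (hS y.2).2
  have h1 : LinearIndependent k d := V.LD_indep d (fun y : S => (y : V.B)) s hL hli
  have fdBn' := fdBn n
  have h2 : LinearIndependent k (fun y : S => (⟨d y, hd y⟩ : (B ^ n : Submodule k D))) := by
    apply LinearIndependent.of_comp (B ^ n : Submodule k D).subtype
    exact h1
  exact h2.fintype_card_le_finrank

/-- lifting finite-dimensional subspaces of the residue ring -/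
lemma exists_lift (W : Submodule k V.Res) (fdW : FiniteDimensional k W) :
    ∃ W' : Submodule k D, FiniteDimensional k W' ∧
      ∀ w ∈ W, ∃ a : V.O, (a : D) ∈ W' ∧ V.res a = w := by
  classical
  obtain ⟨t, ht⟩ := (Submodule.fg_iff_finiteDimensional W).mpr fdW
  choose g hg using V.res_surj
  refine ⟨span k ((fun e => ((g e : V.O) : D)) '' (t : Set V.Res)),
    FiniteDimensional.span_of_finite k (t.finite_toSet.image _), ?_⟩
  intro w hw
  rw [← ht] at hw
  induction hw using Submodule.span_induction with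
  | mem y hy => exact ⟨g y, subset_span ⟨y, hy, rfl⟩, hg y⟩
  | zero => exact ⟨0, Submodule.zero_mem _, map_zero _⟩
  | add a b _ _ ha hb =>
    obtain ⟨a', ha', rfl⟩ := ha
    obtain ⟨b', hb', rfl⟩ := hb
    exact ⟨a' + b', Submodule.add_mem _ ha' hb', map_add _ _ _⟩
  | smul c a _ ha =>
    obtain ⟨a', ha', rfl⟩ := ha
    exact ⟨c • a', Submodule.smul_mem _ c ha', map_smul _ _ _⟩

omit V in
lemma BW_eq (W : Submodule k D) (b x : D) :
    BW W b x = (W ⊔ W.map (LinearMap.mulLeft k x)).map (LinearMap.mulLeft k b) := by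
  show W.map (LinearMap.mulLeft k b) ⊔ W.map (LinearMap.mulLeft k (b * x)) =
      (W ⊔ W.map (LinearMap.mulLeft k x)).map (LinearMap.mulLeft k b)
  rw [Submodule.map_sup, ← Submodule.map_comp]
  congr 2
  ext y
  simp [mul_assoc]

/-- Valuation theorem: in a division algebra with `Tdeg D < 3`, the residue division ring of a
discrete valuation is locally finite over `k(u)`, compatibly with conjugation by a uniformiser. -/
theorem stable (hT : Tdeg k D < 3) (W : Submodule k V.Res) (fdW : FiniteDimensional k W)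
    (oneW : (1 : V.Res) ∈ W) (u : V.Res) (uW : u ∈ W) (tr : Transcendental k u) :
    ∃ F : Subfield V.Res, (∀ c : k, algebraMap k V.Res c ∈ F) ∧ (∀ w ∈ W, w ∈ F) ∧
      Subfield.closure (Set.range (algebraMap k V.Res) ∪ {u}) ≤ F ∧
      (∀ y ∈ F, V.rc 1 y ∈ F ∧ V.rc (-1) y ∈ F) ∧
      Module.Finite (Subfield.closure (Set.range (algebraMap k V.Res) ∪ {u}))
        (span (Subfield.closure (Set.range (algebraMap k V.Res) ∪ {u})) (F : Set V.Res)) := by
  obtain ⟨W₁, fdW₁, hW₁⟩ := V.exists_lift W fdW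
  let W' : Submodule k D := W₁ ⊔ span k {1}
  have fdW' : FiniteDimensional k W' := by
    have : FiniteDimensional k (span k ({1} : Set D)) :=
      FiniteDimensional.span_of_finite k (Set.finite_singleton _)
    show FiniteDimensional k ((W₁ ⊔ span k {1} : Submodule k D))
    infer_instance
  have oneW' : (1 : D) ∈ W' := (le_sup_right : span k {(1 : D)} ≤ W') (subset_span rfl)
  have hW' : ∀ w ∈ W, ∃ a : V.O, (a : D) ∈ W' ∧ V.res a = w := by
    intro w hw
    obtain ⟨a, ha, hr⟩ := hW₁ w hw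
    exact ⟨a, (le_sup_left : W₁ ≤ W') ha, hr⟩
  let V₀ : Submodule k D := W' ⊔ W'.map (LinearMap.mulLeft k V.x)
  have fdV : FiniteDimensional k V₀ := by
    show FiniteDimensional k ((W' ⊔ W'.map (LinearMap.mulLeft k V.x) : Submodule k D))
    infer_instance
  have oneV : (1 : D) ∈ V₀ := (le_sup_left : W' ≤ V₀) oneW'
  obtain ⟨b, hb, q, n₀, hgr⟩ := tdeg_extract hT V₀ fdV oneV
  have hBW : BW W' b V.x = V₀.map (LinearMap.mulLeft k b) := BW_eq W' b V.x
  obtain ⟨m, z, hL, hzE⟩ := V.LD_exists hb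
  obtain ⟨F, h1, h2, h3, h4, h5⟩ := (BB.setup V.τ W fdW oneW u uW tr z m hzE).main q n₀
    (fun n hn => (Nat.pow_le_pow_left (V.compare W fdW oneW u uW tr W' fdW' hW' z m hzE b hL n)
      (q + 1)).trans (by rw [hBW]; exact hgr n hn))
  refine ⟨F, h1, h2, h3, ?_, h5⟩
  intro y hy
  have h6 := h4 y hy
  have e1 : (V.τ ^ (1 : ℤ)) y = V.rc 1 y := V.τ_zpow 1 y
  have e2 : (V.τ ^ (-1 : ℤ)) y = V.rc (-1) y := V.τ_zpow (-1) y
  rw [← e1, ← e2, zpow_one, zpow_neg_one]
  exact h6

end DV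

end Run7.h134
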