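import Pool.Agent.Run7.h134.Order

set_option autoImplicit false
set_option linter.style.haveILetI false

namespace Run7.h134

open Module Submodule Polynomial

section

variable {k B : Type*} [Field k] [DivisionRing B] [Algebra k B]

/-- a central transcendental element fixed by an automorphism -/
lemma exists_fixed [Finite k] {u : B} (htr : Transcendental k u)
    (hfin : Module.Finite (La k u) B) (σ : B ≃+* B)
    (hσ : ∀ c : k, σ (algebraMap k B c) = algebraMap k B c) :
    ∃ z : B, (∀ y, z * y = y * z) ∧ Transcendental k z ∧ σ z = z := by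
  classical
  obtain ⟨f, hf, htrf⟩ := exists_central htr hfin
  have hfinf := exchange hf htrf hfin
  obtain ⟨N, hN, hσN⟩ := finite_order hf htrf hfinf σ hσ
  let Z := Subalgebra.center k B
  have hZ : ∀ z : B, z ∈ Z ↔ ∀ y, z * y = y * z := by
    intro z
    rw [Subalgebra.mem_center_iff]
    exact ⟨fun h y => (h y).symm, fun h y => (h y).symm⟩
  have hσZ : ∀ z ∈ Z, σ z ∈ Z := by
    intro z hz
    rw [hZ] at hz ⊢
    intro y
    have := hz (σ.symm y)
    have h2 := congrArg σ this
    rw [map_mul, map_mul, RingEquiv.apply_symm_apply] at h2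
    exact h2
  let σZ : Z →+* Z :=
    { toFun := fun z => ⟨σ z, hσZ z z.2⟩
      map_one' := Subtype.ext (map_one σ)
      map_mul' := fun a b => Subtype.ext (map_mul σ _ _)
      map_zero' := Subtype.ext (map_zero σ)
      map_add' := fun a b => Subtype.ext (map_add σ _ _) }
  have hσi : ∀ i : ℕ, (σ ^ i) f ∈ Z := by
    intro i
    induction i with
    | zero => exact (hZ f).mpr hf
    | succ i ih =>
      rw [pow_succ']
      exact hσZ _ ih
  let g : ℕ → Z[X] := fun i => X - C ⟨(σ ^ i) f, hσi i⟩
  let P : Z[X] := ∏ i ∈ Finset.range N, g i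
  have hgmap : ∀ i, (g i).map σZ = g (i + 1) := by
    intro i
    simp only [g, Polynomial.map_sub, Polynomial.map_X, Polynomial.map_C]
    congr 2
    apply Subtype.ext
    show σ ((σ ^ i) f) = (σ ^ (i + 1)) f
    rw [pow_succ']
    rfl
  have hgN : g N = g 0 := by
    simp only [g]
    congr 2
    apply Subtype.ext
    show (σ ^ N) f = (σ ^ 0) f
    rw [hσN, pow_zero]
    rfl
  have hPmap : P.map σZ = P := by
    simp only [P, Polynomial.map_prod, hgmap]
    obtain ⟨M, rfl⟩ : ∃ M, N = M + 1 := ⟨N - 1, by omega⟩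
    rw [Finset.prod_range_succ, Finset.prod_range_succ' g, hgN]
  have hcoeff : ∀ j, σZ (P.coeff j) = P.coeff j := by
    intro j
    rw [← Polynomial.coeff_map, hPmap]
  by_cases hex : ∃ j, Transcendental k (P.coeff j)
  · obtain ⟨j, hj⟩ := hex
    refine ⟨P.coeff j, (hZ _).mp (P.coeff j).2, ?_, congrArg Subtype.val (hcoeff j)⟩
    intro h
    apply hj
    obtain ⟨p, hp, hpe⟩ := h
    refine ⟨p, hp, ?_⟩
    have h3 : aeval (Z.val (P.coeff j)) p = 0 := hpe
    rw [Polynomial.aeval_algHom_apply] at h3
    exact Subtype.ext h3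
  · exfalso
    push Not at hex
    have hint : ∀ j, P.coeff j ∈ integralClosure k Z := by
      intro j
      have := hex j
      rw [Transcendental, not_not] at this
      exact this.isIntegral
    have hPm : P.Monic := monic_prod_of_monic _ _ (fun i _ => monic_X_sub_C _)
    have hcs : (P.coeffs : Set Z) ⊆ (integralClosure k Z).toSubring := by
      intro c hc
      rw [Finset.mem_coe, Polynomial.mem_coeffs_iff] at hc
      obtain ⟨j, _, rfl⟩ := hc
      exact hint j
    let f₀ : Z := ⟨f, (hZ f).mpr hf⟩
    have hroot : P.eval f₀ = 0 := by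
      simp only [P, Polynomial.eval_prod]
      apply Finset.prod_eq_zero (Finset.mem_range.mpr hN)
      simp only [g, eval_sub, eval_X, eval_C]
      rw [sub_eq_zero]
      rfl
    have h1 : IsIntegral (integralClosure k Z) f₀ := by
      refine ⟨P.toSubring (integralClosure k Z).toSubring hcs,
        (Polynomial.monic_toSubring _ _ _).mpr hPm, ?_⟩
      have h2 : eval₂ (integralClosure k Z).toSubring.subtype f₀
          (P.toSubring (integralClosure k Z).toSubring hcs) = 0 := by
        rw [← Polynomial.eval_map, Polynomial.map_toSubring, hroot]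
      exact h2
    have h2 : IsIntegral k f₀ := isIntegral_trans (A := integralClosure k Z) f₀ h1
    have h3 : IsAlgebraic k (Z.val f₀) := h2.isAlgebraic.algHom Z.val
    exact htrf h3

/-- Fitting decomposition for `ad z` -/
lemma fitting (hfin : Module.Finite (Subring.center B) B) (z v : B) :
    ∃ (n : ℕ) (v₀ g : B), v = v₀ + (z * g - g * z) ∧ (fun y => z * y - y * z)^[n] v₀ = 0 := by
  let T : Module.End (Subring.center B) B :=
    { toFun := fun y => z * y - y * z
      map_add' := fun a b => by noncomm_ring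
      map_smul' := fun c a => by
        show z * ((c : B) * a) - (c : B) * a * z = (c : B) * (z * a - a * z)
        have h := (Subring.mem_center_iff.mp c.2) z
        rw [mul_sub, ← mul_assoc, h, mul_assoc, mul_assoc] }
  have hT : ∀ y, T y = z * y - y * z := fun y => rfl
  have h1 := LinearMap.eventually_isCompl_ker_pow_range_pow T
  obtain ⟨n, hn⟩ := (h1.and (Filter.eventually_ge_atTop 1)).exists
  obtain ⟨hc, hn1⟩ := hn
  have h2 : v ∈ LinearMap.ker (T ^ n) ⊔ LinearMap.range (T ^ n) := by
    rw [hc.sup_eq_top]; trivial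
  obtain ⟨v₀, hv₀, _, ⟨y, rfl⟩, hv⟩ := Submodule.mem_sup.mp h2
  obtain ⟨m, rfl⟩ : ∃ m, n = m + 1 := ⟨n - 1, by omega⟩
  refine ⟨m + 1, v₀, (T ^ m) y, ?_, ?_⟩
  · rw [← hv, pow_succ' T m]
    rfl
  · rw [LinearMap.mem_ker, Module.End.pow_apply] at hv₀
    exact hv₀

/-- in positive characteristic, `ad`-nilpotent elements commute with a power -/
lemma comm_of_ad [Finite k] (z y : B) (n : ℕ) (h : (fun y => z * y - y * z)^[n] y = 0) :
    ∃ N, 1 ≤ N ∧ z ^ N * y = y * z ^ N := by
  obtain ⟨p, hp⟩ := CharP.exists k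
  have hpp : p.Prime := CharP.char_is_prime k p
  have : Fact p.Prime := ⟨hpp⟩
  have hB : CharP (Module.End k B) p :=
    charP_of_injective_algebraMap (algebraMap k (Module.End k B)).injective p
  let T : Module.End k B := LinearMap.mulLeft k z - LinearMap.mulRight k z
  have hT : ∀ m, ∀ y, (T ^ m) y = (fun y => z * y - y * z)^[m] y := by
    intro m y
    rw [Module.End.pow_apply]
    rfl
  refine ⟨p ^ n, Nat.one_le_pow _ _ hpp.pos, ?_⟩
  have hle : n ≤ p ^ n := (Nat.lt_pow_self hpp.one_lt).le
  have h1 : (T ^ (p ^ n)) y = 0 := by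
    obtain ⟨m, hm⟩ := Nat.exists_eq_add_of_le hle
    rw [hm, add_comm, pow_add]
    show (T ^ m) ((T ^ n) y) = 0
    rw [hT n, h, map_zero]
  have hcomm : Commute (LinearMap.mulLeft k z) (LinearMap.mulRight k z) := by
    show _ * _ = _ * _
    apply LinearMap.ext
    intro w
    show z * (w * z) = z * w * z
    rw [mul_assoc]
  have h2 : T ^ (p ^ n) = LinearMap.mulLeft k (z ^ (p ^ n)) - LinearMap.mulRight k (z ^ (p ^ n)) := by
    show (LinearMap.mulLeft k z - LinearMap.mulRight k z) ^ (p ^ n) = _
    rw [sub_pow_char_pow_of_commute p n hcomm, LinearMap.pow_mulLeft, LinearMap.pow_mulRight]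
  rw [h2] at h1
  exact sub_eq_zero.mp h1

end

end Run7.h134
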