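import Pool.Agent.Run7.h134.Spans
import Pool.Agent.Run7.h134.Window

set_option autoImplicit false
set_option linter.style.haveILetI false

namespace Run7.h134

open Module Submodule

section HN

variable {k S M : Type*} [Field k] [DivisionRing S] [Algebra k S] [AddCommGroup M]
  [Module k M] [Module S M] [IsScalarTower k S M]

/-- `dim_k (P ∩ T)` -/
noncomputable def ph (P : Submodule k M) (T : Submodule S M) : ℕ :=
  finrank k ((P ⊓ T.restrictScalars k : Submodule k M))

lemma ph_le (P : Submodule k M) [FiniteDimensional k P] (T : Submodule S M) :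
    ph P T ≤ finrank k P := Submodule.finrank_mono inf_le_left

lemma fd_inf (P : Submodule k M) [FiniteDimensional k P] (T : Submodule S M) :
    FiniteDimensional k ((P ⊓ T.restrictScalars k : Submodule k M)) :=
  Submodule.finiteDimensional_of_le inf_le_left

lemma ph_mono (P : Submodule k M) [FiniteDimensional k P] {Y T : Submodule S M} (h : Y ≤ T) :
    ph P Y ≤ ph P T := by
  have := fd_inf P T
  exact Submodule.finrank_mono (inf_le_inf le_rfl (fun y hy => h hy))

lemma ph_bot (P : Submodule k M) : ph P (⊥ : Submodule S M) = 0 := by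
  unfold ph
  have : (P ⊓ (⊥ : Submodule S M).restrictScalars k : Submodule k M) = ⊥ := by
    rw [eq_bot_iff]
    rintro y ⟨_, hy⟩
    exact hy
  rw [this, finrank_bot]

lemma ph_super (P : Submodule k M) [FiniteDimensional k P] (T₁ T₂ : Submodule S M) :
    ph P T₁ + ph P T₂ ≤ ph P (T₁ ⊔ T₂) + ph P (T₁ ⊓ T₂) := by
  have f1 := fd_inf P T₁
  have f2 := fd_inf P T₂
  have f3 := fd_inf P (T₁ ⊔ T₂)
  have h := Submodule.finrank_sup_add_finrank_inf_eq (P ⊓ T₁.restrictScalars k)
    (P ⊓ T₂.restrictScalars k)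
  have h1 : finrank k ((P ⊓ T₁.restrictScalars k) ⊔ (P ⊓ T₂.restrictScalars k) : Submodule k M) ≤
      ph P (T₁ ⊔ T₂) := by
    apply Submodule.finrank_mono
    apply sup_le
    · exact inf_le_inf le_rfl (fun y hy => (le_sup_left : T₁ ≤ T₁ ⊔ T₂) hy)
    · exact inf_le_inf le_rfl (fun y hy => (le_sup_right : T₂ ≤ T₁ ⊔ T₂) hy)
  have h2 : finrank k ((P ⊓ T₁.restrictScalars k) ⊓ (P ⊓ T₂.restrictScalars k) : Submodule k M) ≤
      ph P (T₁ ⊓ T₂) := by
    have := fd_inf P (T₁ ⊓ T₂)
    apply Submodule.finrank_mono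
    rintro y ⟨⟨h1, h2⟩, ⟨_, h3⟩⟩
    exact ⟨h1, h2, h3⟩
  unfold ph at *
  omega

/-- the property `𝒬_a` -/
def QQ (a : ℕ) (P : Submodule k M) (T : Submodule S M) : Prop :=
  Module.Finite S T ∧ ∀ Y ≤ T, a * finrank S T + ph P Y ≤ ph P T + a * finrank S Y

lemma QQ_bot (a : ℕ) (P : Submodule k M) : QQ a P (⊥ : Submodule S M) := by
  refine ⟨inferInstance, ?_⟩
  intro Y hY
  have : Y = ⊥ := le_bot_iff.mp hY
  subst this
  rw [finrank_bot]
  omega

lemma QQ.step {a : ℕ} {P : Submodule k M} [FiniteDimensional k P] {T Y : Submodule S M}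
    (h : QQ a P T) (hY : Module.Finite S Y) :
    a * finrank S (Y ⊔ T : Submodule S M) + ph P Y ≤ ph P (Y ⊔ T) + a * finrank S Y := by
  have hT := h.1
  have h1 := h.2 (Y ⊓ T) inf_le_right
  have h2 := Submodule.finrank_sup_add_finrank_inf_eq Y T
  have h3 := ph_super P Y T
  have h4 : a * finrank S (Y ⊔ T : Submodule S M) + a * finrank S (Y ⊓ T : Submodule S M) =
      a * finrank S Y + a * finrank S T := by
    rw [← mul_add, h2, mul_add]
  omega

lemma QQ.sup {a : ℕ} {P : Submodule k M} [FiniteDimensional k P] {T₁ T₂ : Submodule S M}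
    (h₁ : QQ a P T₁) (h₂ : QQ a P T₂) : QQ a P (T₁ ⊔ T₂) := by
  have f1 := h₁.1
  have f2 := h₂.1
  refine ⟨inferInstance, ?_⟩
  intro Y hY
  have fY : Module.Finite S Y := Submodule.finiteDimensional_of_le hY
  have s1 := h₁.step fY
  have s2 := h₂.step (Y := Y ⊔ T₁) inferInstance
  have e : Y ⊔ T₁ ⊔ T₂ = T₁ ⊔ T₂ := by
    rw [sup_assoc]
    exact sup_eq_right.mpr hY
  rw [e] at s2
  omega

lemma QQ.mono_P {a : ℕ} {P P' : Submodule k M} [FiniteDimensional k P] [FiniteDimensional k P']
    (hP : P ≤ P') {T : Submodule S M} (h : QQ a P T) : QQ a P' T := by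
  refine ⟨h.1, ?_⟩
  intro Y hY
  have h1 := h.2 Y hY
  have f1 := fd_inf P T
  have f2 := fd_inf P' Y
  have f3 := fd_inf P' T
  have f4 := fd_inf P Y
  have h2 := Submodule.finrank_sup_add_finrank_inf_eq (P ⊓ T.restrictScalars k)
    (P' ⊓ Y.restrictScalars k)
  have h3 : finrank k ((P ⊓ T.restrictScalars k) ⊔ (P' ⊓ Y.restrictScalars k) : Submodule k M) ≤
      ph P' T := by
    apply Submodule.finrank_mono
    apply sup_le
    · exact inf_le_inf hP le_rfl
    · exact inf_le_inf le_rfl (fun y hy => hY hy)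
  have h4 : finrank k ((P ⊓ T.restrictScalars k) ⊓ (P' ⊓ Y.restrictScalars k) : Submodule k M) ≤
      ph P Y := by
    apply Submodule.finrank_mono
    rintro y ⟨⟨h1, _⟩, ⟨_, h3⟩⟩
    exact ⟨h1, h3⟩
  unfold ph at *
  omega

lemma QQ.anti {a a' : ℕ} (haa : a ≤ a') {P : Submodule k M} {T : Submodule S M}
    (h : QQ a' P T) : QQ a P T := by
  refine ⟨h.1, ?_⟩
  intro Y hY
  have fT := h.1
  have h1 := h.2 Y hY
  have h2 : finrank S Y ≤ finrank S T := Submodule.finrank_mono hY
  obtain ⟨s, hs⟩ := Nat.exists_eq_add_of_le h2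
  obtain ⟨b, hb⟩ := Nat.exists_eq_add_of_le haa
  rw [hs] at h1 ⊢
  rw [hb] at h1
  nlinarith [Nat.zero_le (b * s)]

lemma QQ.dim_le {a : ℕ} {P : Submodule k M} {T : Submodule S M}
    (h : QQ a P T) : a * finrank S T ≤ ph P T := by
  have h1 := h.2 ⊥ bot_le
  rw [ph_bot, finrank_bot] at h1
  omega

lemma QQ.map {a : ℕ} {P : Submodule k M} {T : Submodule S M} (φ : M →ₗ[S] M)
    (ψ : M →ₗ[k] M) (hψ : ∀ y, ψ y = φ y)
    (hφ : Function.Injective φ) (h : QQ a P T) : QQ a (P.map ψ) (T.map φ) := by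
  have hψi : Function.Injective ψ := by
    intro x y hxy
    rw [hψ, hψ] at hxy
    exact hφ hxy
  have key : ∀ Y : Submodule S M, ph (P.map ψ) (Y.map φ) = ph P Y := by
    intro Y
    unfold ph
    have : (P.map ψ ⊓ (Y.map φ).restrictScalars k : Submodule k M) =
        (P ⊓ Y.restrictScalars k).map ψ := by
      apply le_antisymm
      · rintro _ ⟨⟨y, hy, rfl⟩, ⟨z, hz, hzy⟩⟩
        rw [hψ] at hzy
        have := hφ hzy
        subst this
        exact ⟨z, ⟨hy, hz⟩, rfl⟩
      · rintro _ ⟨y, ⟨h1, h2⟩, rfl⟩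
        refine ⟨⟨y, h1, rfl⟩, ⟨y, h2, (hψ y).symm⟩⟩
    rw [this]
    exact (LinearEquiv.finrank_eq (Submodule.equivMapOfInjective ψ hψi _)).symm
  have fT := h.1
  refine ⟨inferInstance, ?_⟩
  intro Y hY
  have hY2 : Y = (Y.comap φ).map φ := by
    rw [Submodule.map_comap_eq, eq_comm, inf_eq_right]
    intro y hy
    obtain ⟨z, _, rfl⟩ := hY hy
    exact ⟨z, rfl⟩
  have hY3 : Y.comap φ ≤ T := by
    intro y hy
    obtain ⟨z, hz, hzy⟩ := hY hy
    rw [← hφ hzy]
    exact hz
  rw [hY2, key, key, finrank_map_injS φ hφ, finrank_map_injS φ hφ]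
  exact h.2 _ hY3

lemma exists_largest {a : ℕ} (ha : 1 ≤ a) (P : Submodule k M) [FiniteDimensional k P] :
    ∃ T : Submodule S M, QQ a P T ∧ ∀ T', QQ a P T' → T' ≤ T := by
  classical
  have hb : ∀ n : ℕ, (∃ T : Submodule S M, QQ a P T ∧ finrank S T = n) → n ≤ finrank k P := by
    rintro n ⟨T, hT, rfl⟩
    have h1 := hT.dim_le
    have h2 := ph_le P T
    have h3 : 1 * finrank S T ≤ a * finrank S T := Nat.mul_le_mul_right _ ha
    omega
  have hex : ∃ n, ∃ T : Submodule S M, QQ a P T ∧ finrank S T = n := ⟨_, ⊥, QQ_bot a P, rfl⟩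
  let N := Nat.findGreatest (fun n => ∃ T : Submodule S M, QQ a P T ∧ finrank S T = n)
    (finrank k P)
  have hN : ∃ T : Submodule S M, QQ a P T ∧ finrank S T = N := by
    obtain ⟨n, hn⟩ := hex
    exact Nat.findGreatest_spec (P := fun n => ∃ T : Submodule S M, QQ a P T ∧ finrank S T = n)
      (hb n hn) hn
  obtain ⟨T, hT, hTN⟩ := hN
  refine ⟨T, hT, ?_⟩
  intro T' hT'
  have h1 := hT.sup hT'
  have h2 : finrank S (T ⊔ T' : Submodule S M) ≤ N :=
    Nat.le_findGreatest (hb _ ⟨_, h1, rfl⟩) ⟨_, h1, rfl⟩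
  have f1 := h1.1
  have h3 : T = T ⊔ T' := Submodule.eq_of_le_of_finrank_le le_sup_left (by omega)
  rw [h3]
  exact le_sup_right

variable (S) in
/-- the largest subspace with `𝒬_a` -/
noncomputable def TT (a : ℕ) (P : Submodule k M) : Submodule S M := sSup {T | QQ a P T}

lemma TT_QQ {a : ℕ} (ha : 1 ≤ a) (P : Submodule k M) [FiniteDimensional k P] :
    QQ a P (TT S a P) := by
  obtain ⟨T, hT, hmax⟩ := exists_largest (S := S) ha P
  have : TT S a P = T := le_antisymm (sSup_le hmax) (le_sSup hT)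
  rw [this]
  exact hT

lemma le_TT {a : ℕ} {P : Submodule k M} {T : Submodule S M} (h : QQ a P T) : T ≤ TT S a P :=
  le_sSup h

lemma TT_max {a : ℕ} (ha : 1 ≤ a) (P : Submodule k M) [FiniteDimensional k P]
    (Z : Submodule S M) (hZ : Module.Finite S Z) :
    ph P Z + a * finrank S (TT S a P) ≤ ph P (TT S a P) + a * finrank S Z := by
  classical
  have hex : ∃ n, ∃ Y : Submodule S M, Module.Finite S Y ∧
      finrank k P + a * finrank S Y - ph P Y = n := ⟨_, Z, hZ, rfl⟩
  obtain ⟨Y, hY, hYn⟩ := Nat.find_spec hex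
  have hmin : ∀ Y' : Submodule S M, Module.Finite S Y' →
      finrank k P + a * finrank S Y - ph P Y ≤ finrank k P + a * finrank S Y' - ph P Y' := by
    intro Y' hY'
    rw [hYn]
    exact Nat.find_min' hex ⟨Y', hY', rfl⟩
  have hQ : QQ a P Y := by
    refine ⟨hY, ?_⟩
    intro Y' hY'
    have fY' : Module.Finite S Y' := Submodule.finiteDimensional_of_le hY'
    have h1 := hmin Y' fY'
    have h2 := ph_le P Y
    have h3 := ph_le P Y'
    omega
  have h4 := (TT_QQ (S := S) ha P).2 Y (le_TT hQ)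
  have h5 := hmin Z hZ
  have h6 := ph_le P Y
  have h7 := ph_le P Z
  omega

lemma TT_mono {a : ℕ} (ha : 1 ≤ a) {P P' : Submodule k M} [FiniteDimensional k P]
    [FiniteDimensional k P'] (h : P ≤ P') : TT S a P ≤ TT S a P' :=
  le_TT ((TT_QQ ha P).mono_P h)

lemma TT_anti {a a' : ℕ} (ha : 1 ≤ a) (h : a ≤ a') (P : Submodule k M) [FiniteDimensional k P] :
    TT S a' P ≤ TT S a P :=
  le_TT ((TT_QQ (ha.trans h) P).anti h)

lemma TT_map {a : ℕ} (ha : 1 ≤ a) (P : Submodule k M) [FiniteDimensional k P] (φ : M →ₗ[S] M)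
    (ψ : M →ₗ[k] M) (hψ : ∀ y, ψ y = φ y) (hφ : Function.Injective φ) :
    (TT S a P).map φ ≤ TT S a (P.map ψ) :=
  le_TT ((TT_QQ ha P).map φ ψ hψ hφ)

lemma TT_le_span {a : ℕ} (ha : 1 ≤ a) (P : Submodule k M) [FiniteDimensional k P] :
    TT S a P ≤ span S (P : Set M) := by
  have h := TT_QQ (S := S) ha P
  have fT := h.1
  have h1 := h.2 (TT S a P ⊓ span S (P : Set M)) inf_le_left
  have h2 : ph P (TT S a P ⊓ span S (P : Set M)) = ph P (TT S a P) := by
    unfold ph
    have : (P ⊓ (TT S a P ⊓ span S (P : Set M)).restrictScalars k : Submodule k M) =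
        P ⊓ (TT S a P).restrictScalars k := by
      apply le_antisymm
      · rintro y ⟨h1, h2, _⟩
        exact ⟨h1, h2⟩
      · rintro y ⟨h1, h2⟩
        exact ⟨h1, h2, subset_span h1⟩
    rw [this]
  rw [h2] at h1
  have h3 : a * finrank S (TT S a P) ≤ a * finrank S (TT S a P ⊓ span S (P : Set M) : Submodule S M) := by
    omega
  have h4 := Nat.le_of_mul_le_mul_left h3 (by omega)
  have h5 : TT S a P ⊓ span S (P : Set M) = TT S a P :=
    Submodule.eq_of_le_of_finrank_le inf_le_left h4
  rw [← h5]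
  exact inf_le_right

/-- `Σ_{a ≤ N} dim T_a ≤ dim P` -/
lemma sum_TT_le (P : Submodule k M) [FiniteDimensional k P] (N : ℕ) :
    ∑ a ∈ Finset.range N, finrank S (TT S (a + 1) P) ≤ finrank k P := by
  have key : ∀ N, ∑ a ∈ Finset.range (N + 1), finrank S (TT S (a + 1) P) + ph P (TT S (N + 1) P) ≤
      ph P (TT S 1 P) + (N + 1) * finrank S (TT S (N + 1) P) := by
    intro N
    induction N with
    | zero => simp [add_comm]
    | succ N ih =>
      rw [Finset.sum_range_succ]
      have h1 := (TT_QQ (S := S) (a := N + 1) (by omega) P).2 (TT S (N + 1 + 1) P)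
        (TT_anti (by omega) (by omega) P)
      have e : (N + 1 + 1) * finrank S (TT S (N + 1 + 1) P) =
        (N + 1) * finrank S (TT S (N + 1 + 1) P) + finrank S (TT S (N + 1 + 1) P) := by ring
      omega
  rcases Nat.eq_zero_or_pos N with h0 | h0
  · subst h0
    simp
  · obtain ⟨N', rfl⟩ : ∃ N', N = N' + 1 := ⟨N - 1, by omega⟩
    have h1 := key N'
    have h2 := (TT_QQ (S := S) (a := N' + 1) (by omega) P).dim_le
    have h3 := ph_le P (TT S 1 P)
    omega

/-- `dim P ≤ dim S P + Σ_{a ≤ N} dim T_a` for large `N` -/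
lemma le_sum_TT (P : Submodule k M) [FiniteDimensional k P] (N : ℕ) (hN : finrank k P ≤ N) :
    finrank k P ≤ finrank S (span S (P : Set M)) +
      ∑ a ∈ Finset.range N, finrank S (TT S (a + 1) P) := by
  have fS := span_eq_of_fg (S := S) P
  have h0 : ph P (span S (P : Set M)) = finrank k P := by
    unfold ph
    rw [inf_eq_left.mpr (fun y hy => subset_span hy)]
  have key : ∀ N, finrank k P + (N + 1) * finrank S (TT S (N + 1) P) ≤
      ph P (TT S (N + 1) P) + finrank S (span S (P : Set M)) +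
        ∑ a ∈ Finset.range N, finrank S (TT S (a + 1) P) := by
    intro N
    induction N with
    | zero =>
      have h1 := TT_max (S := S) (a := 1) le_rfl P (span S (P : Set M)) fS
      rw [h0] at h1
      simp
      omega
    | succ N ih =>
      rw [Finset.sum_range_succ]
      have f1 := (TT_QQ (S := S) (a := N + 1) (by omega) P).1
      have h1 := TT_max (S := S) (a := N + 1 + 1) (by omega) P (TT S (N + 1) P) f1
      have e : (N + 1 + 1) * finrank S (TT S (N + 1) P) =
        (N + 1) * finrank S (TT S (N + 1) P) + finrank S (TT S (N + 1) P) := by ring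
      omega
  have h1 := key N
  have h2 := (TT_QQ (S := S) (a := N + 1) (by omega) P).dim_le
  have h3 := ph_le P (TT S (N + 1) P)
  have h4 : finrank S (TT S (N + 1) P) = 0 := by
    by_contra h
    have h5 : (N + 1) * 1 ≤ (N + 1) * finrank S (TT S (N + 1) P) :=
      Nat.mul_le_mul_left _ (by omega)
    omega
  have f1 := (TT_QQ (S := S) (a := N + 1) (by omega) P).1
  have h5 : TT S (N + 1) P = ⊥ := Submodule.finrank_eq_zero.mp h4
  rw [h5, ph_bot, finrank_bot] at h1
  omega

lemma slope {a : ℕ} (ha : 1 ≤ a) (P : Submodule k M) [FiniteDimensional k P]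
    (h : TT S a P = ⊥) (Z : Submodule S M) (hZ : Module.Finite S Z) :
    ph P Z ≤ a * finrank S Z := by
  have h1 := TT_max ha P Z hZ
  rw [h, ph_bot, finrank_bot] at h1
  omega

end HN

section StrAbs

variable {L X : Type*} [DivisionRing L] [AddCommGroup X] [Module L X]

/-- the spaces `T + φT + ... + φ^n T` -/
def strL (φ : X →ₗ[L] X) (T : Submodule L X) : ℕ → Submodule L X
  | 0 => T
  | (n + 1) => strL φ T n ⊔ (strL φ T n).map φ

/-- abstract string lemma over a division ring -/
lemma string_abs (φ : X →ₗ[L] X) (hφ : Function.Injective φ) (T : Submodule L X)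
    (hT : Module.Finite L T) {ι : Type*} [Fintype ι] (t : ι → X) (ht : ∀ i, t i ∈ T)
    (hind : ∀ n : ℕ, LinearIndependent L (fun q : Fin (n + 1) × ι => (φ ^ (q.1 : ℕ)) (t q.2))) :
    finrank L T + Fintype.card ι ≤ finrank L ((T ⊔ T.map φ : Submodule L X)) := by
  have s0 : strL φ T 0 = T := rfl
  have s1 : ∀ n, strL φ T (n + 1) = strL φ T n ⊔ (strL φ T n).map φ := fun n => rfl
  have hfin : ∀ n, Module.Finite L ↥(strL φ T n) := by
    intro n
    induction n with
    | zero => exact hT
    | succ n ih =>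
      rw [s1]
      infer_instance
  have hconv : ∀ n, finrank L (strL φ T (n + 2)) + finrank L (strL φ T n) ≤ 2 * finrank L (strL φ T (n + 1)) := by
    intro n
    have f1 := hfin n
    have f2 := hfin (n + 1)
    have h1 := Submodule.finrank_sup_add_finrank_inf_eq (strL φ T (n + 1)) ((strL φ T (n + 1)).map φ)
    rw [← s1] at h1
    have h3 : (strL φ T n).map φ ≤ strL φ T (n + 1) ⊓ (strL φ T (n + 1)).map φ := by
      apply le_inf
      · rw [s1]; exact le_sup_right
      · apply Submodule.map_mono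
        rw [s1]; exact le_sup_left
    have h4 := Submodule.finrank_mono h3
    rw [finrank_map_injS φ hφ] at h4 h1
    have e2 : finrank L (strL φ T (n + 1 + 1)) = finrank L (strL φ T (n + 2)) := rfl
    omega
  have hdiff : ∀ n, finrank L (strL φ T (n + 1)) + finrank L T ≤
      finrank L (strL φ T n) + finrank L (strL φ T 1) := by
    intro n
    induction n with
    | zero => rw [s0, add_comm]
    | succ n ih =>
      have := hconv n
      have e2 : finrank L (strL φ T (n + 1 + 1)) = finrank L (strL φ T (n + 2)) := rfl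
      omega
  have hbound : ∀ n, finrank L (strL φ T n) + n * finrank L T ≤
      finrank L T + n * finrank L (strL φ T 1) := by
    intro n
    induction n with
    | zero => rw [s0]; simp
    | succ n ih =>
      have := hdiff n
      have e1 : (n + 1) * finrank L T = n * finrank L T + finrank L T := by ring
      have e2 : (n + 1) * finrank L (strL φ T 1) = n * finrank L (strL φ T 1) + finrank L (strL φ T 1) := by ring
      omega
  have hmem : ∀ n a, a ≤ n → ∀ y ∈ T, (φ ^ a) y ∈ strL φ T n := by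
    intro n
    induction n with
    | zero =>
      intro a ha y hy
      have : a = 0 := by omega
      subst this
      simpa [s0] using hy
    | succ n ih =>
      intro a ha y hy
      rw [s1]
      rcases Nat.eq_zero_or_pos a with h0 | h0
      · subst h0
        exact (le_sup_left : strL φ T n ≤ _) (ih 0 (by omega) y hy)
      · obtain ⟨b, rfl⟩ : ∃ b, a = b + 1 := ⟨a - 1, by omega⟩
        apply (le_sup_right : (strL φ T n).map φ ≤ _)
        refine ⟨(φ ^ b) y, ih b (by omega) y hy, ?_⟩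
        rw [pow_succ']
        rfl
  have key : ∀ n : ℕ, (n + 1) * Fintype.card ι ≤ finrank L (strL φ T n) := by
    intro n
    have f1 := hfin n
    have h3 : LinearIndependent L (fun q : Fin (n + 1) × ι =>
        (⟨(φ ^ (q.1 : ℕ)) (t q.2), hmem n q.1 (by have := q.1.2; omega) _ (ht _)⟩ : strL φ T n)) := by
      apply LinearIndependent.of_comp (strL φ T n).subtype
      exact hind n
    have h4 := h3.fintype_card_le_finrank
    simpa using h4
  show finrank L T + Fintype.card ι ≤ finrank L (strL φ T 1)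
  by_contra hcon
  push Not at hcon
  have h5 := hbound (finrank L T + 1)
  have h6 := key (finrank L T + 1)
  have h7 : (finrank L T + 1) * (finrank L (strL φ T 1) + 1) ≤
      (finrank L T + 1) * (finrank L T + Fintype.card ι) := Nat.mul_le_mul_left _ hcon
  nlinarith [h5, h6, h7]

end StrAbs

end Run7.h134
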