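import Pool.Agent.Run7.h134.Order

set_option autoImplicit false
set_option linter.style.haveILetI false

namespace Run7.h134

open Module Submodule Polynomial

lemma prod_univ_eq (K : Type*) [Field K] [Fintype K] :
    ∏ c : K, (X - C c) = (X ^ Fintype.card K - X : K[X]) := by
  have h1 := FiniteField.roots_X_pow_card_sub_X K
  have hmonic : (X ^ Fintype.card K - X : K[X]).Monic := by
    apply monic_X_pow_sub
    rw [degree_X]
    exact_mod_cast Fintype.one_lt_card
  have hdeg : (X ^ Fintype.card K - X : K[X]).natDegree = Fintype.card K :=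
    FiniteField.X_pow_card_sub_X_natDegree_eq K Fintype.one_lt_card
  have h2 := prod_multiset_X_sub_C_of_monic_of_roots_card_eq hmonic (by
    rw [h1, hdeg]
    rfl)
  rw [h1] at h2
  exact h2

lemma eig {K B : Type*} [Field K] [Finite K] [DivisionRing B] (ι : K →+* B) (a₀ : K)
    (hnc : ∃ y : B, ι a₀ * y ≠ y * ι a₀) : ∃ c : K, c ≠ a₀ ∧ ∃ y : B, y ≠ 0 ∧ y * ι a₀ = ι c * y := by
  classical
  letI := Fintype.ofFinite K
  letI : Module K B := Module.compHom B ι
  have hsmul : ∀ (c : K) (y : B), c • y = ι c * y := fun _ _ => rfl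
  let T : B →ₗ[K] B :=
    { toFun := fun y => y * ι a₀
      map_add' := fun a b => add_mul a b _
      map_smul' := fun c a => by
        show (c • a) * ι a₀ = c • (a * ι a₀)
        rw [hsmul, hsmul, mul_assoc] }
  have hT : ∀ y, T y = y * ι a₀ := fun _ => rfl
  have hTpow : ∀ n y, (T ^ n) y = y * ι a₀ ^ n := by
    intro n
    induction n with
    | zero => intro y; simp
    | succ n ih =>
      intro y
      rw [pow_succ]
      show (T ^ n) (T y) = _
      rw [ih, hT, mul_assoc, ← pow_succ']
  have key : ∀ s : Finset K, ∀ w : B, w ≠ 0 → aeval T (∏ c ∈ s, (X - C c)) w = 0 →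
      ∃ c ∈ s, ∃ y : B, y ≠ 0 ∧ T y = c • y := by
    intro s
    induction s using Finset.induction_on with
    | empty =>
      intro w hw h
      exfalso
      apply hw
      simpa using h
    | insert c s hc ih =>
      intro w hw h
      rw [Finset.prod_insert hc, map_mul] at h
      by_cases h0 : aeval T (∏ c ∈ s, (X - C c)) w = 0
      · obtain ⟨c', hc', y, hy, hTy⟩ := ih w hw h0
        exact ⟨c', Finset.mem_insert_of_mem hc', y, hy, hTy⟩
      · refine ⟨c, Finset.mem_insert_self c s, _, h0, ?_⟩
        have h1 : aeval T (X - C c) (aeval T (∏ c ∈ s, (X - C c)) w) = 0 := h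
        rw [map_sub, aeval_X, aeval_C] at h1
        exact sub_eq_zero.mp h1
  obtain ⟨y₀, hy₀⟩ := hnc
  have hw : y₀ * ι a₀ - ι a₀ * y₀ ≠ 0 := fun h => hy₀ (sub_eq_zero.mp h).symm
  have h1 : aeval T (∏ c : K, (X - C c)) y₀ = 0 := by
    rw [prod_univ_eq, map_sub, map_pow, aeval_X]
    show (T ^ Fintype.card K) y₀ - T y₀ = 0
    rw [hTpow, hT, ← map_pow, FiniteField.pow_card, sub_self]
  rw [← Finset.mul_prod_erase Finset.univ _ (Finset.mem_univ a₀), mul_comm, map_mul] at h1
  have h2 : aeval T (∏ c ∈ Finset.univ.erase a₀, (X - C c)) (y₀ * ι a₀ - ι a₀ * y₀) = 0 := by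
    have e : aeval T (X - C a₀) y₀ = y₀ * ι a₀ - ι a₀ * y₀ := by
      rw [map_sub, aeval_X, aeval_C]
      rfl
    rw [← e]
    exact h1
  obtain ⟨c, hc, y, hy, hTy⟩ := key _ _ hw h2
  exact ⟨c, Finset.ne_of_mem_erase hc, y, hy, hTy⟩

section

variable {k B : Type*} [Field k] [DivisionRing B] [Algebra k B]

/-- adjoining an algebraic normalising element to a finite subfield gives a finite subfield -/
lemma finite_adj (K : Subfield B) (hK : Finite K) (hkK : ∀ c : k, algebraMap k B c ∈ K) (y : B)
    (hy0 : y ≠ 0) (hconj : ∀ b ∈ K, y * b * y⁻¹ ∈ K) (hy : IsAlgebraic k y) :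
    Finite (Subfield.closure ((K : Set B) ∪ {y})) := by
  classical
  obtain ⟨p, hp, hpe⟩ := hy.isIntegral
  have hdeg : 1 ≤ p.natDegree := by
    by_contra h
    have h0 : p.natDegree = 0 := by omega
    have := hp.natDegree_eq_zero.mp h0
    rw [this, eval₂_one] at hpe
    exact one_ne_zero hpe
  set n := p.natDegree with hn
  set S : Submodule K B := span K ((fun i => y ^ i) '' (Finset.range n : Set ℕ)) with hS
  have hSfin : Module.Finite K S :=
    Module.Finite.span_of_finite _ ((Finset.range n).finite_toSet.image _)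
  have hpow : ∀ i < n, y ^ i ∈ S := fun i hi => subset_span ⟨i, by simpa using hi, rfl⟩
  have hyn : y ^ n ∈ S := by
    rw [eval₂_eq_sum_range, Finset.sum_range_succ, ← hn, hp.coeff_natDegree, map_one,
      one_mul] at hpe
    rw [eq_neg_of_add_eq_zero_right hpe]
    apply S.neg_mem
    apply Submodule.sum_mem
    intro i hi
    exact S.smul_mem (⟨_, hkK (p.coeff i)⟩ : K) (hpow i (Finset.mem_range.mp hi))
  have hconjpow : ∀ i : ℕ, ∀ b ∈ K, y ^ i * b * (y ^ i)⁻¹ ∈ K := by
    intro i
    induction i with
    | zero => intro b hb; simpa using hb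
    | succ i ih =>
      intro b hb
      have := hconj _ (ih b hb)
      have e : y * (y ^ i * b * (y ^ i)⁻¹) * y⁻¹ = y ^ (i + 1) * b * (y ^ (i + 1))⁻¹ := by
        rw [pow_succ', mul_inv_rev]
        simp only [mul_assoc]
      rwa [e] at this
  have hle : Subfield.closure ((K : Set B) ∪ {y}) ≤ stabR K S hSfin := by
    apply Subfield.closure_le.mpr
    rintro b (hb | hb)
    · intro z hz
      rw [hS] at hz
      induction hz using Submodule.span_induction with
      | mem z hz =>
        obtain ⟨i, hi, rfl⟩ := hz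
        show y ^ i * b ∈ S
        have hyi : y ^ i ≠ 0 := pow_ne_zero i hy0
        have e : y ^ i * b = (y ^ i * b * (y ^ i)⁻¹) * y ^ i := by
          rw [mul_assoc _ (y ^ i)⁻¹, inv_mul_cancel₀ hyi, mul_one]
        rw [e]
        exact S.smul_mem (⟨_, hconjpow i b hb⟩ : K) (hpow i (by simpa using hi))
      | zero => rw [zero_mul]; exact Submodule.zero_mem _
      | add a b _ _ ha hb =>
        rw [add_mul]
        exact Submodule.add_mem _ ha hb
      | smul c a _ ha =>
        rw [smul_mul_assoc]
        exact Submodule.smul_mem _ c ha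
    · rw [Set.mem_singleton_iff] at hb
      subst hb
      intro z hz
      rw [hS] at hz
      induction hz using Submodule.span_induction with
      | mem z hz =>
        obtain ⟨i, hi, rfl⟩ := hz
        have hi' : i < n := by simpa using hi
        show b ^ i * b ∈ S
        rw [← pow_succ]
        rcases Nat.lt_or_ge (i + 1) n with h | h
        · exact hpow _ h
        · have : i + 1 = n := by omega
          rw [this]
          exact hyn
      | zero => rw [zero_mul]; exact Submodule.zero_mem _
      | add a b _ _ ha hb =>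
        rw [add_mul]
        exact Submodule.add_mem _ ha hb
      | smul c a _ ha =>
        rw [smul_mul_assoc]
        exact Submodule.smul_mem _ c ha
  have hsub : ∀ z ∈ Subfield.closure ((K : Set B) ∪ {y}), z ∈ S := by
    intro z hz
    have := hle hz 1 (by simpa using hpow 0 hdeg)
    rwa [one_mul] at this
  have hSfinite : Finite S := Module.finite_of_finite K
  exact Finite.of_injective (fun z : Subfield.closure ((K : Set B) ∪ {y}) =>
    (⟨z.1, hsub z.1 z.2⟩ : S)) (fun a b h => by
      have h1 := congrArg (fun z : S => (z : B)) h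
      exact Subtype.ext h1)

lemma finite_range [Finite k] : Finite ((algebraMap k B).fieldRange) := by
  have : Set.Finite (Set.range (algebraMap k B)) := Set.finite_range _
  exact this.subset (fun y hy => by simpa using hy)

/-- Jacobson: a division algebra algebraic over a finite field is commutative. -/
theorem jacobson [Finite k] (halg : ∀ b : B, IsAlgebraic k b) : ∀ a b : B, a * b = b * a := by
  intro a b
  by_contra hab
  have ha0 : a ≠ 0 := by
    rintro rfl
    exact hab (by rw [zero_mul, mul_zero])
  let K₀ : Subfield B := (algebraMap k B).fieldRange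
  have hK₀ : Finite K₀ := finite_range
  have hkK₀ : ∀ c : k, algebraMap k B c ∈ K₀ := fun c => ⟨c, rfl⟩
  have hK₁ := finite_adj K₀ hK₀ hkK₀ a ha0 (by
    rintro _ ⟨c, rfl⟩
    rw [← Algebra.commutes, mul_assoc, mul_inv_cancel₀ ha0, mul_one]
    exact ⟨c, rfl⟩) (halg a)
  set K := Subfield.closure ((K₀ : Set B) ∪ {a}) with hK
  have haK : a ∈ K := Subfield.subset_closure (Or.inr rfl)
  have hK₀K : K₀ ≤ K := fun z hz => Subfield.subset_closure (Or.inl hz)
  obtain ⟨c, hc, y, hy0, hyc⟩ := eig (K := K) K.subtype (⟨a, haK⟩ : K) ⟨b, hab⟩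
  have hyc' : y * a = (c : B) * y := hyc
  have hconj : ∀ b ∈ K, y * b * y⁻¹ ∈ K := by
    intro b hb
    rw [hK] at hb
    induction hb using Subfield.closure_induction with
    | mem z hz =>
      rcases hz with ⟨d, rfl⟩ | hz
      · rw [← Algebra.commutes, mul_assoc, mul_inv_cancel₀ hy0, mul_one]
        exact hK₀K ⟨d, rfl⟩
      · rw [Set.mem_singleton_iff] at hz
        subst hz
        rw [hyc', mul_assoc, mul_inv_cancel₀ hy0, mul_one]
        exact c.2
    | one => rw [mul_one, mul_inv_cancel₀ hy0]; exact K.one_mem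
    | add p q _ _ hp hq =>
      rw [mul_add, add_mul]
      exact K.add_mem hp hq
    | neg p _ hp =>
      rw [mul_neg, neg_mul]
      exact K.neg_mem hp
    | inv p _ hp =>
      have e1 : y * p⁻¹ * y⁻¹ = (y * p * y⁻¹)⁻¹ := by
        rw [mul_inv_rev, mul_inv_rev, inv_inv, mul_assoc]
      rw [e1]
      exact K.inv_mem hp
    | mul p q _ _ hp hq =>
      have e1 : y * (p * q) * y⁻¹ = (y * p * y⁻¹) * (y * q * y⁻¹) := by
        simp only [mul_assoc]
        rw [← mul_assoc y⁻¹ y, inv_mul_cancel₀ hy0, one_mul]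
      rw [e1]
      exact K.mul_mem hp hq
  have hM := finite_adj K hK₁ (fun c => hK₀K (hkK₀ c)) y hy0 hconj (halg y)
  set M := Subfield.closure ((K : Set B) ∪ {y}) with hMdef
  have haM : a ∈ M := Subfield.subset_closure (Or.inl haK)
  have hyM : y ∈ M := Subfield.subset_closure (Or.inr rfl)
  have hfield := Finite.isDomain_to_isField M
  have hcomm := hfield.mul_comm (⟨a, haM⟩ : M) (⟨y, hyM⟩ : M)
  have h1 : a * y = y * a := congrArg Subtype.val hcomm
  rw [hyc'] at h1
  have h2 : a = c := mul_right_cancel₀ hy0 h1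
  exact hc (Subtype.ext h2.symm)

end

end Run7.h134
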