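import Pool.Agent.Run7.h134.Core2

set_option autoImplicit false
set_option linter.style.haveILetI false

namespace Run7.h134

open Module Submodule

section KP

variable {B : Type*} [DivisionRing B]

/-- A linear generalised identity over a division ring is trivial. -/
lemma gpi {ι : Type*} [DecidableEq ι] (a : ι → B) (ha : LinearIndependent (Subring.center B) a)
    (s : Finset ι) : ∀ b : ι → B, (∀ y : B, ∑ i ∈ s, b i * y * a i = 0) → ∀ i ∈ s, b i = 0 := by
  induction s using Finset.induction_on with
  | empty =>
    intro b _ i hi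
    exact absurd hi (Finset.notMem_empty i)
  | insert j s hj ih =>
    intro b hb
    have hbj : b j = 0 := by
      by_contra hne
      have h1 : ∀ z y : B, ∑ i ∈ s, ((b j)⁻¹ * b i * z - z * ((b j)⁻¹ * b i)) * y * a i = 0 := by
        intro z y
        have e1 := hb (z * y)
        have e2 := hb y
        rw [Finset.sum_insert hj] at e1 e2
        have e3 : ∑ i ∈ s, ((b j)⁻¹ * b i * z - z * ((b j)⁻¹ * b i)) * y * a i =
            (b j)⁻¹ * (b j * (z * y) * a j + ∑ i ∈ s, b i * (z * y) * a i) -
            z * ((b j)⁻¹ * (b j * y * a j + ∑ i ∈ s, b i * y * a i)) := by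
          rw [mul_add, mul_add, mul_add, Finset.mul_sum, Finset.mul_sum, Finset.mul_sum]
          have e4 : (b j)⁻¹ * (b j * (z * y) * a j) = z * ((b j)⁻¹ * (b j * y * a j)) := by
            have e5 : (b j)⁻¹ * (b j * (z * y) * a j) = ((b j)⁻¹ * b j) * (z * y * a j) := by
              simp only [mul_assoc]
            have e6 : z * ((b j)⁻¹ * (b j * y * a j)) = z * (((b j)⁻¹ * b j) * (y * a j)) := by
              simp only [mul_assoc]
            rw [e5, e6, inv_mul_cancel₀ hne, one_mul, one_mul, mul_assoc]
          rw [e4, add_sub_add_left_eq_sub, ← Finset.sum_sub_distrib]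
          apply Finset.sum_congr rfl
          intro i _
          simp only [sub_mul, mul_assoc]
        rw [e3, e1, e2, mul_zero, mul_zero, sub_zero]
      have h2 : ∀ i ∈ s, ∀ z : B, (b j)⁻¹ * b i * z = z * ((b j)⁻¹ * b i) := by
        intro i hi z
        have := ih (fun i => (b j)⁻¹ * b i * z - z * ((b j)⁻¹ * b i)) (h1 z) i hi
        exact sub_eq_zero.mp this
      have h3 : ∀ i ∈ insert j s, (b j)⁻¹ * b i ∈ Subring.center B := by
        intro i hi
        rw [Subring.mem_center_iff]
        intro z
        rcases Finset.mem_insert.mp hi with rfl | hi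
        · rw [inv_mul_cancel₀ hne, mul_one, one_mul]
        · exact (h2 i hi z).symm
      have h4 : ∑ i ∈ insert j s, ((b j)⁻¹ * b i) * a i = 0 := by
        have e1 := hb 1
        simp only [mul_one] at e1
        calc ∑ i ∈ insert j s, ((b j)⁻¹ * b i) * a i = (b j)⁻¹ * ∑ i ∈ insert j s, b i * a i := by
              rw [Finset.mul_sum]
              apply Finset.sum_congr rfl
              intro i _
              rw [mul_assoc]
          _ = 0 := by rw [e1, mul_zero]
      classical
      let c : ι → Subring.center B := fun i => if h : i ∈ insert j s then ⟨_, h3 i h⟩ else 0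
      have h5 : ∑ i ∈ insert j s, c i • a i = 0 := by
        rw [← h4]
        apply Finset.sum_congr rfl
        intro i hi
        simp only [c, dif_pos hi]
        rfl
      have h6 := (linearIndependent_iff'.mp ha) (insert j s) c h5 j (Finset.mem_insert_self j s)
      simp only [c, dif_pos (Finset.mem_insert_self j s)] at h6
      have h7 := congrArg Subtype.val h6
      simp only [ZeroMemClass.coe_zero] at h7
      rw [inv_mul_cancel₀ hne] at h7
      exact one_ne_zero h7
    intro i hi
    rcases Finset.mem_insert.mp hi with rfl | hi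
    · exact hbj
    · apply ih b _ i hi
      intro y
      have := hb y
      rw [Finset.sum_insert hj, hbj, zero_mul, zero_mul, zero_add] at this
      exact this

/-- If a division ring is left finite-dimensional over a commutative subfield, it is
finite-dimensional over its centre. -/
theorem kp (L : Subfield B) (hcomm : ∀ a ∈ L, ∀ b ∈ L, a * b = b * a)
    (hfin : Module.Finite L B) : Module.Finite (Subring.center B) B := by
  classical
  set e := finrank L B with he
  let β := Module.finBasis L B
  have hbound : ∀ (n : ℕ) (a : Fin n → B), LinearIndependent (Subring.center B) a → n ≤ e * e := by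
    intro n a ha
    by_contra hcon
    push Not at hcon
    have hdim : finrank L (Fin e → B) = e * e := by
      rw [Module.finrank_pi_fintype]
      simp [he]
    have hdep : ¬ LinearIndependent L (fun i : Fin n => (fun j : Fin e => β j * a i)) := by
      intro hli
      have := hli.fintype_card_le_finrank
      rw [hdim, Fintype.card_fin] at this
      omega
    rw [Fintype.not_linearIndependent_iff] at hdep
    obtain ⟨g, hg, i₀, hi₀⟩ := hdep
    have h1 : ∀ j : Fin e, ∑ i, (g i : B) * β j * a i = 0 := by
      intro j
      have := congrFun hg j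
      rw [Finset.sum_apply] at this
      rw [Pi.zero_apply] at this
      rw [← this]
      apply Finset.sum_congr rfl
      intro i _
      show (g i : B) * β j * a i = (g i : B) * (β j * a i)
      rw [mul_assoc]
    have h2 : ∀ y : B, ∑ i ∈ Finset.univ, (g i : B) * y * a i = 0 := by
      intro y
      rw [← β.sum_repr y]
      have e1 : ∀ i, (g i : B) * (∑ j, β.repr y j • β j) * a i =
          ∑ j, ((β.repr y j : L) : B) * ((g i : B) * β j * a i) := by
        intro i
        rw [Finset.mul_sum, Finset.sum_mul]
        apply Finset.sum_congr rfl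
        intro j _
        show (g i : B) * (((β.repr y j : L) : B) * β j) * a i = _
        have := hcomm _ (g i).2 _ (β.repr y j).2
        calc (g i : B) * (((β.repr y j : L) : B) * β j) * a i
            = ((g i : B) * ((β.repr y j : L) : B)) * β j * a i := by simp only [mul_assoc]
          _ = (((β.repr y j : L) : B) * (g i : B)) * β j * a i := by rw [this]
          _ = _ := by simp only [mul_assoc]
      simp only [e1]
      rw [Finset.sum_comm]
      apply Finset.sum_eq_zero
      intro j _
      rw [← Finset.mul_sum, h1 j, mul_zero]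
    have h3 := gpi a ha Finset.univ (fun i => (g i : B)) h2 i₀ (Finset.mem_univ _)
    exact hi₀ (Subtype.ext h3)
  let γ := Basis.ofVectorSpace (Subring.center B) B
  have hfinι : Finite (Basis.ofVectorSpaceIndex (Subring.center B) B) := by
    by_contra hinf
    rw [not_finite_iff_infinite] at hinf
    obtain ⟨s, hs⟩ := Infinite.exists_subset_card_eq
      (Basis.ofVectorSpaceIndex (Subring.center B) B) (e * e + 1)
    have hli : LinearIndependent (Subring.center B) (fun i : Fin (e * e + 1) =>
        γ ((s.equivFinOfCardEq hs).symm i : s)) := by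
      exact γ.linearIndependent.comp _ (Subtype.val_injective.comp
        (s.equivFinOfCardEq hs).symm.injective)
    have := hbound _ _ hli
    omega
  exact Module.Finite.of_basis γ

/-- elements commuting with a set form a division subring -/
def cent (S : Set B) : Subfield B where
  carrier := {y | ∀ s ∈ S, s * y = y * s}
  mul_mem' := by
    intro a b ha hb s hs
    rw [← mul_assoc, ha s hs, mul_assoc, hb s hs, mul_assoc]
  one_mem' := by
    intro s _
    rw [mul_one, one_mul]
  add_mem' := by
    intro a b ha hb s hs
    rw [mul_add, add_mul, ha s hs, hb s hs]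
  zero_mem' := by
    intro s _
    rw [mul_zero, zero_mul]
  neg_mem' := by
    intro a ha s hs
    rw [mul_neg, neg_mul, ha s hs]
  inv_mem' := by
    intro a ha s hs
    by_cases h0 : a = 0
    · rw [h0, inv_zero, mul_zero, zero_mul]
    · have := ha s hs
      have h1 : a⁻¹ * (s * a) * a⁻¹ = a⁻¹ * (a * s) * a⁻¹ := by rw [this]
      rw [← mul_assoc a⁻¹ a s, inv_mul_cancel₀ h0, one_mul, mul_assoc, mul_assoc s,
        mul_inv_cancel₀ h0, mul_one] at h1
      exact h1.symm

lemma mem_cent {S : Set B} {y : B} : y ∈ cent S ↔ ∀ s ∈ S, s * y = y * s := Iff.rfl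

lemma closure_comm {S : Set B} (hS : ∀ a ∈ S, ∀ b ∈ S, a * b = b * a) :
    ∀ a ∈ Subfield.closure S, ∀ b ∈ Subfield.closure S, a * b = b * a := by
  have h1 : Subfield.closure S ≤ cent S := by
    apply Subfield.closure_le.mpr
    intro y hy s hs
    exact hS s hs y hy
  have h2 : Subfield.closure S ≤ cent (Subfield.closure S : Set B) := by
    apply Subfield.closure_le.mpr
    intro y hy s hs
    exact (h1 hs y hy).symm
  intro a ha b hb
  exact h2 hb a ha

end KP

/-- The centre is big, in the form used in the problem. -/
lemma frozen_form {D : Type*} [DivisionRing D] (h : Module.Finite (Subring.center D) D) :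
    ∃ t : Finset D, ∀ x : D, ∃ c : D → D,
        (∀ d : D, ∀ y : D, c d * y = y * c d) ∧ x = ∑ d ∈ t, c d * d := by
  classical
  obtain ⟨t, ht⟩ := h.fg_top
  refine ⟨t, fun x => ?_⟩
  have hx : x ∈ span (Subring.center D) (t : Set D) := by rw [ht]; trivial
  rw [Submodule.mem_span_finset] at hx
  obtain ⟨f, _, hf⟩ := hx
  refine ⟨fun d => (f d : D), fun d y => ?_, ?_⟩
  · exact ((Subring.mem_center_iff.mp (f d).2) y).symm
  · rw [← hf]
    rfl

/-- Final lemma: a division ring generated by `F` and `x`, where `F` is normalised by `x`, finite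
over a commutative `L₀` that is centralised by a power of `x`. -/
theorem final {D : Type*} [DivisionRing D] (F L₀ : Subfield D) (x : D) (hx : x ≠ 0)
    (hconj : ∀ y ∈ F, x * y * x⁻¹ ∈ F ∧ x⁻¹ * y * x ∈ F) (hLF : L₀ ≤ F)
    (hcomm : ∀ a ∈ L₀, ∀ b ∈ L₀, a * b = b * a)
    (hfin : Module.Finite L₀ (span L₀ (F : Set D))) (N : ℕ) (hN : 1 ≤ N)
    (hxN : ∀ a ∈ L₀, a * x ^ N = x ^ N * a)
    (hgen : ∀ S : Subfield D, F ≤ S → x ∈ S → S = ⊤) :
    Module.Finite (Subring.center D) D := by
  classical
  set L := Subfield.closure ((L₀ : Set D) ∪ {x ^ N}) with hL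
  have hL₀L : L₀ ≤ L := fun y hy => Subfield.subset_closure (Or.inl hy)
  have hxL : x ^ N ∈ L := Subfield.subset_closure (Or.inr rfl)
  have hLcomm : ∀ a ∈ L, ∀ b ∈ L, a * b = b * a := by
    apply closure_comm
    rintro a (ha | ha) b (hb | hb)
    · exact hcomm a ha b hb
    · rw [Set.mem_singleton_iff] at hb
      rw [hb]; exact hxN a ha
    · rw [Set.mem_singleton_iff] at ha
      rw [ha]; exact (hxN b hb).symm
    · rw [Set.mem_singleton_iff] at ha hb
      rw [ha, hb]
  obtain ⟨t, ht⟩ := (Submodule.fg_iff_finiteDimensional (span L₀ (F : Set D))).mpr hfin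
  -- the set of φ x^i
  let Gen : Set D := {y | ∃ φ ∈ F, ∃ i < N, y = φ * x ^ i}
  let S : Submodule L D := span L Gen
  have hSfin : Module.Finite L S := by
    let T : Set D := ⋃ i ∈ Finset.range N, (fun φ => φ * x ^ i) '' (t : Set D)
    have hT : T.Finite := by
      apply Set.Finite.biUnion (Finset.range N).finite_toSet
      intro i _
      exact (t.finite_toSet).image _
    have h2 : ∀ i < N, ∀ φ ∈ span L₀ (t : Set D), φ * x ^ i ∈ span L T := by
      intro i hi φ h1
      induction h1 using Submodule.span_induction with
      | mem z hz =>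
        apply subset_span
        exact Set.mem_biUnion (Finset.mem_coe.mpr (Finset.mem_range.mpr hi)) ⟨z, hz, rfl⟩
      | zero => rw [zero_mul]; exact Submodule.zero_mem _
      | add a b _ _ ha hb =>
        rw [add_mul]
        exact Submodule.add_mem _ ha hb
      | smul c a _ ha =>
        rw [smul_mul_assoc]
        exact (span L T).smul_mem (⟨c, hL₀L c.2⟩ : L) ha
    have hle : S ≤ span L T := by
      apply span_le.mpr
      rintro y ⟨φ, hφ, i, hi, rfl⟩
      apply h2 i hi
      rw [ht]
      exact subset_span hφ
    have hTfin : Module.Finite L (span L T) := Module.Finite.span_of_finite L hT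
    exact Submodule.finiteDimensional_of_le hle
  have hconjpow : ∀ (i : ℕ), ∀ y ∈ F, x ^ i * y * (x ^ i)⁻¹ ∈ F ∧ (x ^ i)⁻¹ * y * x ^ i ∈ F := by
    intro i
    induction i with
    | zero => intro y hy; simpa using hy
    | succ i ih =>
      intro y hy
      constructor
      · have := (hconj _ (ih y hy).1).1
        have e : x * (x ^ i * y * (x ^ i)⁻¹) * x⁻¹ = x ^ (i + 1) * y * (x ^ (i + 1))⁻¹ := by
          rw [pow_succ', mul_inv_rev]
          simp only [mul_assoc]
        rwa [e] at this
      · have := (hconj _ (ih y hy).2).2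
        have e : x⁻¹ * ((x ^ i)⁻¹ * y * x ^ i) * x = (x ^ (i + 1))⁻¹ * y * x ^ (i + 1) := by
          rw [pow_succ, mul_inv_rev]
          simp only [mul_assoc]
        rwa [e] at this
  have hFstab : F ≤ stabR L S hSfin := by
    intro ψ hψ y hy
    induction hy using Submodule.span_induction with
    | mem z hz =>
      obtain ⟨φ, hφ, i, hi, rfl⟩ := hz
      apply subset_span
      refine ⟨φ * (x ^ i * ψ * (x ^ i)⁻¹), F.mul_mem hφ (hconjpow i ψ hψ).1, i, hi, ?_⟩
      have hxi : x ^ i ≠ 0 := pow_ne_zero i hx
      rw [mul_assoc φ _ (x ^ i), mul_assoc _ (x ^ i)⁻¹ (x ^ i), inv_mul_cancel₀ hxi, mul_one,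
        mul_assoc]
    | zero => rw [zero_mul]; exact Submodule.zero_mem _
    | add a b _ _ ha hb =>
      rw [add_mul]
      exact Submodule.add_mem _ ha hb
    | smul c a _ ha =>
      rw [smul_mul_assoc]
      exact Submodule.smul_mem _ c ha
  have hxstab : x ∈ stabR L S hSfin := by
    intro y hy
    induction hy using Submodule.span_induction with
    | mem z hz =>
      obtain ⟨φ, hφ, i, hi, rfl⟩ := hz
      by_cases hi2 : i + 1 < N
      · apply subset_span
        refine ⟨φ, hφ, i + 1, hi2, ?_⟩
        rw [pow_succ, mul_assoc]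
      · have hi3 : i + 1 = N := by omega
        have e : φ * x ^ i * x = x ^ N * ((x ^ N)⁻¹ * φ * x ^ N * x ^ 0) := by
          have hxN0 : x ^ N ≠ 0 := pow_ne_zero N hx
          rw [pow_zero, mul_one, mul_assoc (x ^ N)⁻¹, ← mul_assoc (x ^ N) (x ^ N)⁻¹,
            mul_inv_cancel₀ hxN0, one_mul, mul_assoc, ← pow_succ, hi3]
        rw [e]
        have h1 : (x ^ N)⁻¹ * φ * x ^ N * x ^ 0 ∈ S :=
          subset_span ⟨_, (hconjpow N φ hφ).2, 0, by omega, rfl⟩
        exact S.smul_mem (⟨x ^ N, hxL⟩ : L) h1
    | zero => rw [zero_mul]; exact Submodule.zero_mem _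
    | add a b _ _ ha hb =>
      rw [add_mul]
      exact Submodule.add_mem _ ha hb
    | smul c a _ ha =>
      rw [smul_mul_assoc]
      exact Submodule.smul_mem _ c ha
  have htop := hgen _ hFstab hxstab
  have h1 : (1 : D) ∈ S := subset_span ⟨1, F.one_mem, 0, by omega, by simp⟩
  have hStop : S = ⊤ := by
    rw [eq_top_iff]
    intro d _
    have hd : d ∈ stabR L S hSfin := by rw [htop]; trivial
    have := hd 1 h1
    rwa [one_mul] at this
  have hLD : Module.Finite L D := by
    have h2 : Module.Finite L (⊤ : Submodule L D) := by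
      rw [← hStop]; exact hSfin
    exact Module.Finite.equiv (Submodule.topEquiv (R := L) (M := D))
  exact kp L hLcomm hLD

end Run7.h134
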