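import Pool.Agent.Run7.h134.Jacobson
import Pool.Agent.Run7.h134.Sym3
import Pool.Agent.Run7.h134.TdegX

set_option autoImplicit false
set_option linter.style.haveILetI false

namespace Run7.h134

open Module Submodule Polynomial

section

variable {k D : Type*} [Field k] [DivisionRing D] [Algebra k D]

lemma fg_reduce (G : Gr k D)
    (hfg : ∃ s : Finset D, ∀ S : Subring D, (∀ x ∈ S, x⁻¹ ∈ S) → (s : Set D) ⊆ (S : Set D) →
          Set.range (algebraMap k D) ⊆ (S : Set D) → S = ⊤) :
    ∃ W₀ : Finset D, (∀ w ∈ W₀, w ∈ G.E) ∧ ∀ S : Subfield D, (∀ c : k, algebraMap k D c ∈ S) →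
      (∀ w ∈ W₀, w ∈ S) → G.x ∈ S → S = ⊤ := by
  classical
  obtain ⟨s, hs⟩ := hfg
  have key : ∀ y : D, ∃ W : Finset D, (∀ w ∈ W, w ∈ G.E) ∧ ∀ S : Subfield D,
      (∀ w ∈ W, w ∈ S) → G.x ∈ S → y ∈ S := by
    let Φ : Subfield D :=
      { carrier := {y | ∃ W : Finset D, (∀ w ∈ W, w ∈ G.E) ∧ ∀ S : Subfield D,
          (∀ w ∈ W, w ∈ S) → G.x ∈ S → y ∈ S}
        mul_mem' := by
          rintro a b ⟨W, hW, h⟩ ⟨W', hW', h'⟩
          refine ⟨W ∪ W', ?_, fun S hS hx => S.mul_mem (h S (fun w hw => hS w ?_) hx)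
            (h' S (fun w hw => hS w ?_) hx)⟩
          · intro w hw
            rcases Finset.mem_union.mp hw with hw | hw
            · exact hW w hw
            · exact hW' w hw
          · exact Finset.mem_union_left _ hw
          · exact Finset.mem_union_right _ hw
        one_mem' := ⟨∅, by simp, fun S _ _ => S.one_mem⟩
        add_mem' := by
          rintro a b ⟨W, hW, h⟩ ⟨W', hW', h'⟩
          refine ⟨W ∪ W', ?_, fun S hS hx => S.add_mem (h S (fun w hw => hS w ?_) hx)
            (h' S (fun w hw => hS w ?_) hx)⟩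
          · intro w hw
            rcases Finset.mem_union.mp hw with hw | hw
            · exact hW w hw
            · exact hW' w hw
          · exact Finset.mem_union_left _ hw
          · exact Finset.mem_union_right _ hw
        zero_mem' := ⟨∅, by simp, fun S _ _ => S.zero_mem⟩
        neg_mem' := by
          rintro a ⟨W, hW, h⟩
          exact ⟨W, hW, fun S hS hx => S.neg_mem (h S hS hx)⟩
        inv_mem' := by
          rintro a ⟨W, hW, h⟩
          exact ⟨W, hW, fun S hS hx => S.inv_mem (h S hS hx)⟩ }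
    have hΦ : Φ = ⊤ := by
      apply G.gen
      · intro e he
        exact ⟨{e}, by simpa using he, fun S hS _ => hS e (Finset.mem_singleton_self e)⟩
      · exact ⟨∅, by simp, fun S _ hx => hx⟩
    intro y
    have : y ∈ Φ := by rw [hΦ]; trivial
    exact this
  choose W hW hWS using key
  refine ⟨s.biUnion W, ?_, ?_⟩
  · intro w hw
    obtain ⟨y, _, hy⟩ := Finset.mem_biUnion.mp hw
    exact hW y w hy
  · intro S hk hSW hx
    have h1 : S.toSubring = ⊤ := by
      apply hs S.toSubring
      · intro y hy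
        exact S.inv_mem hy
      · intro y hy
        exact hWS y S (fun w hw => hSW w (Finset.mem_biUnion.mpr ⟨y, hy, hw⟩)) hx
      · rintro _ ⟨c, rfl⟩
        exact hk c
    rw [eq_top_iff]
    intro y _
    have : y ∈ S.toSubring := by rw [h1]; trivial
    exact this

/-- conjugation by `x` on a stable division subring -/
def conjEquiv (F : Subfield D) (x : D) (hx : x ≠ 0)
    (hconj : ∀ y ∈ F, x * y * x⁻¹ ∈ F ∧ x⁻¹ * y * x ∈ F) : F ≃+* F where
  toFun y := ⟨x * y * x⁻¹, (hconj y y.2).1⟩
  invFun y := ⟨x⁻¹ * y * x, (hconj y y.2).2⟩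
  left_inv y := by
    apply Subtype.ext
    show x⁻¹ * (x * (y : D) * x⁻¹) * x = y
    have e : x⁻¹ * (x * (y : D) * x⁻¹) * x = (x⁻¹ * x) * y * (x⁻¹ * x) := by
      simp only [mul_assoc]
    rw [e, inv_mul_cancel₀ hx, one_mul, mul_one]
  right_inv y := by
    apply Subtype.ext
    show x * (x⁻¹ * (y : D) * x) * x⁻¹ = y
    have e : x * (x⁻¹ * (y : D) * x) * x⁻¹ = (x * x⁻¹) * y * (x * x⁻¹) := by
      simp only [mul_assoc]
    rw [e, mul_inv_cancel₀ hx, one_mul, mul_one]
  map_mul' a b := by
    apply Subtype.ext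
    show x * ((a : D) * b) * x⁻¹ = (x * a * x⁻¹) * (x * b * x⁻¹)
    simp only [mul_assoc]
    rw [← mul_assoc x⁻¹ x, inv_mul_cancel₀ hx, one_mul]
  map_add' a b := by
    apply Subtype.ext
    show x * ((a : D) + b) * x⁻¹ = (x * a * x⁻¹) + (x * b * x⁻¹)
    rw [mul_add, add_mul]

lemma conjEquiv_pow (F : Subfield D) (x : D) (hx : x ≠ 0)
    (hconj : ∀ y ∈ F, x * y * x⁻¹ ∈ F ∧ x⁻¹ * y * x ∈ F) (n : ℕ) (y : F) :
    (((conjEquiv F x hx hconj ^ n) y : F) : D) * x ^ n = x ^ n * y := by
  induction n generalizing y with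
  | zero => simp
  | succ n ih =>
    rw [pow_succ (conjEquiv F x hx hconj) n]
    show (((conjEquiv F x hx hconj ^ n) (conjEquiv F x hx hconj y) : F) : D) * x ^ (n + 1) = _
    rw [pow_succ x n, ← mul_assoc, ih]
    show x ^ n * (x * (y : D) * x⁻¹) * x = x ^ n * x * y
    rw [mul_assoc, mul_assoc (x * (y : D)), inv_mul_cancel₀ hx, mul_one, mul_assoc]

lemma finite_sub {F U : Subfield D} (hUF : U ≤ F) (U' : Subfield F)
    (hU' : ∀ c (hc : c ∈ U), (⟨c, hUF hc⟩ : F) ∈ U')
    (h : Module.Finite U (span U (F : Set D))) : Module.Finite U' F := by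
  classical
  obtain ⟨t, ht⟩ := (Submodule.fg_iff_finiteDimensional (span U (F : Set D))).mpr h
  have hclosed : ∀ y ∈ span U (F : Set D), y ∈ F := by
    intro y hy
    induction hy using Submodule.span_induction with
    | mem y hy => exact hy
    | zero => exact F.zero_mem
    | add a b _ _ ha hb => exact F.add_mem ha hb
    | smul c a _ ha => exact F.mul_mem (hUF c.2) ha
  have htF : ∀ y ∈ t, y ∈ F := by
    intro y hy
    apply hclosed
    rw [← ht]
    exact subset_span hy
  let T : Set F := {y | (y : D) ∈ t}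
  have hT : T.Finite := by
    apply Set.Finite.preimage (Subtype.val_injective.injOn) t.finite_toSet
  have key : ∀ y ∈ span U (t : Set D), ∃ hy : y ∈ F, (⟨y, hy⟩ : F) ∈ span U' T := by
    intro y hy
    induction hy using Submodule.span_induction with
    | mem y hy => exact ⟨htF y hy, subset_span hy⟩
    | zero => exact ⟨F.zero_mem, Submodule.zero_mem _⟩
    | add a b _ _ ha hb =>
      obtain ⟨ha1, ha2⟩ := ha
      obtain ⟨hb1, hb2⟩ := hb
      exact ⟨F.add_mem ha1 hb1, Submodule.add_mem _ ha2 hb2⟩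
    | smul c a _ ha =>
      obtain ⟨ha1, ha2⟩ := ha
      exact ⟨F.mul_mem (hUF c.2) ha1, Submodule.smul_mem _ (⟨_, hU' c c.2⟩ : U') ha2⟩
  have htop : span U' T = ⊤ := by
    rw [eq_top_iff]
    rintro ⟨y, hy⟩ _
    have h1 : y ∈ span U (t : Set D) := by
      rw [ht]; exact subset_span hy
    obtain ⟨_, h2⟩ := key y h1
    exact h2
  exact ⟨⟨hT.toFinset, by simpa using htop⟩⟩

lemma finite_map {F : Subfield D} (L' : Subfield F) (h : Module.Finite L' F) :
    Module.Finite (L'.map F.subtype) (span (L'.map F.subtype) (F : Set D)) := by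
  classical
  obtain ⟨t, ht⟩ := h.fg_top
  have hle : span (L'.map F.subtype) (F : Set D) ≤
      span (L'.map F.subtype) ((fun y : F => (y : D)) '' (t : Set F)) := by
    apply span_le.mpr
    intro y hy
    have h1 : (⟨y, hy⟩ : F) ∈ span L' (t : Set F) := by rw [ht]; trivial
    have key : ∀ z ∈ span L' (t : Set F), (z : D) ∈
        span (L'.map F.subtype) ((fun y : F => (y : D)) '' (t : Set F)) := by
      intro z hz
      induction hz using Submodule.span_induction with
      | mem z hz => exact subset_span ⟨z, hz, rfl⟩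
      | zero => exact Submodule.zero_mem _
      | add a b _ _ ha hb => exact Submodule.add_mem _ ha hb
      | smul c a _ ha =>
        exact Submodule.smul_mem _ (⟨((c : F) : D), ⟨c, c.2, rfl⟩⟩ : L'.map F.subtype) ha
    exact key _ h1
  have h2 : Module.Finite (L'.map F.subtype)
      (span (L'.map F.subtype) ((fun y : F => (y : D)) '' (t : Set F))) :=
    Module.Finite.span_of_finite _ (t.finite_toSet.image _)
  exact Submodule.finiteDimensional_of_le hle

end

section

variable {k D : Type*} [Field k] [Finite k] [DivisionRing D] [Algebra k D]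

/-- transcendental case -/
lemma caseT (G : Gr k D) (W₀ : Finset D) (hW₀E : ∀ w ∈ W₀, w ∈ G.E)
    (hW₀ : ∀ S : Subfield D, (∀ c : k, algebraMap k D c ∈ S) →
      (∀ w ∈ W₀, w ∈ S) → G.x ∈ S → S = ⊤) (hT : Tdeg k D < 3) (u : D) (hu : u ∈ G.E)
    (htr : Transcendental k u) : Module.Finite (Subring.center D) D := by
  classical
  let W : Submodule k D := span k (insert 1 (insert u (W₀ : Set D)))
  have fdW : FiniteDimensional k W :=
    FiniteDimensional.span_of_finite k ((W₀.finite_toSet.insert u).insert 1)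
  have oneW : (1 : D) ∈ W := subset_span (Set.mem_insert _ _)
  have uW : u ∈ W := subset_span (Set.mem_insert_of_mem _ (Set.mem_insert _ _))
  have W₀W : ∀ w ∈ W₀, w ∈ W := fun w hw =>
    subset_span (Set.mem_insert_of_mem _ (Set.mem_insert_of_mem _ hw))
  have WE : ∀ w ∈ W, w ∈ G.E := by
    intro w hw
    induction hw using Submodule.span_induction with
    | mem y hy =>
      rcases hy with rfl | rfl | hy
      · exact G.E.one_mem
      · exact hu
      · exact hW₀E y hy
    | zero => exact G.E.zero_mem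
    | add a b _ _ ha hb => exact G.E.add_mem ha hb
    | smul c a _ ha =>
      rw [Algebra.smul_def]
      exact G.E.mul_mem (G.kE c) ha
  let V : Submodule k D := W ⊔ W.map (LinearMap.mulLeft k G.x)
  have fdV : FiniteDimensional k V := by
    show FiniteDimensional k ((W ⊔ W.map (LinearMap.mulLeft k G.x) : Submodule k D))
    infer_instance
  have oneV : (1 : D) ∈ V := (le_sup_left : W ≤ V) oneW
  obtain ⟨b, hb, q, n₀, hgr⟩ := tdeg_extract hT V fdV oneV
  have hBW : BW W b G.x = V.map (LinearMap.mulLeft k b) := by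
    show W.map (LinearMap.mulLeft k b) ⊔ W.map (LinearMap.mulLeft k (b * G.x)) =
      (W ⊔ W.map (LinearMap.mulLeft k G.x)).map (LinearMap.mulLeft k b)
    rw [Submodule.map_sup, ← Submodule.map_comp]
    congr 2
    ext y
    simp [mul_assoc]
  obtain ⟨F, hkF, hWF, hUF, hconj, hfin⟩ := G.stable W fdW oneW WE u uW htr b hb q n₀
    (fun n hn => by rw [hBW]; exact hgr n hn)
  letI := algSub F hkF
  let u' : F := ⟨u, hWF u uW⟩
  let φ : F →ₐ[k] D := { F.subtype with commutes' := fun c => rfl }
  have htr' : Transcendental k u' := by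
    intro h
    exact htr (h.algHom φ)
  have hUle : ∀ c (hc : c ∈ Subfield.closure (Set.range (algebraMap k D) ∪ {u})),
      (⟨c, hUF hc⟩ : F) ∈ La k u' := by
    have h1 : Subfield.closure (Set.range (algebraMap k D) ∪ {u}) ≤ (La k u').map F.subtype := by
      apply Subfield.closure_le.mpr
      rintro y (⟨c, rfl⟩ | hy)
      · exact ⟨_, k_mem_La u' c, rfl⟩
      · rw [Set.mem_singleton_iff] at hy
        subst hy
        exact ⟨_, self_mem_La u', rfl⟩
    intro c hc
    obtain ⟨z, hz, hzc⟩ := h1 hc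
    have : (⟨c, hUF hc⟩ : F) = z := Subtype.ext hzc.symm
    rw [this]
    exact hz
  have hfin' : Module.Finite (La k u') F := finite_sub hUF (La k u') hUle hfin
  obtain ⟨f, hf, htrf⟩ := exists_central htr' hfin'
  have hfinf := exchange hf htrf hfin'
  let σ := conjEquiv F G.x G.x0 hconj
  obtain ⟨N, hN, hσN⟩ := finite_order hf htrf hfinf σ (by
    intro c
    apply Subtype.ext
    show G.x * algebraMap k D c * G.x⁻¹ = algebraMap k D c
    rw [← Algebra.commutes, mul_assoc, mul_inv_cancel₀ G.x0, mul_one])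
  have hLcen := La_central (k := k) hf
  refine final F ((La k f).map F.subtype) G.x G.x0 hconj ?_ ?_ (finite_map _ hfinf) N hN ?_ ?_
  · rintro _ ⟨z, _, rfl⟩
    exact z.2
  · rintro _ ⟨a, ha, rfl⟩ _ ⟨b, hb, rfl⟩
    exact congrArg Subtype.val (hLcen a ha b)
  · have h1 : (La k f).map F.subtype ≤ cent {G.x ^ N} := by
      rintro _ ⟨a, ha, rfl⟩
      have h2 : La k f ≤ (cent {G.x ^ N}).comap F.subtype := by
        apply Subfield.closure_le.mpr
        rintro y (⟨c, rfl⟩ | hy)
        · intro s _
          exact (Algebra.commutes c s).symm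
        · rw [Set.mem_singleton_iff] at hy
          subst hy
          intro s hs
          rw [Set.mem_singleton_iff] at hs
          subst hs
          have h3 := conjEquiv_pow F G.x G.x0 hconj N y
          have h4 : (conjEquiv F G.x G.x0 hconj ^ N) y = y := hσN
          rw [h4] at h3
          exact h3.symm
      exact h2 ha
    intro a ha
    exact (h1 ha _ rfl).symm
  · intro S hFS hxS
    apply hW₀ S (fun c => hFS (hkF c)) (fun w hw => hFS (hWF w (W₀W w hw))) hxS

/-- algebraic case -/
lemma caseA (G : Gr k D) (W₀ : Finset D) (hW₀E : ∀ w ∈ W₀, w ∈ G.E)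
    (hW₀ : ∀ S : Subfield D, (∀ c : k, algebraMap k D c ∈ S) →
      (∀ w ∈ W₀, w ∈ S) → G.x ∈ S → S = ⊤)
    (halg : ∀ u ∈ G.E, IsAlgebraic k u) : Module.Finite (Subring.center D) D := by
  classical
  letI := algSub G.E G.kE
  have halg' : ∀ e : G.E, IsAlgebraic k e := by
    intro e
    obtain ⟨p, hp, hpe⟩ := halg e e.2
    refine ⟨p, hp, ?_⟩
    let φ : G.E →ₐ[k] D := { G.E.subtype with commutes' := fun c => rfl }
    have h4 := Polynomial.aeval_algHom_apply φ e p
    apply Subtype.ext
    have h5 : φ e = (e : D) := rfl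
    rw [h5, hpe] at h4
    exact h4.symm
  have hcommE := jacobson (k := k) halg'
  have hcomm : ∀ a ∈ G.E, ∀ b ∈ G.E, a * b = b * a := fun a ha b hb =>
    congrArg Subtype.val (hcommE ⟨a, ha⟩ ⟨b, hb⟩)
  -- a finite subfield containing `W₀`
  have hM : ∀ s : Finset D, (∀ w ∈ s, w ∈ G.E) → ∃ M : Subfield D, Finite M ∧ M ≤ G.E ∧
      (∀ c : k, algebraMap k D c ∈ M) ∧ ∀ w ∈ s, w ∈ M := by
    intro s
    induction s using Finset.induction_on with
    | empty =>
      intro _
      refine ⟨(algebraMap k D).fieldRange, finite_range, ?_, fun c => ⟨c, rfl⟩, by simp⟩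
      rintro _ ⟨c, rfl⟩
      exact G.kE c
    | insert w s hw ih =>
      intro hs
      obtain ⟨M, hMf, hME, hkM, hsM⟩ := ih (fun w hw => hs w (Finset.mem_insert_of_mem hw))
      have hwE := hs w (Finset.mem_insert_self w s)
      by_cases hw0 : w = 0
      · refine ⟨M, hMf, hME, hkM, ?_⟩
        intro y hy
        rcases Finset.mem_insert.mp hy with rfl | hy
        · rw [hw0]; exact M.zero_mem
        · exact hsM y hy
      · refine ⟨Subfield.closure ((M : Set D) ∪ {w}), ?_, ?_, ?_, ?_⟩
        · apply finite_adj M hMf hkM w hw0 _ (halg w hwE)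
          intro b hb
          rw [hcomm w hwE b (hME hb), mul_assoc, mul_inv_cancel₀ hw0, mul_one]
          exact hb
        · apply Subfield.closure_le.mpr
          rintro y (hy | hy)
          · exact hME hy
          · rw [Set.mem_singleton_iff] at hy
            subst hy
            exact hwE
        · intro c
          exact Subfield.subset_closure (Or.inl (hkM c))
        · intro y hy
          rcases Finset.mem_insert.mp hy with rfl | hy
          · exact Subfield.subset_closure (Or.inr rfl)
          · exact Subfield.subset_closure (Or.inl (hsM y hy))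
  obtain ⟨M, hMf, hME, hkM, hWM⟩ := hM W₀ hW₀E
  letI := Fintype.ofFinite M
  set q := Fintype.card M with hq
  have hpow : ∀ y ∈ M, y ^ q = y := by
    intro y hy
    have := FiniteField.pow_card (K := M) (⟨y, hy⟩ : M)
    exact congrArg Subtype.val this
  have hq1 : 1 < q := Fintype.one_lt_card
  -- roots of `X^q - X` in `E` are in `M`
  have hroot : ∀ z ∈ G.E, z ^ q = z → z ∈ M := by
    intro z hz hzq
    by_contra hzM
    letI : Field G.E := { (inferInstance : DivisionRing G.E) with mul_comm := hcommE }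
    let s : Finset G.E := Finset.univ.image (fun y : M => (⟨y.1, hME y.2⟩ : G.E))
    have hscard : s.card = q := by
      rw [Finset.card_image_of_injective]
      · rfl
      · intro a b h
        exact Subtype.ext (congrArg (fun y : G.E => (y : D)) h)
    have hzs : (⟨z, hz⟩ : G.E) ∉ s := by
      intro h
      obtain ⟨y, _, hy⟩ := Finset.mem_image.mp h
      apply hzM
      have : (y : D) = z := congrArg (fun y : G.E => (y : D)) hy
      rw [← this]
      exact y.2
    have hp0 : (X ^ q - X : (G.E)[X]) ≠ 0 := FiniteField.X_pow_card_sub_X_ne_zero _ hq1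
    have hdeg : (X ^ q - X : (G.E)[X]).natDegree = q :=
      FiniteField.X_pow_card_sub_X_natDegree_eq _ hq1
    have hsub : insert (⟨z, hz⟩ : G.E) s ⊆ (X ^ q - X : (G.E)[X]).roots.toFinset := by
      intro y hy
      rw [Multiset.mem_toFinset, mem_roots hp0, IsRoot, eval_sub, eval_pow, eval_X, sub_eq_zero]
      rcases Finset.mem_insert.mp hy with rfl | hy
      · exact Subtype.ext hzq
      · obtain ⟨w, _, rfl⟩ := Finset.mem_image.mp hy
        exact Subtype.ext (hpow w w.2)
    have h1 := Finset.card_le_card hsub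
    rw [Finset.card_insert_of_notMem hzs, hscard] at h1
    have h2 := (Multiset.toFinset_card_le (X ^ q - X : (G.E)[X]).roots).trans
      (card_roots' (X ^ q - X : (G.E)[X]))
    rw [hdeg] at h2
    omega
  have hx := G.x0
  have hconj : ∀ y ∈ M, G.x * y * G.x⁻¹ ∈ M ∧ G.x⁻¹ * y * G.x ∈ M := by
    intro y hy
    constructor
    · apply hroot _ (G.conj y (hME hy))
      have : ∀ n : ℕ, (G.x * y * G.x⁻¹) ^ n = G.x * y ^ n * G.x⁻¹ := by
        intro n
        induction n with
        | zero => rw [pow_zero, pow_zero, mul_one, mul_inv_cancel₀ hx]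
        | succ n ih =>
          rw [pow_succ, ih, pow_succ]
          simp only [mul_assoc]
          rw [← mul_assoc G.x⁻¹ G.x, inv_mul_cancel₀ hx, one_mul]
      rw [this, hpow y hy]
    · apply hroot _ (G.conj' y (hME hy))
      have : ∀ n : ℕ, (G.x⁻¹ * y * G.x) ^ n = G.x⁻¹ * y ^ n * G.x := by
        intro n
        induction n with
        | zero => rw [pow_zero, pow_zero, mul_one, inv_mul_cancel₀ hx]
        | succ n ih =>
          rw [pow_succ, ih, pow_succ]
          simp only [mul_assoc]
          rw [← mul_assoc G.x G.x⁻¹, mul_inv_cancel₀ hx, one_mul]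
      rw [this, hpow y hy]
  let σ := conjEquiv M G.x hx hconj
  have hfinord : ∃ N, 1 ≤ N ∧ ∀ y : M, (σ ^ N) y = y := by
    have h1 : IsOfFinOrder (σ.toEquiv : Equiv.Perm M) := isOfFinOrder_of_finite _
    refine ⟨orderOf (σ.toEquiv : Equiv.Perm M), h1.orderOf_pos, ?_⟩
    have h2 : ∀ n : ℕ, ∀ y : M, (σ ^ n) y = ((σ.toEquiv : Equiv.Perm M) ^ n) y := by
      intro n
      induction n with
      | zero => intro y; rfl
      | succ n ih =>
        intro y
        rw [pow_succ, pow_succ]
        exact ih (σ y)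
    intro y
    rw [h2, pow_orderOf_eq_one]
    rfl
  obtain ⟨N, hN, hσN⟩ := hfinord
  refine final M M G.x hx hconj le_rfl (fun a ha b hb => hcomm a (hME ha) b (hME hb)) ?_ N hN ?_ ?_
  · exact Module.Finite.span_of_finite _ (Set.toFinite _)
  · intro a ha
    have := conjEquiv_pow M G.x hx hconj N ⟨a, ha⟩
    rw [show (conjEquiv M G.x hx hconj ^ N) ⟨a, ha⟩ = ⟨a, ha⟩ from hσN _] at this
    exact this
  · intro S hMS hxS
    exact hW₀ S (fun c => hMS (hkM c)) (fun w hw => hMS (hWM w hw)) hxS

/-- Main theorem, structured form. -/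
theorem mainA (G : Gr k D)
    (hfg : ∃ s : Finset D, ∀ S : Subring D, (∀ x ∈ S, x⁻¹ ∈ S) → (s : Set D) ⊆ (S : Set D) →
          Set.range (algebraMap k D) ⊆ (S : Set D) → S = ⊤)
    (hT : Tdeg k D < 3) : Module.Finite (Subring.center D) D := by
  obtain ⟨W₀, hW₀E, hW₀⟩ := fg_reduce G hfg
  by_cases h : ∃ u ∈ G.E, Transcendental k u
  · obtain ⟨u, hu, htr⟩ := h
    exact caseT G W₀ hW₀E hW₀ hT u hu htr
  · push Not at h
    refine caseA G W₀ hW₀E hW₀ (fun u hu => ?_)
    have := h u hu
    rwa [Transcendental, not_not] at this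

end

end Run7.h134
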