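import Pool.Agent.Run7.h134.OreMain

set_option autoImplicit false
set_option linter.style.haveILetI false

namespace Run7.h134

open Module Submodule Polynomial

section

variable {k D : Type*} [Field k] [Finite k] [DivisionRing D] [Algebra k D]

lemma frob_fix (p : ℕ) [CharP k p] (e : D) (he : IsAlgebraic k e) :
    ∃ m, 1 ≤ m ∧ e ^ (p ^ m) = e := by
  have hpp : p.Prime := CharP.char_is_prime k p
  by_cases he0 : e = 0
  · refine ⟨1, le_rfl, ?_⟩
    rw [he0, zero_pow (pow_ne_zero _ hpp.ne_zero)]
  · let K₀ : Subfield D := (algebraMap k D).fieldRange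
    have hM := finite_adj K₀ finite_range (fun c => ⟨c, rfl⟩) e he0 (by
      rintro _ ⟨c, rfl⟩
      refine ⟨c, ?_⟩
      rw [← Algebra.commutes, mul_assoc, mul_inv_cancel₀ he0, mul_one]) he
    set M := Subfield.closure ((K₀ : Set D) ∪ {e}) with hMdef
    have heM : e ∈ M := Subfield.subset_closure (Or.inr rfl)
    have hkM : ∀ c : k, algebraMap k D c ∈ M := fun c => Subfield.subset_closure (Or.inl ⟨c, rfl⟩)
    letI := Fintype.ofFinite M
    letI := algSub M hkM
    have hc : CharP M p := charP_of_injective_algebraMap (algebraMap k M).injective p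
    obtain ⟨n, _, hn⟩ := FiniteField.card M p
    refine ⟨n, n.2, ?_⟩
    have := FiniteField.pow_card (K := M) (⟨e, heM⟩ : M)
    rw [hn] at this
    exact congrArg Subtype.val this

end

namespace OreD

variable {k D : Type*} [Field k] [Finite k] [DivisionRing D] [Algebra k D] (G : OreD k D)

omit [Finite k] in
lemma rep_unique {a c a' c' : D} (ha : a ∈ G.E) (hc : c ∈ G.E) (ha' : a' ∈ G.E) (hc' : c' ∈ G.E)
    (h : a * G.x + c = a' * G.x + c') : a = a' ∧ c = c' := by
  have h1 := G.indep 2 (fun i => if i = 0 then c - c' else a - a') (by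
    intro i
    by_cases h : i = 0
    · simp only [h, if_true]; exact G.E.sub_mem hc hc'
    · simp only [h, if_false]; exact G.E.sub_mem ha ha') (by
    rw [Finset.sum_range_succ, Finset.sum_range_one]
    simp only [if_true, one_ne_zero, if_false, pow_zero, pow_one, mul_one]
    have : c - c' + (a - a') * G.x = (a * G.x + c) - (a' * G.x + c') := by
      rw [sub_mul]; abel
    rw [this, h, sub_self])
  have h2 := h1 0 (by omega)
  have h3 := h1 1 (by omega)
  simp only [if_true] at h2
  simp only [one_ne_zero, if_false] at h3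
  exact ⟨sub_eq_zero.mp h3, sub_eq_zero.mp h2⟩

/-- algebraic case -/
lemma caseA (hT : Tdeg k D < 3)
    (hfg : ∃ s : Finset D, ∀ S : Subring D, (∀ x ∈ S, x⁻¹ ∈ S) → (s : Set D) ⊆ (S : Set D) →
          Set.range (algebraMap k D) ⊆ (S : Set D) → S = ⊤)
    (halg : ∀ u ∈ G.E, IsAlgebraic k u) : Module.Finite (Subring.center D) D := by
  classical
  obtain ⟨p, hp⟩ := CharP.exists k
  have hpp : p.Prime := CharP.char_is_prime k p
  have : Fact p.Prime := ⟨hpp⟩
  letI := algSub G.E G.kE
  have halg' : ∀ e : G.E, IsAlgebraic k e := by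
    intro e
    obtain ⟨p, hp, hpe⟩ := halg e e.2
    refine ⟨p, hp, ?_⟩
    let φ : G.E →ₐ[k] D := { G.E.subtype with commutes' := fun c => rfl }
    have h4 := Polynomial.aeval_algHom_apply φ e p
    apply Subtype.ext
    have h5 : φ e = (e : D) := rfl
    rw [h5, hpe] at h4
    exact h4.symm
  have hcommE := jacobson (k := k) halg'
  have hcomm : ∀ a ∈ G.E, ∀ b ∈ G.E, a * b = b * a := fun a ha b hb =>
    congrArg Subtype.val (hcommE ⟨a, ha⟩ ⟨b, hb⟩)
  by_cases hid : ∀ e ∈ G.E, ∃ c ∈ G.E, G.x * e = e * G.x + c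
  · -- `x` commutes with `E`
    have hxE : ∀ e ∈ G.E, G.x * e = e * G.x := by
      intro e he
      obtain ⟨m, hm1, hm⟩ := frob_fix (k := k) p e (halg e he)
      obtain ⟨c, hc, h⟩ := hid e he
      have hB : CharP (Module.End k D) p :=
        charP_of_injective_algebraMap (algebraMap k (Module.End k D)).injective p
      let T : Module.End k D := LinearMap.mulLeft k e - LinearMap.mulRight k e
      have hTx : T G.x = -c := by
        show e * G.x - G.x * e = -c
        rw [h]; abel
      have hT2 : T (T G.x) = 0 := by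
        rw [hTx]
        show e * -c - -c * e = 0
        rw [mul_neg, neg_mul, hcomm e he c hc]
        abel
      have hcm : Commute (LinearMap.mulLeft k e) (LinearMap.mulRight k e) := by
        show _ * _ = _ * _
        apply LinearMap.ext
        intro w
        show e * (w * e) = e * w * e
        rw [mul_assoc]
      have hTp : T ^ (p ^ m) = T := by
        show (LinearMap.mulLeft k e - LinearMap.mulRight k e) ^ (p ^ m) = _
        rw [sub_pow_char_pow_of_commute p m hcm, LinearMap.pow_mulLeft, LinearMap.pow_mulRight, hm]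
      have h2 : 2 ≤ p ^ m := by
        calc 2 ≤ p := hpp.two_le
          _ = p ^ 1 := (pow_one p).symm
          _ ≤ p ^ m := Nat.pow_le_pow_right hpp.pos hm1
      have h3 : (T ^ (p ^ m)) G.x = 0 := by
        obtain ⟨j, hj⟩ := Nat.exists_eq_add_of_le h2
        rw [hj, add_comm, pow_add]
        show (T ^ j) ((T ^ 2) G.x) = 0
        rw [pow_two]
        show (T ^ j) (T (T G.x)) = 0
        rw [hT2, map_zero]
      rw [hTp] at h3
      exact (sub_eq_zero.mp h3).symm
    have h1 : cent ((G.E : Set D) ∪ {G.x}) = ⊤ := by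
      apply G.gen
      · intro e he s hs
        rcases hs with hs | hs
        · exact hcomm s hs e he
        · rw [Set.mem_singleton_iff] at hs
          rw [hs]; exact hxE e he
      · intro s hs
        rcases hs with hs | hs
        · exact (hxE s hs).symm
        · rw [Set.mem_singleton_iff] at hs
          rw [hs]
    have h2 : cent (Set.univ : Set D) = ⊤ := by
      apply G.gen
      · intro e he s _
        have : s ∈ cent ((G.E : Set D) ∪ {G.x}) := by rw [h1]; trivial
        exact (this e (Or.inl he)).symm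
      · intro s _
        have : s ∈ cent ((G.E : Set D) ∪ {G.x}) := by rw [h1]; trivial
        exact (this G.x (Or.inr rfl)).symm
    have h3 : ∀ a b : D, a * b = b * a := by
      intro a b
      have : b ∈ cent (Set.univ : Set D) := by rw [h2]; trivial
      exact this a (Set.mem_univ a)
    apply kp (⊤ : Subfield D) (fun a _ b _ => h3 a b)
    refine ⟨⟨{1}, ?_⟩⟩
    rw [eq_top_iff]
    intro d _
    have h4 : (1 : D) ∈ span (⊤ : Subfield D) (({1} : Finset D) : Set D) := subset_span (by simp)
    have h5 := (span (⊤ : Subfield D) (({1} : Finset D) : Set D)).smul_mem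
      (⟨d, trivial⟩ : (⊤ : Subfield D)) h4
    have e1 : (⟨d, trivial⟩ : (⊤ : Subfield D)) • (1 : D) = d := mul_one d
    rwa [e1] at h5
  · push Not at hid
    obtain ⟨e₀, he₀, hne₀⟩ := hid
    obtain ⟨a₀, ha₀, c₀, hc₀, h₀⟩ := G.hx e₀ he₀
    have hne : a₀ - e₀ ≠ 0 := by
      intro h
      have : a₀ = e₀ := sub_eq_zero.mp h
      rw [this] at h₀
      exact hne₀ c₀ hc₀ h₀
    set c' := c₀ * (a₀ - e₀)⁻¹ with hc'
    have hc'E : c' ∈ G.E := G.E.mul_mem hc₀ (G.E.inv_mem (G.E.sub_mem ha₀ he₀))
    set x' := G.x + c' with hx'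
    have hconj : ∀ e ∈ G.E, ∀ a ∈ G.E, ∀ c ∈ G.E, G.x * e = a * G.x + c → x' * e = a * x' := by
      intro e he a ha c hc h
      have h1 : G.x * (e * e₀) = (a * a₀) * G.x + (a * c₀ + c * e₀) := by
        rw [← mul_assoc, h, add_mul, mul_assoc, h₀]
        noncomm_ring
      have h2 : G.x * (e₀ * e) = (a₀ * a) * G.x + (a₀ * c + c₀ * e) := by
        rw [← mul_assoc, h₀, add_mul, mul_assoc, h]
        noncomm_ring
      rw [hcomm e he e₀ he₀] at h1
      have h3 := (G.rep_unique (G.E.mul_mem ha ha₀)
        (G.E.add_mem (G.E.mul_mem ha hc₀) (G.E.mul_mem hc he₀)) (G.E.mul_mem ha₀ ha)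
        (G.E.add_mem (G.E.mul_mem ha₀ hc) (G.E.mul_mem hc₀ he)) (h1.symm.trans h2)).2
      -- c = c' (a - e)
      have h4 : c * (a₀ - e₀) = c₀ * (a - e) := by
        have e1 := hcomm a ha c₀ hc₀
        have e2 := hcomm a₀ ha₀ c hc
        rw [e1, e2] at h3
        have e3 : c₀ * a + c * e₀ = c * a₀ + c₀ * e := h3
        rw [mul_sub, mul_sub]
        have : c * a₀ - c * e₀ - (c₀ * a - c₀ * e) = (c * a₀ + c₀ * e) - (c₀ * a + c * e₀) := by
          abel
        rw [← sub_eq_zero, this, e3, sub_self]
      have h5 : c = c' * (a - e) := by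
        have h6 : c * (a₀ - e₀) * (a₀ - e₀)⁻¹ = c := by
          rw [mul_assoc, mul_inv_cancel₀ hne, mul_one]
        rw [← h6, h4, hc', mul_assoc, mul_assoc,
          hcomm (a - e) (G.E.sub_mem ha he) _ (G.E.inv_mem (G.E.sub_mem ha₀ he₀))]
      have h7 : c' * a = a * c' := hcomm c' hc'E a ha
      rw [hx', add_mul, h, h5, mul_sub, mul_add, h7]
      abel
    have hx'0 : x' ≠ 0 := by
      have := LT.ne_zero G (G.Mon_pow c' hc'E 1)
      rwa [pow_one] at this
    have hσ : ∀ e ∈ G.E, ∃ a ∈ G.E, x' * e = a * x' := by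
      intro e he
      obtain ⟨a, ha, c, hc, h⟩ := G.hx e he
      exact ⟨a, ha, hconj e he a ha c hc h⟩
    have hconj1 : ∀ e ∈ G.E, x' * e * x'⁻¹ ∈ G.E := by
      intro e he
      obtain ⟨a, ha, h⟩ := hσ e he
      rw [h, mul_assoc, mul_inv_cancel₀ hx'0, mul_one]
      exact ha
    have hconj2 : ∀ e ∈ G.E, x'⁻¹ * e * x' ∈ G.E := by
      intro e he
      obtain ⟨m, hm1, hm⟩ := frob_fix (k := k) p e (halg e he)
      set q := p ^ m with hq
      have hq1 : 1 < q := Nat.one_lt_pow (by omega) hpp.one_lt
      letI : Field G.E := { (inferInstance : DivisionRing G.E) with mul_comm := hcommE }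
      let s : Set G.E := {z | z ^ q = z}
      have hs : s.Finite := by
        have hp0 : (X ^ q - X : (G.E)[X]) ≠ 0 := FiniteField.X_pow_card_sub_X_ne_zero _ hq1
        apply ((X ^ q - X : (G.E)[X]).roots.toFinset.finite_toSet).subset
        intro z hz
        rw [Finset.mem_coe, Multiset.mem_toFinset, mem_roots hp0, IsRoot, eval_sub, eval_pow,
          eval_X, sub_eq_zero]
        exact hz
      have : Finite s := hs
      let f : s → s := fun z => ⟨⟨x' * z.1.1 * x'⁻¹, hconj1 _ z.1.2⟩, by
        have hz : z.1 ^ q = z.1 := z.2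
        have hpow : ∀ n : ℕ, (x' * z.1.1 * x'⁻¹) ^ n = x' * z.1.1 ^ n * x'⁻¹ := by
          intro n
          induction n with
          | zero => rw [pow_zero, pow_zero, mul_one, mul_inv_cancel₀ hx'0]
          | succ n ih =>
            rw [pow_succ, ih, pow_succ]
            simp only [mul_assoc]
            rw [← mul_assoc x'⁻¹ x', inv_mul_cancel₀ hx'0, one_mul]
        apply Subtype.ext
        show (x' * z.1.1 * x'⁻¹) ^ q = x' * z.1.1 * x'⁻¹
        rw [hpow]
        have hz2 : z.1.1 ^ q = z.1.1 := congrArg Subtype.val hz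
        rw [hz2]⟩
      have hinj : Function.Injective f := by
        intro a b hab
        have h1 : x' * a.1.1 * x'⁻¹ = x' * b.1.1 * x'⁻¹ :=
          congrArg (fun y : s => ((y : G.E) : D)) hab
        have h2 := mul_right_cancel₀ (inv_ne_zero hx'0) h1
        have h3 := mul_left_cancel₀ hx'0 h2
        exact Subtype.ext (Subtype.ext h3)
      have hsurj := Finite.surjective_of_injective hinj
      obtain ⟨z, hz⟩ := hsurj ⟨⟨e, he⟩, Subtype.ext hm⟩
      have h1 : x' * z.1.1 * x'⁻¹ = e := congrArg (fun y : s => ((y : G.E) : D)) hz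
      have h2 : x'⁻¹ * e * x' = z.1.1 := by
        rw [← h1]
        simp only [mul_assoc]
        rw [inv_mul_cancel₀ hx'0, mul_one, ← mul_assoc, inv_mul_cancel₀ hx'0, one_mul]
      rw [h2]
      exact z.1.2
    let G' : Gr k D :=
      { E := G.E
        kE := G.kE
        x := x'
        x0 := hx'0
        conj := hconj1
        conj' := hconj2
        indep := fun n c hc h => G.indep' c' hc'E n c hc h
        gen := by
          intro S hES hxS
          apply G.gen S hES
          have h1 : G.x = x' - c' := by rw [hx']; abel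
          rw [h1]
          exact S.sub_mem hxS (hES hc'E) }
    exact mainA G' hfg hT

include G in
/-- Main theorem for Ore extensions. -/
theorem mainB (hT : Tdeg k D < 3)
    (hfg : ∃ s : Finset D, ∀ S : Subring D, (∀ x ∈ S, x⁻¹ ∈ S) → (s : Set D) ⊆ (S : Set D) →
          Set.range (algebraMap k D) ⊆ (S : Set D) → S = ⊤) :
    Module.Finite (Subring.center D) D := by
  by_cases h : ∃ u ∈ G.E, Transcendental k u
  · obtain ⟨u, hu, htr⟩ := h
    refine G.caseT hT ?_ u hu htr
    obtain ⟨s, hs⟩ := hfg
    refine ⟨s, fun S h1 h2 => ?_⟩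
    have h3 := hs S.toSubring (fun y hy => S.inv_mem hy) h2 (by
      rintro _ ⟨c, rfl⟩
      exact h1 c)
    rw [eq_top_iff]
    intro y _
    have : y ∈ S.toSubring := by rw [h3]; trivial
    exact this
  · push Not at h
    refine G.caseA hT hfg (fun u hu => ?_)
    have := h u hu
    rwa [Transcendental, not_not] at this

end OreD

end Run7.h134
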