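import Mathlib

set_option autoImplicit false

namespace Run7.h134

open Polynomial

section PF

variable {k Z : Type*} [Field k] [Field Z] [Algebra k Z]

lemma swap_coeff (p : k[X][X]) (i j : ℕ) :
    ((Bivariate.swap p).coeff i).coeff j = (p.coeff j).coeff i := by
  induction p using Polynomial.induction_on' with
  | add p q hp hq => simp only [map_add, coeff_add, hp, hq]
  | monomial n a =>
    induction a using Polynomial.induction_on' with
    | add a b ha hb =>
      simp only [map_add, coeff_add, ha, hb]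
    | monomial m r =>
      rw [Bivariate.swap_monomial_monomial]
      simp only [coeff_monomial]
      by_cases h1 : m = i
      · by_cases h2 : n = j
        · simp [h1, h2]
        · simp [h1, h2, coeff_monomial]
      · by_cases h2 : n = j
        · simp [h1, h2, coeff_monomial]
        · simp [h1, h2]

/-- evaluation of a bivariate polynomial -/
noncomputable def ev (f g : Z) : k[X][X] →+* Z := eval₂RingHom ((aeval f : k[X] →ₐ[k] Z) : k[X] →+* Z) g

lemma ev_C (f g : Z) (p : k[X]) : ev f g (C p) = aeval f p := by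
  simp [ev]

lemma ev_X (f g : Z) : ev (k := k) f g X = g := by
  simp [ev]

lemma ev_swap (f g : Z) (p : k[X][X]) : ev f g (Bivariate.swap p) = ev g f p := by
  induction p using Polynomial.induction_on' with
  | add p q hp hq => simp only [map_add, hp, hq]
  | monomial n a =>
    induction a using Polynomial.induction_on' with
    | add a b ha hb => simp only [map_add, ha, hb]
    | monomial m r =>
      rw [Bivariate.swap_monomial_monomial]
      simp only [ev, coe_eval₂RingHom, eval₂_monomial, RingHom.coe_coe, aeval_monomial]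
      ring

lemma finite_bounded [Finite k] (d : ℕ) :
    {p : k[X][X] | ∀ i j, (d < i ∨ d < j) → (p.coeff i).coeff j = 0}.Finite := by
  have : Function.Injective (fun p : {p : k[X][X] | ∀ i j, (d < i ∨ d < j) →
      (p.coeff i).coeff j = 0} => (fun (i j : Fin (d + 1)) => (p.1.coeff i).coeff j)) := by
    rintro ⟨p, hp⟩ ⟨q, hq⟩ h
    apply Subtype.ext
    apply Polynomial.ext
    intro i
    apply Polynomial.ext
    intro j
    by_cases hi : d < i ∨ d < j
    · rw [hp i j hi, hq i j hi]
    · push Not at hi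
      have := congrFun (congrFun h ⟨i, by omega⟩) ⟨j, by omega⟩
      exact this
  exact Set.finite_coe_iff.mp (Finite.of_injective _ this)

lemma exists_irred_factor (φ : k[X][X] →+* Z) {Q : k[X][X]} (hQ : Q ≠ 0) (h : φ Q = 0) :
    ∃ P, Irreducible P ∧ P ∣ Q ∧ φ P = 0 := by
  obtain ⟨u, hu⟩ := UniqueFactorizationMonoid.factors_prod hQ
  have h1 : φ (UniqueFactorizationMonoid.factors Q).prod = 0 := by
    rw [← hu, map_mul] at h
    rcases mul_eq_zero.mp h with h2 | h2
    · exact h2
    · exact absurd h2 ((u.isUnit.map φ).ne_zero)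
  rw [map_multiset_prod, Multiset.prod_eq_zero_iff, Multiset.mem_map] at h1
  obtain ⟨P, hP, hP0⟩ := h1
  exact ⟨P, UniqueFactorizationMonoid.irreducible_of_factor P hP,
    UniqueFactorizationMonoid.dvd_of_mem_factors hP, hP0⟩

lemma natDegree_ne_of_ev {f g : Z} (hf : Transcendental k f) {P : k[X][X]} (hP : P ≠ 0)
    (h : ev f g P = 0) : P.natDegree ≠ 0 := by
  intro h0
  obtain ⟨a, rfl⟩ := natDegree_eq_zero.mp h0
  rw [ev_C] at h
  rw [transcendental_iff] at hf
  exact hP (by rw [hf a h, C_0])

lemma dvd_of_ev {f g : Z} (hf : Transcendental k f) {P Q : k[X][X]} (hP : Irreducible P)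
    (hQ : Irreducible Q) (h1 : ev f g P = 0) (h2 : ev f g Q = 0) : P ∣ Q := by
  have pP := hP.isPrimitive (natDegree_ne_of_ev hf hP.ne_zero h1)
  have pQ := hQ.isPrimitive (natDegree_ne_of_ev hf hQ.ne_zero h2)
  let K := FractionRing k[X]
  have iP := (pP.irreducible_iff_irreducible_map_fraction_map (K := K)).mp hP
  apply pP.dvd_of_fraction_map_dvd_fraction_map (K := K)
  rcases iP.isCoprime_or_dvd (Q.map (algebraMap k[X] K)) with hcop | hdvd
  · exfalso
    obtain ⟨a, b, hab⟩ := hcop
    have hinj : Function.Injective ((aeval f : k[X] →ₐ[k] Z) : k[X] →+* Z) := by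
      intro x y hxy
      exact (transcendental_iff_injective.mp hf) hxy
    let l : K →+* Z := IsFractionRing.lift hinj
    have hl : l.comp (algebraMap k[X] K) = ((aeval f : k[X] →ₐ[k] Z) : k[X] →+* Z) := by
      ext x
      · simp [l]
      · simp [l]
    have e1 : eval₂ l g (P.map (algebraMap k[X] K)) = 0 := by
      rw [eval₂_map, hl]
      exact h1
    have e2 : eval₂ l g (Q.map (algebraMap k[X] K)) = 0 := by
      rw [eval₂_map, hl]
      exact h2
    have e3 := congrArg (eval₂ l g) hab
    rw [eval₂_add, eval₂_mul, eval₂_mul, e1, e2, eval₂_one] at e3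
    simp at e3
  · exact hdvd

/-- pigeonhole for elements of bounded relative degree -/
theorem finite_orbit [Finite k] {f : Z} (hf : Transcendental k f) (d : ℕ) (g : ℕ → Z)
    (h1 : ∀ n, ∃ Q : k[X][X], Q ≠ 0 ∧ Q.natDegree ≤ d ∧ ev f (g n) Q = 0)
    (h2 : ∀ n, ∃ Q : k[X][X], Q ≠ 0 ∧ Q.natDegree ≤ d ∧ ev (g n) f Q = 0) :
    ∃ m n, m < n ∧ g m = g n := by
  have key : ∀ n, ∃ P : k[X][X], P ≠ 0 ∧
      P ∈ {p : k[X][X] | ∀ i j, (d < i ∨ d < j) → (p.coeff i).coeff j = 0} ∧ ev f (g n) P = 0 := by
    intro n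
    obtain ⟨Q, hQ0, hQd, hQe⟩ := h1 n
    obtain ⟨Q', hQ'0, hQ'd, hQ'e⟩ := h2 n
    obtain ⟨P, hP, hPQ, hPe⟩ := exists_irred_factor (ev f (g n)) hQ0 hQe
    obtain ⟨P', hP', hPQ', hPe'⟩ := exists_irred_factor (ev (g n) f) hQ'0 hQ'e
    have hs : Irreducible (Bivariate.swap P') :=
      (MulEquiv.irreducible_iff (Bivariate.swap (R := k))).mpr hP'
    have hse : ev f (g n) (Bivariate.swap P') = 0 := by
      rw [ev_swap]; exact hPe'
    have hdvd := dvd_of_ev hf hP hs hPe hse
    have hdvd2 : Bivariate.swap P ∣ P' := by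
      have := map_dvd (Bivariate.swap (R := k)) hdvd
      rwa [Bivariate.swap_swap_apply] at this
    have n1 : P.natDegree ≤ d := (natDegree_le_of_dvd hPQ hQ0).trans hQd
    have n2 : (Bivariate.swap P).natDegree ≤ d :=
      ((natDegree_le_of_dvd hdvd2 hP'.ne_zero).trans (natDegree_le_of_dvd hPQ' hQ'0)).trans hQ'd
    refine ⟨P, hP.ne_zero, ?_, hPe⟩
    rintro i j (hi | hj)
    · rw [coeff_eq_zero_of_natDegree_lt (lt_of_le_of_lt n1 hi), coeff_zero]
    · rw [← swap_coeff, coeff_eq_zero_of_natDegree_lt (lt_of_le_of_lt n2 hj), coeff_zero]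
  choose P hP0 hPmem hPe using key
  have hfin := finite_bounded (k := k) d
  -- all g n lie in a finite set
  have hfin2 : (⋃ p ∈ {p : k[X][X] | p ≠ 0 ∧ ∀ i j, (d < i ∨ d < j) → (p.coeff i).coeff j = 0},
      {z : Z | ev f z p = 0}).Finite := by
    apply Set.Finite.biUnion
    · exact hfin.subset (fun p hp => hp.2)
    · rintro p ⟨hp0, _⟩
      have hinj : Function.Injective ((aeval f : k[X] →ₐ[k] Z) : k[X] →+* Z) := by
        intro x y hxy
        exact (transcendental_iff_injective.mp hf) hxy
      have hm : p.map ((aeval f : k[X] →ₐ[k] Z) : k[X] →+* Z) ≠ 0 := by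
        rw [Ne, Polynomial.map_eq_zero_iff hinj]
        exact hp0
      refine (Polynomial.finite_setOfPred_isRoot hm).subset ?_
      intro z hz
      show IsRoot _ z
      rw [IsRoot, eval_map]
      exact hz
  by_contra hcon
  push Not at hcon
  have hinj : Function.Injective g := by
    intro m n hmn
    rcases lt_trichotomy m n with h | h | h
    · exact absurd hmn (hcon m n h)
    · exact h
    · exact absurd hmn.symm (hcon n m h)
  apply Set.infinite_range_of_injective hinj
  refine hfin2.subset ?_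
  rintro _ ⟨n, rfl⟩
  exact Set.mem_biUnion (show P n ∈ {p : k[X][X] | p ≠ 0 ∧ ∀ i j, (d < i ∨ d < j) →
    (p.coeff i).coeff j = 0} from ⟨hP0 n, hPmem n⟩) (hPe n)

end PF

end Run7.h134
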