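import Pool.Agent.Run7.h134.KP
import Pool.Agent.Run7.h134.PolyFin

set_option autoImplicit false
set_option linter.style.haveILetI false

namespace Run7.h134

open Module Submodule Polynomial

section Ord

variable {k B : Type*} [Field k] [DivisionRing B] [Algebra k B]

variable (k) in
/-- division subring generated by `k` and `a` -/
def La (a : B) : Subfield B := Subfield.closure (Set.range (algebraMap k B) ∪ {a})

lemma k_mem_La (a : B) (c : k) : algebraMap k B c ∈ La k a :=
  Subfield.subset_closure (Or.inl ⟨c, rfl⟩)

lemma self_mem_La (a : B) : a ∈ La k a := Subfield.subset_closure (Or.inr rfl)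

lemma aeval_mem_La (a : B) (p : k[X]) : aeval a p ∈ La k a := by
  rw [aeval_eq_sum_range]
  apply sum_mem
  intro i _
  rw [Algebra.smul_def]
  exact (La k a).mul_mem (k_mem_La a _) (pow_mem (self_mem_La a) i)

lemma comm_aeval (a : B) (p q : k[X]) : aeval a p * aeval a q = aeval a q * aeval a p := by
  rw [← map_mul, mul_comm, map_mul]

variable (k) in
/-- fractions of polynomials in `a` -/
def frac (a : B) : Subfield B where
  carrier := {y | ∃ s r : k[X], aeval a s ≠ 0 ∧ aeval a s * y = aeval a r}
  mul_mem' := by
    rintro y y' ⟨s, r, hs, h⟩ ⟨s', r', hs', h'⟩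
    refine ⟨s' * s, r * r', ?_, ?_⟩
    · rw [map_mul]; exact mul_ne_zero hs' hs
    · rw [map_mul, map_mul]
      calc aeval a s' * aeval a s * (y * y') = aeval a s' * (aeval a s * y) * y' := by
            simp only [mul_assoc]
        _ = aeval a s' * aeval a r * y' := by rw [h]
        _ = aeval a r * (aeval a s' * y') := by rw [comm_aeval a s' r, mul_assoc]
        _ = aeval a r * aeval a r' := by rw [h']
  one_mem' := ⟨1, 1, by simp, by simp⟩
  add_mem' := by
    rintro y y' ⟨s, r, hs, h⟩ ⟨s', r', hs', h'⟩
    refine ⟨s' * s, s' * r + s * r', ?_, ?_⟩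
    · rw [map_mul]; exact mul_ne_zero hs' hs
    · rw [map_mul, map_add, map_mul, map_mul, mul_add]
      have e1 : aeval a s' * aeval a s * y = aeval a s' * aeval a r := by rw [mul_assoc, h]
      have e2 : aeval a s' * aeval a s * y' = aeval a s * aeval a r' := by
        rw [comm_aeval a s' s, mul_assoc, h']
      rw [e1, e2]
  zero_mem' := ⟨1, 0, by simp, by simp⟩
  neg_mem' := by
    rintro y ⟨s, r, hs, h⟩
    refine ⟨s, -r, hs, ?_⟩
    rw [mul_neg, h, map_neg]
  inv_mem' := by
    rintro y ⟨s, r, hs, h⟩
    by_cases hy : y = 0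
    · subst hy
      exact ⟨1, 0, by simp, by simp⟩
    · refine ⟨r, s, ?_, ?_⟩
      · rw [← h]; exact mul_ne_zero hs hy
      · rw [← h, mul_assoc, mul_inv_cancel₀ hy, mul_one]

lemma La_le_frac (a : B) : La k a ≤ frac k a := by
  apply Subfield.closure_le.mpr
  rintro y (⟨c, rfl⟩ | hy)
  · exact ⟨1, C c, by simp, by simp⟩
  · rw [Set.mem_singleton_iff] at hy
    subst hy
    exact ⟨1, X, by simp, by simp⟩

lemma common_denom (a : B) (s : Finset ℕ) (c : ℕ → B) (hc : ∀ j ∈ s, c j ∈ La k a) :
    ∃ q : k[X], aeval a q ≠ 0 ∧ ∀ j ∈ s, ∃ r : k[X], aeval a q * c j = aeval a r := by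
  classical
  induction s using Finset.induction_on with
  | empty => exact ⟨1, by simp, fun j hj => absurd hj (Finset.notMem_empty j)⟩
  | insert i s hi ih =>
    obtain ⟨q, hq, h⟩ := ih (fun j hj => hc j (Finset.mem_insert_of_mem hj))
    obtain ⟨t, r, ht, htr⟩ := La_le_frac a (hc i (Finset.mem_insert_self i s))
    refine ⟨q * t, ?_, ?_⟩
    · rw [map_mul]; exact mul_ne_zero hq ht
    · intro j hj
      rcases Finset.mem_insert.mp hj with rfl | hj
      · refine ⟨q * r, ?_⟩
        rw [map_mul, map_mul, mul_assoc, htr]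
      · obtain ⟨r', hr'⟩ := h j hj
        refine ⟨t * r', ?_⟩
        rw [map_mul, map_mul, comm_aeval a q t, mul_assoc, hr']

/-- bounded degree relation -/
lemma relation (a b : B) (hfin : Module.Finite (La k a) B) :
    ∃ p : ℕ → k[X], (∃ j < finrank (La k a) B + 1, p j ≠ 0) ∧
      ∑ j ∈ Finset.range (finrank (La k a) B + 1), aeval a (p j) * b ^ j = 0 := by
  classical
  set d := finrank (La k a) B with hd
  have hdep : ¬ LinearIndependent (La k a) (fun i : Fin (d + 1) => b ^ (i : ℕ)) := by
    intro hli
    have := hli.fintype_card_le_finrank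
    rw [← hd, Fintype.card_fin] at this
    omega
  rw [Fintype.not_linearIndependent_iff] at hdep
  obtain ⟨g, hg, i₀, hi₀⟩ := hdep
  let c : ℕ → B := fun j => if h : j < d + 1 then ((g ⟨j, h⟩ : La k a) : B) else 0
  obtain ⟨q, hq, hr⟩ := common_denom (k := k) a (Finset.range (d + 1)) c (by
    intro j hj
    rw [Finset.mem_range] at hj
    simp only [c, dif_pos hj]
    exact (g ⟨j, hj⟩).2)
  choose! r hr' using hr
  refine ⟨r, ⟨i₀, i₀.2, ?_⟩, ?_⟩
  · intro h0
    have h1 := hr' i₀ (Finset.mem_range.mpr i₀.2)
    rw [h0, map_zero] at h1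
    rcases mul_eq_zero.mp h1 with h2 | h2
    · exact hq h2
    · simp only [c, dif_pos i₀.2] at h2
      exact hi₀ (Subtype.ext h2)
  · have h1 : ∑ j ∈ Finset.range (d + 1), aeval a (r j) * b ^ j =
        aeval a q * ∑ j ∈ Finset.range (d + 1), c j * b ^ j := by
      rw [Finset.mul_sum]
      apply Finset.sum_congr rfl
      intro j hj
      rw [← hr' j hj, mul_assoc]
    rw [h1]
    have h2 : ∑ j ∈ Finset.range (d + 1), c j * b ^ j = 0 := by
      rw [Finset.sum_range]
      rw [← hg]
      apply Finset.sum_congr rfl
      intro i _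
      simp only [c, dif_pos i.2]
      rfl
    rw [h2, mul_zero]

lemma La_central {f : B} (hf : ∀ y, f * y = y * f) : ∀ a ∈ La k f, ∀ y, a * y = y * a := by
  have h : La k f ≤ cent (Set.univ : Set B) := by
    apply Subfield.closure_le.mpr
    rintro a (⟨c, rfl⟩ | ha)
    · intro y _
      exact (Algebra.commutes c y).symm
    · rw [Set.mem_singleton_iff] at ha
      subst ha
      intro y _
      exact (hf y).symm
  intro a ha y
  exact (h ha y (Set.mem_univ y)).symm

/-- exchange -/
lemma exchange {u f : B} (hf : ∀ y, f * y = y * f) (htr : Transcendental k f)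
    (hfin : Module.Finite (La k u) B) : Module.Finite (La k f) B := by
  classical
  obtain ⟨p, ⟨j₀, hj₀, hp⟩, hsum⟩ := relation (k := k) u f hfin
  set d := finrank (La k u) B with hd
  set M := (Finset.range (d + 1)).sup (fun j => (p j).natDegree) + 1 with hM
  have hMd : ∀ j ∈ Finset.range (d + 1), (p j).natDegree < M := by
    intro j hj
    have : (p j).natDegree ≤ (Finset.range (d + 1)).sup (fun j => (p j).natDegree) :=
      Finset.le_sup (f := fun j => (p j).natDegree) hj
    omega
  let q : ℕ → k[X] := fun i => ∑ j ∈ Finset.range (d + 1), monomial j ((p j).coeff i)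
  have hq : ∀ i, aeval f (q i) = ∑ j ∈ Finset.range (d + 1), (p j).coeff i • f ^ j := by
    intro i
    simp only [q, map_sum, aeval_monomial, Algebra.smul_def]
  have hrel : ∑ i ∈ Finset.range M, aeval f (q i) * u ^ i = 0 := by
    have e1 : ∀ j ∈ Finset.range (d + 1), aeval u (p j) * f ^ j =
        ∑ i ∈ Finset.range M, ((p j).coeff i • f ^ j) * u ^ i := by
      intro j hj
      rw [aeval_eq_sum_range' (hMd j hj), Finset.sum_mul]
      apply Finset.sum_congr rfl
      intro i _
      have hc : Commute (f ^ j) (u ^ i) := (Commute.pow_pow (hf u) j i)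
      rw [smul_mul_assoc, smul_mul_assoc, hc.eq]
    rw [Finset.sum_congr rfl e1, Finset.sum_comm] at hsum
    rw [← hsum]
    apply Finset.sum_congr rfl
    intro i _
    rw [hq, Finset.sum_mul]
  have htr' := transcendental_iff.mp htr
  have hex : ∃ i ∈ Finset.range M, q i ≠ 0 := by
    obtain ⟨i, hi⟩ : ∃ i, (p j₀).coeff i ≠ 0 := by
      by_contra hcon
      push Not at hcon
      exact hp (Polynomial.ext (by simpa using hcon))
    refine ⟨i, ?_, ?_⟩
    · rw [Finset.mem_range]
      exact lt_of_le_of_lt (le_natDegree_of_ne_zero hi) (hMd j₀ (Finset.mem_range.mpr hj₀))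
    · intro h0
      have := congrArg (fun r => r.coeff j₀) h0
      simp only [q, finsetSum_coeff, coeff_monomial, coeff_zero] at this
      rw [Finset.sum_ite_eq' (Finset.range (d + 1)) j₀ (fun j => (p j).coeff i),
        if_pos (Finset.mem_range.mpr hj₀)] at this
      exact hi this
  obtain ⟨I, hI, hImax⟩ := Finset.exists_max_image
    ((Finset.range M).filter (fun i => q i ≠ 0)) id (by
      obtain ⟨i, hi, hi2⟩ := hex
      exact ⟨i, Finset.mem_filter.mpr ⟨hi, hi2⟩⟩)
  rw [Finset.mem_filter, Finset.mem_range] at hI
  have hrel2 : ∑ i ∈ Finset.range (I + 1), aeval f (q i) * u ^ i = 0 := by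
    rw [← hrel]
    apply Finset.sum_subset
    · intro i hi
      rw [Finset.mem_range] at hi ⊢
      omega
    · intro i hi hi2
      have : q i = 0 := by
        by_contra h
        have := hImax i (Finset.mem_filter.mpr ⟨hi, h⟩)
        simp only [id] at this
        rw [Finset.mem_range] at hi2
        omega
      rw [this, map_zero, zero_mul]
  have hqI : aeval f (q I) ≠ 0 := fun h => hI.2 (htr' _ h)
  have hI1 : 1 ≤ I := by
    by_contra h
    have : I = 0 := by omega
    rw [this] at hrel2 hqI
    simp at hrel2
    exact hqI hrel2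
  set S : Submodule (La k f) B := span (La k f) ((fun i => u ^ i) '' (Finset.range I : Set ℕ)) with hS
  have hSfin : Module.Finite (La k f) S :=
    Module.Finite.span_of_finite _ ((Finset.range I).finite_toSet.image _)
  have hpow : ∀ i < I, u ^ i ∈ S := fun i hi => subset_span ⟨i, by simpa using hi, rfl⟩
  have huI : u ^ I ∈ S := by
    rw [Finset.sum_range_succ] at hrel2
    have e : u ^ I = -((aeval f (q I))⁻¹ * ∑ i ∈ Finset.range I, aeval f (q i) * u ^ i) := by
      have h1 := congrArg (fun y => (aeval f (q I))⁻¹ * y) hrel2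
      simp only [mul_add, mul_zero] at h1
      rw [← mul_assoc (aeval f (q I))⁻¹ (aeval f (q I)), inv_mul_cancel₀ hqI, one_mul] at h1
      exact eq_neg_of_add_eq_zero_right h1
    rw [e]
    apply S.neg_mem
    apply S.smul_mem (⟨_, (La k f).inv_mem (aeval_mem_La f (q I))⟩ : La k f)
    apply Submodule.sum_mem
    intro i hi
    exact S.smul_mem (⟨_, aeval_mem_La f (q i)⟩ : La k f) (hpow i (Finset.mem_range.mp hi))
  have hstab : La k u ≤ stabR (La k f) S hSfin := by
    apply Subfield.closure_le.mpr
    rintro a (⟨c, rfl⟩ | ha)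
    · intro y hy
      rw [← Algebra.commutes]
      exact S.smul_mem (⟨_, k_mem_La f c⟩ : La k f) hy
    · rw [Set.mem_singleton_iff] at ha
      subst ha
      intro y hy
      rw [hS] at hy
      induction hy using Submodule.span_induction with
      | mem z hz =>
        obtain ⟨i, hi, rfl⟩ := hz
        have hi' : i < I := by simpa using hi
        show a ^ i * a ∈ S
        rw [← pow_succ]
        rcases Nat.lt_or_ge (i + 1) I with h | h
        · exact hpow _ h
        · have : i + 1 = I := by omega
          rw [this]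
          exact huI
      | zero => rw [zero_mul]; exact Submodule.zero_mem _
      | add a b _ _ ha hb =>
        rw [add_mul]
        exact Submodule.add_mem _ ha hb
      | smul c a _ ha =>
        rw [smul_mul_assoc]
        exact Submodule.smul_mem _ c ha
  have hLu : ∀ y ∈ La k u, y ∈ S := by
    intro y hy
    have := hstab hy 1 (by simpa using hpow 0 hI1)
    rwa [one_mul] at this
  obtain ⟨t, ht⟩ := hfin.fg_top
  let T : Set B := ⋃ i ∈ Finset.range I, (fun β => u ^ i * β) '' (t : Set B)
  have hT : T.Finite := by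
    apply Set.Finite.biUnion (Finset.range I).finite_toSet
    intro i _
    exact (t.finite_toSet).image _
  have hSβ : ∀ y ∈ S, ∀ β ∈ t, y * β ∈ span (La k f) T := by
    intro y hy β hβ
    rw [hS] at hy
    induction hy using Submodule.span_induction with
    | mem z hz =>
      obtain ⟨i, hi, rfl⟩ := hz
      apply subset_span
      exact Set.mem_biUnion hi ⟨β, hβ, rfl⟩
    | zero => rw [zero_mul]; exact Submodule.zero_mem _
    | add a b _ _ ha hb =>
      rw [add_mul]
      exact Submodule.add_mem _ ha hb
    | smul c a _ ha =>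
      rw [smul_mul_assoc]
      exact Submodule.smul_mem _ c ha
  have hmul : ∀ c ∈ La k u, ∀ y ∈ span (La k f) T, c * y ∈ span (La k f) T := by
    intro c hc y hy
    induction hy using Submodule.span_induction with
    | mem z hz =>
      obtain ⟨i, hi, β, hβ, rfl⟩ := Set.mem_iUnion₂.mp hz
      show c * (u ^ i * β) ∈ _
      rw [← mul_assoc]
      exact hSβ _ (hLu _ ((La k u).mul_mem hc (pow_mem (self_mem_La u) i))) β hβ
    | zero => rw [mul_zero]; exact Submodule.zero_mem _
    | add a b _ _ ha hb =>
      rw [mul_add]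
      exact Submodule.add_mem _ ha hb
    | smul c' a _ ha =>
      have e : c * (c' • a) = c' • (c * a) := by
        show c * ((c' : B) * a) = (c' : B) * (c * a)
        rw [← mul_assoc, ← mul_assoc, La_central hf _ c'.2 c]
      rw [e]
      exact Submodule.smul_mem _ c' ha
  have htop : span (La k f) T = ⊤ := by
    rw [eq_top_iff]
    intro y _
    have hy : y ∈ span (La k u) (t : Set B) := by rw [ht]; trivial
    induction hy using Submodule.span_induction with
    | mem z hz =>
      have := hSβ _ (hpow 0 hI1) z hz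
      simpa using this
    | zero => exact Submodule.zero_mem _
    | add a b _ _ ha hb => exact Submodule.add_mem _ (ha trivial) (hb trivial)
    | smul c a _ ha => exact hmul c c.2 _ (ha trivial)
  exact ⟨⟨hT.toFinset, by simpa using htop⟩⟩

/-- a finite extension of `k(u)` has transcendental centre -/
lemma exists_central {u : B} (htr : Transcendental k u) (hfin : Module.Finite (La k u) B) :
    ∃ f : B, (∀ y, f * y = y * f) ∧ Transcendental k f := by
  have hcomm : ∀ a ∈ La k u, ∀ b ∈ La k u, a * b = b * a := by
    apply closure_comm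
    rintro a (⟨c, rfl⟩ | ha) b (⟨c', rfl⟩ | hb)
    · exact Algebra.commutes c _
    · exact Algebra.commutes c _
    · exact (Algebra.commutes c' _).symm
    · rw [Set.mem_singleton_iff] at ha hb
      rw [ha, hb]
  have hZ := kp (La k u) hcomm hfin
  by_contra hcon
  push Not at hcon
  let φ : k →+* Subring.center B := (algebraMap k B).codRestrict (Subring.center B) (fun c => by
    rw [Subring.mem_center_iff]
    intro g
    exact (Algebra.commutes c g).symm)
  letI : Algebra k (Subring.center B) := φ.toAlgebra
  have : IsScalarTower k (Subring.center B) B := IsScalarTower.of_algebraMap_eq (fun _ => rfl)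
  have hint : Algebra.IsIntegral k (Subring.center B) := by
    constructor
    intro z
    have h1 : IsAlgebraic k (z : B) := by
      have := hcon (z : B) (fun y => ((Subring.mem_center_iff.mp z.2) y).symm)
      rwa [Transcendental, not_not] at this
    have h2 : IsAlgebraic k z := by
      obtain ⟨p, hp, hpe⟩ := h1
      refine ⟨p, hp, ?_⟩
      have h3 : aeval (algebraMap (Subring.center B) B z) p = 0 := hpe
      rw [aeval_algebraMap_apply] at h3
      exact Subtype.ext h3
    exact h2.isIntegral
  have h3 : IsIntegral (Subring.center B) u := IsIntegral.of_finite (Subring.center B) u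
  have h4 : IsIntegral k u := isIntegral_trans (A := Subring.center B) u h3
  exact htr h4.isAlgebraic

/-- finite order on a central transcendental element -/
lemma finite_order [Finite k] {f : B} (hf : ∀ y, f * y = y * f) (htr : Transcendental k f)
    (hfin : Module.Finite (La k f) B) (σ : B ≃+* B)
    (hσ : ∀ c : k, σ (algebraMap k B c) = algebraMap k B c) :
    ∃ N : ℕ, 1 ≤ N ∧ (σ ^ N) f = f := by
  classical
  let φ : k →+* Subring.center B := (algebraMap k B).codRestrict (Subring.center B) (fun c => by
    rw [Subring.mem_center_iff]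
    intro g
    exact (Algebra.commutes c g).symm)
  letI : Algebra k (Subring.center B) := φ.toAlgebra
  have : IsScalarTower k (Subring.center B) B := IsScalarTower.of_algebraMap_eq (fun _ => rfl)
  have hcen : ∀ (τ : B ≃+* B), τ f ∈ Subring.center B := by
    intro τ
    rw [Subring.mem_center_iff]
    intro y
    have h1 := congrArg τ (hf (τ.symm y))
    rw [map_mul, map_mul, τ.apply_symm_apply] at h1
    exact h1.symm
  have hpow : ∀ n : ℕ, ∀ c : k, (σ ^ n) (algebraMap k B c) = algebraMap k B c := by
    intro n
    induction n with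
    | zero => intro c; rfl
    | succ n ih =>
      intro c
      rw [pow_succ]
      show (σ ^ n) (σ (algebraMap k B c)) = _
      rw [hσ, ih]
  have hev : ∀ (τ : B ≃+* B), (∀ c : k, τ (algebraMap k B c) = algebraMap k B c) →
      ∀ (a : B) (p : k[X]), τ (aeval a p) = aeval (τ a) p := by
    intro τ hτ a p
    rw [aeval_eq_sum_range, aeval_eq_sum_range, map_sum]
    apply Finset.sum_congr rfl
    intro i _
    rw [Algebra.smul_def, Algebra.smul_def, map_mul, hτ, map_pow]
  set d := finrank (La k f) B with hd
  let f' : Subring.center B := ⟨f, by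
    rw [Subring.mem_center_iff]; exact fun y => (hf y).symm⟩
  let g : ℕ → Subring.center B := fun n => ⟨(σ ^ n) f, hcen _⟩
  have hf' : Transcendental k f' := by
    intro h
    apply htr
    obtain ⟨p, hp, hpe⟩ := h
    refine ⟨p, hp, ?_⟩
    have h3 : aeval (algebraMap (Subring.center B) B f') p = 0 := by
      rw [aeval_algebraMap_apply, hpe, map_zero]
    exact h3
  have hevC : ∀ (a b : Subring.center B) (p : ℕ → k[X]) (m : ℕ),
      ((ev a b (∑ j ∈ Finset.range m, C (p j) * X ^ j) : Subring.center B) : B) =
        ∑ j ∈ Finset.range m, aeval (a : B) (p j) * (b : B) ^ j := by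
    intro a b p m
    rw [map_sum]
    rw [AddSubmonoidClass.coe_finsetSum]
    apply Finset.sum_congr rfl
    intro j _
    rw [map_mul, map_pow, ev_C, ev_X]
    have h3 : aeval (algebraMap (Subring.center B) B a) (p j) =
        algebraMap (Subring.center B) B (aeval a (p j)) := aeval_algebraMap_apply _ _ _
    have h4 : aeval (a : B) (p j) = ((aeval a (p j) : Subring.center B) : B) := h3
    rw [h4]
    rfl
  have hQ : ∀ (p : ℕ → k[X]) (m : ℕ), (∃ j < m + 1, p j ≠ 0) →
      (∑ j ∈ Finset.range (m + 1), C (p j) * X ^ j : k[X][X]) ≠ 0 ∧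
      (∑ j ∈ Finset.range (m + 1), C (p j) * X ^ j : k[X][X]).natDegree ≤ m := by
    rintro p m ⟨j, hj, hpj⟩
    constructor
    · intro h0
      have := congrArg (fun r => r.coeff j) h0
      simp only [finsetSum_coeff, coeff_C_mul, coeff_X_pow, coeff_zero, mul_ite, mul_one,
        mul_zero] at this
      rw [Finset.sum_ite_eq (Finset.range (m + 1)) j (fun j => p j),
        if_pos (Finset.mem_range.mpr hj)] at this
      exact hpj this
    · apply natDegree_sum_le_of_forall_le
      intro i hi
      rw [Finset.mem_range] at hi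
      exact (natDegree_C_mul_X_pow_le _ _).trans (by omega)
  obtain ⟨m, n, hmn, hg⟩ := finite_orbit hf' d g (by
    intro n
    obtain ⟨p, hp, hsum⟩ := relation (k := k) f ((σ ^ n) f) hfin
    refine ⟨∑ j ∈ Finset.range (d + 1), C (p j) * X ^ j, (hQ p d hp).1, (hQ p d hp).2, ?_⟩
    apply Subtype.ext
    rw [hevC]
    exact hsum) (by
    intro n
    obtain ⟨p, hp, hsum⟩ := relation (k := k) f ((σ ^ n).symm f) hfin
    refine ⟨∑ j ∈ Finset.range (d + 1), C (p j) * X ^ j, (hQ p d hp).1, (hQ p d hp).2, ?_⟩
    apply Subtype.ext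
    rw [hevC]
    have h1 := congrArg (σ ^ n) hsum
    rw [map_sum, map_zero] at h1
    have h2 : ∀ j, (σ ^ n) (aeval f (p j) * ((σ ^ n).symm f) ^ j) =
        aeval ((σ ^ n) f) (p j) * f ^ j := by
      intro j
      rw [map_mul, map_pow, hev _ (hpow n), RingEquiv.apply_symm_apply]
    simp only [h2] at h1
    exact h1)
  refine ⟨n - m, by omega, ?_⟩
  have h1 : (σ ^ m) f = (σ ^ n) f := congrArg Subtype.val hg
  have h2 : σ ^ n = σ ^ m * σ ^ (n - m) := by
    rw [← pow_add]; congr 1; omega
  rw [h2] at h1
  exact ((σ ^ m).injective h1).symm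

end Ord

end Run7.h134
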