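import Pool.Agent.Run7.h134.T2

set_option autoImplicit false
set_option linter.style.haveILetI false

namespace Run7.h134

open Module Submodule

/-- A finitely generated division algebra with `Tdeg D < 3` which contains two commuting
algebraically independent elements is finite-dimensional over its centre. -/
theorem t2 {k D : Type*} [Field k] [DivisionRing D] [Algebra k D]
    (hT : Tdeg k D < 3)
    (hfg : ∃ s : Finset D, ∀ S : Subfield D, (∀ c : k, algebraMap k D c ∈ S) →
      (∀ y ∈ s, y ∈ S) → S = ⊤)
    (u v : D) (huv : v * u = u * v) (hu : Transcendental k u)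
    (hind : ∀ (n : ℕ) (c : ℕ → D),
      (∀ i, c i ∈ Subfield.closure (Set.range (algebraMap k D) ∪ {u})) →
      ∑ i ∈ Finset.range n, c i * v ^ i = 0 → ∀ i < n, c i = 0) :
    Module.Finite (Subring.center D) D := by
  classical
  obtain ⟨s, hs⟩ := hfg
  set L := Subfield.closure (Set.range (algebraMap k D) ∪ {u}) with hL
  set K := Subfield.closure (Set.range (algebraMap k D) ∪ {u, v}) with hK
  have hkL : ∀ c : k, algebraMap k D c ∈ L := fun c => Subfield.subset_closure (Or.inl ⟨c, rfl⟩)
  have hLK : L ≤ K := by
    apply Subfield.closure_mono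
    apply Set.union_subset_union le_rfl
    intro y hy
    rw [Set.mem_singleton_iff] at hy
    exact Or.inl hy
  have huL : u ∈ L := Subfield.subset_closure (Or.inr rfl)
  have hvK : v ∈ K := Subfield.subset_closure (Or.inr (Or.inr rfl))
  have hv0 : v ≠ 0 := by
    rintro rfl
    have h1 := hind 2 (fun i => if i = 1 then 1 else 0) (by
      intro i
      by_cases h : i = 1
      · simp only [h, if_true]; exact L.one_mem
      · simp only [h, if_false]; exact L.zero_mem) (by simp [Finset.sum_range_succ]) 1 (by omega)
    simp at h1
  have hcomm : ∀ a ∈ K, ∀ b ∈ K, a * b = b * a := by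
    apply closure_comm
    rintro a (⟨c, rfl⟩ | ha) b hb
    · exact Algebra.commutes c b
    · rcases hb with ⟨c, rfl⟩ | hb
      · exact (Algebra.commutes c a).symm
      · rcases ha with rfl | ha <;> rcases hb with rfl | hb
        · rfl
        · rw [Set.mem_singleton_iff] at hb
          rw [hb]; exact huv.symm
        · rw [Set.mem_singleton_iff] at ha
          rw [ha]; exact huv
        · rw [Set.mem_singleton_iff] at ha hb
          rw [ha, hb]
  have hv : ∀ l ∈ L, v * l = l * v := fun l hl => hcomm v hvK l (hLK hl)
  let V : Submodule k D := span k (insert 1 (insert u (insert v (s : Set D))))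
  have fdV : FiniteDimensional k V :=
    FiniteDimensional.span_of_finite k (((s.finite_toSet.insert v).insert u).insert 1)
  have oneV : (1 : D) ∈ V := subset_span (Set.mem_insert _ _)
  have uV : u ∈ V := subset_span (Set.mem_insert_of_mem _ (Set.mem_insert _ _))
  have vV : v ∈ V := subset_span (Set.mem_insert_of_mem _ (Set.mem_insert_of_mem _
    (Set.mem_insert _ _)))
  have sV : ∀ y ∈ s, y ∈ V := fun y hy => subset_span (Set.mem_insert_of_mem _
    (Set.mem_insert_of_mem _ (Set.mem_insert_of_mem _ hy)))
  obtain ⟨b, hb, q, n₀, hgr⟩ := tdeg_extract hT V fdV oneV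
  have hgen : ∀ T : Subfield D, (∀ c : k, algebraMap k D c ∈ T) → (∀ y ∈ V, y ∈ T) → T = ⊤ :=
    fun T h1 h2 => hs T h1 (fun y hy => h2 y (sV y hy))
  have hfin : Module.Finite K D := by
    by_contra hinf
    letI := algSub L hkL
    letI := algSub K (fun c => hLK (hkL c))
    have : IsScalarTower k L D := ⟨fun c y d => by
      show (c • (y : D)) * d = c • ((y : D) * d)
      rw [smul_mul_assoc]⟩
    have : IsScalarTower k K D := ⟨fun c y d => by
      show (c • (y : D)) * d = c • ((y : D) * d)
      rw [smul_mul_assoc]⟩
    exact superpoly (fun n => finrank k (PP V b n)) (fun n => PP_pos fdV hb oneV n)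
      (fun n => PP_mono fdV hb oneV n) q n₀ hgr
      (fun n => key_ineq L K hLK hkL u v huL hu hvK hv0 hv hind hinf V fdV hb oneV uV vV hgen n)
  exact kp K hcomm hfin

end Run7.h134
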