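import Pool.Agent.Run7.h134.OreVal
import Pool.Agent.Run7.h134.MainA
import Pool.Agent.Run7.h134.T2Main

set_option autoImplicit false
set_option linter.style.haveILetI false

namespace Run7.h134

open Module Submodule Polynomial

namespace OreD

variable {k D : Type*} [Field k] [DivisionRing D] [Algebra k D] (G : OreD k D)

/-- Every finite subset of `E` lies in a `σ`-stable division ring finite over `k(u)`, inside the
image of `E` in the residue ring. -/
lemma exists_F (hT : Tdeg k D < 3) (W₀ : Finset D) (hW₀ : ∀ w ∈ W₀, w ∈ G.E) (u : D)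
    (hu : u ∈ G.E) (htr : Transcendental k u) :
    ∃ F : Subfield G.toDV.Res, (∀ y ∈ F, ∃ e, G.jj e = y) ∧
      (∀ c : k, algebraMap k G.toDV.Res c ∈ F) ∧
      (∀ w (hw : w ∈ W₀), G.jj ⟨w, hW₀ w hw⟩ ∈ F) ∧ G.jj ⟨u, hu⟩ ∈ F ∧
      (∀ y ∈ F, G.toDV.rc 1 y ∈ F ∧ G.toDV.rc (-1) y ∈ F) ∧
      Subfield.closure (Set.range (algebraMap k G.toDV.Res) ∪ {G.jj ⟨u, hu⟩}) ≤ F ∧
      Module.Finite (Subfield.closure (Set.range (algebraMap k G.toDV.Res) ∪ {G.jj ⟨u, hu⟩}))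
        (span (Subfield.closure (Set.range (algebraMap k G.toDV.Res) ∪ {G.jj ⟨u, hu⟩}))
          (F : Set G.toDV.Res)) := by
  classical
  set u' := G.jj ⟨u, hu⟩ with hu'
  letI := algSub G.E G.kE
  have htr' : Transcendental k u' := by
    intro h
    apply htr
    let φ : G.E →ₐ[k] G.toDV.Res := { G.jj with commutes' := fun c => G.jj_k c }
    let ψ : G.E →ₐ[k] D := { G.E.subtype with commutes' := fun c => rfl }
    have h1 : IsAlgebraic k (⟨u, hu⟩ : G.E) := by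
      obtain ⟨p, hp, hpe⟩ := h
      refine ⟨p, hp, ?_⟩
      have h4 := Polynomial.aeval_algHom_apply φ (⟨u, hu⟩ : G.E) p
      apply G.jj_inj
      rw [map_zero]
      exact h4.symm.trans hpe
    exact h1.algHom ψ
  let W : Submodule k G.toDV.Res := span k (insert 1 (insert u'
    ((fun w : W₀ => G.jj ⟨w, hW₀ w w.2⟩) '' Set.univ)))
  have fdW : FiniteDimensional k W := by
    apply FiniteDimensional.span_of_finite
    exact ((Set.finite_univ.image _).insert _).insert _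
  have oneW : (1 : G.toDV.Res) ∈ W := subset_span (Set.mem_insert _ _)
  have uW : u' ∈ W := subset_span (Set.mem_insert_of_mem _ (Set.mem_insert _ _))
  obtain ⟨F, hkF, hWF, hUF, hrc, hfin⟩ := G.toDV.stable hT W fdW oneW u' uW htr'
  set U := Subfield.closure (Set.range (algebraMap k G.toDV.Res) ∪ {u'}) with hU
  let F₁ : Subfield G.toDV.Res := F ⊓ G.jj.fieldRange
  have hF₁ : ∀ y, y ∈ F₁ ↔ y ∈ F ∧ ∃ e, G.jj e = y := fun y => Iff.rfl
  have hUF₁ : U ≤ F₁ := by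
    apply Subfield.closure_le.mpr
    rintro y (⟨c, rfl⟩ | hy)
    · exact ⟨hkF c, ⟨⟨algebraMap k D c, G.kE c⟩, G.jj_k c⟩⟩
    · rw [Set.mem_singleton_iff] at hy
      subst hy
      exact ⟨hWF _ uW, ⟨⟨u, hu⟩, rfl⟩⟩
  have hrc1 : ∀ y ∈ F₁, G.toDV.rc 1 y ∈ F₁ := by
    rintro y ⟨hyF, ⟨e, rfl⟩⟩
    refine ⟨(hrc _ hyF).1, ?_⟩
    obtain ⟨a, ha, c, hc, h⟩ := G.hx e e.2
    exact ⟨⟨a, ha⟩, (G.jj_x e.2 ha hc h).symm⟩
  -- the chain
  have hrcn : ∀ n : ℕ, ∀ y ∈ F₁, G.toDV.rc n y ∈ F₁ := by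
    intro n
    induction n with
    | zero =>
      intro y hy
      rw [Nat.cast_zero, G.toDV.rc_zero]
      exact hy
    | succ n ih =>
      intro y hy
      have := hrc1 _ (ih y hy)
      rw [G.toDV.rc_rc] at this
      rw [show ((n + 1 : ℕ) : ℤ) = 1 + n by push_cast; ring]
      exact this
  have hrcF : ∀ n : ℕ, ∀ y ∈ F, G.toDV.rc (-(n : ℤ)) y ∈ F := by
    intro n
    induction n with
    | zero =>
      intro y hy
      rw [Nat.cast_zero, neg_zero, G.toDV.rc_zero]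
      exact hy
    | succ n ih =>
      intro y hy
      have := (hrc _ (ih y hy)).2
      rw [G.toDV.rc_rc] at this
      rw [show (-((n + 1 : ℕ) : ℤ)) = -1 + -n by push_cast; ring]
      exact this
  let Mn : ℕ → Subfield G.toDV.Res := fun n => F ⊓ F₁.comap (G.toDV.rc n : G.toDV.Res →+* G.toDV.Res)
  have hMn : ∀ n y, y ∈ Mn n ↔ y ∈ F ∧ G.toDV.rc n y ∈ F₁ := fun n y => Iff.rfl
  have hMnF : ∀ n, Mn n ≤ F := fun n y hy => hy.1
  have hUM : ∀ n, U ≤ Mn n := fun n y hy => ⟨hUF hy, hrcn n y (hUF₁ hy)⟩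
  have hmono : ∀ n, Mn n ≤ Mn (n + 1) := by
    intro n y hy
    refine ⟨hy.1, ?_⟩
    have := hrc1 _ ((hMn n y).mp hy).2
    rw [G.toDV.rc_rc] at this
    show G.toDV.rc ((n + 1 : ℕ) : ℤ) y ∈ F₁
    rw [show ((n + 1 : ℕ) : ℤ) = 1 + n by push_cast; ring]
    exact this
  have hfinM : ∀ n, Module.Finite U (span U (Mn n : Set G.toDV.Res)) := fun n =>
    Submodule.finiteDimensional_of_le (span_mono (fun y hy => hMnF n hy))
  have hex : ∃ n, Mn n = Mn (n + 1) := by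
    by_contra hcon
    push Not at hcon
    set N := finrank U (span U (F : Set G.toDV.Res)) with hN
    have key : ∀ n, 2 ^ n ≤ finrank U (span U (Mn n : Set G.toDV.Res)) := by
      intro n
      induction n with
      | zero =>
        have f0 := hfinM 0
        have h1 : 0 < finrank U (span U (Mn 0 : Set G.toDV.Res)) := by
          rw [Module.finrank_pos_iff_exists_ne_zero]
          refine ⟨⟨1, subset_span (one_mem (Mn 0))⟩, ?_⟩
          intro h
          exact one_ne_zero (congrArg Subtype.val h)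
        rw [pow_zero]
        exact h1
      | succ n ih =>
        have h3 := doubling U (Mn n) (Mn (n + 1)) (hUM n)
          (lt_of_le_of_ne (hmono n) (hcon n)) (hfinM (n + 1))
        rw [pow_succ]
        omega
    have h1 := key N
    have h2 : finrank U (span U (Mn N : Set G.toDV.Res)) ≤ N :=
      Submodule.finrank_mono (span_mono (fun y hy => hMnF N hy))
    have h3 : N < 2 ^ N := Nat.lt_two_pow_self
    omega
  obtain ⟨n, hn⟩ := hex
  have hrcm : ∀ y ∈ F₁, G.toDV.rc (-1) y ∈ F₁ := by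
    intro y hy
    have h1 : G.toDV.rc (-((n + 1 : ℕ) : ℤ)) y ∈ Mn (n + 1) := by
      refine ⟨hrcF (n + 1) y hy.1, ?_⟩
      show G.toDV.rc ((n + 1 : ℕ) : ℤ) (G.toDV.rc (-((n + 1 : ℕ) : ℤ)) y) ∈ F₁
      rw [G.toDV.rc_rc, add_neg_cancel, G.toDV.rc_zero]
      exact hy
    rw [← hn] at h1
    have h2 := ((hMn n _).mp h1).2
    rw [G.toDV.rc_rc] at h2
    rw [show ((n : ℤ) + -((n + 1 : ℕ) : ℤ)) = -1 by push_cast; ring] at h2
    exact h2
  refine ⟨F₁, fun y hy => hy.2, fun c => ⟨hkF c, ⟨⟨algebraMap k D c, G.kE c⟩, G.jj_k c⟩⟩, ?_, ?_,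
    fun y hy => ⟨hrc1 y hy, hrcm y hy⟩, hUF₁, ?_⟩
  · intro w hw
    refine ⟨hWF _ (subset_span ?_), ⟨⟨w, hW₀ w hw⟩, rfl⟩⟩
    exact Set.mem_insert_of_mem _ (Set.mem_insert_of_mem _ ⟨⟨w, hw⟩, Set.mem_univ _, rfl⟩)
  · exact ⟨hWF _ uW, ⟨⟨u, hu⟩, rfl⟩⟩
  · exact Submodule.finiteDimensional_of_le (span_mono (fun y hy => hy.1))

end OreD

end Run7.h134
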