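import Pool.Agent.Run7.h134.OreFin
import Pool.Agent.Run7.h134.Fixed

set_option autoImplicit false
set_option linter.style.haveILetI false

namespace Run7.h134

open Module Submodule Polynomial

section

variable {k R : Type*} [Field k] [DivisionRing R] [Algebra k R]

lemma finite_La (F : Subfield R) (hkF : ∀ c : k, algebraMap k R c ∈ F) (u : R) (hu : u ∈ F)
    (hUF : Subfield.closure (Set.range (algebraMap k R) ∪ {u}) ≤ F)
    (hfin : Module.Finite (Subfield.closure (Set.range (algebraMap k R) ∪ {u}))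
      (span (Subfield.closure (Set.range (algebraMap k R) ∪ {u})) (F : Set R))) :
    letI := algSub F hkF
    Module.Finite (La k (⟨u, hu⟩ : F)) F := by
  letI := algSub F hkF
  show Module.Finite (La k (⟨u, hu⟩ : F)) F
  have hUle : ∀ c (hc : c ∈ Subfield.closure (Set.range (algebraMap k R) ∪ {u})),
      (⟨c, hUF hc⟩ : F) ∈ La k (⟨u, hu⟩ : F) := by
    have h1 : Subfield.closure (Set.range (algebraMap k R) ∪ {u}) ≤
        (La k (⟨u, hu⟩ : F)).map F.subtype := by
      apply Subfield.closure_le.mpr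
      rintro y (⟨c, rfl⟩ | hy)
      · exact ⟨_, k_mem_La (⟨u, hu⟩ : F) c, rfl⟩
      · rw [Set.mem_singleton_iff] at hy
        subst hy
        exact ⟨_, self_mem_La (⟨y, hu⟩ : F), rfl⟩
    intro c hc
    obtain ⟨z, hz, hzc⟩ := h1 hc
    have : (⟨c, hUF hc⟩ : F) = z := Subtype.ext hzc.symm
    rw [this]
    exact hz
  exact finite_sub hUF (La k (⟨u, hu⟩ : F)) hUle hfin

lemma tr_sub (F : Subfield R) (hkF : ∀ c : k, algebraMap k R c ∈ F) (u : R) (hu : u ∈ F)
    (htr : Transcendental k u) :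
    letI := algSub F hkF
    Transcendental k (⟨u, hu⟩ : F) := by
  letI := algSub F hkF
  show Transcendental k (⟨u, hu⟩ : F)
  intro h
  let φ : F →ₐ[k] R := { F.subtype with commutes' := fun c => rfl }
  exact htr (h.algHom φ)

lemma tr_of_sub (F : Subfield R) (hkF : ∀ c : k, algebraMap k R c ∈ F) (u : R) (hu : u ∈ F)
    (htr : letI := algSub F hkF; Transcendental k (⟨u, hu⟩ : F)) :
    Transcendental k u := by
  letI := algSub F hkF
  intro h
  apply htr
  obtain ⟨p, hp, hpe⟩ := h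
  refine ⟨p, hp, ?_⟩
  let φ : F →ₐ[k] R := { F.subtype with commutes' := fun c => rfl }
  have h4 := Polynomial.aeval_algHom_apply φ (⟨u, hu⟩ : F) p
  apply Subtype.ext
  have h5 : φ (⟨u, hu⟩ : F) = u := rfl
  rw [h5, hpe] at h4
  exact h4.symm

lemma La_comm (u : R) : ∀ a ∈ La k u, ∀ b ∈ La k u, a * b = b * a := by
  apply closure_comm
  rintro a (⟨c, rfl⟩ | ha) b (⟨c', rfl⟩ | hb)
  · exact Algebra.commutes c _
  · exact Algebra.commutes c _
  · exact (Algebra.commutes c' _).symm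
  · rw [Set.mem_singleton_iff] at ha hb
    rw [ha, hb]

end

namespace OreD

variable {k D : Type*} [Field k] [Finite k] [DivisionRing D] [Algebra k D] (G : OreD k D)

omit [Finite k] in
lemma tr_jj {e : D} (he : e ∈ G.E) (h : Transcendental k e) :
    Transcendental k (G.jj ⟨e, he⟩) := by
  letI := algSub G.E G.kE
  let φ : G.E →ₐ[k] G.toDV.Res := { G.jj with commutes' := fun c => G.jj_k c }
  intro hal
  have h1 := tr_sub G.E G.kE e he h
  apply h1
  obtain ⟨p, hp, hpe⟩ := hal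
  refine ⟨p, hp, ?_⟩
  have h4 := Polynomial.aeval_algHom_apply φ (⟨e, he⟩ : G.E) p
  apply G.jj_inj
  rw [map_zero]
  exact h4.symm.trans hpe

omit [Finite k] in
lemma tr_of_jj {e : D} (he : e ∈ G.E) (h : Transcendental k (G.jj ⟨e, he⟩)) :
    Transcendental k e := by
  letI := algSub G.E G.kE
  let φ : G.E →ₐ[k] G.toDV.Res := { G.jj with commutes' := fun c => G.jj_k c }
  apply tr_of_sub G.E G.kE e he
  intro hal
  exact h (hal.algHom φ)

omit [Finite k] in
lemma Mon_pow (g : D) (hg : g ∈ G.E) (n : ℕ) : G.Mon n ((G.x + g) ^ n) := by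
  have h1 : G.Mon 1 (G.x + g) := by
    refine ⟨G.E.one_mem, one_ne_zero, ?_⟩
    rw [pow_one, one_mul, add_sub_cancel_left]
    exact G.E_mem_S hg
  induction n with
  | zero => rw [pow_zero]; exact G.Mon_one
  | succ n ih =>
    rw [pow_succ]
    exact G.Mon_mul ih h1

omit [Finite k] in
lemma indep' (g : D) (hg : g ∈ G.E) (n : ℕ) (c : ℕ → D) (hc : ∀ i, c i ∈ G.E)
    (h : ∑ i ∈ Finset.range n, c i * (G.x + g) ^ i = 0) : ∀ i < n, c i = 0 := by
  induction n with
  | zero => intro i hi; omega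
  | succ n ih =>
    have hmem : ∀ m, ∑ i ∈ Finset.range m, c i * (G.x + g) ^ i ∈ G.S m := by
      intro m
      apply Submodule.sum_mem
      intro i hi
      rw [Finset.mem_range] at hi
      exact G.smul_mem_S (hc i) (G.S_mono (by omega) (LT.mem G (G.Mon_pow g hg i)))
    have hn0 : c n = 0 := by
      by_contra hne
      rw [Finset.sum_range_succ] at h
      have h1 := hmem n
      have h2 : c n * (G.x + g) ^ n ∈ G.S n := by
        have e : c n * (G.x + g) ^ n = -(∑ i ∈ Finset.range n, c i * (G.x + g) ^ i) :=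
          eq_neg_of_add_eq_zero_right h
        rw [e]
        exact neg_mem h1
      have h3 : (G.x + g) ^ n ∈ G.S n := by
        have := G.smul_mem_S (G.E.inv_mem (hc n)) h2
        rwa [← mul_assoc, inv_mul_cancel₀ hne, one_mul] at this
      exact LT.nmem G (G.Mon_pow g hg n) h3
    rw [Finset.sum_range_succ, hn0, zero_mul, add_zero] at h
    intro i hi
    rcases Nat.lt_succ_iff_lt_or_eq.mp hi with h1 | h1
    · exact ih h i h1
    · rw [h1]; exact hn0

/-- transcendental case -/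
lemma caseT (hT : Tdeg k D < 3)
    (hfg : ∃ s : Finset D, ∀ S : Subfield D, (∀ c : k, algebraMap k D c ∈ S) →
      (∀ y ∈ s, y ∈ S) → S = ⊤)
    (u : D) (hu : u ∈ G.E) (htr : Transcendental k u) :
    Module.Finite (Subring.center D) D := by
  classical
  have htr' := G.tr_jj hu htr
  -- the fixed central element
  obtain ⟨F₁, hF₁j, hkF₁, _, huF₁, hrc, hUF₁, hfin₁⟩ := G.exists_F hT ∅ (by simp) u hu htr
  obtain ⟨z₀, hz₀E, hz₀tr, v, hvE, hxz⟩ : ∃ z₀ ∈ G.E, Transcendental k z₀ ∧ ∃ v ∈ G.E,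
      G.x * z₀ = z₀ * G.x + v := by
    letI := algSub F₁ hkF₁
    have h1 := finite_La F₁ hkF₁ _ huF₁ hUF₁ hfin₁
    have h2 := tr_sub F₁ hkF₁ _ huF₁ htr'
    let σ : F₁ ≃+* F₁ :=
      { toFun := fun y => ⟨G.toDV.rc 1 y, (hrc y y.2).1⟩
        invFun := fun y => ⟨G.toDV.rc (-1) y, (hrc y y.2).2⟩
        left_inv := fun y => by
          apply Subtype.ext
          show G.toDV.rc (-1) (G.toDV.rc 1 y) = y
          rw [G.toDV.rc_rc, neg_add_cancel, G.toDV.rc_zero]
        right_inv := fun y => by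
          apply Subtype.ext
          show G.toDV.rc 1 (G.toDV.rc (-1) y) = y
          rw [G.toDV.rc_rc, add_neg_cancel, G.toDV.rc_zero]
        map_mul' := fun a b => Subtype.ext (map_mul _ _ _)
        map_add' := fun a b => Subtype.ext (map_add _ _ _) }
    obtain ⟨z, _, hztr, hzσ⟩ := exists_fixed h2 h1 σ (by
      intro c
      apply Subtype.ext
      exact (G.toDV.rc 1).commutes c)
    obtain ⟨e, he⟩ := hF₁j z z.2
    obtain ⟨a, ha, c, hc, h⟩ := G.hx e e.2
    have h3 : G.toDV.rc 1 (G.jj e) = G.jj ⟨a, ha⟩ := G.jj_x e.2 ha hc h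
    have h4 : G.toDV.rc 1 (z : G.toDV.Res) = z := congrArg Subtype.val hzσ
    rw [he, h4, ← he] at h3
    have h5 : (e : D) = a := congrArg Subtype.val (G.jj_inj h3)
    refine ⟨e, e.2, ?_, c, hc, ?_⟩
    · apply G.tr_of_jj e.2
      have h6 := tr_of_sub F₁ hkF₁ z z.2 hztr
      rw [← he] at h6
      exact h6
    · rw [h, ← h5]
  -- Fitting
  obtain ⟨F₂, hF₂j, hkF₂, hW₂, huF₂, _, hUF₂, hfin₂⟩ := G.exists_F hT {z₀, v} (by
    intro w hw
    rcases Finset.mem_insert.mp hw with rfl | hw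
    · exact hz₀E
    · rw [Finset.mem_singleton] at hw
      rw [hw]; exact hvE) u hu htr
  obtain ⟨n, v₀, hv₀E, g, hgE, hvg, hnil⟩ : ∃ n : ℕ, ∃ v₀ ∈ G.E, ∃ g ∈ G.E,
      v = v₀ + (z₀ * g - g * z₀) ∧ (fun y => z₀ * y - y * z₀)^[n] v₀ = 0 := by
    letI := algSub F₂ hkF₂
    have h1 := finite_La F₂ hkF₂ _ huF₂ hUF₂ hfin₂
    have h2 := kp _ (La_comm _) h1
    have hzF : G.jj ⟨z₀, hz₀E⟩ ∈ F₂ := hW₂ z₀ (Finset.mem_insert_self _ _)
    have hvF : G.jj ⟨v, hvE⟩ ∈ F₂ := hW₂ v (Finset.mem_insert_of_mem (Finset.mem_singleton_self _))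
    obtain ⟨n, v₀', g', h3, h4⟩ := fitting h2 (⟨_, hzF⟩ : F₂) (⟨_, hvF⟩ : F₂)
    obtain ⟨v₀, hv₀⟩ := hF₂j v₀' v₀'.2
    obtain ⟨g, hg⟩ := hF₂j g' g'.2
    refine ⟨n, v₀, v₀.2, g, g.2, ?_, ?_⟩
    · have h5 := congrArg Subtype.val h3
      change G.jj ⟨v, hvE⟩ = (v₀' : G.toDV.Res) + (G.jj ⟨z₀, hz₀E⟩ * g' - g' * G.jj ⟨z₀, hz₀E⟩) at h5
      rw [← hv₀, ← hg, ← map_mul, ← map_mul, ← map_sub, ← map_add] at h5
      exact congrArg Subtype.val (G.jj_inj h5)
    · have key : ∀ (m : ℕ) (y : G.E) (y' : F₂), G.jj y = y' →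
          ∃ w : G.E, (w : D) = (fun y => z₀ * y - y * z₀)^[m] (y : D) ∧
            G.jj w = (((fun y => (⟨_, hzF⟩ : F₂) * y - y * (⟨_, hzF⟩ : F₂))^[m] y' : F₂) :
              G.toDV.Res) := by
        intro m
        induction m with
        | zero => intro y y' h; exact ⟨y, rfl, h⟩
        | succ m ih =>
          intro y y' h
          rw [Function.iterate_succ, Function.iterate_succ]
          obtain ⟨w, hw1, hw2⟩ := ih (⟨z₀, hz₀E⟩ * y - y * ⟨z₀, hz₀E⟩)
            ((⟨_, hzF⟩ : F₂) * y' - y' * (⟨_, hzF⟩ : F₂)) (by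
              rw [map_sub, map_mul, map_mul, h]
              rfl)
          exact ⟨w, hw1, hw2⟩
      obtain ⟨w, hw1, hw2⟩ := key n v₀ v₀' hv₀
      rw [← hw1]
      rw [h4] at hw2
      have : w = 0 := by
        apply G.jj_inj
        rw [hw2, map_zero]
        rfl
      rw [this]
      rfl
  -- the commuting pair
  set x' := G.x + g with hx'
  have had : z₀ * x' - x' * z₀ = -v₀ := by
    have e : z₀ * (G.x + g) - (G.x + g) * z₀ = z₀ * G.x - G.x * z₀ + (z₀ * g - g * z₀) := by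
      noncomm_ring
    rw [hx', e, hxz, hvg]
    abel
  have hneg : ∀ (m : ℕ) (y : D), (fun y => z₀ * y - y * z₀)^[m] (-y) =
      -((fun y => z₀ * y - y * z₀)^[m] y) := by
    intro m
    induction m with
    | zero => intro y; rfl
    | succ m ih =>
      intro y
      rw [Function.iterate_succ, Function.comp_apply, Function.comp_apply, ← ih]
      congr 1
      noncomm_ring
  obtain ⟨N, hN, hcomm⟩ := comm_of_ad (k := k) z₀ x' (n + 1) (by
    rw [Function.iterate_succ, Function.comp_apply, had, hneg, hnil, neg_zero])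
  refine t2 hT hfg (z₀ ^ N) x' hcomm.symm (hz₀tr.pow hN) ?_
  have hle : Subfield.closure (Set.range (algebraMap k D) ∪ {z₀ ^ N}) ≤ G.E := by
    apply Subfield.closure_le.mpr
    rintro y (⟨c, rfl⟩ | hy)
    · exact G.kE c
    · rw [Set.mem_singleton_iff] at hy
      subst hy
      exact pow_mem hz₀E N
  intro n c hc h
  exact G.indep' g hgE n c (fun i => hle (hc i)) h

end OreD

end Run7.h134
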