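import Pool.Agent.Run7.h134.DV

set_option autoImplicit false
set_option linter.style.haveILetI false

namespace Run7.h134

open Module Submodule

/-- A division ring generated by a division subring `E` and an element `x` with `xE ⊆ Ex + E`,
with the powers of `x` left independent over `E`. -/
structure OreD (k D : Type*) [Field k] [DivisionRing D] [Algebra k D] where
  E : Subfield D
  kE : ∀ c : k, algebraMap k D c ∈ E
  x : D
  hx : ∀ e ∈ E, ∃ a ∈ E, ∃ c ∈ E, x * e = a * x + c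
  indep : ∀ (n : ℕ) (c : ℕ → D), (∀ i, c i ∈ E) → ∑ i ∈ Finset.range n, c i * x ^ i = 0 →
    ∀ i < n, c i = 0
  gen : ∀ S : Subfield D, E ≤ S → x ∈ S → S = ⊤

namespace OreD

variable {k D : Type*} [Field k] [DivisionRing D] [Algebra k D] (G : OreD k D)

/-- elements of degree `< n` -/
def S (n : ℕ) : Submodule G.E D := span G.E (Set.range (fun i : Fin n => G.x ^ (i : ℕ)))

lemma pow_mem_S {i n : ℕ} (h : i < n) : G.x ^ i ∈ G.S n := subset_span ⟨⟨i, h⟩, rfl⟩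

lemma S_mono {n m : ℕ} (h : n ≤ m) : G.S n ≤ G.S m := by
  apply span_le.mpr
  rintro _ ⟨i, rfl⟩
  exact G.pow_mem_S (lt_of_lt_of_le i.2 h)

lemma S_zero {a : D} (h : a ∈ G.S 0) : a = 0 := by
  unfold S at h
  have : Set.range (fun i : Fin 0 => G.x ^ (i : ℕ)) = ∅ := Set.range_eq_empty _
  rw [this, span_empty] at h
  exact h

lemma linInd_x : LinearIndependent G.E (fun i : ℕ => G.x ^ i) := by
  classical
  rw [linearIndependent_iff']
  intro s g hg i hi
  obtain ⟨M, hM⟩ : ∃ M : ℕ, ∀ i ∈ s, i < M := by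
    refine ⟨s.sup id + 1, fun i hi => ?_⟩
    have := Finset.le_sup (f := id) hi
    simp only [id] at this
    omega
  have h1 := G.indep M (fun i => if i ∈ s then (g i : D) else 0) (by
    intro i
    by_cases h : i ∈ s
    · simp only [h, if_true]; exact (g i).2
    · simp only [h, if_false]; exact G.E.zero_mem) (by
    refine Eq.trans ?_ hg
    symm
    apply Finset.sum_subset_zero_on_sdiff
    · intro i hi
      exact Finset.mem_range.mpr (hM i hi)
    · intro i hi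
      simp only [(Finset.mem_sdiff.mp hi).2, if_false, zero_mul]
    · intro i hi
      simp only [hi, if_true]
      rfl) i (hM i hi)
  simp only [hi, if_true] at h1
  exact Subtype.ext h1

lemma finrank_S (n : ℕ) : finrank G.E (G.S n) = n := by
  have h1 : LinearIndependent G.E (fun i : Fin n => G.x ^ (i : ℕ)) :=
    G.linInd_x.comp _ Fin.val_injective
  unfold S
  rw [finrank_span_eq_card h1]
  simp

lemma finite_S (n : ℕ) : Module.Finite G.E (G.S n) :=
  Module.Finite.span_of_finite G.E (Set.finite_range _)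

lemma E_mem_S {e : D} (he : e ∈ G.E) : e ∈ G.S 1 := by
  have := (G.S 1).smul_mem (⟨e, he⟩ : G.E) (G.pow_mem_S (i := 0) (n := 1) (by omega))
  rw [pow_zero] at this
  have e1 : (⟨e, he⟩ : G.E) • (1 : D) = e := mul_one e
  rwa [e1] at this

lemma smul_mem_S {n : ℕ} {e a : D} (he : e ∈ G.E) (ha : a ∈ G.S n) : e * a ∈ G.S n :=
  (G.S n).smul_mem (⟨e, he⟩ : G.E) ha

lemma x_mul_mem {n : ℕ} {a : D} (ha : a ∈ G.S n) : G.x * a ∈ G.S (n + 1) := by
  unfold S at ha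
  induction ha using Submodule.span_induction with
  | mem y hy =>
    obtain ⟨i, rfl⟩ := hy
    show G.x * G.x ^ (i : ℕ) ∈ _
    rw [← pow_succ']
    exact G.pow_mem_S (by omega)
  | zero => rw [mul_zero]; exact Submodule.zero_mem _
  | add a b _ _ ha hb => rw [mul_add]; exact Submodule.add_mem _ ha hb
  | smul c y hy ih =>
    obtain ⟨a, ha, c', hc', h⟩ := G.hx c c.2
    have e : G.x * ((c : D) * y) = a * (G.x * y) + c' * y := by
      rw [← mul_assoc, h, add_mul, mul_assoc]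
    show G.x * ((c : D) * y) ∈ _
    rw [e]
    exact Submodule.add_mem _ (G.smul_mem_S ha ih)
      (G.smul_mem_S hc' (G.S_mono (Nat.le_succ n) hy))

lemma pow_mul_mem {n : ℕ} {a : D} (ha : a ∈ G.S n) (i : ℕ) : G.x ^ i * a ∈ G.S (n + i) := by
  induction i with
  | zero => simpa using ha
  | succ i ih =>
    rw [pow_succ', mul_assoc, ← add_assoc]
    exact G.x_mul_mem ih

lemma mul_mem_S {m n : ℕ} {a b : D} (ha : a ∈ G.S (m + 1)) (hb : b ∈ G.S n) :
    a * b ∈ G.S (m + n) := by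
  unfold S at ha
  induction ha using Submodule.span_induction with
  | mem y hy =>
    obtain ⟨i, rfl⟩ := hy
    show G.x ^ (i : ℕ) * b ∈ _
    exact G.S_mono (by omega) (G.pow_mul_mem hb i)
  | zero => rw [zero_mul]; exact Submodule.zero_mem _
  | add a b _ _ ha hb => rw [add_mul]; exact Submodule.add_mem _ ha hb
  | smul c y hy ih =>
    rw [smul_mul_assoc]
    exact Submodule.smul_mem _ c ih

lemma mul_mem_S' {m n : ℕ} {a b : D} (ha : a ∈ G.S m) (hb : b ∈ G.S (n + 1)) :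
    a * b ∈ G.S (m + n) := by
  rcases Nat.eq_zero_or_pos m with h0 | h0
  · subst h0
    rw [G.S_zero ha, zero_mul]
    exact Submodule.zero_mem _
  · obtain ⟨m', rfl⟩ : ∃ m', m = m' + 1 := ⟨m - 1, by omega⟩
    exact G.S_mono (by omega) (G.mul_mem_S ha hb)

lemma pow_nmem (n : ℕ) {c : D} (hc : c ∈ G.E) (hc0 : c ≠ 0) : c * G.x ^ n ∉ G.S n := by
  intro h
  have h1 : G.x ^ n ∈ G.S n := by
    have := G.smul_mem_S (G.E.inv_mem hc) h
    rwa [← mul_assoc, inv_mul_cancel₀ hc0, one_mul] at this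
  have h2 : G.S (n + 1) ≤ G.S n := by
    apply span_le.mpr
    rintro _ ⟨i, rfl⟩
    rcases Nat.lt_or_ge i n with h | h
    · exact G.pow_mem_S h
    · have : (i : ℕ) = n := by have := i.2; omega
      show G.x ^ (i : ℕ) ∈ _
      rw [this]
      exact h1
  have f1 := G.finite_S n
  have h3 := Submodule.finrank_mono h2
  rw [G.finrank_S, G.finrank_S] at h3
  omega

/-- `c x^n` is the leading term of `a` -/
def LT (a c : D) (n : ℕ) : Prop := c ∈ G.E ∧ c ≠ 0 ∧ a - c * G.x ^ n ∈ G.S n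

lemma LT.mem {a c : D} {n : ℕ} (H : G.LT a c n) : a ∈ G.S (n + 1) := by
  have h1 := G.S_mono (Nat.le_succ n) H.2.2
  have h2 := G.smul_mem_S H.1 (G.pow_mem_S (Nat.lt_succ_self n))
  have := add_mem h1 h2
  simpa using this

lemma LT.nmem {a c : D} {n : ℕ} (H : G.LT a c n) : a ∉ G.S n := by
  intro h
  apply G.pow_nmem n H.1 H.2.1
  have := sub_mem h H.2.2
  simpa using this

lemma LT.lt {a c : D} {n M : ℕ} (H : G.LT a c n) (h : a ∈ G.S M) : n < M := by
  by_contra hcon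
  push Not at hcon
  exact LT.nmem G H (G.S_mono hcon h)

lemma LT.ne_zero {a c : D} {n : ℕ} (H : G.LT a c n) : a ≠ 0 := by
  rintro rfl
  exact LT.nmem G H (Submodule.zero_mem _)

lemma LT_unique {a c c' : D} {n n' : ℕ} (H : G.LT a c n) (H' : G.LT a c' n') : n = n' ∧ c = c' := by
  have h1 := LT.lt G H (LT.mem G H')
  have h2 := LT.lt G H' (LT.mem G H)
  have h3 : n = n' := by omega
  subst h3
  refine ⟨rfl, ?_⟩
  by_contra hne
  have h4 : (c' - c) * G.x ^ n ∈ G.S n := by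
    have := sub_mem H.2.2 H'.2.2
    have e : a - c * G.x ^ n - (a - c' * G.x ^ n) = (c' - c) * G.x ^ n := by
      rw [sub_mul]; abel
    rwa [e] at this
  exact G.pow_nmem n (G.E.sub_mem H'.1 H.1) (fun h => hne (sub_eq_zero.mp h).symm) h4

lemma top_coeff {a : D} {n : ℕ} (ha : a ∈ G.S (n + 1)) : ∃ c ∈ G.E, a - c * G.x ^ n ∈ G.S n := by
  unfold S at ha
  induction ha using Submodule.span_induction with
  | mem y hy =>
    obtain ⟨i, rfl⟩ := hy
    rcases Nat.lt_or_ge i n with h | h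
    · refine ⟨0, G.E.zero_mem, ?_⟩
      show G.x ^ (i : ℕ) - 0 * G.x ^ n ∈ _
      rw [zero_mul, sub_zero]
      exact G.pow_mem_S h
    · refine ⟨1, G.E.one_mem, ?_⟩
      have : (i : ℕ) = n := by have := i.2; omega
      show G.x ^ (i : ℕ) - 1 * G.x ^ n ∈ _
      rw [this, one_mul, sub_self]
      exact Submodule.zero_mem _
  | zero =>
    refine ⟨0, G.E.zero_mem, ?_⟩
    rw [zero_mul, sub_zero]
    exact Submodule.zero_mem _
  | add a b _ _ ha hb =>
    obtain ⟨c, hc, h⟩ := ha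
    obtain ⟨c', hc', h'⟩ := hb
    refine ⟨c + c', G.E.add_mem hc hc', ?_⟩
    have := add_mem h h'
    have e : a - c * G.x ^ n + (b - c' * G.x ^ n) = a + b - (c + c') * G.x ^ n := by
      rw [add_mul]; abel
    rwa [e] at this
  | smul c y hy ih =>
    obtain ⟨c', hc', h⟩ := ih
    refine ⟨c * c', G.E.mul_mem c.2 hc', ?_⟩
    have := G.smul_mem_S c.2 h
    rw [mul_sub, ← mul_assoc] at this
    exact this

lemma LT_exists {a : D} {m : ℕ} (ha : a ∈ G.S m) (h0 : a ≠ 0) : ∃ c n, G.LT a c n ∧ n < m := by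
  induction m with
  | zero => exact absurd (G.S_zero ha) h0
  | succ m ih =>
    obtain ⟨c, hc, h⟩ := G.top_coeff ha
    by_cases hc0 : c = 0
    · rw [hc0, zero_mul, sub_zero] at h
      obtain ⟨c', n, H, hn⟩ := ih h
      exact ⟨c', n, H, by omega⟩
    · exact ⟨c, m, ⟨hc, hc0, h⟩, by omega⟩

/-- monic elements -/
def Mon (n : ℕ) (r : D) : Prop := G.LT r 1 n

lemma Mon_one : G.Mon 0 1 := by
  refine ⟨G.E.one_mem, one_ne_zero, ?_⟩
  rw [pow_zero, mul_one, sub_self]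
  exact Submodule.zero_mem _

lemma Mon_x : G.Mon 1 G.x := by
  refine ⟨G.E.one_mem, one_ne_zero, ?_⟩
  rw [pow_one, one_mul, sub_self]
  exact Submodule.zero_mem _

lemma LT_mul_mon {a c r : D} {n m : ℕ} (H : G.LT a c n) (H' : G.Mon m r) :
    G.LT (a * r) c (n + m) := by
  refine ⟨H.1, H.2.1, ?_⟩
  have e : a * r - c * G.x ^ (n + m) =
      (a - c * G.x ^ n) * r + c * (G.x ^ n * (r - 1 * G.x ^ m)) := by
    rw [pow_add, one_mul]
    noncomm_ring
  rw [e]
  apply add_mem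
  · exact G.mul_mem_S' H.2.2 (LT.mem G H')
  · apply G.smul_mem_S H.1
    have := G.pow_mul_mem H'.2.2 n
    rwa [add_comm m n] at this

lemma Mon_mul {r r' : D} {n m : ℕ} (H : G.Mon n r) (H' : G.Mon m r') : G.Mon (n + m) (r * r') :=
  G.LT_mul_mon H H'

lemma Mon_scale {a c : D} {n : ℕ} (H : G.LT a c n) : G.Mon n (c⁻¹ * a) := by
  refine ⟨G.E.one_mem, one_ne_zero, ?_⟩
  have := G.smul_mem_S (G.E.inv_mem H.1) H.2.2
  rwa [mul_sub, ← mul_assoc, inv_mul_cancel₀ H.2.1] at this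

lemma ore {a r : D} {m : ℕ} {n : ℕ} (ha : a ∈ G.S m) (hr : G.Mon n r) :
    ∃ (j : ℕ) (t t' : D) (N : ℕ), G.Mon j t ∧ t' ∈ G.S N ∧ t * a = t' * r := by
  by_cases ha0 : a = 0
  · refine ⟨0, 1, 0, 0, G.Mon_one, Submodule.zero_mem _, ?_⟩
    rw [ha0, mul_zero, zero_mul]
  have hr0 := LT.ne_zero G hr
  set M := max m (n + 1) with hM
  have h1 : a ∈ G.S M := G.S_mono (le_max_left _ _) ha
  have h2 : r ∈ G.S M := G.S_mono (le_max_right _ _) (LT.mem G hr)
  have l1 : (G.S (M + 1)).map (mulR G.E a) ≤ G.S (M + M) := by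
    rintro _ ⟨y, hy, rfl⟩
    exact G.mul_mem_S hy h1
  have l2 : (G.S (M + 1)).map (mulR G.E r) ≤ G.S (M + M) := by
    rintro _ ⟨y, hy, rfl⟩
    exact G.mul_mem_S hy h2
  have f0 := G.finite_S (M + M)
  have f1 : Module.Finite G.E ((G.S (M + 1)).map (mulR G.E a)) :=
    Submodule.finiteDimensional_of_le l1
  have f2 : Module.Finite G.E ((G.S (M + 1)).map (mulR G.E r)) :=
    Submodule.finiteDimensional_of_le l2
  have h3 := Submodule.finrank_sup_add_finrank_inf_eq ((G.S (M + 1)).map (mulR G.E a))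
    ((G.S (M + 1)).map (mulR G.E r))
  rw [finrank_map_injS _ (mulR_inj G.E ha0), finrank_map_injS _ (mulR_inj G.E hr0),
    G.finrank_S] at h3
  have h4 := Submodule.finrank_mono (sup_le l1 l2)
  rw [G.finrank_S] at h4
  have h5 : ((G.S (M + 1)).map (mulR G.E a) ⊓ (G.S (M + 1)).map (mulR G.E r)) ≠ ⊥ := by
    intro hbot
    rw [hbot, finrank_bot] at h3
    omega
  obtain ⟨y, ⟨⟨t, ht, hty⟩, ⟨t', ht', hty'⟩⟩, hy0⟩ := Submodule.exists_mem_ne_zero_of_ne_bot h5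
  rw [mulR_apply] at hty hty'
  have ht0 : t ≠ 0 := by
    rintro rfl
    apply hy0
    rw [← hty, zero_mul]
  obtain ⟨c, j, H, _⟩ := G.LT_exists ht ht0
  refine ⟨j, c⁻¹ * t, c⁻¹ * t', M + 1, G.Mon_scale H, G.smul_mem_S (G.E.inv_mem H.1) ht', ?_⟩
  rw [mul_assoc, hty, mul_assoc, hty']

/-- elements of degree at most `s` -/
def FilS (s : ℤ) (d : D) : Prop :=
  ∃ (n : ℕ) (r : D), G.Mon n r ∧ r * d ∈ G.S ((n : ℤ) + s + 1).toNat

lemma shift {t y : D} {j n : ℕ} {s : ℤ} (ht : G.Mon j t) (hy : y ∈ G.S ((n : ℤ) + s + 1).toNat) :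
    t * y ∈ G.S (((j + n : ℕ) : ℤ) + s + 1).toNat := by
  rcases Nat.eq_zero_or_pos ((n : ℤ) + s + 1).toNat with h0 | h0
  · rw [h0] at hy
    rw [G.S_zero hy, mul_zero]
    exact Submodule.zero_mem _
  · exact G.S_mono (by push_cast; omega) (G.mul_mem_S (LT.mem G ht) hy)

lemma common {r r' : D} {n n' : ℕ} (hr : G.Mon n r) (hr' : G.Mon n' r') :
    ∃ (j j' : ℕ) (t t' : D), G.Mon j t ∧ G.Mon j' t' ∧ t * r = t' * r' ∧ j + n = j' + n' := by
  obtain ⟨j, t, t', N, ht, ht', he⟩ := G.ore (LT.mem G hr) hr'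
  have h1 := G.Mon_mul ht hr
  have ht'0 : t' ≠ 0 := by
    rintro rfl
    rw [zero_mul] at he
    rw [he] at h1
    exact LT.ne_zero G h1 rfl
  obtain ⟨c, i, H, _⟩ := G.LT_exists ht' ht'0
  have h2 := G.LT_mul_mon H hr'
  rw [← he] at h2
  obtain ⟨h3, h4⟩ := G.LT_unique h1 h2
  subst h4
  exact ⟨j, i, t, t', ht, H, he, h3⟩

lemma FilS_add {s : ℤ} {d d' : D} (h : G.FilS s d) (h' : G.FilS s d') : G.FilS s (d + d') := by
  obtain ⟨n, r, hr, hd⟩ := h
  obtain ⟨n', r', hr', hd'⟩ := h'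
  obtain ⟨j, j', t, t', ht, ht', he, hn⟩ := G.common hr hr'
  refine ⟨j + n, t * r, G.Mon_mul ht hr, ?_⟩
  rw [mul_add]
  apply add_mem
  · rw [mul_assoc]
    exact G.shift ht hd
  · rw [he, mul_assoc, hn]
    exact G.shift ht' hd'

lemma FilS_mul {s s' : ℤ} {d d' : D} (h : G.FilS s d) (h' : G.FilS s' d') :
    G.FilS (s + s') (d * d') := by
  by_cases hd0 : d = 0
  · refine ⟨0, 1, G.Mon_one, ?_⟩
    rw [hd0, zero_mul, mul_zero]
    exact Submodule.zero_mem _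
  obtain ⟨n, r, hr, hd⟩ := h
  obtain ⟨n', r', hr', hd'⟩ := h'
  have ha0 : r * d ≠ 0 := mul_ne_zero (LT.ne_zero G hr) hd0
  obtain ⟨j, t, t', N, ht, ht', he⟩ := G.ore hd hr'
  refine ⟨j + n, t * r, G.Mon_mul ht hr, ?_⟩
  have e1 : t * r * (d * d') = t' * (r' * d') := by
    calc t * r * (d * d') = t * (r * d) * d' := by simp only [mul_assoc]
      _ = t' * r' * d' := by rw [he]
      _ = _ := by rw [mul_assoc]
  rw [e1]
  have ht'0 : t' ≠ 0 := by
    rintro rfl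
    rw [zero_mul] at he
    exact mul_ne_zero (LT.ne_zero G ht) ha0 he
  obtain ⟨c, i, H, _⟩ := G.LT_exists ht' ht'0
  have h2 := G.LT_mul_mon H hr'
  rw [← he] at h2
  have h3 := LT.lt G h2 (G.mul_mem_S (LT.mem G ht) hd)
  rcases Nat.eq_zero_or_pos ((n' : ℤ) + s' + 1).toNat with h0 | h0
  · rw [h0] at hd'
    rw [G.S_zero hd', mul_zero]
    exact Submodule.zero_mem _
  · rcases Nat.eq_zero_or_pos ((n : ℤ) + s + 1).toNat with h00 | h00
    · rw [h00] at hd
      exact absurd (G.S_zero hd) ha0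
    · exact G.S_mono (by push_cast; omega) (G.mul_mem_S (LT.mem G H) hd')

lemma FilS_mono {s t : ℤ} (hst : s ≤ t) {d : D} (h : G.FilS s d) : G.FilS t d := by
  obtain ⟨n, r, hr, hd⟩ := h
  exact ⟨n, r, hr, G.S_mono (by omega) hd⟩

lemma FilS_E {e : D} (he : e ∈ G.E) : G.FilS 0 e := by
  refine ⟨0, 1, G.Mon_one, ?_⟩
  rw [one_mul]
  exact G.E_mem_S he

lemma FilS_x : G.FilS 1 G.x := by
  refine ⟨0, 1, G.Mon_one, ?_⟩
  rw [one_mul]
  have := G.pow_mem_S (i := 1) (n := 2) (by omega)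
  rw [pow_one] at this
  exact this

lemma FilS_zero (s : ℤ) : G.FilS s 0 := by
  refine ⟨0, 1, G.Mon_one, ?_⟩
  rw [mul_zero]
  exact Submodule.zero_mem _

lemma x_ne_zero : G.x ≠ 0 := LT.ne_zero G G.Mon_x

lemma FilS_inv {d : D} (hd0 : d ≠ 0) {n M : ℕ} {r : D} (hr : G.Mon n r) (hd : r * d ∈ G.S M) :
    ∃ s : ℤ, G.FilS s d ∧ G.FilS (-s) d⁻¹ := by
  have ha0 : r * d ≠ 0 := mul_ne_zero (LT.ne_zero G hr) hd0
  obtain ⟨c, m, H, _⟩ := G.LT_exists hd ha0
  refine ⟨(m : ℤ) - n, ⟨n, r, hr, ?_⟩, ⟨m, c⁻¹ * (r * d), G.Mon_scale H, ?_⟩⟩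
  · have e : ((n : ℤ) + ((m : ℤ) - n) + 1).toNat = m + 1 := by omega
    rw [e]
    exact LT.mem G H
  · have e : ((m : ℤ) + -((m : ℤ) - n) + 1).toNat = n + 1 := by omega
    rw [e, mul_assoc, mul_assoc, mul_inv_cancel₀ hd0, mul_one]
    exact G.smul_mem_S (G.E.inv_mem H.1) (LT.mem G hr)

/-- all fractions -/
def Fr : Subfield D where
  carrier := {d | ∃ s, G.FilS s d}
  mul_mem' := by
    rintro a b ⟨s, hs⟩ ⟨t, ht⟩
    exact ⟨_, G.FilS_mul hs ht⟩
  one_mem' := ⟨0, G.FilS_E G.E.one_mem⟩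
  add_mem' := by
    rintro a b ⟨s, hs⟩ ⟨t, ht⟩
    exact ⟨max s t, G.FilS_add (G.FilS_mono (le_max_left _ _) hs)
      (G.FilS_mono (le_max_right _ _) ht)⟩
  zero_mem' := ⟨0, G.FilS_zero 0⟩
  neg_mem' := by
    rintro a ⟨s, n, r, hr, hd⟩
    refine ⟨s, n, r, hr, ?_⟩
    rw [mul_neg]
    exact neg_mem hd
  inv_mem' := by
    rintro a ⟨s, n, r, hr, hd⟩
    by_cases ha0 : a = 0
    · rw [ha0, inv_zero]
      exact ⟨0, G.FilS_zero 0⟩
    · obtain ⟨s', _, h⟩ := G.FilS_inv ha0 hr hd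
      exact ⟨_, h⟩

lemma Fr_top : G.Fr = ⊤ :=
  G.gen _ (fun _ he => ⟨0, G.FilS_E he⟩) ⟨1, G.FilS_x⟩

/-- the degree filtration as a valuation -/
def toDV : DV k D where
  Fil s :=
    { carrier := {d | G.FilS s d}
      add_mem' := fun h h' => G.FilS_add h h'
      zero_mem' := G.FilS_zero s
      smul_mem' := by
        rintro c d ⟨n, r, hr, hd⟩
        refine ⟨n, r, hr, ?_⟩
        have e : r * (c • d) = algebraMap k D c * (r * d) := by
          rw [mul_smul_comm, Algebra.smul_def]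
        rw [e]
        exact G.smul_mem_S (G.kE c) hd }
  mono := fun hst _ h => G.FilS_mono hst h
  mul_mem := fun h h' => G.FilS_mul h h'
  one_mem := G.FilS_E G.E.one_mem
  one_nmem := by
    rintro ⟨n, r, hr, h⟩
    rw [mul_one] at h
    have e : ((n : ℤ) + -1 + 1).toNat = n := by omega
    rw [e] at h
    exact LT.nmem G hr h
  x := G.x
  x0 := G.x_ne_zero
  x_mem := G.FilS_x
  xi_mem := by
    refine ⟨1, G.x, G.Mon_x, ?_⟩
    rw [mul_inv_cancel₀ G.x_ne_zero]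
    exact G.E_mem_S G.E.one_mem
  ex := by
    intro d hd
    have h : d ∈ G.Fr := by rw [G.Fr_top]; trivial
    obtain ⟨s, n, r, hr, h⟩ := h
    exact G.FilS_inv hd hr h

lemma mem_Fil {s : ℤ} {d : D} : d ∈ G.toDV.Fil s ↔ G.FilS s d := Iff.rfl

lemma E_nmem {e : D} (he : e ∈ G.E) (h0 : e ≠ 0) : e ∉ G.toDV.Fil (-1) := by
  intro h
  have h1 := G.toDV.mul_mem h (G.FilS_E (G.E.inv_mem he) : e⁻¹ ∈ G.toDV.Fil 0)
  rw [mul_inv_cancel₀ h0] at h1
  exact G.toDV.one_nmem (G.toDV.Fil_cast h1 (by ring))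

/-- the embedding of `E` in the residue ring -/
noncomputable def jj : G.E →+* G.toDV.Res where
  toFun e := G.toDV.res ⟨(e : D), G.FilS_E e.2⟩
  map_one' := map_one G.toDV.res
  map_mul' a b := map_mul G.toDV.res ⟨(a : D), G.FilS_E a.2⟩ ⟨(b : D), G.FilS_E b.2⟩
  map_zero' := map_zero G.toDV.res
  map_add' a b := map_add G.toDV.res ⟨(a : D), G.FilS_E a.2⟩ ⟨(b : D), G.FilS_E b.2⟩

lemma jj_k (c : k) : G.jj ⟨algebraMap k D c, G.kE c⟩ = algebraMap k G.toDV.Res c :=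
  G.toDV.res.commutes c

lemma jj_inj : Function.Injective G.jj := G.jj.injective

lemma jj_x {e a c : D} (he : e ∈ G.E) (ha : a ∈ G.E) (hc : c ∈ G.E)
    (h : G.x * e = a * G.x + c) : G.toDV.rc 1 (G.jj ⟨e, he⟩) = G.jj ⟨a, ha⟩ := by
  show G.toDV.res (G.toDV.cj 1 ⟨e, _⟩) = G.toDV.res ⟨a, _⟩
  rw [← sub_eq_zero, ← map_sub, G.toDV.res_eq_zero]
  show G.x ^ (1 : ℤ) * e * G.x ^ (-1 : ℤ) - a ∈ G.toDV.Fil (-1)
  have e1 : G.x ^ (1 : ℤ) * e * G.x ^ (-1 : ℤ) - a = c * G.x⁻¹ := by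
    rw [zpow_one, zpow_neg_one, h, add_mul, mul_assoc, mul_inv_cancel₀ G.x_ne_zero, mul_one]
    abel
  rw [e1]
  exact G.toDV.Fil_cast (G.toDV.mul_mem (G.FilS_E hc : c ∈ G.toDV.Fil 0) G.toDV.xi_mem) (by ring)

end OreD

end Run7.h134
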