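import Pool.Agent.Helper460_PR.Inst

/-!
# Steinberg systems and their standard representations
-/

set_option autoImplicit false
set_option linter.unusedSectionVars false

namespace Run7.h134.PE

open Module

/-- Elements of a group which satisfy the Steinberg relations over a ring. -/
structure Stb (m : ℕ) (R : Type) [Ring R] (G : Type) [Group G] where
  x : Fin m → Fin m → R → G
  add : ∀ i j, i ≠ j → ∀ r s, x i j (r + s) = x i j r * x i j s
  comm : ∀ i j k l, i ≠ j → k ≠ l → j ≠ k → i ≠ l → ∀ r s,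
    x i j r * x k l s = x k l s * x i j r
  mul : ∀ i j k, i ≠ j → j ≠ k → i ≠ k → ∀ r s,
    x i j r * x j k s = x i k (r * s) * x j k s * x i j r

namespace Stb

variable {m : ℕ} {R : Type} [Ring R] {G : Type} [Group G] (D : Stb m R G)

lemma x_zero {i j : Fin m} (h : i ≠ j) : D.x i j 0 = 1 := by
  have h1 := D.add i j h 0 0
  rw [add_zero] at h1
  exact mul_eq_left.1 h1.symm

lemma x_neg {i j : Fin m} (h : i ≠ j) (r : R) : D.x i j (-r) = (D.x i j r)⁻¹ := by
  have h1 := D.add i j h (-r) r
  rw [neg_add_cancel, D.x_zero h] at h1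
  exact eq_inv_of_mul_eq_one_left h1.symm

/-- The opposite system. -/
def op : Stb m Rᵐᵒᵖ G where
  x i j r := D.x j i (-(MulOpposite.unop r))
  add i j h r s := by
    rw [MulOpposite.unop_add, neg_add, D.add j i h.symm]
  comm i j k l h1 h2 h3 h4 r s := D.comm j i l k h1.symm h2.symm h4 h3 _ _
  mul i j k h1 h2 h3 r s := by
    have h := D.mul k j i h2.symm h1.symm h3.symm (-(MulOpposite.unop s)) (-(MulOpposite.unop r))
    rw [neg_mul_neg] at h
    rw [MulOpposite.unop_mul, D.x_neg h3.symm, mul_assoc, h, ← mul_assoc, ← mul_assoc,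
      inv_mul_cancel, one_mul]

variable {K V : Type} [Field K] [AddCommGroup V] [Module K V] (Ψ : G →* End K V)

lemma mulv (g h : G) (v : V) : Ψ (g * h) v = Ψ g (Ψ h v) := by rw [map_mul]; rfl

lemma inj' (g : G) {v : V} (h : Ψ g v = 0) : v = 0 := by
  have : Ψ (g⁻¹ * g) v = 0 := by rw [mulv, h, map_zero]
  rwa [inv_mul_cancel, map_one] at this

lemma exists_ne4 (hm : 5 ≤ m) (a b c d : Fin m) : ∃ e : Fin m, e ≠ a ∧ e ≠ b ∧ e ≠ c ∧ e ≠ d := by
  have h : (({a, b, c, d} : Finset (Fin m))).card < Fintype.card (Fin m) := by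
    rw [Fintype.card_fin]
    exact lt_of_le_of_lt Finset.card_le_four (by omega)
  obtain ⟨e, he⟩ := Finset.exists_mem_notMem_of_card_lt_card
    (s := ({a, b, c, d} : Finset (Fin m))) (t := Finset.univ) (by simpa using h)
  simp only [Finset.mem_univ, Finset.mem_insert, Finset.mem_singleton, not_or, true_and] at he
  exact ⟨e, he⟩

section std

variable (hm : 5 ≤ m) (u : Basis (Fin m) K V)
  (hu : ∀ i j, i ≠ j → Ψ (D.x i j 1) (u j) = u j + u i)
  (hu' : ∀ i j k, i ≠ j → k ≠ j → Ψ (D.x i j 1) (u k) = u k)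
include hm hu hu'

/-- `x i j 1` acts by `1 + E_{ij}`. -/
lemma act (i j : Fin m) (h : i ≠ j) (v : V) : Ψ (D.x i j 1) v = v + u.repr v j • u i := by
  have : Ψ (D.x i j 1) = LinearMap.id + ((u.coord j).smulRight (u i)) := by
    apply u.ext
    intro k
    by_cases hk : k = j
    · subst hk
      rw [hu i k h]
      simp
    · rw [hu' i j k h hk]
      simp [hk]
  rw [this]
  simp

lemma commutes (a b i j : Fin m) (r : R) (hab : a ≠ b) (hij : i ≠ j) (hi : i ≠ b) (hj : j ≠ a)
    (v : V) : u.repr (Ψ (D.x a b r) v) j • u i = u.repr v j • Ψ (D.x a b r) (u i) := by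
  have h := congrArg (fun g => Ψ g v) (D.comm a b i j hab hij hi.symm hj.symm r 1)
  simp only [mulv] at h
  rw [D.act Ψ hm u hu hu' i j hij, D.act Ψ hm u hu hu' i j hij, map_add, map_smul] at h
  exact (add_left_cancel h).symm

lemma form (a b : Fin m) (hab : a ≠ b) (r : R) :
    ∃ c l : K, Ψ (D.x a b r) (u b) = l • u b + c • u a ∧
      ∀ k, k ≠ b → Ψ (D.x a b r) (u k) = l • u k := by
  refine ⟨u.repr (Ψ (D.x a b r) (u b)) a, u.repr (Ψ (D.x a b r) (u b)) b, ?_, ?_⟩
  · apply u.ext_elem
    intro j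
    rw [map_add, map_smul, map_smul, Basis.repr_self, Basis.repr_self]
    by_cases hja : j = a
    · subst hja
      simp [Finsupp.single_apply, hab.symm]
    · by_cases hjb : j = b
      · subst hjb
        simp [Finsupp.single_apply, hab]
      · obtain ⟨i, hi1, hi2, -, -⟩ := exists_ne4 hm b j j j
        have h := D.commutes Ψ hm u hu hu' a b i j r hab hi2 hi1 hja (u b)
        rw [Basis.repr_self, Finsupp.single_apply, if_neg (Ne.symm hjb), zero_smul] at h
        have h2 := (smul_eq_zero.1 h).resolve_right (u.ne_zero i)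
        rw [h2]
        simp [Finsupp.single_apply, Ne.symm hja, Ne.symm hjb]
  · intro k hk
    have h := D.commutes Ψ hm u hu hu' a b k b r hab hk hk hab.symm (u b)
    rw [Basis.repr_self, Finsupp.single_eq_same, one_smul] at h
    exact h.symm

lemma form1 (a b : Fin m) (hab : a ≠ b) (r : R) :
    ∃ c : K, Ψ (D.x a b r) (u b) = u b + c • u a ∧
      ∀ k, k ≠ b → Ψ (D.x a b r) (u k) = u k := by
  obtain ⟨c, l, h1, h2⟩ := D.form Ψ hm u hu hu' a b hab r
  obtain ⟨e, he1, he2, -, -⟩ := exists_ne4 hm a b b b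
  obtain ⟨c', l', h3, h4⟩ := D.form Ψ hm u hu hu' a e (Ne.symm he1) r
  have h5 := congrArg (fun g => Ψ g (u e)) (D.mul a e b (Ne.symm he1) he2 hab r 1)
  simp only [mulv] at h5
  rw [mul_one, h3, hu' e b e he2 he2, h3, map_add, map_smul, map_smul, hu' e b e he2 he2,
    hu' e b a he2 hab, map_add, map_smul, map_smul, h2 e he2, h2 a hab] at h5
  have h6 : (l - 1) • (l' • u e + c' • u a) = 0 := by
    rw [sub_smul, one_smul, sub_eq_zero]
    rw [smul_add, smul_comm l l', smul_comm l c']
    exact h5.symm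
  have h7 : l' • u e + c' • u a ≠ 0 := by
    rw [← h3]
    intro h
    exact u.ne_zero e (inj' Ψ _ h)
  have h8 : l = 1 := sub_eq_zero.1 ((smul_eq_zero.1 h6).resolve_right h7)
  subst h8
  refine ⟨c, ?_, ?_⟩
  · rw [h1, one_smul]
  · intro k hk
    rw [h2 k hk, one_smul]

/-- **Standard form.** -/
theorem standard : ∃ φ : R →+* K, ∀ i j, i ≠ j → ∀ r,
    Ψ (D.x i j r) (u j) = u j + φ r • u i ∧ ∀ k, k ≠ j → Ψ (D.x i j r) (u k) = u k := by
  have h := fun (a b : Fin m) (hab : a ≠ b) (r : R) => D.form1 Ψ hm u hu hu' a b hab r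
  choose! c hc1 hc2 using h
  have uniq : ∀ (a b : Fin m) (k1 k2 : K), u b + k1 • u a = u b + k2 • u a → k1 = k2 := by
    intro a b k1 k2 h
    have h1 := add_left_cancel h
    have h2 : (k1 - k2) • u a = 0 := by rw [sub_smul, h1, sub_self]
    exact sub_eq_zero.1 ((smul_eq_zero.1 h2).resolve_right (u.ne_zero a))
  have cadd : ∀ a b, a ≠ b → ∀ r s, c a b (r + s) = c a b r + c a b s := by
    intro a b hab r s
    apply uniq a b
    rw [← hc1 a b hab, D.add a b hab, mulv, hc1 a b hab s, map_add, map_smul, hc1 a b hab r,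
      hc2 a b hab r a hab, add_smul]
    abel
  have cone : ∀ a b, a ≠ b → c a b 1 = 1 := by
    intro a b hab
    apply uniq a b
    rw [← hc1 a b hab, hu a b hab, one_smul]
  have cmul : ∀ a b e, a ≠ e → e ≠ b → a ≠ b → ∀ r s, c a b (r * s) = c a e r * c e b s := by
    intro a b e hae heb hab r s
    apply uniq a b
    have h5 := congrArg (fun g => Ψ g (u b)) (D.mul a e b hae heb hab r s)
    simp only [mulv] at h5
    rw [hc2 a e hae r b heb.symm, hc1 e b heb s, map_add, map_add, map_smul, map_smul,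
      hc2 a e hae r b heb.symm, hc1 a e hae r, hc1 a b hab, hc2 a b hab _ e heb] at h5
    have h6 : u b + c e b s • (u e + c a e r • u a) =
      (u b + (c a e r * c e b s) • u a) + c e b s • u e := by
      rw [smul_add, smul_smul, mul_comm (c e b s)]
      abel
    have h7 : u b + c a b (r * s) • u a + c e b s • u e =
      (u b + c a b (r * s) • u a) + c e b s • u e := rfl
    rw [h6] at h5
    exact (add_right_cancel h5).symm
  have row : ∀ a b e, a ≠ b → a ≠ e → b ≠ e → ∀ r, c a b r = c a e r := by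
    intro a b e hab hae hbe r
    have h1 := cmul a b e hae hbe.symm hab r 1
    rwa [mul_one, cone e b hbe.symm, mul_one] at h1
  have col : ∀ a b e, a ≠ b → e ≠ b → a ≠ e → ∀ r, c a b r = c e b r := by
    intro a b e hab heb hae r
    have h1 := cmul a b e hae heb hab 1 r
    rwa [one_mul, cone a e hae, one_mul] at h1
  have all : ∀ a b a' b', a ≠ b → a' ≠ b' → ∀ r, c a b r = c a' b' r := by
    intro a b a' b' h1 h2 r
    obtain ⟨e, e1, e2, e3, e4⟩ := exists_ne4 hm a b a' b'
    rw [row a b e h1 e1.symm e2.symm, ← row a' e b' e3.symm h2 e4]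
    by_cases haa : a = a'
    · rw [haa]
    · exact col a e a' e1.symm e3.symm haa r
  let i0 : Fin m := ⟨0, by omega⟩
  let i1 : Fin m := ⟨1, by omega⟩
  have h01 : i0 ≠ i1 := by
    intro h; exact absurd (congrArg Fin.val h) (by norm_num [i0, i1])
  obtain ⟨i2, h20, h21, -, -⟩ := exists_ne4 hm i0 i1 i1 i1
  let φ : R →+* K :=
    { toFun := c i0 i1
      map_one' := cone i0 i1 h01
      map_mul' := fun r s => by
        rw [cmul i0 i1 i2 h20.symm h21 h01, all i0 i2 i0 i1 h20.symm h01,
          all i2 i1 i0 i1 h21 h01]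
      map_zero' := by
        have h := cadd i0 i1 h01 0 0
        rw [add_zero] at h
        exact left_eq_add.1 h
      map_add' := cadd i0 i1 h01 }
  refine ⟨φ, fun i j hij r => ⟨?_, hc2 i j hij r⟩⟩
  show _ = u j + c i0 i1 r • u i
  rw [← all i j i0 i1 hij h01]
  exact hc1 i j hij r

end std

end Stb

end Run7.h134.PE
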