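import Pool.Agent.Run7.h134.PE1

/-!
# Representations of small degree of groups with a Steinberg system
-/

set_option autoImplicit false
set_option linter.unusedSectionVars false

namespace Run7.h134.PE

open Module
open Pool.Agent.Helper460_PR Pool.Agent.Helper460_OutF Pool.Agent.Helper460_CSP

namespace Stb

variable {m : ℕ} {R : Type} [Ring R] {G : Type} [Group G] (D : Stb m R G)
variable {K V : Type} [Field K] [AddCommGroup V] [Module K V] (Ψ : G →* End K V)

/-- `θ` maps the transvections of the free group to the elements `x j i 1`. -/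
def Comp (θ : SA m →* G) : Prop := ∀ i j, i ≠ j → θ ⟨ro i j, ro_mem i j⟩ = D.x j i 1

theorem rep [FiniteDimensional K V] (θ : SA m →* G) (hθ : D.Comp θ) (h2 : (2 : K) ≠ 0)
    (hm : 5 ≤ m) (hd : finrank K V ≤ m) :
    (∀ i j, i ≠ j → ∀ r, Ψ (D.x i j r) = 1) ∨
    (finrank K V = m ∧ ∃ (u : Basis (Fin m) K V) (φ : R →+* K),
      (∀ i j, i ≠ j → ∀ r, Ψ (D.x i j r) (u j) = u j + φ r • u i ∧
        ∀ k, k ≠ j → Ψ (D.x i j r) (u k) = u k) ∨
      (∀ i j, i ≠ j → ∀ r, Ψ (D.x i j r) (u i) = u i - φ r • u j ∧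
        ∀ k, k ≠ i → Ψ (D.x i j r) (u k) = u k)) := by
  have triv : (∀ i j, i ≠ j → (Ψ.comp θ) ((sys m).ρ i j) = 1) →
      ∀ i j, i ≠ j → ∀ r, Ψ (D.x i j r) = 1 := by
    intro h i j hij r
    have h1 : ∀ i j, i ≠ j → Ψ (D.x i j 1) = 1 := by
      intro i j hij
      have := h j i hij.symm
      rw [← hθ j i hij.symm]
      exact this
    obtain ⟨e, he1, he2, -, -⟩ := exists_ne4 hm i j j j
    have h3 := congrArg Ψ (D.mul i e j he1.symm he2 hij r 1)
    rw [mul_one, map_mul, map_mul, map_mul, h1 e j he2, mul_one, mul_one] at h3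
    -- `Ψ (x i e r) = Ψ (x i j r) * Ψ (x i e r)`
    have h4 : Ψ (D.x i e r) * Ψ (D.x i e r)⁻¹ = 1 := by
      rw [← map_mul, mul_inv_cancel, map_one]
    calc Ψ (D.x i j r) = Ψ (D.x i j r) * (Ψ (D.x i e r) * Ψ (D.x i e r)⁻¹) := by rw [h4, mul_one]
      _ = Ψ (D.x i e r) * Ψ (D.x i e r)⁻¹ := by rw [← mul_assoc, ← h3]
      _ = 1 := h4
  by_cases htr : ∀ i j, (Ψ.comp θ) ((sys m).e i j) = 1
  · left
    exact triv fun i j hij => (sys m).triv_case (Ψ.comp θ) htr h2 hm hd hij
  · push Not at htr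
    obtain ⟨a, b, hab⟩ := htr
    obtain ⟨hfr, w, hw⟩ := (sys m).exists_basis (Ψ.comp θ) h2 hm hd hab
    rcases (sys m).struct (Ψ.comp θ) w hw h2 hm with h1 | ⟨u, hu1, hu2⟩ | ⟨u, hu1, hu2⟩
    · left
      exact triv h1
    · right
      refine ⟨hfr, u, ?_⟩
      have hu : ∀ i j, i ≠ j → Ψ (D.x i j 1) (u j) = u j + u i := by
        intro i j hij
        rw [← hθ j i hij.symm]
        exact hu1 j i hij.symm
      have hu' : ∀ i j k, i ≠ j → k ≠ j → Ψ (D.x i j 1) (u k) = u k := by
        intro i j k hij hk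
        rw [← hθ j i hij.symm]
        exact hu2 j i k hij.symm hk
      obtain ⟨φ, hφ⟩ := D.standard Ψ hm u hu hu'
      exact ⟨φ, Or.inl hφ⟩
    · right
      refine ⟨hfr, u, ?_⟩
      have e1 : ∀ i j, i ≠ j → Ψ (D.x j i 1) (u j) = u j - u i := by
        intro i j hij
        rw [← hθ i j hij]
        exact hu1 i j hij
      have e2 : ∀ i j k, i ≠ j → k ≠ j → Ψ (D.x j i 1) (u k) = u k := by
        intro i j k hij hk
        rw [← hθ i j hij]
        exact hu2 i j k hij hk
      have inv : ∀ i j, i ≠ j → ∀ v w : V, Ψ (D.x i j 1) v = w → Ψ (D.x i j (-1)) w = v := by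
        intro i j hij v w h
        rw [← h, ← mulv, D.x_neg hij, inv_mul_cancel, map_one]
        rfl
      have hu : ∀ i j, i ≠ j → Ψ (D.op.x i j 1) (u j) = u j + u i := by
        intro i j hij
        show Ψ (D.x j i (-1)) (u j) = _
        apply inv j i hij.symm
        rw [map_add, e1 i j hij, e2 i j i hij hij]
        abel
      have hu' : ∀ i j k, i ≠ j → k ≠ j → Ψ (D.op.x i j 1) (u k) = u k := by
        intro i j k hij hk
        show Ψ (D.x j i (-1)) (u k) = _
        apply inv j i hij.symm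
        exact e2 i j k hij hk
      obtain ⟨φ, hφ⟩ := D.op.standard Ψ hm u hu hu'
      let φ' : R →+* K :=
        { toFun := fun r => φ (MulOpposite.op r)
          map_one' := by rw [MulOpposite.op_one, map_one]
          map_mul' := fun r s => by rw [MulOpposite.op_mul, map_mul, mul_comm]
          map_zero' := by rw [MulOpposite.op_zero, map_zero]
          map_add' := fun r s => by rw [MulOpposite.op_add, map_add] }
      refine ⟨φ', Or.inr fun i j hij r => ?_⟩
      have h5 := hφ j i hij.symm (MulOpposite.op (-r))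
      have h6 : D.op.x j i (MulOpposite.op (-r)) = D.x i j r := by
        show D.x i j (-(MulOpposite.unop (MulOpposite.op (-r)))) = _
        rw [MulOpposite.unop_op, neg_neg]
      rw [h6] at h5
      refine ⟨?_, h5.2⟩
      rw [h5.1, MulOpposite.op_neg, map_neg, neg_smul, sub_eq_add_neg]
      rfl

end Stb

end Run7.h134.PE
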