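import Pool.Agent.Run7.h134.PE2

/-!
# The elementary group over an associative ring
-/

set_option autoImplicit false
set_option linter.unusedSectionVars false

namespace Run7.h134.PE

open Module
open Pool.Agent.Helper460_PR Pool.Agent.Helper460_OutF Pool.Agent.Helper460_CSP

/-- The elementary matrices. -/
def ES (m : ℕ) (R : Type) [Ring R] : Set (Matrix (Fin m) (Fin m) R)ˣ :=
  {g | ∃ i j, i ≠ j ∧ ∃ r : R, (g : Matrix (Fin m) (Fin m) R) = 1 + Matrix.single i j r}

/-- The elementary group `E_m(R)`. -/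
def EE (m : ℕ) (R : Type) [Ring R] : Subgroup (Matrix (Fin m) (Fin m) R)ˣ :=
  Subgroup.closure (ES m R)

variable {m : ℕ} {R : Type} [Ring R]

lemma el_mul {i j : Fin m} (h : i ≠ j) (r s : R) :
    (1 + Matrix.single i j r) * (1 + Matrix.single i j s) =
      (1 + Matrix.single i j (r + s) : Matrix (Fin m) (Fin m) R) := by
  rw [mul_add, add_mul, add_mul, one_mul, one_mul, mul_one,
    Matrix.single_mul_single_of_ne _ _ _ _ h.symm, add_zero, Matrix.single_add]
  abel

/-- An elementary matrix as a unit. -/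
def el (i j : Fin m) (h : i ≠ j) (r : R) : (Matrix (Fin m) (Fin m) R)ˣ where
  val := 1 + Matrix.single i j r
  inv := 1 + Matrix.single i j (-r)
  val_inv := by rw [el_mul h, add_neg_cancel, Matrix.single_zero, add_zero]
  inv_val := by rw [el_mul h, neg_add_cancel, Matrix.single_zero, add_zero]

/-- The elementary matrices in the elementary group. -/
def xE (i j : Fin m) (r : R) : EE m R :=
  if h : i ≠ j then ⟨el i j h r, Subgroup.subset_closure ⟨i, j, h, r, rfl⟩⟩ else 1

lemma xE_val {i j : Fin m} (h : i ≠ j) (r : R) :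
    ((xE i j r : EE m R).1 : Matrix (Fin m) (Fin m) R) = 1 + Matrix.single i j r := by
  unfold xE
  rw [dif_pos h]
  rfl

lemma ext_val {g h : EE m R} (e : (g.1 : Matrix (Fin m) (Fin m) R) = h.1) : g = h :=
  Subtype.ext (Units.ext e)

/-- The Steinberg system of the elementary group. -/
def sE (m : ℕ) (R : Type) [Ring R] : Stb m R (EE m R) where
  x := xE
  add i j h r s := by
    apply ext_val
    rw [Subgroup.coe_mul, Units.val_mul, xE_val h, xE_val h, xE_val h, el_mul h]
  comm i j k l h1 h2 h3 h4 r s := by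
    apply ext_val
    rw [Subgroup.coe_mul, Units.val_mul, Subgroup.coe_mul, Units.val_mul, xE_val h1, xE_val h2]
    rw [mul_add, add_mul, add_mul, mul_add, add_mul, add_mul,
      Matrix.single_mul_single_of_ne _ _ _ _ h3, Matrix.single_mul_single_of_ne _ _ _ _ h4.symm]
    simp only [one_mul, mul_one, add_zero]
    abel
  mul i j k h1 h2 h3 r s := by
    apply ext_val
    rw [Subgroup.coe_mul, Units.val_mul, Subgroup.coe_mul, Units.val_mul, Subgroup.coe_mul,
      Units.val_mul, xE_val h1, xE_val h2, xE_val h3]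
    simp only [mul_add, add_mul, one_mul, mul_one]
    rw [Matrix.single_mul_single_same, Matrix.single_mul_single_of_ne _ _ _ _ h2.symm,
      Matrix.single_mul_single_of_ne _ _ _ _ h3.symm, Matrix.single_mul_single_of_ne _ _ _ _ h3.symm]
    simp only [zero_mul, add_zero]
    abel

lemma sE_x (i j : Fin m) (r : R) : (sE m R).x i j r = xE i j r := rfl

lemma gen (m : ℕ) (R : Type) [Ring R] :
    Subgroup.closure {g : EE m R | ∃ i j, i ≠ j ∧ ∃ r, g = xE i j r} = ⊤ := by
  have h := Subgroup.closure_closure_coe_preimage (k := ES m R)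
  have e : {g : EE m R | ∃ i j, i ≠ j ∧ ∃ r, g = xE i j r} =
      ((↑) : Subgroup.closure (ES m R) → (Matrix (Fin m) (Fin m) R)ˣ) ⁻¹' (ES m R) := by
    ext g
    constructor
    · rintro ⟨i, j, hij, r, rfl⟩
      exact ⟨i, j, hij, r, xE_val hij r⟩
    · rintro ⟨i, j, hij, r, h⟩
      exact ⟨i, j, hij, r, ext_val (h.trans (xE_val hij r).symm)⟩
  rw [e]
  exact h

lemma hom_ext {M : Type} [Monoid M] (f g : EE m R →* M)
    (h : ∀ i j, i ≠ j → ∀ r, f (xE i j r) = g (xE i j r)) : f = g := by
  apply MonoidHom.eq_of_eqOn_dense (gen m R)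
  rintro _ ⟨i, j, hij, r, rfl⟩
  exact h i j hij r

/-- The matrices over another ring. -/
def Mp' {S : Type} [Ring S] (φ : R →+* S) : EE m R →* Matrix (Fin m) (Fin m) S :=
  (φ.mapMatrix (m := Fin m)).toMonoidHom.comp ((Units.coeHom _).comp (EE m R).subtype)

lemma Mp'_apply {S : Type} [Ring S] (φ : R →+* S) (g : EE m R) :
    Mp' φ g = (g.1 : Matrix (Fin m) (Fin m) R).map φ := rfl

lemma Mp'_xE {S : Type} [Ring S] (φ : R →+* S) {i j : Fin m} (h : i ≠ j) (r : R) :
    Mp' φ (xE i j r : EE m R) = 1 + Matrix.single i j (φ r) := by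
  rw [Mp'_apply, xE_val h]
  ext a b
  simp only [Matrix.map_apply, Matrix.add_apply, Matrix.one_apply, Matrix.single_apply, map_add]
  split_ifs <;> simp

/-- The action of the automorphisms of the free group as matrices over `R`. -/
def T0 (m : ℕ) (R : Type) [Ring R] : SA m →* Matrix (Fin m) (Fin m) R :=
  ((Int.castRingHom R).mapMatrix (m := Fin m)).toMonoidHom.comp (mAh m)

lemma T0_tv {x : SA m} {i j : Fin m} (h : mA x.1 = Matrix.transvection j i 1) :
    T0 m R x = 1 + Matrix.single j i 1 := by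
  show (Int.castRingHom R).mapMatrix (mA x.1) = _
  rw [h]
  ext a b
  simp only [RingHom.mapMatrix_apply, Matrix.map_apply, Matrix.transvection, Matrix.add_apply,
    Matrix.one_apply, Matrix.single_apply, map_add]
  split_ifs <;> simp

/-- The homomorphism to the elementary group. -/
def th (m : ℕ) (R : Type) [Ring R] : SA m →* EE m R :=
  (T0 m R).toHomUnits.codRestrict (EE m R) (by
    intro g
    have h1 : (⊤ : Subgroup (SA m)) ≤ (EE m R).comap (T0 m R).toHomUnits := by
      rw [← (sys m).gen, Subgroup.closure_le]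
      rintro _ ⟨i, j, hij, rfl | rfl⟩
      · exact Subgroup.subset_closure ⟨j, i, hij.symm, 1, T0_tv (mA_ro hij)⟩
      · exact Subgroup.subset_closure ⟨j, i, hij.symm, 1, T0_tv (mA_la hij)⟩
    exact h1 (Subgroup.mem_top g))

lemma th_val (g : SA m) : ((th m R g).1 : Matrix (Fin m) (Fin m) R) = T0 m R g := rfl

lemma th_comp : (sE m R).Comp (th m R) := by
  intro i j hij
  apply ext_val
  rw [th_val, T0_tv (mA_ro hij), sE_x, xE_val hij.symm]

end Run7.h134.PE
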