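import Pool.Agent.Run7.h134.PE3

/-!
# Representations of small degree of the elementary group
-/

set_option autoImplicit false
set_option linter.unusedSectionVars false

namespace Run7.h134.PE

open Module
open Pool.Agent.Helper460_PR Pool.Agent.Helper460_OutF Pool.Agent.Helper460_CSP

variable {m : ℕ} {R : Type} [Ring R]
variable {K V : Type} [Field K] [AddCommGroup V] [Module K V] (Ψ : EE m R →* End K V)

lemma std_eq (u : Basis (Fin m) K V) (φ : R →+* K)
    (h : ∀ i j, i ≠ j → ∀ r, Ψ (xE i j r) (u j) = u j + φ r • u i ∧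
        ∀ k, k ≠ j → Ψ (xE i j r) (u k) = u k) (g : EE m R) :
    Ψ g = Matrix.toLinAlgEquiv u (Mp' φ g) := by
  have : Ψ = (MonoidHomClass.toMonoidHom (Matrix.toLinAlgEquiv u)).comp (Mp' φ) := by
    apply hom_ext
    intro i j hij r
    show Ψ (xE i j r) = Matrix.toLinAlgEquiv u (Mp' φ (xE i j r))
    rw [Mp'_xE φ hij]
    apply u.ext
    intro k
    rw [Matrix.toLinAlgEquiv_self]
    simp only [Matrix.add_apply, add_smul, Finset.sum_add_distrib,
      Matrix.one_apply, Matrix.single_apply, ite_smul, one_smul, zero_smul,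
      Finset.sum_ite_eq', Finset.mem_univ, if_true]
    by_cases hk : k = j
    · subst hk
      rw [(h i k hij r).1]
      simp
    · rw [(h i j hij r).2 k hk]
      simp [Ne.symm hk]
  rw [this]
  rfl

/-- The contragredient matrices. -/
def Mc (φ : R →+* K) : EE m R →* Matrix (Fin m) (Fin m) K where
  toFun g := (Mp' φ g⁻¹).transpose
  map_one' := by rw [inv_one, map_one, Matrix.transpose_one]
  map_mul' g h := by rw [mul_inv_rev, map_mul, Matrix.transpose_mul]

lemma xE_inv {i j : Fin m} (h : i ≠ j) (r : R) : (xE i j r : EE m R)⁻¹ = xE i j (-r) :=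
  ((sE m R).x_neg h r).symm

lemma dual_eq (u : Basis (Fin m) K V) (φ : R →+* K)
    (h : ∀ i j, i ≠ j → ∀ r, Ψ (xE i j r) (u i) = u i - φ r • u j ∧
        ∀ k, k ≠ i → Ψ (xE i j r) (u k) = u k) (g : EE m R) :
    Ψ g = Matrix.toLinAlgEquiv u (Mp' φ g⁻¹).transpose := by
  have : Ψ = (MonoidHomClass.toMonoidHom (Matrix.toLinAlgEquiv u)).comp (Mc φ) := by
    apply hom_ext
    intro i j hij r
    show Ψ (xE i j r) = Matrix.toLinAlgEquiv u (Mp' φ (xE i j r)⁻¹).transpose
    rw [xE_inv hij, Mp'_xE φ hij]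
    apply u.ext
    intro k
    rw [Matrix.toLinAlgEquiv_self]
    simp only [Matrix.transpose_add, Matrix.transpose_one, Matrix.transpose_single,
      Matrix.add_apply, add_smul, Finset.sum_add_distrib,
      Matrix.one_apply, Matrix.single_apply, ite_smul, one_smul, zero_smul,
      Finset.sum_ite_eq', Finset.mem_univ, if_true]
    by_cases hk : k = i
    · subst hk
      rw [(h k j hij r).1, map_neg]
      simp [sub_eq_add_neg]
    · rw [(h i j hij r).2 k hk]
      simp [Ne.symm hk]
  rw [this]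
  rfl

lemma triv_all (h : ∀ i j, i ≠ j → ∀ r, Ψ (xE i j r) = 1) (g : EE m R) : Ψ g = 1 := by
  have : Ψ = 1 := hom_ext _ _ h
  rw [this]
  rfl

lemma trace_lin (u : Basis (Fin m) K V) (A : Matrix (Fin m) (Fin m) K) :
    LinearMap.trace K V (Matrix.toLinAlgEquiv u A) = A.trace := by
  rw [LinearMap.trace_eq_matrix_trace K u]
  show ((LinearMap.toMatrix u u) (Matrix.toLin u u A)).trace = _
  rw [LinearMap.toMatrix_toLin]

/-- The kernel and the traces of a representation of small degree. -/
theorem rep_main [FiniteDimensional K V] (h2 : (2 : K) ≠ 0) (hm : 5 ≤ m) (hd : finrank K V ≤ m) :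
    (∀ g, Ψ g = 1) ∨ (finrank K V = m ∧ ∃ φ : R →+* K,
      (∀ g, Ψ g = 1 → Mp' φ g = 1) ∧
      ((∀ g, LinearMap.trace K V (Ψ g) = (Mp' φ g).trace) ∨
        (∀ g, LinearMap.trace K V (Ψ g) = (Mp' φ g⁻¹).trace))) := by
  rcases (sE m R).rep Ψ (th m R) th_comp h2 hm hd with h | ⟨hfr, u, φ, h | h⟩
  · left
    exact triv_all Ψ h
  · right
    refine ⟨hfr, φ, fun g hg => ?_, Or.inl fun g => ?_⟩
    · have h1 := std_eq Ψ u φ h g
      rw [hg] at h1
      have h2 : Matrix.toLinAlgEquiv u (Mp' φ g) = Matrix.toLinAlgEquiv u 1 := by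
        rw [map_one]; exact h1.symm
      exact (Matrix.toLinAlgEquiv u).injective h2
    · rw [std_eq Ψ u φ h g]
      exact trace_lin u _
  · right
    refine ⟨hfr, φ, fun g hg => ?_, Or.inr fun g => ?_⟩
    · have h1 := dual_eq Ψ u φ h g
      rw [hg] at h1
      have h2 : Matrix.toLinAlgEquiv u (Mp' φ g⁻¹).transpose = Matrix.toLinAlgEquiv u 1 := by
        rw [map_one]; exact h1.symm
      have h6 := (Matrix.toLinAlgEquiv u).injective h2
      have h7 : Mp' φ g⁻¹ = 1 := by
        have := congrArg Matrix.transpose h6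
        rwa [Matrix.transpose_transpose, Matrix.transpose_one] at this
      have h8 : Mp' φ (g⁻¹ * g) = 1 := by rw [inv_mul_cancel, map_one]
      rwa [map_mul, h7, one_mul] at h8
    · rw [dual_eq Ψ u φ h g]
      exact (trace_lin u _).trans (Matrix.trace_transpose _)

end Run7.h134.PE
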