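import Pool.Agent.H698R4.Malcev

/-!
# Finitely generated commutative rings with few homomorphisms to finite fields
-/

set_option autoImplicit false
set_option linter.unusedSectionVars false

namespace Run7.h134.PE

open Module

/-- Two ring homomorphisms to a finite field of odd order are equal. -/
def Uq (S : Type) [CommRing S] : Prop :=
  ∀ (L : Type) [Field L] [Finite L], (2 : L) ≠ 0 → ∀ g1 g2 : S →+* L, g1 = g2

lemma exists_res (B : Type) [CommRing B] [Nontrivial B] [Algebra.FiniteType ℤ B] :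
    ∃ (L : Type) (_ : Field L) (_ : Finite L), Nonempty (B →+* L) := by
  obtain ⟨𝔪, h𝔪⟩ := Ideal.exists_maximal B
  have h1 : Algebra.FiniteType ℤ (B ⧸ 𝔪) :=
    Algebra.FiniteType.of_surjective ((Ideal.Quotient.mkₐ B 𝔪).restrictScalars ℤ)
      Ideal.Quotient.mk_surjective
  have hf : IsField (B ⧸ 𝔪) := Ideal.Quotient.maximal_ideal_iff_isField_quotient 𝔪 |>.1 h𝔪
  have h2 : Finite (B ⧸ 𝔪) :=
    Pool.Agent.H698R4.finite_field_of_finiteType (B ⧸ 𝔪) hf
  exact ⟨B ⧸ 𝔪, Ideal.Quotient.field 𝔪, h2, ⟨Ideal.Quotient.mk 𝔪⟩⟩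

lemma mem_of_gens {S Ω : Type} [CommRing S] [CommRing Ω] (s : Set S)
    (hs : Algebra.adjoin ℤ s = ⊤) (B : Subring Ω) (h : S →+* Ω) (hB : ∀ x ∈ s, h x ∈ B) (x : S) :
    h x ∈ B := by
  have hx : x ∈ Algebra.adjoin ℤ s := by rw [hs]; trivial
  induction hx using Algebra.adjoin_induction with
  | mem x hx => exact hB x hx
  | algebraMap r =>
    have : h (algebraMap ℤ S r) = (r : Ω) := by
      rw [eq_intCast, map_intCast]
    rw [this]
    exact intCast_mem B r
  | add x y _ _ hx hy => rw [map_add]; exact add_mem hx hy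
  | mul x y _ _ hx hy => rw [map_mul]; exact mul_mem hx hy

/-- Two homomorphisms to a field of characteristic different from two are equal. -/
theorem Uq.field {S : Type} [CommRing S] [hft : Algebra.FiniteType ℤ S] (hU : Uq S) {Ω : Type}
    [Field Ω] (h2 : (2 : Ω) ≠ 0) (h₁ h₂ : S →+* Ω) : h₁ = h₂ := by
  by_contra hne
  obtain ⟨a, ha⟩ : ∃ a, h₁ a ≠ h₂ a := by
    by_contra hcon
    push Not at hcon
    exact hne (RingHom.ext hcon)
  obtain ⟨s, hs⟩ := hft.out
  let T : Set Ω := h₁ '' s ∪ h₂ '' s ∪ {(h₁ a - h₂ a)⁻¹, (2 : Ω)⁻¹}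
  have hTf : T.Finite :=
    ((s.finite_toSet.image _).union (s.finite_toSet.image _)).union (by simp)
  let B := Algebra.adjoin ℤ T
  have hft' : Algebra.FiniteType ℤ B := by
    rw [← Subalgebra.fg_iff_finiteType]
    exact Subalgebra.fg_def.2 ⟨T, hTf, rfl⟩
  have m1 : ∀ x, h₁ x ∈ B.toSubring := mem_of_gens (s : Set S) hs B.toSubring h₁
    fun x hx => Algebra.subset_adjoin (Or.inl (Or.inl ⟨x, hx, rfl⟩))
  have m2 : ∀ x, h₂ x ∈ B.toSubring := mem_of_gens (s : Set S) hs B.toSubring h₂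
    fun x hx => Algebra.subset_adjoin (Or.inl (Or.inr ⟨x, hx, rfl⟩))
  let k1 : S →+* B := h₁.codRestrict B.toSubring m1
  let k2 : S →+* B := h₂.codRestrict B.toSubring m2
  obtain ⟨L, _, _, ⟨f⟩⟩ := exists_res B
  let d : B := ⟨(h₁ a - h₂ a)⁻¹, Algebra.subset_adjoin (Or.inr (Or.inl rfl))⟩
  let e : B := ⟨(2 : Ω)⁻¹, Algebra.subset_adjoin (Or.inr (Or.inr rfl))⟩
  have hd : (k1 a - k2 a) * d = 1 := by
    apply Subtype.ext
    show (h₁ a - h₂ a) * (h₁ a - h₂ a)⁻¹ = 1
    exact mul_inv_cancel₀ (sub_ne_zero.2 ha)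
  have he : (2 : B) * e = 1 := by
    apply Subtype.ext
    show (2 : Ω) * (2 : Ω)⁻¹ = 1
    exact mul_inv_cancel₀ h2
  have h2L : (2 : L) ≠ 0 := by
    intro h
    have h3 := congrArg f he
    rw [map_mul, map_ofNat, h, zero_mul, map_one] at h3
    exact zero_ne_one h3
  have h4 := hU L h2L (f.comp k1) (f.comp k2)
  have h5 : f (k1 a) = f (k2 a) := congrArg (fun g : S →+* L => g a) h4
  have h6 := congrArg f hd
  rw [map_mul, map_sub, h5, sub_self, zero_mul, map_one] at h6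
  exact zero_ne_one h6

/-- Residue fields of algebras of finite type over the rational numbers. -/
lemma exists_nf (B : Type) [CommRing B] [Nontrivial B] [Algebra ℚ B] [Algebra.FiniteType ℚ B] :
    ∃ (K : Type) (_ : Field K) (_ : NumberField K) (q : B →+* K), Function.Surjective q := by
  obtain ⟨𝔪, h𝔪⟩ := Ideal.exists_maximal B
  have h1 : Algebra.FiniteType ℚ (B ⧸ 𝔪) :=
    Algebra.FiniteType.of_surjective (Ideal.Quotient.mkₐ ℚ 𝔪) Ideal.Quotient.mk_surjective
  letI : Field (B ⧸ 𝔪) := Ideal.Quotient.field 𝔪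
  have h2 : Module.Finite ℚ (B ⧸ 𝔪) := finite_of_finite_type_of_isJacobsonRing ℚ (B ⧸ 𝔪)
  have h3 : CharZero (B ⧸ 𝔪) := charZero_of_injective_algebraMap (algebraMap ℚ (B ⧸ 𝔪)).injective
  have h4 : NumberField (B ⧸ 𝔪) := by
    refine { to_charZero := h3, to_finiteDimensional := ?_ }
    have e : (DivisionRing.toRatAlgebra : Algebra ℚ (B ⧸ 𝔪)) = Ideal.Quotient.algebra ℚ :=
      Subsingleton.elim _ _
    rw [e]
    exact h2
  exact ⟨B ⧸ 𝔪, inferInstance, h4, Ideal.Quotient.mk 𝔪, Ideal.Quotient.mk_surjective⟩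

/-- A rational value off the kernel. -/
lemma Uq.rat {S : Type} [CommRing S] [hft : Algebra.FiniteType ℤ S] (hU : Uq S) {Ω : Type}
    [Field Ω] [CharZero Ω] (h : S →+* Ω) (e : S) (he : h e ≠ 0) : ∃ κ : S →+* ℚ, κ e ≠ 0 := by
  obtain ⟨s, hs⟩ := hft.out
  let T : Set Ω := h '' s ∪ {(h e)⁻¹}
  have hTf : T.Finite := (s.finite_toSet.image _).union (by simp)
  let B := Algebra.adjoin ℚ T
  have hft' : Algebra.FiniteType ℚ B := by
    rw [← Subalgebra.fg_iff_finiteType]
    exact Subalgebra.fg_def.2 ⟨T, hTf, rfl⟩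
  have m1 : ∀ x, h x ∈ B.toSubring := mem_of_gens (s : Set S) hs B.toSubring h
    fun x hx => Algebra.subset_adjoin (Or.inl ⟨x, hx, rfl⟩)
  let k : S →+* B := h.codRestrict B.toSubring m1
  let d : B := ⟨(h e)⁻¹, Algebra.subset_adjoin (Or.inr rfl)⟩
  have hd : k e * d = 1 := by
    apply Subtype.ext
    show h e * (h e)⁻¹ = 1
    exact mul_inv_cancel₀ he
  obtain ⟨K, _, _, q, hq⟩ := exists_nf B
  have hsub : Subsingleton (K →+* ℂ) := by
    refine ⟨fun σ τ => ?_⟩
    have e1 : σ.comp (q.comp k) = τ.comp (q.comp k) :=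
      hU.field (by norm_num) _ _
    have e2 : ∀ x : S, σ (q (k x)) = τ (q (k x)) := fun x =>
      congrArg (fun g : S →+* ℂ => g x) e1
    have e3 : σ (q d) = τ (q d) := by
      have a1 : σ (q (k e)) * σ (q d) = 1 := by rw [← map_mul, ← map_mul, hd, map_one, map_one]
      have a2 : τ (q (k e)) * τ (q d) = 1 := by rw [← map_mul, ← map_mul, hd, map_one, map_one]
      rw [eq_inv_of_mul_eq_one_right a1, eq_inv_of_mul_eq_one_right a2, e2]
    have e4 : ∀ b : B, σ (q b) = τ (q b) := by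
      rintro ⟨b, hb⟩
      induction hb using Algebra.adjoin_induction with
      | mem b hb =>
        rcases hb with ⟨x, hx, rfl⟩ | hb
        · exact e2 x
        · have : (⟨b, Algebra.subset_adjoin (Or.inr hb)⟩ : B) = d := Subtype.ext hb
          rw [this]
          exact e3
      | algebraMap r =>
        have : (⟨algebraMap ℚ Ω r, Subalgebra.algebraMap_mem _ r⟩ : B) = algebraMap ℚ B r := rfl
        rw [this]
        exact congrArg (fun g : ℚ →+* ℂ => g r) (Subsingleton.elim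
          ((σ.comp q).comp (algebraMap ℚ B)) ((τ.comp q).comp (algebraMap ℚ B)))
      | add x y hx hy h1 h2 =>
        have : (⟨x + y, add_mem hx hy⟩ : B) = ⟨x, hx⟩ + ⟨y, hy⟩ := rfl
        rw [this, map_add, map_add, map_add, h1, h2]
      | mul x y hx hy h1 h2 =>
        have : (⟨x * y, mul_mem hx hy⟩ : B) = ⟨x, hx⟩ * ⟨y, hy⟩ := rfl
        rw [this, map_mul, map_mul, map_mul, h1, h2]
    refine RingHom.ext fun y => ?_
    obtain ⟨b, rfl⟩ := hq y
    exact e4 b
  have h5 : finrank ℚ K = 1 := by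
    have h6 := NumberField.Embeddings.card K ℂ
    have h7 : Fintype.card (K →+* ℂ) ≤ 1 := Fintype.card_le_one_iff_subsingleton.2 hsub
    have h8 : 0 < finrank ℚ K := finrank_pos
    omega
  have hb : Function.Bijective (algebraMap ℚ K) :=
    Module.Free.bijective_algebraMap_of_finrank_eq_one h5
  let ε : ℚ ≃+* K := RingEquiv.ofBijective (algebraMap ℚ K) hb
  refine ⟨(ε.symm : K →+* ℚ).comp (q.comp k), ?_⟩
  intro h0
  have h9 : ε.symm (q (k e)) = 0 := h0
  rw [map_eq_zero_iff _ ε.symm.injective] at h9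
  have h10 : q (k e) * q d = 1 := by rw [← map_mul, hd, map_one]
  rw [h9, zero_mul] at h10
  exact zero_ne_one h10

theorem Uq.values {S : Type} [CommRing S] [Algebra.FiniteType ℤ S] (hU : Uq S) {Ω : Type}
    [Field Ω] [CharZero Ω] (h : S →+* Ω) : ∃ κ : S →+* ℚ, ∀ a, h a = (κ a : Ω) := by
  obtain ⟨κ, -⟩ := hU.rat h 1 (by rw [map_one]; exact one_ne_zero)
  refine ⟨κ, fun a => ?_⟩
  have key : ∀ e, κ e = 0 → h e = 0 := by
    intro e he
    by_contra hne
    obtain ⟨κ', hκ'⟩ := hU.rat h e hne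
    rw [hU.field (by norm_num) κ' κ] at hκ'
    exact hκ' he
  have h1 := key (((κ a).den : S) * a - ((κ a).num : S)) (by
    rw [map_sub, map_mul, map_natCast, map_intCast, mul_comm, Rat.mul_den_eq_num, sub_self])
  rw [map_sub, map_mul, map_natCast, map_intCast, sub_eq_zero] at h1
  have h2 : ((κ a).den : Ω) ≠ 0 := by exact_mod_cast (κ a).den_nz
  rw [Rat.cast_def, eq_div_iff h2, mul_comm]
  exact h1

/-- **The values in the `p`-adic integers are integers.** -/
theorem Uq.int {S : Type} [CommRing S] [Algebra.FiniteType ℤ S] (hU : Uq S)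
    (π : ∀ p : ℕ, [Fact p.Prime] → S →+* ℤ_[p]) :
    ∃ κ : S →+* ℤ, ∀ (p : ℕ) [Fact p.Prime] (a : S), π p a = (κ a : ℤ_[p]) := by
  have h : ∀ (p : ℕ) [Fact p.Prime], ∃ κ : S →+* ℚ, ∀ a, ((π p a : ℤ_[p]) : ℚ_[p]) = (κ a : ℚ_[p]) :=
    fun p _ => hU.values ((PadicInt.Coe.ringHom (p := p)).comp (π p))
  have : Fact (Nat.Prime 2) := ⟨Nat.prime_two⟩
  obtain ⟨κ, hκ0⟩ := h 2
  have hκ : ∀ (p : ℕ) [Fact p.Prime] (a : S), ((π p a : ℤ_[p]) : ℚ_[p]) = (κ a : ℚ_[p]) := by
    intro p _ a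
    obtain ⟨κ', hκ'⟩ := h p
    rw [hU.field (by norm_num) κ κ']
    exact hκ' a
  have hden : ∀ a, (κ a).den = 1 := by
    intro a
    by_contra hne
    obtain ⟨p, hp, hpd⟩ := Nat.exists_prime_and_dvd hne
    have : Fact p.Prime := ⟨hp⟩
    have h1 : ‖((κ a : ℚ) : ℚ_[p])‖ ≤ 1 := by
      rw [← hκ p a]
      exact PadicInt.norm_le_one _
    have h2 : ‖(((κ a).den : ℚ) : ℚ_[p])‖ < 1 := by
      rw [Rat.cast_natCast]
      exact (Padic.norm_natCast_lt_one_iff).2 hpd
    have h3 : ¬ ((p : ℤ) ∣ (κ a).num) := by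
      intro h4
      have h5 : p ∣ (κ a).num.natAbs := Int.natCast_dvd.1 h4
      have h6 := Nat.dvd_gcd h5 hpd
      rw [(κ a).reduced] at h6
      exact hp.one_lt.ne' (Nat.dvd_one.1 h6)
    have h7 : ‖(((κ a).num : ℚ) : ℚ_[p])‖ = 1 := by
      rw [Rat.cast_intCast]
      by_contra h8
      exact h3 ((Padic.norm_intCast_lt_one_iff).1
        (lt_of_le_of_ne (Padic.norm_int_le_one _) h8))
    have h8 : ((κ a : ℚ) : ℚ_[p]) * (((κ a).den : ℚ) : ℚ_[p]) = (((κ a).num : ℚ) : ℚ_[p]) := by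
      rw [← Rat.cast_mul]
      congr 1
      exact_mod_cast Rat.mul_den_eq_num (κ a)
    have h9 := congrArg norm h8
    rw [norm_mul, h7] at h9
    have h10 : ‖((κ a : ℚ) : ℚ_[p])‖ * ‖(((κ a).den : ℚ) : ℚ_[p])‖ < 1 := by
      have h11 := norm_nonneg ((κ a : ℚ) : ℚ_[p])
      have h12 := norm_nonneg (((κ a).den : ℚ) : ℚ_[p])
      nlinarith
    rw [h9] at h10
    exact lt_irrefl _ h10
  have hnum : ∀ a, (((κ a).num : ℤ) : ℚ) = κ a := fun a => (Rat.den_eq_one_iff _).1 (hden a)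
  let κ' : S →+* ℤ :=
    { toFun := fun a => (κ a).num
      map_one' := by rw [map_one]; rfl
      map_zero' := by rw [map_zero]; rfl
      map_mul' := fun a b => by
        have : (((κ (a * b)).num : ℤ) : ℚ) = (((κ a).num * (κ b).num : ℤ) : ℚ) := by
          rw [hnum, Int.cast_mul, hnum, hnum, map_mul]
        exact_mod_cast this
      map_add' := fun a b => by
        have : (((κ (a + b)).num : ℤ) : ℚ) = (((κ a).num + (κ b).num : ℤ) : ℚ) := by
          rw [hnum, Int.cast_add, hnum, hnum, map_add]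
        exact_mod_cast this }
  refine ⟨κ', fun p _ a => ?_⟩
  apply Subtype.ext
  rw [hκ p a, ← hnum a]
  show (((((κ a).num : ℤ) : ℚ)) : ℚ_[p]) = ((((κ a).num : ℤ) : ℤ_[p]) : ℚ_[p])
  simp

end Run7.h134.PE
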