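import Mathlib

/-!
# Limits of representations modulo powers of a prime
-/

set_option autoImplicit false
set_option linter.unusedSectionVars false

namespace Run7.h134.PE

open Filter Topology Matrix

section lim

variable (p : ℕ) [hp : Fact p.Prime]

/-- The lifts of the entries of a sequence. -/
noncomputable def lf (a : ∀ k : ℕ, ZMod (p ^ k)) (k : ℕ) : ℤ_[p] := ((a k).val : ℤ_[p])

lemma lf_to (a : ∀ k : ℕ, ZMod (p ^ k)) (k : ℕ) : PadicInt.toZModPow k (lf p a k) = a k := by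
  have : NeZero (p ^ k) := ⟨pow_ne_zero _ hp.1.ne_zero⟩
  unfold lf
  rw [map_natCast, ZMod.natCast_zmod_val]

/-- The limit along an ultrafilter. -/
noncomputable def lm (a : ∀ k : ℕ, ZMod (p ^ k)) : ℤ_[p] :=
  Ultrafilter.lim ((hyperfilter ℕ).map (lf p a))

lemma lm_tendsto (a : ∀ k : ℕ, ZMod (p ^ k)) :
    Tendsto (lf p a) (hyperfilter ℕ : Filter ℕ) (𝓝 (lm p a)) :=
  Ultrafilter.le_nhds_lim ((hyperfilter ℕ).map (lf p a))

lemma tendsto_of_sub (s t : ℕ → ℤ_[p])
    (h : ∀ k, PadicInt.toZModPow k (s k) = PadicInt.toZModPow k (t k)) (x : ℤ_[p])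
    (hs : Tendsto s (hyperfilter ℕ : Filter ℕ) (𝓝 x)) :
    Tendsto t (hyperfilter ℕ : Filter ℕ) (𝓝 x) := by
  have h1 : Tendsto (fun k => s k - t k) atTop (𝓝 0) := by
    rw [tendsto_zero_iff_norm_tendsto_zero]
    have h2 : ∀ k, ‖s k - t k‖ ≤ ((p : ℝ)⁻¹) ^ k := by
      intro k
      have h3 : s k - t k ∈ RingHom.ker (PadicInt.toZModPow k : ℤ_[p] →+* ZMod (p ^ k)) := by
        rw [RingHom.mem_ker, map_sub, h k, sub_self]
      rw [PadicInt.ker_toZModPow, ← PadicInt.norm_le_pow_iff_mem_span_pow] at h3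
      rwa [_root_.zpow_neg, zpow_natCast, ← inv_pow] at h3
    have h4 : Tendsto (fun k : ℕ => ((p : ℝ)⁻¹) ^ k) atTop (𝓝 0) := by
      apply tendsto_pow_atTop_nhds_zero_of_lt_one
      · positivity
      · exact inv_lt_one_of_one_lt₀ (by exact_mod_cast hp.1.one_lt)
    exact squeeze_zero (fun k => norm_nonneg _) h2 h4
  have h5 := hs.sub (h1.mono_left Nat.hyperfilter_le_atTop)
  rw [sub_zero] at h5
  refine h5.congr fun k => ?_
  simp

/-- The ring homomorphism to the `p`-adic integers. -/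
noncomputable def Th : (∀ k : ℕ, ZMod (p ^ k)) →+* ℤ_[p] where
  toFun := lm p
  map_one' := by
    refine tendsto_nhds_unique (lm_tendsto p 1) (tendsto_of_sub p (fun _ => 1) _ (fun k => ?_) 1
      tendsto_const_nhds)
    rw [lf_to, map_one]; rfl
  map_zero' := by
    refine tendsto_nhds_unique (lm_tendsto p 0) (tendsto_of_sub p (fun _ => 0) _ (fun k => ?_) 0
      tendsto_const_nhds)
    rw [lf_to, map_zero]; rfl
  map_mul' a b := by
    refine tendsto_nhds_unique (lm_tendsto p (a * b)) (tendsto_of_sub p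
      (fun k => lf p a k * lf p b k) _ (fun k => ?_) _ ((lm_tendsto p a).mul (lm_tendsto p b)))
    rw [lf_to, map_mul, lf_to, lf_to]; rfl
  map_add' a b := by
    refine tendsto_nhds_unique (lm_tendsto p (a + b)) (tendsto_of_sub p
      (fun k => lf p a k + lf p b k) _ (fun k => ?_) _ ((lm_tendsto p a).add (lm_tendsto p b)))
    rw [lf_to, map_add, lf_to, lf_to]; rfl

/-- Reduction modulo `p`, and zero for `k = 0`. -/
lemma Th_ev (a : ∀ k : ℕ, ZMod (p ^ k)) (c : ℤ) (h : Th p a = c) :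
    ∀ᶠ k in (hyperfilter ℕ : Filter ℕ), ∀ hk : 1 ≤ k,
      ZMod.castHom (pow_dvd_pow p hk) (ZMod (p ^ 1)) (a k) = c := by
  have h1 : Tendsto (fun k => lf p a k - c) (hyperfilter ℕ : Filter ℕ) (𝓝 0) := by
    have h2 := (lm_tendsto p a).sub_const (c : ℤ_[p])
    have h3 : lm p a = c := h
    rw [h3, sub_self] at h2
    exact h2
  have h2 : ∀ᶠ k in (hyperfilter ℕ : Filter ℕ), ‖lf p a k - c‖ < 1 := by
    have := (tendsto_zero_iff_norm_tendsto_zero.1 h1).eventually (gt_mem_nhds one_pos)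
    exact this
  filter_upwards [h2] with k hk hk1
  rw [PadicInt.norm_lt_one_iff_dvd] at hk
  obtain ⟨y, hy⟩ := hk
  have h3 : lf p a k = c + p * y := by rw [← hy]; ring
  have h4 := congrArg (fun z => ZMod.castHom (pow_dvd_pow p hk1) (ZMod (p ^ 1)) z) (lf_to p a k)
  have h5 : ZMod.castHom (pow_dvd_pow p hk1) (ZMod (p ^ 1)) (a k) =
      (@PadicInt.toZModPow p _ 1) (lf p a k) := by
    rw [← PadicInt.zmod_cast_comp_toZModPow 1 k hk1]
    exact h4.symm
  rw [h5, h3, map_add, map_mul, map_natCast, map_intCast]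
  have h6 : ((p : ℕ) : ZMod (p ^ 1)) = 0 := by
    rw [ZMod.natCast_eq_zero_iff, pow_one]
  rw [h6, zero_mul, add_zero]

end lim

/-- **The representation over the `p`-adic integers.** -/
theorem padic {Λ : Type} [Group Λ] (hfg : Group.FG Λ) {n : ℕ} (hn : 3 ≤ n)
    (hq : ∀ (Q : Type) [Group Q] [Finite Q], (∃ f : Λ →* Q, Function.Surjective f) ↔
      (∃ f : SpecialLinearGroup (Fin n) ℤ →* Q, Function.Surjective f))
    (p : ℕ) [hp : Fact p.Prime] :
    ∃ ρ : Λ →* Matrix (Fin n) (Fin n) ℤ_[p], ∃ g, ρ g ≠ 1 := by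
  classical
  have hk : ∀ k : ℕ, ∃ φ : Λ →* SpecialLinearGroup (Fin n) (ZMod (p ^ k)),
      ∀ t : SpecialLinearGroup (Fin n) ℤ, ∃ x, φ x =
        SpecialLinearGroup.map (Int.castRingHom (ZMod (p ^ k))) t := by
    intro k
    have : NeZero (p ^ k) := ⟨pow_ne_zero _ hp.1.ne_zero⟩
    let r : SpecialLinearGroup (Fin n) ℤ →* SpecialLinearGroup (Fin n) (ZMod (p ^ k)) :=
      SpecialLinearGroup.map (Int.castRingHom (ZMod (p ^ k)))
    obtain ⟨φ, hφ⟩ := (hq r.range).2 ⟨r.rangeRestrict, r.rangeRestrict_surjective⟩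
    refine ⟨r.range.subtype.comp φ, fun t => ?_⟩
    obtain ⟨x, hx⟩ := hφ ⟨r t, ⟨t, rfl⟩⟩
    refine ⟨x, ?_⟩
    show r.range.subtype (φ x) = _
    rw [hx]
    rfl
  choose φ hφ using hk
  let ρ' : Λ →* Matrix (Fin n) (Fin n) (∀ k : ℕ, ZMod (p ^ k)) :=
    { toFun := fun g => Matrix.of fun i j k => (φ k g).1 i j
      map_one' := by
        ext i j k
        show (φ k 1).1 i j = _
        rw [map_one]
        show (1 : Matrix (Fin n) (Fin n) (ZMod (p ^ k))) i j = _
        rw [Matrix.one_apply, Matrix.one_apply]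
        split_ifs <;> rfl
      map_mul' := fun a b => by
        ext i j k
        show (φ k (a * b)).1 i j = _
        rw [map_mul]
        show ((φ k a).1 * (φ k b).1) i j = _
        rw [Matrix.mul_apply, Matrix.mul_apply, Finset.sum_apply]
        rfl }
  let ρ : Λ →* Matrix (Fin n) (Fin n) ℤ_[p] := (Th p).mapMatrix.toMonoidHom.comp ρ'
  refine ⟨ρ, ?_⟩
  by_contra hcon
  push Not at hcon
  obtain ⟨T, hT, hfin⟩ := Group.fg_iff.1 hfg
  have hone : ∀ (g : Λ) (i j : Fin n), Th p (fun k => (φ k g).1 i j) =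
      ((if i = j then 1 else 0 : ℤ) : ℤ_[p]) := by
    intro g i j
    have h1 := congrArg (fun A : Matrix (Fin n) (Fin n) ℤ_[p] => A i j) (hcon g)
    have h2 : Th p (fun k => (φ k g).1 i j) = (1 : Matrix (Fin n) (Fin n) ℤ_[p]) i j := h1
    rw [h2, Matrix.one_apply]
    split_ifs <;> simp
  have hev : ∀ᶠ k in (hyperfilter ℕ : Filter ℕ), ∀ t ∈ T, ∀ i j : Fin n, ∀ hk : 1 ≤ k,
      ZMod.castHom (pow_dvd_pow p hk) (ZMod (p ^ 1)) ((φ k t).1 i j) =
        ((if i = j then 1 else 0 : ℤ) : ZMod (p ^ 1)) := by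
    rw [Filter.eventually_all_finite hfin]
    intro t ht
    rw [Filter.eventually_all]
    intro i
    rw [Filter.eventually_all]
    intro j
    exact Th_ev p _ _ (hone t i j)
  have hge : ∀ᶠ k in (hyperfilter ℕ : Filter ℕ), 1 ≤ k :=
    (Filter.eventually_ge_atTop 1).filter_mono Nat.hyperfilter_le_atTop
  obtain ⟨k, hk1, hk2⟩ := (hev.and hge).exists
  let c := ZMod.castHom (pow_dvd_pow p hk2) (ZMod (p ^ 1))
  have htriv : (SpecialLinearGroup.map (n := Fin n) c).comp (φ k) = 1 := by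
    apply MonoidHom.eq_of_eqOn_dense hT
    intro t ht
    apply Subtype.ext
    ext i j
    show c ((φ k t).1 i j) = (1 : Matrix (Fin n) (Fin n) (ZMod (p ^ 1))) i j
    rw [Matrix.one_apply]
    rw [hk1 t ht i j hk2]
    split_ifs <;> simp
  let i0 : Fin n := ⟨0, by omega⟩
  let i1 : Fin n := ⟨1, by omega⟩
  have h01 : i0 ≠ i1 := by
    intro h; exact absurd (congrArg Fin.val h) (by norm_num [i0, i1])
  let t : SpecialLinearGroup (Fin n) ℤ :=
    ⟨transvection i0 i1 1, det_transvection_of_ne _ _ h01 _⟩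
  obtain ⟨x, hx⟩ := hφ k t
  have h1 := congrArg (fun h : Λ →* SpecialLinearGroup (Fin n) (ZMod (p ^ 1)) => (h x).1 i0 i1)
    htriv
  have h2 : c ((φ k x).1 i0 i1) = (1 : Matrix (Fin n) (Fin n) (ZMod (p ^ 1))) i0 i1 := h1
  rw [hx, Matrix.one_apply_ne h01] at h2
  have h3 : c (((transvection i0 i1 (1 : ℤ)) i0 i1 : ℤ) : ZMod (p ^ k)) = 0 := h2
  have h4 : (transvection i0 i1 (1 : ℤ)) i0 i1 = 1 := by
    simp [transvection, Matrix.one_apply_ne h01]
  rw [h4, Int.cast_one, map_one] at h3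
  have : Fact (1 < p ^ 1) := ⟨by rw [pow_one]; exact hp.1.one_lt⟩
  exact one_ne_zero h3

end Run7.h134.PE
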