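import Pool.Agent.Run7.h134.PE4
import Pool.Agent.Run7.h134.PE5
import Pool.Agent.Run7.h134.PE6

/-!
# The ring of coefficients of a quotient of the elementary group
-/

set_option autoImplicit false
set_option linter.unusedSectionVars false

namespace Run7.h134.PE

open Module
open Pool.Agent.Helper460_PR Pool.Agent.Helper460_OutF Pool.Agent.Helper460_CSP

lemma tr_w {m : ℕ} {S : Type} [CommRing S] {i j : Fin m} (h : i ≠ j) (a b : S) :
    (((1 : Matrix (Fin m) (Fin m) S) + Matrix.single i j a) *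
      (1 + Matrix.single j i b)).trace = m + a * b := by
  rw [mul_add, mul_one, add_mul, one_mul, Matrix.single_mul_single_same]
  rw [Matrix.trace_add, Matrix.trace_add, Matrix.trace_add, Matrix.trace_one, Fintype.card_fin,
    Matrix.trace_single_eq_same, Matrix.trace_single_eq_of_ne _ _ _ h,
    Matrix.trace_single_eq_of_ne _ _ _ h.symm]
  ring

lemma tr_map {n : ℕ} {S L : Type} [CommRing S] [CommRing L] (g : S →+* L)
    (A : Matrix (Fin n) (Fin n) S) : (A.map g).trace = g A.trace := by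
  simp [Matrix.trace, map_sum]

variable {m : ℕ} {R : Type} [Ring R]

/-- A test element. -/
def tw (i j : Fin m) (r : R) : EE m R := xE i j r * xE j i 1

lemma tr_tw {S : Type} [CommRing S] (φ : R →+* S) {i j : Fin m} (h : i ≠ j) (r : R) :
    (Mp' φ (tw i j r)).trace = m + φ r := by
  unfold tw
  rw [map_mul, Mp'_xE φ h, Mp'_xE φ h.symm, tr_w h, map_one, mul_one]

lemma tr_tw_inv {S : Type} [CommRing S] (φ : R →+* S) {i j : Fin m} (h : i ≠ j) (r : R) :
    (Mp' φ (tw i j r)⁻¹).trace = m + φ r := by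
  unfold tw
  rw [mul_inv_rev, xE_inv h, xE_inv h.symm, map_mul, Mp'_xE φ h, Mp'_xE φ h.symm, tr_w h.symm,
    map_neg, map_neg, map_one]
  ring

/-- **The `p`-adic coefficients.** -/
theorem phi_p {Λ : Type} [Group Λ] {n : ℕ} (h2 : 2 ≤ n) (hm : 5 ≤ m) (hnm : n ≤ m)
    (f : EE m R →* Λ) (hf : Function.Surjective f) (p : ℕ) [hp : Fact p.Prime]
    (ρ : Λ →* Matrix (Fin n) (Fin n) ℤ_[p]) (hρ : ∃ g, ρ g ≠ 1) :
    n = m ∧ ∃ φ : R →+* ℤ_[p], ∀ g, f g = 1 → Mp' φ g = 1 := by
  let co : ℤ_[p] →+* ℚ_[p] := PadicInt.Coe.ringHom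
  have hco : Function.Injective co := Subtype.val_injective
  let b := Pi.basisFun ℚ_[p] (Fin n)
  let Ψ : EE m R →* End ℚ_[p] (Fin n → ℚ_[p]) :=
    ((MonoidHomClass.toMonoidHom (Matrix.toLinAlgEquiv b)).comp
      (co.mapMatrix (m := Fin n)).toMonoidHom).comp (ρ.comp f)
  have hΨ : ∀ g, Ψ g = Matrix.toLinAlgEquiv b ((ρ (f g)).map co) := fun g => rfl
  have htr : ∀ g, LinearMap.trace ℚ_[p] (Fin n → ℚ_[p]) (Ψ g) = co (ρ (f g)).trace := by
    intro g
    rw [hΨ, trace_lin b]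
    exact tr_map co (ρ (f g))
  have hfr : finrank ℚ_[p] (Fin n → ℚ_[p]) = n := by
    rw [Module.finrank_fintype_fun_eq_card, Fintype.card_fin]
  rcases rep_main Ψ (by norm_num) hm (by rw [hfr]; exact hnm) with h | ⟨h1, φ, hk, ht⟩
  · exfalso
    obtain ⟨g, hg⟩ := hρ
    obtain ⟨x, rfl⟩ := hf g
    apply hg
    have h3 : Matrix.toLinAlgEquiv b ((ρ (f x)).map co) = Matrix.toLinAlgEquiv b 1 := by
      rw [map_one]; exact h x
    have h4 := (Matrix.toLinAlgEquiv b).injective h3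
    ext i j
    have h5 := congrArg (fun A : Matrix (Fin n) (Fin n) ℚ_[p] => A i j) h4
    have h6 : co (ρ (f x) i j) = (1 : Matrix (Fin n) (Fin n) ℚ_[p]) i j := h5
    apply hco
    rw [h6, Matrix.one_apply, Matrix.one_apply]
    split_ifs <;> simp
  · refine ⟨hfr.symm.trans h1, ?_⟩
    have hnm' : n = m := hfr.symm.trans h1
    let i0 : Fin m := ⟨0, by omega⟩
    let i1 : Fin m := ⟨1, by omega⟩
    have h01 : i0 ≠ i1 := by
      intro h; exact absurd (congrArg Fin.val h) (by norm_num [i0, i1])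
    have hval : ∀ r, ∃ z : ℤ_[p], co z = φ r := by
      intro r
      have e : ∃ g, co (ρ (f g)).trace = m + φ r := by
        rcases ht with h | h
        · refine ⟨tw i0 i1 r, ?_⟩
          rw [← htr, h, tr_tw φ h01]
        · refine ⟨tw i0 i1 r, ?_⟩
          rw [← htr, h, tr_tw_inv φ h01]
      obtain ⟨g, hg⟩ := e
      refine ⟨(ρ (f g)).trace - m, ?_⟩
      rw [map_sub, hg, map_natCast]
      ring
    choose z hz using hval
    let φ' : R →+* ℤ_[p] :=
      { toFun := z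
        map_one' := hco (by rw [hz, map_one, map_one])
        map_zero' := hco (by rw [hz, map_zero, map_zero])
        map_mul' := fun a b => hco (by rw [hz, map_mul, map_mul, hz, hz])
        map_add' := fun a b => hco (by rw [hz, map_add, map_add, hz, hz]) }
    refine ⟨φ', fun g hg => ?_⟩
    have h3 : Ψ g = 1 := by
      rw [hΨ, hg, map_one]
      have : ((1 : Matrix (Fin n) (Fin n) ℤ_[p]).map co) = 1 := (co.mapMatrix (m := Fin n)).map_one
      rw [this, map_one]
    have h4 := hk g h3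
    ext i j
    have h5 := congrArg (fun A : Matrix (Fin m) (Fin m) ℚ_[p] => A i j) h4
    have h6 : φ ((g.1 : Matrix (Fin m) (Fin m) R) i j) = (1 : Matrix (Fin m) (Fin m) ℚ_[p]) i j := h5
    apply hco
    have h7 : co (Mp' φ' g i j) = φ ((g.1 : Matrix (Fin m) (Fin m) R) i j) := hz _
    rw [h7, h6, Matrix.one_apply, Matrix.one_apply]
    split_ifs <;> simp

/-- The coefficients of a finitely generated group of matrices. -/
lemma ft_of_fg {S : Type} [CommRing S] {Λ : Type} [Group Λ] (hfg : Group.FG Λ)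
    (M : Λ →* (Matrix (Fin m) (Fin m) S)ˣ) (h : ∀ s : S, ∃ g i j, (M g).1 i j = s) :
    Algebra.FiniteType ℤ S := by
  obtain ⟨T, hT, hfin⟩ := Group.fg_iff.1 hfg
  let E : Set S := (fun x : Λ × Fin m × Fin m => (M x.1).1 x.2.1 x.2.2) '' (T ×ˢ Set.univ) ∪
    (fun x : Λ × Fin m × Fin m => (M x.1⁻¹).1 x.2.1 x.2.2) '' (T ×ˢ Set.univ)
  have hE : E.Finite := ((hfin.prod Set.finite_univ).image _).union
    ((hfin.prod Set.finite_univ).image _)
  have key : ∀ g, (∀ i j, (M g).1 i j ∈ Algebra.adjoin ℤ E) ∧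
      (∀ i j, (M g⁻¹).1 i j ∈ Algebra.adjoin ℤ E) := by
    intro g
    have hg : g ∈ Subgroup.closure T := by rw [hT]; trivial
    have hmul : ∀ a b : Λ, (∀ i j, (M a).1 i j ∈ Algebra.adjoin ℤ E) →
        (∀ i j, (M b).1 i j ∈ Algebra.adjoin ℤ E) →
        ∀ i j, (M (a * b)).1 i j ∈ Algebra.adjoin ℤ E := by
      intro a b ha hb i j
      rw [map_mul, Units.val_mul, Matrix.mul_apply]
      exact sum_mem fun k _ => mul_mem (ha i k) (hb k j)
    induction hg using Subgroup.closure_induction with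
    | mem x hx =>
      exact ⟨fun i j => Algebra.subset_adjoin (Or.inl ⟨(x, i, j), ⟨hx, trivial⟩, rfl⟩),
        fun i j => Algebra.subset_adjoin (Or.inr ⟨(x, i, j), ⟨hx, trivial⟩, rfl⟩)⟩
    | one =>
      have h1 : ∀ i j, (M 1).1 i j ∈ Algebra.adjoin ℤ E := by
        intro i j
        rw [map_one, Units.val_one, Matrix.one_apply]
        split_ifs
        · exact one_mem _
        · exact zero_mem _
      refine ⟨h1, ?_⟩
      rw [inv_one]
      exact h1
    | mul a b _ _ ha hb =>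
      refine ⟨hmul a b ha.1 hb.1, ?_⟩
      rw [mul_inv_rev]
      exact hmul _ _ hb.2 ha.2
    | inv a _ ha =>
      refine ⟨ha.2, ?_⟩
      rw [inv_inv]
      exact ha.1
  have htop : Algebra.adjoin ℤ E = ⊤ := by
    rw [eq_top_iff]
    rintro s -
    obtain ⟨g, i, j, rfl⟩ := h s
    exact (key g).1 i j
  exact ⟨Subalgebra.fg_def.2 ⟨E, hE, htop⟩⟩

lemma det_EE (g : EE m ℤ) : (g.1 : Matrix (Fin m) (Fin m) ℤ).det = 1 := by
  have h : (Matrix.detMonoidHom : Matrix (Fin m) (Fin m) ℤ →* ℤ).comp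
      (Mp' (RingHom.id ℤ)) = (1 : EE m ℤ →* ℤ) := by
    apply hom_ext
    intro i j hij r
    show (Mp' (RingHom.id ℤ) (xE i j r : EE m ℤ)).det = 1
    rw [Mp'_xE _ hij]
    exact Matrix.det_transvection_of_ne _ _ hij _
  have h1 := congrArg (fun t : EE m ℤ →* ℤ => t g) h
  have h2 : ((g.1 : Matrix (Fin m) (Fin m) ℤ).map (RingHom.id ℤ)).det = 1 := h1
  have h3 : (g.1 : Matrix (Fin m) (Fin m) ℤ).map (RingHom.id ℤ) = g.1 := by
    ext i j; rfl
  rwa [h3] at h2

/-- The elementary group of the integers in the special linear group. -/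
def io (m : ℕ) : EE m ℤ →* Matrix.SpecialLinearGroup (Fin m) ℤ where
  toFun g := ⟨g.1.1, det_EE g⟩
  map_one' := rfl
  map_mul' _ _ := rfl

lemma io_surj (m : ℕ) : Function.Surjective (io m) := by
  intro A
  obtain ⟨g, hg⟩ := pis_surj m A
  refine ⟨th m ℤ g, ?_⟩
  rw [← hg]
  apply Subtype.ext
  show ((th m ℤ g).1 : Matrix (Fin m) (Fin m) ℤ) = mA g.1
  rw [th_val]
  show (Int.castRingHom ℤ).mapMatrix (mA g.1) = mA g.1
  ext i j
  simp

/-- **Homomorphisms of the ring of coefficients to finite fields.** -/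
theorem uq {S : Type} [CommRing S] {Λ : Type} [Group Λ] (hm : 5 ≤ m)
    (hq : ∀ (Q : Type) [Group Q] [Finite Q], (∃ f : Λ →* Q, Function.Surjective f) ↔
      (∃ f : Matrix.SpecialLinearGroup (Fin m) ℤ →* Q, Function.Surjective f))
    (M : Λ →* (Matrix (Fin m) (Fin m) S)ˣ)
    (hM : ∀ i j, i ≠ j → ∀ s : S, ∃ x, (M x).1 = 1 + Matrix.single i j s) : Uq S := by
  intro L _ _ h2 g1 g2
  let U := (Matrix (Fin m) (Fin m) L)ˣ
  let N : (S →+* L) → (Λ →* U) := fun g => (Units.map (g.mapMatrix (m := Fin m)).toMonoidHom).comp M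
  have : Finite (Matrix (Fin m) (Fin m) L) := inferInstanceAs (Finite (Fin m → Fin m → L))
  let P : Λ →* U × U := (N g1).prod (N g2)
  obtain ⟨s, hs⟩ := (hq P.range).1 ⟨P.rangeRestrict, P.rangeRestrict_surjective⟩
  let i0 : Fin m := ⟨0, by omega⟩
  let i1 : Fin m := ⟨1, by omega⟩
  have h01 : i0 ≠ i1 := by
    intro h; exact absurd (congrArg Fin.val h) (by norm_num [i0, i1])
  have key : ∀ (g : S →+* L) (pr : U × U →* U), (∀ x, pr (P x) = N g x) →
      ∀ (a : S) (w : Λ), (M w).1 = (1 + Matrix.single i0 i1 a) * (1 + Matrix.single i1 i0 1) →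
      ∀ t : EE m ℤ, ((s (io m t)).1 = P w) →
      (m : L) + g a = (Mp' (Int.castRingHom L) t).trace := by
    intro g pr hpr a w hw t ht
    let b := Pi.basisFun L (Fin m)
    let Ψ : EE m ℤ →* End L (Fin m → L) :=
      ((MonoidHomClass.toMonoidHom (Matrix.toLinAlgEquiv b)).comp (Units.coeHom _)).comp
        (pr.comp (P.range.subtype.comp (s.comp (io m))))
    have hΨ : ∀ y, Ψ y = Matrix.toLinAlgEquiv b (pr (s (io m y)).1).1 := fun y => rfl
    have hfr : finrank L (Fin m → L) = m := by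
      rw [Module.finrank_fintype_fun_eq_card, Fintype.card_fin]
    have hNv : ∀ x, (N g x).1 = (M x).1.map g := fun x => rfl
    have hMw : M w = el i0 i1 h01 a * el i1 i0 h01.symm 1 := Units.ext hw
    have e1 : LinearMap.trace L (Fin m → L) (Ψ t) = m + g a := by
      rw [hΨ, trace_lin b, ht, hpr, hNv, hw, tr_map, tr_w h01, map_add, map_mul, map_natCast,
        map_one, mul_one]
    have e2 : LinearMap.trace L (Fin m → L) (Ψ t⁻¹) = m + g a := by
      have h3 : (s (io m t⁻¹)).1 = P w⁻¹ := by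
        rw [map_inv, map_inv, map_inv, ← ht]
        rfl
      have h4 : (M w⁻¹).1 = (1 + Matrix.single i1 i0 (-1)) * (1 + Matrix.single i0 i1 (-a)) := by
        rw [map_inv, hMw, mul_inv_rev]
        rfl
      rw [hΨ, trace_lin b, h3, hpr, hNv, h4, tr_map, tr_w h01.symm]
      simp
    rcases rep_main Ψ h2 hm (le_of_eq hfr) with h | ⟨-, φ, -, h | h⟩
    · exfalso
      obtain ⟨x, hx⟩ := hM i0 i1 h01 1
      obtain ⟨sl, hsl⟩ := hs ⟨P x, ⟨x, rfl⟩⟩
      obtain ⟨y, rfl⟩ := io_surj m sl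
      have h3 : Matrix.toLinAlgEquiv b (pr (s (io m y)).1).1 = Matrix.toLinAlgEquiv b 1 := by
        rw [map_one]; exact h y
      have h4 := (Matrix.toLinAlgEquiv b).injective h3
      rw [hsl, hpr, hNv, hx] at h4
      have h5 := congrArg (fun A : Matrix (Fin m) (Fin m) L => A i0 i1) h4
      simp [Matrix.one_apply_ne h01] at h5
    · rw [← e1, h, Subsingleton.elim φ (Int.castRingHom L)]
    · rw [← e2, h, inv_inv, Subsingleton.elim φ (Int.castRingHom L)]
  refine RingHom.ext fun a => ?_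
  obtain ⟨x, hx⟩ := hM i0 i1 h01 a
  obtain ⟨y, hy⟩ := hM i1 i0 h01.symm 1
  have hw : (M (x * y)).1 = (1 + Matrix.single i0 i1 a) * (1 + Matrix.single i1 i0 1) := by
    rw [map_mul, Units.val_mul, hx, hy]
  obtain ⟨sl, hsl⟩ := hs ⟨P (x * y), ⟨x * y, rfl⟩⟩
  obtain ⟨t, rfl⟩ := io_surj m sl
  have ht : (s (io m t)).1 = P (x * y) := by rw [hsl]
  have k1 := key g1 (MonoidHom.fst U U) (fun _ => rfl) a _ hw t ht
  have k2 := key g2 (MonoidHom.snd U U) (fun _ => rfl) a _ hw t ht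
  exact add_left_cancel (k1.trans k2.symm)

end Run7.h134.PE
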