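import Pool.Agent.Helper460_PR.Hopf
import Pool.Agent.Run7.h134.PE7

/-!
# Quotients of elementary groups with the finite quotients of `SL (n, ℤ)`
-/

set_option autoImplicit false
set_option linter.unusedSectionVars false

namespace Run7.h134.PE

open Pool.Agent.Helper460_PR Pool.Agent.Helper460_OutF Pool.Agent.Helper460_CSP

lemma map_one' {m : ℕ} {S L : Type} [Ring S] [Ring L] (g : S →+* L) :
    ((1 : Matrix (Fin m) (Fin m) S).map g) = 1 := (g.mapMatrix (m := Fin m)).map_one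

/-- **Main theorem.** -/
theorem mainE {n m : ℕ} (hn : 3 ≤ n) (hm : 5 ≤ m) (hnm : n ≤ m) (R : Type) [Ring R]
    (Λ : Type) [Group Λ] (hfg : Group.FG Λ)
    (hRF : ∀ g : Λ, g ≠ 1 → ∃ H : Subgroup Λ, H.index ≠ 0 ∧ g ∉ H)
    (hq : ∀ (Q : Type) [Group Q] [Finite Q], (∃ f : Λ →* Q, Function.Surjective f) ↔
      (∃ f : Matrix.SpecialLinearGroup (Fin n) ℤ →* Q, Function.Surjective f))
    (f : EE m R →* Λ) (hf : Function.Surjective f) :
    m = n ∧ Nonempty (Λ ≃* Matrix.SpecialLinearGroup (Fin n) ℤ) ∧ Nonempty (R →+* ℤ) ∧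
      (Function.Injective f → Nonempty (R ≃+* ℤ)) := by
  have key : ∀ p : ℕ, ∀ _ : Fact p.Prime,
      n = m ∧ ∃ φ : R →+* ℤ_[p], ∀ g, f g = 1 → Mp' φ g = 1 := by
    intro p hp
    obtain ⟨ρ, hρ⟩ := padic hfg hn hq p
    exact phi_p (by omega) hm hnm f hf p ρ hρ
  have hnm' : n = m := (key 2 ⟨Nat.prime_two⟩).1
  subst hnm'
  have key2 : ∀ p : Nat.Primes, ∃ φ : R →+* @PadicInt p.1 ⟨p.2⟩, ∀ g, f g = 1 → Mp' φ g = 1 :=
    fun p => (key p.1 ⟨p.2⟩).2
  choose φ hφ using key2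
  let F : R →+* (∀ p : Nat.Primes, @PadicInt p.1 ⟨p.2⟩) := Pi.ringHom φ
  let S := F.range
  let F' : R →+* S := F.rangeRestrict
  have hker : ∀ g, f g = 1 → Mp' F' g = 1 := by
    intro g hg
    refine Matrix.ext fun i j => ?_
    apply Subtype.ext
    funext p
    have h1 := congrArg (fun A : Matrix (Fin n) (Fin n) (@PadicInt p.1 ⟨p.2⟩) => A i j) (hφ p g hg)
    have h2 : (Mp' F' g i j).1 p = (1 : Matrix (Fin n) (Fin n) (@PadicInt p.1 ⟨p.2⟩)) i j := h1
    rw [h2, Matrix.one_apply, Matrix.one_apply]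
    split_ifs <;> rfl
  let U := (Matrix (Fin n) (Fin n) S)ˣ
  let M0 : EE n R →* U := (Mp' F').toHomUnits
  have hM0 : f.ker ≤ M0.ker := fun g hg => Units.ext (hker g hg)
  let M : Λ →* U := (f.liftOfSurjective hf) ⟨M0, hM0⟩
  have hM : ∀ g, M (f g) = M0 g := fun g =>
    MonoidHom.liftOfRightInverse_comp_apply _ _ _ _ _
  have hMx : ∀ i j, i ≠ j → ∀ s : S, ∃ x, (M x).1 = 1 + Matrix.single i j s := by
    intro i j hij s
    obtain ⟨r, rfl⟩ := F.rangeRestrict_surjective s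
    refine ⟨f (xE i j r), ?_⟩
    rw [hM]
    exact Mp'_xE F' hij r
  let i0 : Fin n := ⟨0, by omega⟩
  let i1 : Fin n := ⟨1, by omega⟩
  have h01 : i0 ≠ i1 := by
    intro h; exact absurd (congrArg Fin.val h) (by norm_num [i0, i1])
  have hft : Algebra.FiniteType ℤ S := ft_of_fg hfg M (fun s => by
    obtain ⟨x, hx⟩ := hMx i0 i1 h01 s
    refine ⟨x, i0, i1, ?_⟩
    rw [hx, Matrix.add_apply, Matrix.one_apply_ne h01, Matrix.single_apply_same, zero_add])
  have hU : Uq S := uq hm hq M hMx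
  obtain ⟨κ, -⟩ := hU.int (fun p hp =>
    (Pi.evalRingHom (fun p : Nat.Primes => @PadicInt p.1 ⟨p.2⟩) ⟨p, hp.out⟩).comp S.subtype)
  let ψ : R →+* ℤ := κ.comp F'
  have hψ : ∀ g, f g = 1 → Mp' ψ g = 1 := by
    intro g hg
    have h1 := congrArg (fun A : Matrix (Fin n) (Fin n) S => A.map κ) (hker g hg)
    exact (show Mp' ψ g = (Mp' F' g).map κ from rfl).trans (h1.trans (map_one' κ))
  have hdet : ∀ g, (Mp' ψ g : Matrix (Fin n) (Fin n) ℤ).det = 1 := by
    have h : (Matrix.detMonoidHom : Matrix (Fin n) (Fin n) ℤ →* ℤ).comp (Mp' ψ) =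
        (1 : EE n R →* ℤ) := by
      apply hom_ext
      intro i j hij r
      show (Mp' ψ (xE i j r : EE n R)).det = 1
      rw [Mp'_xE _ hij]
      exact Matrix.det_transvection_of_ne _ _ hij _
    exact fun g => congrArg (fun t : EE n R →* ℤ => t g) h
  let k : EE n R →* Matrix.SpecialLinearGroup (Fin n) ℤ :=
    { toFun := fun g => ⟨Mp' ψ g, hdet g⟩
      map_one' := Subtype.ext (map_one (Mp' ψ))
      map_mul' := fun a b => Subtype.ext (map_mul (Mp' ψ) a b) }
  have hk : f.ker ≤ k.ker := fun g hg => Subtype.ext (hψ g hg)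
  let h : Λ →* Matrix.SpecialLinearGroup (Fin n) ℤ := (f.liftOfSurjective hf) ⟨k, hk⟩
  have hh : ∀ g, h (f g) = k g := fun g =>
    MonoidHom.liftOfRightInverse_comp_apply _ _ _ _ _
  have hs : Function.Surjective h := by
    intro A
    obtain ⟨t, rfl⟩ := pis_surj n A
    refine ⟨f (th n R t), ?_⟩
    rw [hh]
    apply Subtype.ext
    ext i j
    show ψ (((mA t.1 i j : ℤ)) : R) = mA t.1 i j
    simp
  have hinj : Function.Injective h := hopf hfg hRF hq h hs
  refine ⟨rfl, ⟨MulEquiv.ofBijective h ⟨hinj, hs⟩⟩, ⟨ψ⟩, fun hfi => ?_⟩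
  have hb : Function.Bijective ψ := by
    constructor
    · rw [injective_iff_map_eq_zero]
      intro r hr
      have h1 : k (xE i0 i1 r) = 1 := by
        apply Subtype.ext
        show Mp' ψ (xE i0 i1 r : EE n R) = 1
        rw [Mp'_xE _ h01, hr, Matrix.single_zero, add_zero]
      have h2 : f (xE i0 i1 r) = 1 := hinj (by rw [hh, h1, map_one])
      have h3 : (xE i0 i1 r : EE n R) = 1 := hfi (by rw [h2, map_one])
      have h4 : (1 + Matrix.single i0 i1 r : Matrix (Fin n) (Fin n) R) = 1 := by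
        rw [← xE_val h01, h3]; rfl
      have h5 := congrArg (fun A : Matrix (Fin n) (Fin n) R => A i0 i1) h4
      simpa [Matrix.one_apply_ne h01] using h5
    · intro z
      exact ⟨(z : R), by simp⟩
  exact ⟨RingEquiv.ofBijective ψ hb⟩

end Run7.h134.PE
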