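import Pool.Agent.Run7.h134.PE7

/-!
# Representations of small degree of the group generated by the transvections
-/

set_option autoImplicit false
set_option linter.unusedSectionVars false

namespace Run7.h134.PE

open Module
open Pool.Agent.Helper460_PR Pool.Agent.Helper460_OutF Pool.Agent.Helper460_CSP

variable {m : ℕ} {K V : Type} [Field K] [AddCommGroup V] [Module K V] (Φ : SA m →* End K V)

/-- The contragredient matrices. -/
def T0c (m : ℕ) (K : Type) [CommRing K] : SA m →* Matrix (Fin m) (Fin m) K where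
  toFun g := (T0 m K g⁻¹).transpose
  map_one' := by rw [inv_one, map_one, Matrix.transpose_one]
  map_mul' g h := by rw [mul_inv_rev, map_mul, Matrix.transpose_mul]

lemma T0_ρ {S : Type} [Ring S] {i j : Fin m} (h : i ≠ j) :
    T0 m S ((sys m).ρ i j) = 1 + Matrix.single j i 1 := T0_tv (mA_ro h)

lemma T0_l {S : Type} [Ring S] {i j : Fin m} (h : i ≠ j) :
    T0 m S ((sys m).l i j) = 1 + Matrix.single j i 1 := T0_tv (mA_la h)

/-- **The representations of small degree.** -/
theorem repSA [FiniteDimensional K V] (h2 : (2 : K) ≠ 0) (hm : 5 ≤ m) (hd : finrank K V ≤ m) :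
    (∀ g, Φ g = 1) ∨ (finrank K V = m ∧ ∃ u : Basis (Fin m) K V,
      (∀ g, Φ g = Matrix.toLinAlgEquiv u (T0 m K g)) ∨
      (∀ g, Φ g = Matrix.toLinAlgEquiv u (T0c m K g))) := by
  classical
  by_cases htr : ∀ i j, Φ ((sys m).e i j) = 1
  · left
    have h1 : ∀ i j, i ≠ j → Φ ((sys m).ρ i j) = 1 := fun i j hij => (sys m).triv_case Φ htr h2 hm hd hij
    exact (sys m).triv_of Φ h1 (fun i j hij => by rw [(sys m).l_eq Φ htr hij, h1 i j hij])
  · push Not at htr
    obtain ⟨a, b, hab⟩ := htr
    obtain ⟨hfr, w, hw⟩ := (sys m).exists_basis Φ h2 hm hd hab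
    have hll := fun (i j : Fin m) (hij : i ≠ j) => (sys m).l_eq' Φ w hw h2 hm hij
    rcases (sys m).struct Φ w hw h2 hm with h1 | ⟨u, hu1, hu2⟩ | ⟨u, hu1, hu2⟩
    · left
      exact (sys m).triv_of Φ h1 (fun i j hij => by rw [hll i j hij, h1 i j hij])
    · right
      refine ⟨hfr, u, Or.inl ?_⟩
      have hgen : ∀ i j, i ≠ j → Φ ((sys m).ρ i j) =
          Matrix.toLinAlgEquiv u (1 + Matrix.single j i 1) := by
        intro i j hij
        apply u.ext
        intro k
        rw [Matrix.toLinAlgEquiv_self]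
        simp only [Matrix.add_apply, add_smul, Finset.sum_add_distrib,
          Matrix.one_apply, Matrix.single_apply, ite_smul, one_smul, zero_smul,
          Finset.sum_ite_eq', Finset.mem_univ, if_true]
        by_cases hk : k = i
        · subst hk
          rw [hu1 k j hij]
          simp
        · rw [hu2 i j k hij hk]
          simp [Ne.symm hk]
      have hΦ : Φ = (MonoidHomClass.toMonoidHom (Matrix.toLinAlgEquiv u)).comp (T0 m K) := by
        apply MonoidHom.eq_of_eqOn_dense (sys m).gen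
        rintro _ ⟨i, j, hij, rfl | rfl⟩
        · show Φ ((sys m).ρ i j) = Matrix.toLinAlgEquiv u (T0 m K ((sys m).ρ i j))
          rw [T0_ρ hij, hgen i j hij]
        · show Φ ((sys m).l i j) = Matrix.toLinAlgEquiv u (T0 m K ((sys m).l i j))
          rw [T0_l hij, hll i j hij, hgen i j hij]
      intro g
      rw [hΦ]
      rfl
    · right
      refine ⟨hfr, u, Or.inr ?_⟩
      have hM' : ∀ (x : SA m) (i j : Fin m), i ≠ j → T0 m K x = 1 + Matrix.single j i 1 →
          T0c m K x = 1 + Matrix.single i j (-1) := by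
        intro x i j hij hx
        have e1 : T0 m K x⁻¹ = 1 + Matrix.single j i (-1) := by
          have h3 : T0 m K x⁻¹ * T0 m K x = 1 := by rw [← map_mul, inv_mul_cancel, map_one]
          rw [hx] at h3
          have h4 := congrArg (fun y => y * (1 + Matrix.single j i (-1 : K))) h3
          simp only [mul_assoc, one_mul] at h4
          rw [el_mul hij.symm, add_neg_cancel, Matrix.single_zero, add_zero, mul_one] at h4
          exact h4
        show (T0 m K x⁻¹).transpose = _
        rw [e1, Matrix.transpose_add, Matrix.transpose_one, Matrix.transpose_single]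
      have hgen : ∀ i j, i ≠ j → Φ ((sys m).ρ i j) =
          Matrix.toLinAlgEquiv u (1 + Matrix.single i j (-1)) := by
        intro i j hij
        apply u.ext
        intro k
        rw [Matrix.toLinAlgEquiv_self]
        simp only [Matrix.add_apply, add_smul, Finset.sum_add_distrib,
          Matrix.one_apply, Matrix.single_apply, ite_smul, one_smul, zero_smul,
          Finset.sum_ite_eq', Finset.mem_univ, if_true]
        by_cases hk : k = j
        · subst hk
          rw [hu1 i k hij]
          simp [sub_eq_add_neg]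
        · rw [hu2 i j k hij hk]
          simp [Ne.symm hk]
      have hΦ : Φ = (MonoidHomClass.toMonoidHom (Matrix.toLinAlgEquiv u)).comp (T0c m K) := by
        apply MonoidHom.eq_of_eqOn_dense (sys m).gen
        rintro _ ⟨i, j, hij, rfl | rfl⟩
        · show Φ ((sys m).ρ i j) = Matrix.toLinAlgEquiv u (T0c m K ((sys m).ρ i j))
          rw [hM' _ i j hij (T0_ρ hij), hgen i j hij]
        · show Φ ((sys m).l i j) = Matrix.toLinAlgEquiv u (T0c m K ((sys m).l i j))
          rw [hM' _ i j hij (T0_l hij), hll i j hij, hgen i j hij]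
      intro g
      rw [hΦ]
      rfl

/-- The traces. -/
lemma repSA_tr [FiniteDimensional K V] (h2 : (2 : K) ≠ 0) (hm : 5 ≤ m) (hd : finrank K V ≤ m) :
    (∀ g, Φ g = 1) ∨ (finrank K V = m ∧
      ((∀ g, LinearMap.trace K V (Φ g) = (T0 m K g).trace) ∨
      (∀ g, LinearMap.trace K V (Φ g) = (T0 m K g⁻¹).trace))) := by
  rcases repSA Φ h2 hm hd with h | ⟨hfr, u, h | h⟩
  · exact Or.inl h
  · right
    refine ⟨hfr, Or.inl fun g => ?_⟩
    rw [h g]
    exact trace_lin u _
  · right
    refine ⟨hfr, Or.inr fun g => ?_⟩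
    rw [h g]
    exact (trace_lin u _).trans (Matrix.trace_transpose _)

/-- **Comparison of two representations over a finite field.** -/
theorem compare {Λ : Type} [Group Λ] (hm : 5 ≤ m)
    (hq : ∀ (Q : Type) [Group Q] [Finite Q], (∃ f : Λ →* Q, Function.Surjective f) ↔
      (∃ f : Matrix.SpecialLinearGroup (Fin m) ℤ →* Q, Function.Surjective f))
    (L : Type) [Field L] [Finite L] (h2 : (2 : L) ≠ 0)
    (N1 N2 : Λ →* Matrix (Fin m) (Fin m) L) (h1 : ∃ x, N1 x ≠ 1) (h1' : ∃ x, N2 x ≠ 1) :
    (∀ x, (N1 x).trace = (N2 x).trace) ∨ (∀ x, (N1 x).trace = (N2 x⁻¹).trace) := by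
  let U := (Matrix (Fin m) (Fin m) L)ˣ
  have : Finite (Matrix (Fin m) (Fin m) L) := inferInstanceAs (Finite (Fin m → Fin m → L))
  let P : Λ →* U × U := (N1.toHomUnits).prod (N2.toHomUnits)
  obtain ⟨s, hs⟩ := (hq P.range).1 ⟨P.rangeRestrict, P.rangeRestrict_surjective⟩
  have hlift : ∀ x, ∃ y : SA m, (s (pis m y)).1 = P x := by
    intro x
    obtain ⟨z, hz⟩ := hs ⟨P x, ⟨x, rfl⟩⟩
    obtain ⟨y, rfl⟩ := pis_surj m z
    exact ⟨y, by rw [hz]⟩
  have key : ∀ (N : Λ →* Matrix (Fin m) (Fin m) L) (pr : U × U →* U),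
      (∀ x, (pr (P x)).1 = N x) → (∃ x, N x ≠ 1) →
      (∀ x y, (s (pis m y)).1 = P x → (N x).trace = (T0 m L y).trace) ∨
      (∀ x y, (s (pis m y)).1 = P x → (N x).trace = (T0 m L y⁻¹).trace) := by
    intro N pr hpr hN
    let b := Pi.basisFun L (Fin m)
    let Ψ : SA m →* End L (Fin m → L) :=
      ((MonoidHomClass.toMonoidHom (Matrix.toLinAlgEquiv b)).comp (Units.coeHom _)).comp
        (pr.comp (P.range.subtype.comp (s.comp (pis m))))
    have hΨ : ∀ y, Ψ y = Matrix.toLinAlgEquiv b (pr (s (pis m y)).1).1 := fun y => rfl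
    have hfr : finrank L (Fin m → L) = m := by
      rw [Module.finrank_fintype_fun_eq_card, Fintype.card_fin]
    have htr : ∀ x y, (s (pis m y)).1 = P x →
        LinearMap.trace L (Fin m → L) (Ψ y) = (N x).trace := by
      intro x y h
      rw [hΨ, h, hpr]
      exact trace_lin b _
    rcases repSA_tr Ψ h2 hm (le_of_eq hfr) with h | ⟨-, h | h⟩
    · exfalso
      obtain ⟨x, hx⟩ := hN
      obtain ⟨y, hy⟩ := hlift x
      have h3 : Matrix.toLinAlgEquiv b (N x) = Matrix.toLinAlgEquiv b 1 := by
        rw [map_one, ← hpr, ← hy]; exact h y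
      exact hx ((Matrix.toLinAlgEquiv b).injective h3)
    · exact Or.inl fun x y hxy => by rw [← htr x y hxy, h]
    · exact Or.inr fun x y hxy => by rw [← htr x y hxy, h]
  have hinv : ∀ x y, (s (pis m y)).1 = P x → (s (pis m y⁻¹)).1 = P x⁻¹ := by
    intro x y h
    rw [map_inv, map_inv, map_inv, ← h]
    rfl
  rcases key N1 (MonoidHom.fst U U) (fun _ => rfl) h1 with k1 | k1 <;>
    rcases key N2 (MonoidHom.snd U U) (fun _ => rfl) h1' with k2 | k2
  · left
    intro x
    obtain ⟨y, hy⟩ := hlift x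
    rw [k1 x y hy, k2 x y hy]
  · right
    intro x
    obtain ⟨y, hy⟩ := hlift x
    rw [k1 x y hy, k2 x⁻¹ y⁻¹ (hinv x y hy), inv_inv]
  · right
    intro x
    obtain ⟨y, hy⟩ := hlift x
    rw [k1 x y hy, k2 x⁻¹ y⁻¹ (hinv x y hy)]
  · left
    intro x
    obtain ⟨y, hy⟩ := hlift x
    rw [k1 x y hy, k2 x y hy]

end Run7.h134.PE
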