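import Pool.Agent.Run7.h134.PE6
import Pool.Agent.Helper460_PR.Inst
import Pool.Agent.Helper460_PR.Hopf
import Pool.Agent.Helper460_CSP.Bls

/-!
# Representations over the `p`-adic integers which do not vanish on a given element
-/

set_option autoImplicit false
set_option linter.unusedSectionVars false

namespace Run7.h134.PE

open Filter Topology Matrix
open Pool.Agent.Helper460_PR Pool.Agent.Helper460_CSP

/-- Simultaneous transport of homomorphisms to finite groups. -/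
lemma lift_pair {Λ Γ : Type} [Group Λ] [Group Γ] (hΛ : Group.FG Λ) (hΓ : Group.FG Γ)
    (hq : ∀ (Q : Type) [Group Q] [Finite Q],
      (∃ f : Λ →* Q, Function.Surjective f) ↔ (∃ f : Γ →* Q, Function.Surjective f))
    (Q : Type) [Group Q] [Finite Q] (q : Λ →* Q) (G : Type) [Group G] [Finite G] (r : Γ →* G) :
    ∃ (c : Λ →* G) (φ : Γ →* Q), ∀ x, ∃ y, c x = r y ∧ q x = φ y := by
  have hf1 : Finite (Λ →* Q) := finite_hom Λ Q hΛ
  have hf2 : Finite (Γ →* Q) := finite_hom Γ Q hΓ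
  let ev : Λ →* ((Λ →* Q) → Q) :=
    { toFun := fun y k => k y
      map_one' := by funext k; exact map_one k
      map_mul' := fun a b => by funext k; exact map_mul k a b }
  let ev1 : Γ →* ((Γ →* Q) → Q) :=
    { toFun := fun y k => k y
      map_one' := by funext k; exact map_one k
      map_mul' := fun a b => by funext k; exact map_mul k a b }
  let ev2 : Γ →* G × ((Γ →* Q) → Q) := r.prod ev1
  obtain ⟨s1, hs1⟩ := (hq ev.range).1 ⟨ev.rangeRestrict, ev.rangeRestrict_surjective⟩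
  obtain ⟨s2, hs2⟩ := (hq ev2.range).2 ⟨ev2.rangeRestrict, ev2.rangeRestrict_surjective⟩
  let F : (Λ →* Q) → (Γ →* Q) := fun k =>
    (Pi.evalMonoidHom (fun _ : Λ →* Q => Q) k).comp (ev.range.subtype.comp s1)
  have hF : Function.Injective F := by
    intro k k' hk
    ext y
    obtain ⟨z, hz⟩ := hs1 ⟨ev y, ⟨y, rfl⟩⟩
    have h1 := congrArg (fun t : Γ →* Q => t z) hk
    have h2 : (s1 z).1 k = (s1 z).1 k' := h1
    rw [hz] at h2
    exact h2
  let F2 : (Γ →* Q) → (Λ →* Q) := fun k =>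
    (Pi.evalMonoidHom (fun _ : Γ →* Q => Q) k).comp
      ((MonoidHom.snd G ((Γ →* Q) → Q)).comp (ev2.range.subtype.comp s2))
  have hF2 : Function.Injective F2 := by
    intro k k' hk
    ext y
    obtain ⟨z, hz⟩ := hs2 ⟨ev2 y, ⟨y, rfl⟩⟩
    have h1 := congrArg (fun t : Λ →* Q => t z) hk
    have h2 : (s2 z).1.2 k = (s2 z).1.2 k' := h1
    rw [hz] at h2
    exact h2
  have hsurj : Function.Surjective (F2 ∘ F) := Finite.surjective_of_injective (hF2.comp hF)
  obtain ⟨k, hk⟩ := hsurj q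
  refine ⟨(MonoidHom.fst G ((Γ →* Q) → Q)).comp (ev2.range.subtype.comp s2), F k, fun x => ?_⟩
  obtain ⟨y, hy⟩ := (s2 x).2
  refine ⟨y, ?_, ?_⟩
  · show (s2 x).1.1 = r y
    rw [← hy]
    rfl
  · rw [← hk]
    show (s2 x).1.2 (F k) = F k y
    rw [← hy]
    rfl

section lim

variable (p : ℕ) [hp : Fact p.Prime]

/-- Reduction modulo powers of `p`. -/
lemma Th_ev' (a : ∀ k : ℕ, ZMod (p ^ k)) (c : ℤ) (h : Th p a = c) (j : ℕ) :
    ∀ᶠ k in (hyperfilter ℕ : Filter ℕ), ∀ hk : j ≤ k,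
      ZMod.castHom (pow_dvd_pow p hk) (ZMod (p ^ j)) (a k) = c := by
  have h1 : Tendsto (fun k => lf p a k - c) (hyperfilter ℕ : Filter ℕ) (𝓝 0) := by
    have h2 := (lm_tendsto p a).sub_const (c : ℤ_[p])
    have h3 : lm p a = c := h
    rw [h3, sub_self] at h2
    exact h2
  have hpos : (0 : ℝ) < (p : ℝ) ^ (-(j : ℤ)) := by
    have : (0 : ℝ) < p := by exact_mod_cast hp.1.pos
    positivity
  have h2 : ∀ᶠ k in (hyperfilter ℕ : Filter ℕ), ‖lf p a k - c‖ < (p : ℝ) ^ (-(j : ℤ)) := by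
    have := (tendsto_zero_iff_norm_tendsto_zero.1 h1).eventually (gt_mem_nhds hpos)
    exact this
  filter_upwards [h2] with k hk hk1
  have hk2 := (PadicInt.norm_le_pow_iff_mem_span_pow _ _).1 hk.le
  rw [← PadicInt.ker_toZModPow, RingHom.mem_ker, map_sub, sub_eq_zero, map_intCast] at hk2
  rw [← hk2, ← PadicInt.zmod_cast_comp_toZModPow j k hk1, RingHom.comp_apply, lf_to]

/-- The limit of representations modulo the powers of `p`. -/
noncomputable def Lim {Λ : Type} [Group Λ] {n : ℕ}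
    (σ : ∀ k : ℕ, Λ →* Matrix (Fin n) (Fin n) (ZMod (p ^ k))) :
    Λ →* Matrix (Fin n) (Fin n) ℤ_[p] :=
  (Th p).mapMatrix.toMonoidHom.comp
    { toFun := fun g => Matrix.of fun i j k => σ k g i j
      map_one' := by
        refine Matrix.ext fun i j => ?_
        funext k
        show (σ k 1) i j = _
        rw [map_one, Matrix.one_apply, Matrix.one_apply]
        split_ifs <;> rfl
      map_mul' := fun a b => by
        refine Matrix.ext fun i j => ?_
        funext k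
        show (σ k (a * b)) i j = _
        rw [map_mul, Matrix.mul_apply, Matrix.mul_apply, Finset.sum_apply]
        rfl }

lemma Lim_one {Λ : Type} [Group Λ] {n : ℕ}
    (σ : ∀ k : ℕ, Λ →* Matrix (Fin n) (Fin n) (ZMod (p ^ k))) {g : Λ} (h : Lim p σ g = 1) (j : ℕ) :
    ∀ᶠ k in (hyperfilter ℕ : Filter ℕ), ∀ hk : j ≤ k, ∀ a b : Fin n,
      ZMod.castHom (pow_dvd_pow p hk) (ZMod (p ^ j)) (σ k g a b) =
        ((if a = b then 1 else 0 : ℤ) : ZMod (p ^ j)) := by
  have h1 : ∀ᶠ k in (hyperfilter ℕ : Filter ℕ), ∀ a b : Fin n, ∀ hk : j ≤ k,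
      ZMod.castHom (pow_dvd_pow p hk) (ZMod (p ^ j)) (σ k g a b) =
        ((if a = b then 1 else 0 : ℤ) : ZMod (p ^ j)) := by
    rw [Filter.eventually_all]
    intro a
    rw [Filter.eventually_all]
    intro b
    apply Th_ev' p (fun k => σ k g a b)
    have h1 := congrArg (fun A : Matrix (Fin n) (Fin n) ℤ_[p] => A a b) h
    have h2 : Th p (fun k => σ k g a b) = (1 : Matrix (Fin n) (Fin n) ℤ_[p]) a b := h1
    rw [h2, Matrix.one_apply]
    split_ifs <;> simp
  filter_upwards [h1] with k hk hjk a b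
  exact hk a b hjk

end lim

lemma SL_fg (n : ℕ) : Group.FG (SpecialLinearGroup (Fin n) ℤ) := by
  have := SA_fg n
  exact Group.fg_of_surjective (pis_surj n)

/-- **Nontrivial values.** -/
theorem padic_ne {Λ : Type} [Group Λ] (hfg : Group.FG Λ) {n : ℕ} (hn : 3 ≤ n)
    (hRF : ∀ g : Λ, g ≠ 1 → ∃ H : Subgroup Λ, H.index ≠ 0 ∧ g ∉ H)
    (hq : ∀ (Q : Type) [Group Q] [Finite Q], (∃ f : Λ →* Q, Function.Surjective f) ↔
      (∃ f : SpecialLinearGroup (Fin n) ℤ →* Q, Function.Surjective f))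
    (x : Λ) (hx : x ≠ 1) :
    ∃ (p : ℕ) (_ : Fact p.Prime) (ρ : Λ →* Matrix (Fin n) (Fin n) ℤ_[p]), ρ x ≠ 1 := by
  classical
  obtain ⟨H, hH, hxH⟩ := hRF x hx
  have hHf : H.FiniteIndex := ⟨hH⟩
  have hNf : H.normalCore.FiniteIndex := inferInstance
  have hxN : x ∉ H.normalCore := fun h' => hxH (H.normalCore_le h')
  let Q := Λ ⧸ H.normalCore
  have : Finite Q := Subgroup.finite_quotient_of_finiteIndex
  let q : Λ →* Q := QuotientGroup.mk' H.normalCore
  have hqx : q x ≠ 1 := fun h => hxN ((QuotientGroup.eq_one_iff x).1 h)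
  obtain ⟨N, hN⟩ : ∃ N, N = Nat.card Q := ⟨_, rfl⟩
  have hN0 : N ≠ 0 := by rw [hN]; exact Nat.card_pos.ne'
  have hk : ∀ k : ℕ, ∃ (c : Λ →* SpecialLinearGroup (Fin n) (ZMod (N ^ k)))
      (φ : SpecialLinearGroup (Fin n) ℤ →* Q), ∀ x, ∃ y,
      c x = SpecialLinearGroup.map (Int.castRingHom (ZMod (N ^ k))) y ∧ q x = φ y := by
    intro k
    have : NeZero (N ^ k) := ⟨pow_ne_zero _ hN0⟩
    exact lift_pair hfg (SL_fg n) hq Q q _ _
  choose c φ hcφ using hk
  choose y hy1 hy2 using fun k => hcφ k x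
  by_contra hcon
  push Not at hcon
  have hpp : ∀ p j : ℕ, p.Prime → p ∣ N → ∀ᶠ k in (hyperfilter ℕ : Filter ℕ), j ≤ k →
      ∀ a b : Fin n, ((p ^ j : ℕ) : ℤ) ∣ (y k).1 a b - (1 : Matrix (Fin n) (Fin n) ℤ) a b := by
    intro p j hp hpN
    have : Fact p.Prime := ⟨hp⟩
    let σ : ∀ k : ℕ, Λ →* Matrix (Fin n) (Fin n) (ZMod (p ^ k)) := fun k =>
      { toFun := fun g => (c k g).1.map (ZMod.castHom (pow_dvd_pow_of_dvd hpN k) (ZMod (p ^ k)))
        map_one' := by
          rw [map_one]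
          exact (ZMod.castHom (pow_dvd_pow_of_dvd hpN k) (ZMod (p ^ k))).mapMatrix.map_one
        map_mul' := fun a b => by
          rw [map_mul]
          exact (ZMod.castHom (pow_dvd_pow_of_dvd hpN k) (ZMod (p ^ k))).mapMatrix.map_mul
            (c k a).1 (c k b).1 }
    filter_upwards [Lim_one p σ (hcon p this (Lim p σ)) j] with k hk hjk a b
    have h1 := hk hjk a b
    have h2 : σ k x a b = ZMod.castHom (pow_dvd_pow_of_dvd hpN k) (ZMod (p ^ k))
        ((((y k).1 a b : ℤ)) : ZMod (N ^ k)) := by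
      show ZMod.castHom (pow_dvd_pow_of_dvd hpN k) (ZMod (p ^ k)) ((c k x).1 a b) = _
      rw [hy1 k]
      rfl
    rw [h2, map_intCast, map_intCast] at h1
    have h3 : (((y k).1 a b - (1 : Matrix (Fin n) (Fin n) ℤ) a b : ℤ) : ZMod (p ^ j)) = 0 := by
      rw [Int.cast_sub, h1, Matrix.one_apply, sub_self]
    exact (ZMod.intCast_zmod_eq_zero_iff_dvd _ _).1 h3
  have hev : ∀ᶠ k in (hyperfilter ℕ : Filter ℕ), ∀ p ∈ Set.Iic N, ∀ j ∈ Set.Iic N, p.Prime →
      p ∣ N → j ≤ k →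
      ∀ a b : Fin n, ((p ^ j : ℕ) : ℤ) ∣ (y k).1 a b - (1 : Matrix (Fin n) (Fin n) ℤ) a b := by
    rw [Filter.eventually_all_finite (Set.finite_Iic N)]
    intro p _
    rw [Filter.eventually_all_finite (Set.finite_Iic N)]
    intro j _
    by_cases h : p.Prime ∧ p ∣ N
    · filter_upwards [hpp p j h.1 h.2] with k hk _ _
      exact hk
    · exact Filter.Eventually.of_forall fun k h1 h2 => absurd ⟨h1, h2⟩ h
  have hge : ∀ᶠ k in (hyperfilter ℕ : Filter ℕ), N ≤ k :=
    (Filter.eventually_ge_atTop N).filter_mono Nat.hyperfilter_le_atTop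
  obtain ⟨k, hk1, hk2⟩ := (hev.and hge).exists
  have hcgr : Cgr (N : ℤ) (y k) := by
    intro a b
    show (N : ℤ) ∣ (y k).1 a b - (1 : Matrix (Fin n) (Fin n) ℤ) a b
    rw [← Int.dvd_natAbs, Int.natCast_dvd_natCast, Nat.dvd_iff_prime_pow_dvd_dvd]
    intro p j hp hpj
    rcases Nat.eq_zero_or_pos j with hj | hj
    · rw [hj, pow_zero]; exact one_dvd _
    have hpN : p ∣ N := (dvd_pow_self p hj.ne').trans hpj
    have hNpos : 0 < N := Nat.pos_of_ne_zero hN0
    have hp1 : p ≤ N := Nat.le_of_dvd hNpos hpN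
    have hj1 : j ≤ N := ((Nat.lt_pow_self hp.one_lt).le).trans (Nat.le_of_dvd hNpos hpj)
    have h5 := hk1 p hp1 j hj1 hp hpN (hj1.trans hk2) a b
    rwa [← Int.dvd_natAbs, Int.natCast_dvd_natCast] at h5
  obtain ⟨n', rfl⟩ := Nat.exists_eq_add_of_le' hn
  have hEl := bls (M := (N : ℤ)) (by exact_mod_cast hN0) n' (y k) hcgr
  have hle : El (Fin (n' + 3)) (N : ℤ) ≤ (φ k).ker := by
    apply El_le
    intro i j hij
    rw [MonoidHom.mem_ker]
    have h6 := tv_mul_zpow i j hij 1 (N : ℤ)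
    rw [one_mul] at h6
    rw [h6, map_zpow, zpow_natCast, hN]
    exact pow_card_eq_one'
  have h7 := hle hEl
  rw [MonoidHom.mem_ker, ← hy2 k] at h7
  exact hqx h7

end Run7.h134.PE
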