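import Pool.Agent.Run7.h134.PF1
import Pool.Agent.Run7.h134.PF2

/-!
# The ring of coefficients of a group containing an image of `SAut (F_m)`
-/

set_option autoImplicit false
set_option linter.unusedSectionVars false

namespace Run7.h134.PE

open Module
open Pool.Agent.Helper460_PR Pool.Agent.Helper460_OutF Pool.Agent.Helper460_CSP

lemma T0_map {m : ℕ} {S C : Type} [Ring S] [Ring C] (g : S →+* C) (x : SA m) :
    (T0 m S x).map g = T0 m C x := by
  refine Matrix.ext fun i j => ?_
  show g (((mA x.1 i j : ℤ)) : S) = ((mA x.1 i j : ℤ) : C)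
  rw [map_intCast]

lemma T0_ρi {m : ℕ} {S : Type} [Ring S] {i j : Fin m} (h : i ≠ j) :
    T0 m S ((sys m).ρ i j)⁻¹ = 1 + Matrix.single j i (-1) := by
  have h3 : T0 m S ((sys m).ρ i j)⁻¹ * T0 m S ((sys m).ρ i j) = 1 := by
    rw [← map_mul, inv_mul_cancel, map_one]
  rw [T0_ρ h] at h3
  have h4 := congrArg (fun y => y * (1 + Matrix.single j i (-1 : S))) h3
  simp only [mul_assoc, one_mul] at h4
  rw [el_mul h.symm, add_neg_cancel, Matrix.single_zero, add_zero, mul_one] at h4
  exact h4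

lemma tr3 {m : ℕ} {S : Type} [CommRing S] {a b c : Fin m} (h1 : a ≠ b) (h2 : b ≠ c) (h3 : a ≠ c) :
    (((1 : Matrix (Fin m) (Fin m) S) + Matrix.single a b 1) * (1 + Matrix.single b c 1) *
      (1 + Matrix.single c a 1)).trace = (m : S) + 1 := by
  simp only [mul_add, add_mul, mul_one, one_mul, Matrix.single_mul_single_same]
  rw [Matrix.single_mul_single_of_ne _ _ _ _ h2]
  simp only [Matrix.trace_add, Matrix.trace_one, Fintype.card_fin, Matrix.trace_single_eq_same,
    Matrix.trace_single_eq_of_ne _ _ _ h1, Matrix.trace_single_eq_of_ne _ _ _ h2,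
    Matrix.trace_single_eq_of_ne _ _ _ h3, Matrix.trace_single_eq_of_ne _ _ _ h3.symm,
    Matrix.trace_single_eq_of_ne _ _ _ h1.symm, Matrix.trace_zero]
  ring

lemma tr3' {m : ℕ} {S : Type} [CommRing S] {a b c : Fin m} (h1 : a ≠ b) (h2 : b ≠ c) (h3 : a ≠ c) :
    (((1 : Matrix (Fin m) (Fin m) S) + Matrix.single c a (-1)) * (1 + Matrix.single b c (-1)) *
      (1 + Matrix.single a b (-1))).trace = (m : S) := by
  simp only [mul_add, add_mul, mul_one, one_mul, Matrix.single_mul_single_same]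
  rw [Matrix.single_mul_single_of_ne _ _ _ _ h1, Matrix.single_mul_single_of_ne _ _ _ _ h3.symm]
  simp only [Matrix.trace_add, Matrix.trace_one, Fintype.card_fin, Matrix.trace_single_eq_same,
    Matrix.trace_single_eq_of_ne _ _ _ h1, Matrix.trace_single_eq_of_ne _ _ _ h2,
    Matrix.trace_single_eq_of_ne _ _ _ h3, Matrix.trace_single_eq_of_ne _ _ _ h3.symm,
    Matrix.trace_single_eq_of_ne _ _ _ h1.symm, Matrix.trace_single_eq_of_ne _ _ _ h2.symm,
    Matrix.trace_zero, zero_mul]
  ring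

/-- An element whose trace differs from the trace of the inverse. -/
lemma exists_asym {m : ℕ} (hm : 5 ≤ m) : ∃ g : SA m, ∀ (S : Type) [CommRing S],
    (T0 m S g).trace = (m : S) + 1 ∧ (T0 m S g⁻¹).trace = (m : S) := by
  let a : Fin m := ⟨0, by omega⟩
  let b : Fin m := ⟨1, by omega⟩
  let c : Fin m := ⟨2, by omega⟩
  have h1 : a ≠ b := by
    intro h; exact absurd (congrArg Fin.val h) (by norm_num [a, b])
  have h2 : b ≠ c := by
    intro h; exact absurd (congrArg Fin.val h) (by norm_num [b, c])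
  have h3 : a ≠ c := by
    intro h; exact absurd (congrArg Fin.val h) (by norm_num [a, c])
  refine ⟨(sys m).ρ b a * (sys m).ρ c b * (sys m).ρ a c, fun S _ => ⟨?_, ?_⟩⟩
  · rw [map_mul, map_mul, T0_ρ h1.symm, T0_ρ h2.symm, T0_ρ h3]
    exact tr3 h1 h2 h3
  · rw [mul_inv_rev, mul_inv_rev, map_mul, map_mul, T0_ρi h1.symm, T0_ρi h2.symm, T0_ρi h3,
      ← mul_assoc]
    exact tr3' h1 h2 h3

section entries

variable {m : ℕ} {Λ : Type} [Group Λ] (f : SA m →* Λ)

lemma entry_ne {C : Type} [CommRing C] (N : Λ →* Matrix (Fin m) (Fin m) C)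
    (hN : ∀ g, N (f g) = T0 m C g) {i j : Fin m} (h : i ≠ j) (x : Λ) :
    N x i j = (N (f ((sys m).ρ i j) * x)).trace - (N x).trace := by
  rw [map_mul, hN, T0_ρ h, add_mul, one_mul, Matrix.trace_add, Matrix.trace_single_mul, one_smul,
    add_sub_cancel_left]

lemma entry_eq {C : Type} [CommRing C] (N : Λ →* Matrix (Fin m) (Fin m) C)
    (hN : ∀ g, N (f g) = T0 m C g) {i k : Fin m} (h : k ≠ i) (x : Λ) :
    N x i i = (N (f ((sys m).ρ k i) * (f ((sys m).ρ i k) * x))).trace
      - (N (f ((sys m).ρ k i) * x)).trace - (N (f ((sys m).ρ i k) * x)).trace + (N x).trace := by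
  have e1 : (Matrix.single i k (1 : C) * Matrix.single k i 1 : Matrix (Fin m) (Fin m) C) =
      Matrix.single i i 1 := by
    rw [Matrix.single_mul_single_same, mul_one]
  have e2 : (N (f ((sys m).ρ k i) * (f ((sys m).ρ i k) * x))).trace =
      (N x).trace + N x i k + N x k i + N x i i := by
    rw [map_mul, map_mul, hN, hN, T0_ρ h, T0_ρ h.symm]
    simp only [add_mul, mul_add, one_mul, ← mul_assoc, e1]
    simp only [Matrix.trace_add, Matrix.trace_single_mul, one_smul]
    ring
  have e3 : (N (f ((sys m).ρ k i) * x)).trace = (N x).trace + N x k i := by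
    rw [entry_ne f N hN h]; ring
  have e4 : (N (f ((sys m).ρ i k) * x)).trace = (N x).trace + N x i k := by
    rw [entry_ne f N hN h.symm]; ring
  rw [e2, e3, e4]
  ring

lemma exists_other (hm : 5 ≤ m) (i : Fin m) : ∃ k : Fin m, k ≠ i := by
  obtain ⟨e, he, -⟩ := Stb.exists_ne4 hm i i i i
  exact ⟨e, he⟩

/-- A homomorphism is determined by its traces. -/
lemma eq_of_tr (hm : 5 ≤ m) {C : Type} [CommRing C] (N1 N2 : Λ →* Matrix (Fin m) (Fin m) C)
    (h1 : ∀ g, N1 (f g) = T0 m C g) (h2 : ∀ g, N2 (f g) = T0 m C g)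
    (h : ∀ x, (N1 x).trace = (N2 x).trace) (x : Λ) : N1 x = N2 x := by
  refine Matrix.ext fun i j => ?_
  by_cases hij : i = j
  · subst hij
    obtain ⟨k, hk⟩ := exists_other hm i
    rw [entry_eq f N1 h1 hk, entry_eq f N2 h2 hk, h, h, h, h]
  · rw [entry_ne f N1 h1 hij, entry_ne f N2 h2 hij, h, h]

/-- A homomorphism with integral traces is integral. -/
lemma integral (hm : 5 ≤ m) {A B : Type} [CommRing A] [CommRing B] (co : A →+* B)
    (hco : Function.Injective co) (N : Λ →* Matrix (Fin m) (Fin m) B)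
    (hN : ∀ g, N (f g) = T0 m B g) (htr : ∀ x, ∃ z, co z = (N x).trace) :
    ∃ M : Λ →* Matrix (Fin m) (Fin m) A, (∀ x, (M x).map co = N x) ∧
      ∀ g, M (f g) = T0 m A g := by
  choose t ht using htr
  have hent : ∀ x i j, ∃ z, co z = N x i j := by
    intro x i j
    by_cases hij : i = j
    · subst hij
      obtain ⟨k, hk⟩ := exists_other hm i
      rw [entry_eq f N hN hk]
      refine ⟨t (f ((sys m).ρ k i) * (f ((sys m).ρ i k) * x)) - t (f ((sys m).ρ k i) * x)
        - t (f ((sys m).ρ i k) * x) + t x, ?_⟩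
      rw [map_add, map_sub, map_sub, ht, ht, ht, ht]
    · rw [entry_ne f N hN hij]
      exact ⟨t (f ((sys m).ρ i j) * x) - t x, by rw [map_sub, ht, ht]⟩
  choose e he using hent
  have hmap : Function.Injective fun X : Matrix (Fin m) (Fin m) A => X.map co := by
    intro X Y h
    refine Matrix.ext fun i j => hco ?_
    exact congrArg (fun Z : Matrix (Fin m) (Fin m) B => Z i j) h
  have hN' : ∀ x, (Matrix.of (e x)).map co = N x := fun x => Matrix.ext fun i j => he x i j
  let M : Λ →* Matrix (Fin m) (Fin m) A :=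
    { toFun := fun x => Matrix.of (e x)
      map_one' := hmap (by
        show (Matrix.of (e 1)).map co = (1 : Matrix (Fin m) (Fin m) A).map co
        rw [hN', map_one]
        exact (co.mapMatrix.map_one).symm)
      map_mul' := fun x y => hmap (by
        show (Matrix.of (e (x * y))).map co = (Matrix.of (e x) * Matrix.of (e y)).map co
        rw [hN', map_mul, ← hN' x, ← hN' y]
        exact (co.mapMatrix.map_mul _ _).symm) }
  refine ⟨M, hN', fun g => hmap ?_⟩
  show (Matrix.of (e (f g))).map co = (T0 m A g).map co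
  rw [hN', hN, T0_map]

/-- **The integral standard form.** -/
theorem stdform {n : ℕ} (hm : 5 ≤ m) (hnm : n ≤ m) (p : ℕ) [hp : Fact p.Prime]
    (ρ : Λ →* Matrix (Fin n) (Fin n) ℤ_[p]) (hρ : ∃ g, ρ (f g) ≠ 1) :
    n = m ∧ ∃ M : Λ →* Matrix (Fin m) (Fin m) ℤ_[p], ∀ g, M (f g) = T0 m ℤ_[p] g := by
  let co : ℤ_[p] →+* ℚ_[p] := PadicInt.Coe.ringHom
  have hco : Function.Injective co := Subtype.val_injective
  let b := Pi.basisFun ℚ_[p] (Fin n)
  let Ψ0 : Λ →* End ℚ_[p] (Fin n → ℚ_[p]) :=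
    ((MonoidHomClass.toMonoidHom (Matrix.toLinAlgEquiv b)).comp
      (co.mapMatrix (m := Fin n)).toMonoidHom).comp ρ
  have hΨ : ∀ x, Ψ0 x = Matrix.toLinAlgEquiv b ((ρ x).map co) := fun x => rfl
  have htr : ∀ x, LinearMap.trace ℚ_[p] (Fin n → ℚ_[p]) (Ψ0 x) = co (ρ x).trace := by
    intro x
    rw [hΨ, trace_lin b]
    exact tr_map co (ρ x)
  have hfr : finrank ℚ_[p] (Fin n → ℚ_[p]) = n := by
    rw [Module.finrank_fintype_fun_eq_card, Fintype.card_fin]
  rcases repSA (Ψ0.comp f) (by norm_num) hm (by rw [hfr]; exact hnm) with h | ⟨h1, u, h⟩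
  · exfalso
    obtain ⟨g, hg⟩ := hρ
    apply hg
    have h3 : Matrix.toLinAlgEquiv b ((ρ (f g)).map co) = Matrix.toLinAlgEquiv b 1 := by
      rw [map_one]; exact h g
    have h4 := (Matrix.toLinAlgEquiv b).injective h3
    refine Matrix.ext fun i j => ?_
    have h5 := congrArg (fun A : Matrix (Fin n) (Fin n) ℚ_[p] => A i j) h4
    have h6 : co (ρ (f g) i j) = (1 : Matrix (Fin n) (Fin n) ℚ_[p]) i j := h5
    apply hco
    rw [h6, Matrix.one_apply, Matrix.one_apply]
    split_ifs <;> simp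
  · refine ⟨hfr.symm.trans h1, ?_⟩
    have key : ∃ N : Λ →* Matrix (Fin m) (Fin m) ℚ_[p], (∀ g, N (f g) = T0 m ℚ_[p] g) ∧
        ∀ x, ∃ z, co z = (N x).trace := by
      rcases h with h | h
      · refine ⟨(MonoidHomClass.toMonoidHom (Matrix.toLinAlgEquiv u).symm).comp Ψ0, fun g => ?_,
          fun x => ⟨(ρ x).trace, ?_⟩⟩
        · show (Matrix.toLinAlgEquiv u).symm (Ψ0 (f g)) = _
          have := h g
          rw [MonoidHom.comp_apply] at this
          rw [this, AlgEquiv.symm_apply_apply]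
        · rw [← htr]
          show _ = ((Matrix.toLinAlgEquiv u).symm (Ψ0 x)).trace
          rw [← trace_lin u, AlgEquiv.apply_symm_apply]
      · let N : Λ →* Matrix (Fin m) (Fin m) ℚ_[p] :=
          { toFun := fun x => ((Matrix.toLinAlgEquiv u).symm (Ψ0 x⁻¹)).transpose
            map_one' := by rw [inv_one, map_one, map_one, Matrix.transpose_one]
            map_mul' := fun x y => by
              rw [mul_inv_rev, map_mul, map_mul, Matrix.transpose_mul] }
        refine ⟨N, fun g => ?_, fun x => ⟨(ρ x⁻¹).trace, ?_⟩⟩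
        · show ((Matrix.toLinAlgEquiv u).symm (Ψ0 (f g)⁻¹)).transpose = _
          have := h g⁻¹
          rw [MonoidHom.comp_apply, map_inv] at this
          rw [this, AlgEquiv.symm_apply_apply]
          show ((T0 m ℚ_[p] g⁻¹⁻¹).transpose).transpose = _
          rw [Matrix.transpose_transpose, inv_inv]
        · rw [← htr]
          show _ = (((Matrix.toLinAlgEquiv u).symm (Ψ0 x⁻¹)).transpose).trace
          rw [Matrix.trace_transpose, ← trace_lin u, AlgEquiv.apply_symm_apply]
    obtain ⟨N, hN1, hN2⟩ := key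
    obtain ⟨M, -, hM⟩ := integral f hm co hco N hN1 hN2
    exact ⟨M, hM⟩

end entries

end Run7.h134.PE
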