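import Pool.Agent.Run7.h134.PF3
import Pool.Agent.Run7.h134.PE8

/-!
# Groups with the finite quotients of `SL (n, ℤ)` which contain an image of `SAut (F_m)`
-/

set_option autoImplicit false
set_option linter.unusedSectionVars false

namespace Run7.h134.PE

open Module
open Pool.Agent.Helper460_PR Pool.Agent.Helper460_OutF Pool.Agent.Helper460_CSP

/-- The ring generated by the coefficients. -/
lemma exists_ring {m : ℕ} {B : Type} [CommRing B] {Λ : Type} [Group Λ] (hfg : Group.FG Λ)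
    (M : Λ →* Matrix (Fin m) (Fin m) B) :
    ∃ S : Subring B, Algebra.FiniteType ℤ S ∧ ∃ M' : Λ →* Matrix (Fin m) (Fin m) S,
      (∀ x i j, (M' x i j : B) = M x i j) ∧
      ∀ (C : Type) [CommRing C] (g1 g2 : S →+* C),
        (∀ x i j, g1 (M' x i j) = g2 (M' x i j)) → g1 = g2 := by
  obtain ⟨T, hT, hfin⟩ := Group.fg_iff.1 hfg
  let E : Set B := (fun x : Λ × Fin m × Fin m => M x.1 x.2.1 x.2.2) '' (T ×ˢ Set.univ) ∪
    (fun x : Λ × Fin m × Fin m => M x.1⁻¹ x.2.1 x.2.2) '' (T ×ˢ Set.univ)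
  have hE : E.Finite := ((hfin.prod Set.finite_univ).image _).union
    ((hfin.prod Set.finite_univ).image _)
  let S := Subring.closure E
  have key : ∀ g, (∀ i j, M g i j ∈ S) ∧ (∀ i j, M g⁻¹ i j ∈ S) := by
    intro g
    have hg : g ∈ Subgroup.closure T := by rw [hT]; trivial
    have hmul : ∀ a b : Λ, (∀ i j, M a i j ∈ S) → (∀ i j, M b i j ∈ S) →
        ∀ i j, M (a * b) i j ∈ S := by
      intro a b ha hb i j
      rw [map_mul, Matrix.mul_apply]
      exact sum_mem fun k _ => mul_mem (ha i k) (hb k j)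
    induction hg using Subgroup.closure_induction with
    | mem x hx =>
      exact ⟨fun i j => Subring.subset_closure (Or.inl ⟨(x, i, j), ⟨hx, trivial⟩, rfl⟩),
        fun i j => Subring.subset_closure (Or.inr ⟨(x, i, j), ⟨hx, trivial⟩, rfl⟩)⟩
    | one =>
      have h1 : ∀ i j, M 1 i j ∈ S := by
        intro i j
        rw [map_one, Matrix.one_apply]
        split_ifs
        · exact one_mem _
        · exact zero_mem _
      refine ⟨h1, ?_⟩
      rw [inv_one]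
      exact h1
    | mul a b _ _ ha hb =>
      refine ⟨hmul a b ha.1 hb.1, ?_⟩
      rw [mul_inv_rev]
      exact hmul _ _ hb.2 ha.2
    | inv a _ ha =>
      refine ⟨ha.2, ?_⟩
      rw [inv_inv]
      exact ha.1
  let M' : Λ →* Matrix (Fin m) (Fin m) S :=
    { toFun := fun x => Matrix.of fun i j => ⟨M x i j, (key x).1 i j⟩
      map_one' := by
        refine Matrix.ext fun i j => Subtype.ext ?_
        show M 1 i j = ((1 : Matrix (Fin m) (Fin m) S) i j : B)
        rw [map_one, Matrix.one_apply, Matrix.one_apply]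
        split_ifs <;> rfl
      map_mul' := fun x y => by
        refine Matrix.ext fun i j => Subtype.ext ?_
        show M (x * y) i j = S.subtype (∑ k, (⟨M x i k, (key x).1 i k⟩ : S) *
          (⟨M y k j, (key y).1 k j⟩ : S))
        rw [map_mul, Matrix.mul_apply, map_sum]
        rfl }
  refine ⟨S, ?_, M', fun _ _ _ => rfl, ?_⟩
  · let E' : Set S := Subtype.val ⁻¹' E
    have hE' : E'.Finite := hE.preimage Subtype.val_injective.injOn
    have htop : Algebra.adjoin ℤ E' = ⊤ := by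
      rw [eq_top_iff]
      rintro ⟨b, hb⟩ -
      induction hb using Subring.closure_induction with
      | mem x hx => exact Algebra.subset_adjoin hx
      | zero => exact zero_mem _
      | one => exact one_mem _
      | add x y hx hy h1 h2 => exact add_mem h1 h2
      | neg x hx h1 => exact neg_mem h1
      | mul x y hx hy h1 h2 => exact mul_mem h1 h2
    exact ⟨Subalgebra.fg_def.2 ⟨E', hE', htop⟩⟩
  · intro C _ g1 g2 h
    refine RingHom.ext ?_
    rintro ⟨b, hb⟩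
    induction hb using Subring.closure_induction with
    | mem x hx =>
      rcases hx with ⟨⟨t, i, j⟩, -, rfl⟩ | ⟨⟨t, i, j⟩, -, rfl⟩
      · exact h t i j
      · exact h t⁻¹ i j
    | zero => exact (map_zero g1).trans (map_zero g2).symm
    | one => exact (map_one g1).trans (map_one g2).symm
    | add x y hx hy h1 h2 =>
      have e : (⟨x + y, add_mem hx hy⟩ : S) = ⟨x, hx⟩ + ⟨y, hy⟩ := rfl
      rw [e, map_add, map_add, h1, h2]
    | neg x hx h1 =>
      have e : (⟨-x, neg_mem hx⟩ : S) = -⟨x, hx⟩ := rfl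
      rw [e, map_neg, map_neg, h1]
    | mul x y hx hy h1 h2 =>
      have e : (⟨x * y, mul_mem hx hy⟩ : S) = ⟨x, hx⟩ * ⟨y, hy⟩ := rfl
      rw [e, map_mul, map_mul, h1, h2]

/-- Composition with a homomorphism of the coefficients. -/
def Mg {m : ℕ} {S C : Type} [CommRing S] [CommRing C] {Λ : Type} [Group Λ] (g : S →+* C)
    (M : Λ →* Matrix (Fin m) (Fin m) S) : Λ →* Matrix (Fin m) (Fin m) C :=
  (g.mapMatrix (m := Fin m)).toMonoidHom.comp M

lemma Mg_apply {m : ℕ} {S C : Type} [CommRing S] [CommRing C] {Λ : Type} [Group Λ] (g : S →+* C)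
    (M : Λ →* Matrix (Fin m) (Fin m) S) (x : Λ) : Mg g M x = (M x).map g := rfl

lemma T0_ne_one {m : ℕ} (hm : 5 ≤ m) : ∃ g : SA m, ∀ (S : Type) [CommRing S] [Nontrivial S],
    T0 m S g ≠ 1 := by
  obtain ⟨g, hg⟩ := exists_asym hm
  refine ⟨g, fun S _ _ h => ?_⟩
  have h1 := (hg S).1
  rw [h, Matrix.trace_one, Fintype.card_fin] at h1
  exact one_ne_zero (left_eq_add.1 h1)

/-- Homomorphisms of the ring of coefficients to finite fields. -/
theorem uqF {m : ℕ} {S : Type} [CommRing S] {Λ : Type} [Group Λ] (hm : 5 ≤ m)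
    (hq : ∀ (Q : Type) [Group Q] [Finite Q], (∃ f : Λ →* Q, Function.Surjective f) ↔
      (∃ f : Matrix.SpecialLinearGroup (Fin m) ℤ →* Q, Function.Surjective f))
    (f : SA m →* Λ) (M : Λ →* Matrix (Fin m) (Fin m) S) (hM : ∀ g, M (f g) = T0 m S g)
    (hgen : ∀ (C : Type) [CommRing C] (g1 g2 : S →+* C),
        (∀ x i j, g1 (M x i j) = g2 (M x i j)) → g1 = g2) : Uq S := by
  intro L _ _ h2 g1 g2
  have hN : ∀ (g : S →+* L) (y : SA m), Mg g M (f y) = T0 m L y := by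
    intro g y
    rw [Mg_apply, hM, T0_map]
  obtain ⟨y0, hy0⟩ := T0_ne_one hm
  rcases compare hm hq L h2 (Mg g1 M) (Mg g2 M)
    ⟨f y0, by rw [hN]; exact hy0 L⟩ ⟨f y0, by rw [hN]; exact hy0 L⟩ with h | h
  · apply hgen
    intro x i j
    have h3 := eq_of_tr f hm (Mg g1 M) (Mg g2 M) (hN g1) (hN g2) h x
    exact congrArg (fun A : Matrix (Fin m) (Fin m) L => A i j) h3
  · exfalso
    obtain ⟨y, hy⟩ := exists_asym hm
    have h3 := h (f y)
    rw [← map_inv, hN, hN, (hy L).1, (hy L).2] at h3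
    exact one_ne_zero (add_eq_left.1 h3)

/-- Two homomorphisms to a common finite field. -/
lemma two_homs {S1 S2 Ω : Type} [CommRing S1] [CommRing S2] [Field Ω]
    [h1 : Algebra.FiniteType ℤ S1] [h2 : Algebra.FiniteType ℤ S2] (h0 : (2 : Ω) ≠ 0)
    (c1 : S1 →+* Ω) (c2 : S2 →+* Ω) (a : S1) (ha : c1 a ≠ 0) :
    ∃ (L : Type) (_ : Field L) (_ : Finite L) (g1 : S1 →+* L) (_ : S2 →+* L),
      (2 : L) ≠ 0 ∧ g1 a ≠ 0 := by
  obtain ⟨s1, hs1⟩ := h1.out
  obtain ⟨s2, hs2⟩ := h2.out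
  let T : Set Ω := c1 '' s1 ∪ c2 '' s2 ∪ {(c1 a)⁻¹, (2 : Ω)⁻¹}
  have hTf : T.Finite :=
    ((s1.finite_toSet.image _).union (s2.finite_toSet.image _)).union (by simp)
  let B := Algebra.adjoin ℤ T
  have hft' : Algebra.FiniteType ℤ B := by
    rw [← Subalgebra.fg_iff_finiteType]
    exact Subalgebra.fg_def.2 ⟨T, hTf, rfl⟩
  have m1 : ∀ x, c1 x ∈ B.toSubring := mem_of_gens (s1 : Set S1) hs1 B.toSubring c1
    fun x hx => Algebra.subset_adjoin (Or.inl (Or.inl ⟨x, hx, rfl⟩))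
  have m2 : ∀ x, c2 x ∈ B.toSubring := mem_of_gens (s2 : Set S2) hs2 B.toSubring c2
    fun x hx => Algebra.subset_adjoin (Or.inl (Or.inr ⟨x, hx, rfl⟩))
  let k1 : S1 →+* B := c1.codRestrict B.toSubring m1
  let k2 : S2 →+* B := c2.codRestrict B.toSubring m2
  obtain ⟨L, _, _, ⟨f⟩⟩ := exists_res B
  let d : B := ⟨(c1 a)⁻¹, Algebra.subset_adjoin (Or.inr (Or.inl rfl))⟩
  let e : B := ⟨(2 : Ω)⁻¹, Algebra.subset_adjoin (Or.inr (Or.inr rfl))⟩
  have hd : k1 a * d = 1 := by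
    apply Subtype.ext
    show c1 a * (c1 a)⁻¹ = 1
    exact mul_inv_cancel₀ ha
  have he : (2 : B) * e = 1 := by
    apply Subtype.ext
    show (2 : Ω) * (2 : Ω)⁻¹ = 1
    exact mul_inv_cancel₀ h0
  refine ⟨L, inferInstance, inferInstance, f.comp k1, f.comp k2, ?_, ?_⟩
  · intro h
    have h3 := congrArg f he
    rw [map_mul, map_ofNat, h, zero_mul, map_one] at h3
    exact zero_ne_one h3
  · intro h
    have h3 := congrArg f hd
    have h4 : f (k1 a) = 0 := h
    rw [map_mul, h4, zero_mul, map_one] at h3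
    exact zero_ne_one h3

/-- **All representations are nontrivial on the image of `SAut (F_m)`.** -/
theorem nontriv {m : ℕ} {Λ : Type} [Group Λ] (hm : 5 ≤ m) (hfg : Group.FG Λ)
    (hq : ∀ (Q : Type) [Group Q] [Finite Q], (∃ f : Λ →* Q, Function.Surjective f) ↔
      (∃ f : Matrix.SpecialLinearGroup (Fin m) ℤ →* Q, Function.Surjective f))
    (f : SA m →* Λ) (p : ℕ) [hp : Fact p.Prime] (M : Λ →* Matrix (Fin m) (Fin m) ℤ_[p])
    (hM : ∀ g, M (f g) = T0 m ℤ_[p] g) (l : ℕ) [hl : Fact l.Prime]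
    (ρ : Λ →* Matrix (Fin m) (Fin m) ℤ_[l]) (hρ : ∃ x, ρ x ≠ 1) : ∃ g, ρ (f g) ≠ 1 := by
  by_contra hcon
  push Not at hcon
  obtain ⟨S1, hft1, M1, hM1, -⟩ := exists_ring hfg ρ
  obtain ⟨S2, hft2, M2, hM2, hgen2⟩ := exists_ring hfg M
  have hM1f : ∀ g, M1 (f g) = 1 := by
    intro g
    refine Matrix.ext fun i j => Subtype.ext ?_
    rw [hM1, hcon, Matrix.one_apply, Matrix.one_apply]
    split_ifs <;> rfl
  have hM2f : ∀ g, M2 (f g) = T0 m S2 g := by
    intro g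
    refine Matrix.ext fun i j => Subtype.ext ?_
    rw [hM2, hM]
    show ((mA g.1 i j : ℤ) : ℤ_[p]) = (((mA g.1 i j : ℤ) : S2) : ℤ_[p])
    simp
  have hU2 : Uq S2 := uqF hm hq f M2 hM2f hgen2
  obtain ⟨κ, -⟩ := hU2.rat ((PadicInt.Coe.ringHom (p := p)).comp S2.subtype) 1
    (by rw [map_one]; exact one_ne_zero)
  obtain ⟨x0, hx0⟩ := hρ
  obtain ⟨i, j, hij⟩ : ∃ i j, ρ x0 i j ≠ (1 : Matrix (Fin m) (Fin m) ℤ_[l]) i j := by
    by_contra h
    push Not at h
    exact hx0 (Matrix.ext h)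
  let a : S1 := M1 x0 i j - (1 : Matrix (Fin m) (Fin m) S1) i j
  have haval : ((a : S1) : ℤ_[l]) = ρ x0 i j - (1 : Matrix (Fin m) (Fin m) ℤ_[l]) i j := by
    show ((M1 x0 i j : S1) : ℤ_[l]) - (((1 : Matrix (Fin m) (Fin m) S1) i j : S1) : ℤ_[l]) = _
    rw [hM1, Matrix.one_apply, Matrix.one_apply]
    split_ifs <;> rfl
  let c1 : S1 →+* ℚ_[l] := (PadicInt.Coe.ringHom (p := l)).comp S1.subtype
  let c2 : S2 →+* ℚ_[l] := (Rat.castHom ℚ_[l]).comp κ
  have hc1a : c1 a ≠ 0 := by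
    intro h
    have h3 : ((a : ℤ_[l]) : ℚ_[l]) = 0 := h
    have h4 : (a : ℤ_[l]) = 0 := Subtype.ext h3
    rw [haval, sub_eq_zero] at h4
    exact hij h4
  obtain ⟨L, _, _, g1, g2, h2, hga⟩ := two_homs (by norm_num) c1 c2 a hc1a
  have hN2 : ∀ y : SA m, Mg g2 M2 (f y) = T0 m L y := by
    intro y
    rw [Mg_apply, hM2f, T0_map]
  have hN1 : ∀ y : SA m, Mg g1 M1 (f y) = 1 := by
    intro y
    rw [Mg_apply, hM1f]
    exact map_one' g1
  obtain ⟨y0, hy0⟩ := T0_ne_one hm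
  obtain ⟨y, hy⟩ := exists_asym hm
  have hn1 : Mg g1 M1 x0 ≠ 1 := by
    intro h
    have h3 := congrArg (fun A : Matrix (Fin m) (Fin m) L => A i j) h
    have h4 : g1 (M1 x0 i j) = (1 : Matrix (Fin m) (Fin m) L) i j := h3
    apply hga
    show g1 (M1 x0 i j - (1 : Matrix (Fin m) (Fin m) S1) i j) = 0
    rw [map_sub, h4, Matrix.one_apply, Matrix.one_apply]
    split_ifs <;> simp
  rcases compare hm hq L h2 (Mg g1 M1) (Mg g2 M2) ⟨x0, hn1⟩
    ⟨f y0, by rw [hN2]; exact hy0 L⟩ with h | h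
  · have h3 := h (f y)
    rw [hN1, hN2, (hy L).1, Matrix.trace_one, Fintype.card_fin] at h3
    exact one_ne_zero (left_eq_add.1 h3)
  · have h3 := h (f y⁻¹)
    rw [← map_inv, inv_inv, hN1, hN2, (hy L).1, Matrix.trace_one, Fintype.card_fin] at h3
    exact one_ne_zero (left_eq_add.1 h3)

lemma abelian_triv {m : ℕ} (hm : 5 ≤ m) (A : Type) [CommGroup A]
    (s : Matrix.SpecialLinearGroup (Fin m) ℤ →* A) (x : Matrix.SpecialLinearGroup (Fin m) ℤ) :
    s x = 1 := by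
  have h : s.comp (io m) = 1 := by
    apply hom_ext
    intro i j hij r
    obtain ⟨k, hk1, hk2, -, -⟩ := Stb.exists_ne4 hm i j j j
    have h1 := congrArg (s.comp (io m)) ((sE m ℤ).mul i k j hk1.symm hk2 hij r 1)
    rw [mul_one] at h1
    simp only [map_mul] at h1
    have h2 : (s.comp (io m)) ((sE m ℤ).x i j r) = 1 := by
      have h3 := h1.symm
      rw [mul_comm ((s.comp (io m)) ((sE m ℤ).x i k r)), mul_assoc, mul_eq_right] at h3
      exact h3
    exact h2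
  obtain ⟨y, rfl⟩ := io_surj m x
  exact congrArg (fun t : EE m ℤ →* A => t y) h

/-- **Main theorem.** -/
theorem mainF {n m : ℕ} (hn : 3 ≤ n) (hm : 5 ≤ m) (hnm : n ≤ m)
    (Λ : Type) [Group Λ] (hfg : Group.FG Λ)
    (hRF : ∀ g : Λ, g ≠ 1 → ∃ H : Subgroup Λ, H.index ≠ 0 ∧ g ∉ H)
    (hq : ∀ (Q : Type) [Group Q] [Finite Q], (∃ f : Λ →* Q, Function.Surjective f) ↔
      (∃ f : Matrix.SpecialLinearGroup (Fin n) ℤ →* Q, Function.Surjective f))
    (f : SA m →* Λ) (hf : ∃ g, f g ≠ 1) :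
    m = n ∧ Nonempty (Λ ≃* Matrix.SpecialLinearGroup (Fin n) ℤ) ∧ Function.Surjective f := by
  obtain ⟨g0, hg0⟩ := hf
  obtain ⟨p0, hp0, ρ0, hρ0⟩ := padic_ne hfg hn hRF hq (f g0) hg0
  obtain ⟨hnm', M0, hM0⟩ := stdform f hm hnm p0 ρ0 ⟨g0, hρ0⟩
  subst hnm'
  have key : ∀ p : ℕ, ∀ _ : Fact p.Prime,
      ∃ M : Λ →* Matrix (Fin n) (Fin n) ℤ_[p], ∀ g, M (f g) = T0 n ℤ_[p] g := by
    intro p hp
    obtain ⟨ρ, hρ⟩ := padic hfg hn hq p
    exact (stdform f hm hnm p ρ (nontriv hm hfg hq f p0 M0 hM0 p ρ hρ)).2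
  have key2 : ∀ p : Nat.Primes, ∃ M : Λ →* Matrix (Fin n) (Fin n) (@PadicInt p.1 ⟨p.2⟩),
      ∀ g, M (f g) = T0 n (@PadicInt p.1 ⟨p.2⟩) g :=
    fun p => key p.1 ⟨p.2⟩
  choose M hM using key2
  let MB : Λ →* Matrix (Fin n) (Fin n) (∀ p : Nat.Primes, @PadicInt p.1 ⟨p.2⟩) :=
    { toFun := fun x => Matrix.of fun i j p => M p x i j
      map_one' := by
        refine Matrix.ext fun i j => ?_
        funext p
        show M p 1 i j = _
        rw [map_one, Matrix.one_apply, Matrix.one_apply]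
        split_ifs <;> rfl
      map_mul' := fun a b => by
        refine Matrix.ext fun i j => ?_
        funext p
        show M p (a * b) i j = _
        rw [map_mul, Matrix.mul_apply, Matrix.mul_apply, Finset.sum_apply]
        rfl }
  obtain ⟨S, hft, M', hM', hgen⟩ := exists_ring hfg MB
  have hM'f : ∀ g, M' (f g) = T0 n S g := by
    intro g
    refine Matrix.ext fun i j => Subtype.ext ?_
    rw [hM']
    funext p
    show M p (f g) i j = S.subtype (((mA g.1 i j : ℤ)) : S) p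
    rw [hM, map_intCast]
    rfl
  have hU : Uq S := uqF hm hq f M' hM'f hgen
  obtain ⟨κ, -⟩ := hU.int (fun p hp =>
    (Pi.evalRingHom (fun p : Nat.Primes => @PadicInt p.1 ⟨p.2⟩) ⟨p, hp.out⟩).comp S.subtype)
  let MZ : Λ →* Matrix (Fin n) (Fin n) ℤ := Mg κ M'
  have hMZ : ∀ g, MZ (f g) = T0 n ℤ g := by
    intro g
    show Mg κ M' (f g) = _
    rw [Mg_apply, hM'f, T0_map]
  have hdet : ∀ x, (MZ x).det = 1 := by
    let D : Λ →* ℤˣ := ((Matrix.detMonoidHom : Matrix (Fin n) (Fin n) ℤ →* ℤ).comp MZ).toHomUnits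
    obtain ⟨s, hs⟩ := (hq D.range).1 ⟨D.rangeRestrict, D.rangeRestrict_surjective⟩
    intro x
    obtain ⟨z, hz⟩ := hs ⟨D x, ⟨x, rfl⟩⟩
    rw [abelian_triv hm D.range s z] at hz
    have h1 : D x = 1 := (congrArg Subtype.val hz).symm
    exact congrArg Units.val h1
  let h : Λ →* Matrix.SpecialLinearGroup (Fin n) ℤ :=
    { toFun := fun x => ⟨MZ x, hdet x⟩
      map_one' := Subtype.ext (map_one MZ)
      map_mul' := fun a b => Subtype.ext (map_mul MZ a b) }
  have hhf : ∀ g, h (f g) = pis n g := by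
    intro g
    apply Subtype.ext
    show MZ (f g) = mA g.1
    rw [hMZ]
    refine Matrix.ext fun i j => ?_
    show ((mA g.1 i j : ℤ) : ℤ) = mA g.1 i j
    simp
  have hs : Function.Surjective h := by
    intro A
    obtain ⟨t, rfl⟩ := pis_surj n A
    exact ⟨f t, hhf t⟩
  have hinj : Function.Injective h := hopf hfg hRF hq h hs
  refine ⟨rfl, ⟨MulEquiv.ofBijective h ⟨hinj, hs⟩⟩, fun x => ?_⟩
  obtain ⟨t, ht⟩ := pis_surj n (h x)
  exact ⟨t, hinj (by rw [hhf, ht])⟩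

end Run7.h134.PE
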