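import Pool.Agent.Run7.h134.Str

set_option autoImplicit false
set_option linter.style.haveILetI false

namespace Run7.h134

open Module Submodule

section GenSpan

variable {S X : Type*} [DivisionRing S] [AddCommGroup X] [Module S X]

lemma map_span_le_of (φ : X →ₗ[S] X) {P P2 : Set X} (h : ∀ p ∈ P, φ p ∈ P2) :
    (span S P).map φ ≤ span S P2 := by
  rw [Submodule.map_span]
  apply span_mono
  rintro _ ⟨p, hp, rfl⟩
  exact h p hp

lemma finrank_map_injS (φ : X →ₗ[S] X) (hφ : Function.Injective φ) (P : Submodule S X) :
    finrank S (P.map φ) = finrank S P :=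
  (LinearEquiv.finrank_eq (Submodule.equivMapOfInjective φ hφ P)).symm

lemma finrank_span_le_of (φ : X →ₗ[S] X) (hφ : Function.Injective φ) {P P2 : Set X}
    (h : ∀ p ∈ P, φ p ∈ P2) (hfin : Module.Finite S (span S P2)) :
    finrank S (span S P) ≤ finrank S (span S P2) := by
  rw [← finrank_map_injS φ hφ]
  exact Submodule.finrank_mono (map_span_le_of φ h)

lemma map_span_eq_of (φ : X →ₗ[S] X) (hφ : Function.Injective φ) {P P2 : Set X}
    (h : ∀ p ∈ P, φ p ∈ P2) (hfin : Module.Finite S (span S P2))
    (heq : finrank S (span S P) = finrank S (span S P2)) :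
    (span S P).map φ = span S P2 := by
  apply Submodule.eq_of_le_of_finrank_eq (map_span_le_of φ h)
  rw [finrank_map_injS φ hφ, heq]

end GenSpan

section LR

variable {D : Type*} [DivisionRing D]

/-- the right structure of `D` over a division subring `U` -/
@[reducible] def rightMod (U : Subfield D) : Module (↥U)ᵐᵒᵖ D :=
  Module.compHom D (RingHom.op U.subtype)

attribute [local instance] rightMod

lemma rsmul_def (U : Subfield D) (c : (↥U)ᵐᵒᵖ) (y : D) :
    c • y = y * ((MulOpposite.unop c : U) : D) := rfl

/-- right multiplication, linear for left structures -/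
def mulR (U : Subfield D) (g : D) : D →ₗ[U] D where
  toFun y := y * g
  map_add' a b := add_mul a b g
  map_smul' c a := by
    show (c : D) * a * g = (c : D) * (a * g)
    rw [mul_assoc]

/-- left multiplication, linear for right structures -/
def mulL (U : Subfield D) (g : D) : D →ₗ[(↥U)ᵐᵒᵖ] D where
  toFun y := g * y
  map_add' a b := mul_add g a b
  map_smul' c a := by
    show g * (a * ((MulOpposite.unop c : U) : D)) = (g * a) * ((MulOpposite.unop c : U) : D)
    rw [mul_assoc]

@[simp] lemma mulR_apply (U : Subfield D) (g y : D) : mulR U g y = y * g := rfl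
@[simp] lemma mulL_apply (U : Subfield D) (g y : D) : mulL U g y = g * y := rfl

lemma mulR_inj (U : Subfield D) {g : D} (hg : g ≠ 0) : Function.Injective (mulR U g) := by
  intro a b h
  exact mul_right_cancel₀ hg h

lemma mulL_inj (U : Subfield D) {g : D} (hg : g ≠ 0) : Function.Injective (mulL U g) := by
  intro a b h
  exact mul_left_cancel₀ hg h

variable {k : Type*} [Field k] [Algebra k D]

/-- `k`-algebra structure on a division subring containing `k` -/
@[reducible] def algSub (U : Subfield D) (hk : ∀ c : k, algebraMap k D c ∈ U) : Algebra k U where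
  algebraMap := (algebraMap k D).codRestrict U hk
  smul c y := ⟨c • (y : D), by
    rw [Algebra.smul_def]; exact U.mul_mem (hk c) y.2⟩
  commutes' c y := by
    apply Subtype.ext
    exact Algebra.commutes c (y : D)
  smul_def' c y := by
    apply Subtype.ext
    exact Algebra.smul_def c (y : D)

lemma finL (U : Subfield D) (hk : ∀ c : k, algebraMap k D c ∈ U) (P : Submodule k D)
    (hP : FiniteDimensional k P) : Module.Finite U (span U (P : Set D)) := by
  letI := algSub U hk
  have : IsScalarTower k U D := ⟨fun c y d => by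
    show (c • (y : D)) * d = c • ((y : D) * d)
    rw [smul_mul_assoc]⟩
  exact span_eq_of_fg (S := U) P

lemma finR (U : Subfield D) (hk : ∀ c : k, algebraMap k D c ∈ U) (P : Submodule k D)
    (hP : FiniteDimensional k P) : Module.Finite (↥U)ᵐᵒᵖ (span (↥U)ᵐᵒᵖ (P : Set D)) := by
  letI := algSub U hk
  have : IsScalarTower k (↥U)ᵐᵒᵖ D := ⟨fun c y d => by
    show d * (c • ((MulOpposite.unop y : U) : D)) = c • (d * ((MulOpposite.unop y : U) : D))
    rw [mul_smul_comm]⟩
  exact span_eq_of_fg (S := (↥U)ᵐᵒᵖ) P

lemma stringL (U : Subfield D) (hk : ∀ c : k, algebraMap k D c ∈ U) {u : D} (huU : u ∈ U)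
    (hu : Transcendental k u) (P : Submodule k D) (hP : FiniteDimensional k P) :
    finrank k P + finrank U (span U (P : Set D)) ≤
      finrank k ((P ⊔ P.map (LinearMap.mulLeft k u) : Submodule k D)) := by
  letI := algSub U hk
  have : IsScalarTower k U D := ⟨fun c y d => by
    show (c • (y : D)) * d = c • ((y : D) * d)
    rw [smul_mul_assoc]⟩
  have hu' : Transcendental k (⟨u, huU⟩ : U) := by
    intro h
    apply hu
    let φ : U →ₐ[k] D := { U.subtype with commutes' := fun c => rfl }
    exact h.algHom φ
  exact string_lemma (S := U) (X := D) hu' P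

lemma stringR (U : Subfield D) (hk : ∀ c : k, algebraMap k D c ∈ U) {u : D} (huU : u ∈ U)
    (hu : Transcendental k u) (P : Submodule k D) (hP : FiniteDimensional k P) :
    finrank k P + finrank (↥U)ᵐᵒᵖ (span (↥U)ᵐᵒᵖ (P : Set D)) ≤
      finrank k ((P ⊔ P.map (LinearMap.mulRight k u) : Submodule k D)) := by
  letI := algSub U hk
  have : IsScalarTower k (↥U)ᵐᵒᵖ D := ⟨fun c y d => by
    show d * (c • ((MulOpposite.unop y : U) : D)) = c • (d * ((MulOpposite.unop y : U) : D))
    rw [mul_smul_comm]⟩
  have hu' : Transcendental k (MulOpposite.op (⟨u, huU⟩ : U)) := by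
    intro h
    apply hu
    obtain ⟨p, hp, hpe⟩ := h
    refine ⟨p, hp, ?_⟩
    have h2 : Polynomial.aeval (MulOpposite.op (⟨u, huU⟩ : U)) p =
        MulOpposite.op (Polynomial.aeval (⟨u, huU⟩ : U) p) := by
      rw [Polynomial.aeval_eq_sum_range, Polynomial.aeval_eq_sum_range, Finset.op_sum]
      apply Finset.sum_congr rfl
      intro i _
      rw [MulOpposite.op_smul, MulOpposite.op_pow]
    rw [h2] at hpe
    have h3 : Polynomial.aeval (⟨u, huU⟩ : U) p = 0 := by
      simpa using hpe
    let φ : U →ₐ[k] D := { U.subtype with commutes' := fun c => rfl }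
    have h4 := Polynomial.aeval_algHom_apply φ (⟨u, huU⟩ : U) p
    rw [h3, map_zero] at h4
    exact h4
  exact string_lemma (S := (↥U)ᵐᵒᵖ) (X := D) hu' P

end LR

end Run7.h134
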