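import Mathlib

set_option autoImplicit false
set_option linter.style.haveILetI false

namespace Run7.h134

open Module Submodule

section Str

variable {k S X : Type*} [Field k] [DivisionRing S] [Algebra k S] [AddCommGroup X]
  [Module k X] [Module S X] [IsScalarTower k S X]

/-- The string spaces `P + uP + ... + u^j P`. -/
noncomputable def str (u : S) (P : Submodule k X) : ℕ → Submodule k X
  | 0 => P
  | (j + 1) => str u P j ⊔ (str u P j).map (Algebra.lsmul k k X u)

lemma smul_inj_of_ne {u : S} (hu : u ≠ 0) : Function.Injective (Algebra.lsmul k k X u) := by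
  intro a b h
  have h' : u • a = u • b := h
  have := congrArg (fun y => u⁻¹ • y) h'
  simpa [smul_smul, inv_mul_cancel₀ hu] using this

lemma finrank_map_inj {X Y : Type*} [AddCommGroup X] [Module k X] [AddCommGroup Y] [Module k Y]
    (f : X →ₗ[k] Y) (hf : Function.Injective f) (P : Submodule k X) :
    finrank k (P.map f) = finrank k P :=
  (LinearEquiv.finrank_eq (Submodule.equivMapOfInjective f hf P)).symm

lemma str_finite (u : S) (P : Submodule k X) [FiniteDimensional k P] (j : ℕ) :
    FiniteDimensional k (str u P j) := by
  induction j with
  | zero =>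
    show FiniteDimensional k P
    infer_instance
  | succ j ih =>
    have := ih
    show FiniteDimensional k ((str u P j ⊔ (str u P j).map (Algebra.lsmul k k X u) : Submodule k X))
    infer_instance

lemma str_le_succ (u : S) (P : Submodule k X) (j : ℕ) : str u P j ≤ str u P (j + 1) :=
  le_sup_left

lemma str_map_le_succ (u : S) (P : Submodule k X) (j : ℕ) :
    (str u P j).map (Algebra.lsmul k k X u) ≤ str u P (j + 1) :=
  le_sup_right

lemma str_convex {u : S} (hu : u ≠ 0) (P : Submodule k X) [FiniteDimensional k P] (j : ℕ) :
    finrank k (str u P (j + 2)) + finrank k (str u P j) ≤ 2 * finrank k (str u P (j + 1)) := by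
  have := str_finite u P j
  have := str_finite u P (j + 1)
  have : FiniteDimensional k ((str u P (j + 1)).map (Algebra.lsmul k k X u)) := inferInstance
  have h1 := Submodule.finrank_sup_add_finrank_inf_eq (str u P (j + 1))
    ((str u P (j + 1)).map (Algebra.lsmul k k X u))
  have h2 : (str u P (j + 1) ⊔ (str u P (j + 1)).map (Algebra.lsmul k k X u) : Submodule k X)
      = str u P (j + 2) := rfl
  have h3 : (str u P j).map (Algebra.lsmul k k X u) ≤
      str u P (j + 1) ⊓ (str u P (j + 1)).map (Algebra.lsmul k k X u) :=
    le_inf (str_map_le_succ u P j) (Submodule.map_mono (str_le_succ u P j))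
  have h4 := Submodule.finrank_mono h3
  rw [finrank_map_inj _ (smul_inj_of_ne hu)] at h4
  rw [finrank_map_inj _ (smul_inj_of_ne hu)] at h1
  rw [h2] at h1
  omega

lemma str_diff {u : S} (hu : u ≠ 0) (P : Submodule k X) [FiniteDimensional k P] (j : ℕ) :
    finrank k (str u P (j + 1)) + finrank k P ≤ finrank k (str u P j) + finrank k (str u P 1) := by
  induction j with
  | zero => exact le_of_eq (add_comm _ _)
  | succ j ih =>
    have := str_convex hu P j
    have e : finrank k (str u P (j + 1 + 1)) = finrank k (str u P (j + 2)) := rfl
    omega

lemma str_bound {u : S} (hu : u ≠ 0) (P : Submodule k X) [FiniteDimensional k P] (n : ℕ) :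
    finrank k (str u P n) + n * finrank k P ≤ finrank k P + n * finrank k (str u P 1) := by
  induction n with
  | zero =>
    show finrank k P + 0 * finrank k P ≤ finrank k P + 0 * finrank k (str u P 1)
    simp
  | succ n ih =>
    have := str_diff hu P n
    have e1 : (n + 1) * finrank k P = n * finrank k P + finrank k P := by ring
    have e2 : (n + 1) * finrank k (str u P 1) = n * finrank k (str u P 1) + finrank k (str u P 1) := by
      ring
    rw [e1, e2]
    omega

lemma pow_smul_mem_str (u : S) (P : Submodule k X) {p : X} (hp : p ∈ P) (a n : ℕ) (h : a ≤ n) :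
    u ^ a • p ∈ str u P n := by
  induction n generalizing a with
  | zero =>
    have : a = 0 := by omega
    subst this
    simpa [str] using hp
  | succ n ih =>
    rcases Nat.eq_zero_or_pos a with h0 | h0
    · exact str_le_succ u P n (ih a (by omega))
    · obtain ⟨b, rfl⟩ : ∃ b, a = b + 1 := ⟨a - 1, by omega⟩
      apply str_map_le_succ u P n
      refine ⟨u ^ b • p, ih b (by omega), ?_⟩
      show u • (u ^ b • p) = _
      rw [smul_smul, pow_succ']

lemma span_eq_of_fg (P : Submodule k X) [FiniteDimensional k P] :
    Module.Finite S (Submodule.span S (P : Set X)) := by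
  obtain ⟨t, ht⟩ := (Submodule.fg_iff_finiteDimensional P).mpr inferInstance
  have : Submodule.span S (P : Set X) = Submodule.span S (t : Set X) := by
    rw [← ht]
    exact Submodule.span_span_of_tower k S (t : Set X)
  rw [this]
  exact Module.Finite.span_of_finite S t.finite_toSet

lemma linInd_powers {u : S} (hu : Transcendental k u) :
    LinearIndependent k (fun a : ℕ => u ^ a) := by
  rw [linearIndependent_iff']
  intro s g hg i hi
  by_contra hne
  rw [transcendental_iff] at hu
  have := hu (∑ a ∈ s, Polynomial.monomial a (g a)) (by
    rw [map_sum]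
    simpa [Polynomial.aeval_monomial, Algebra.smul_def] using hg)
  have h2 := congrArg (fun p => Polynomial.coeff p i) this
  simp [Polynomial.finsetSum_coeff, Polynomial.coeff_monomial, hi] at h2
  exact hne h2

/-- The string lemma: for a transcendental `u` in the division `k`-algebra `S`, and a
finite-dimensional `k`-subspace `P` of an `S`-module,
`dim (P + uP) ≥ dim P + dim_S (S P)`. -/
theorem string_lemma {u : S} (hu : Transcendental k u) (P : Submodule k X)
    [FiniteDimensional k P] :
    finrank k P + finrank S (Submodule.span S (P : Set X)) ≤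
      finrank k ((P ⊔ P.map (Algebra.lsmul k k X u) : Submodule k X)) := by
  have hu0 : u ≠ 0 := by
    rintro rfl
    exact hu (isAlgebraic_zero)
  have := span_eq_of_fg (S := S) P
  obtain ⟨b, hbP, hspan, hli⟩ := exists_linearIndependent S (P : Set X)
  have hfin : b.Finite := by
    have hli2 : LinearIndependent S (fun y : b => (⟨y.1, Submodule.subset_span (hbP y.2)⟩ :
        Submodule.span S (P : Set X))) := by
      apply LinearIndependent.of_comp (Submodule.span S (P : Set X)).subtype
      exact hli
    have := hli2.finite
    exact Set.toFinite b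
  letI := hfin.fintype
  have hcard : finrank S (Submodule.span S (P : Set X)) = Fintype.card b := by
    rw [← hspan]
    rw [finrank_span_set_eq_card hli]
    simp
  rw [hcard]
  have key : ∀ n : ℕ, (n + 1) * Fintype.card b ≤ finrank k (str u P n) := by
    intro n
    have h1 := linearIndependent_smul (linInd_powers (k := k) hu) hli
    have h2 : LinearIndependent k (fun q : Fin (n + 1) × b => u ^ (q.1 : ℕ) • (q.2 : X)) := by
      have := h1.comp (fun q : Fin (n + 1) × b => ((q.1 : ℕ), q.2)) (by
        rintro ⟨a, c⟩ ⟨a', c'⟩ h
        simp only [Prod.mk.injEq] at h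
        obtain ⟨h1, h2⟩ := h
        exact Prod.ext (Fin.ext h1) h2)
      exact this
    have := str_finite u P n
    have h3 : LinearIndependent k (fun q : Fin (n + 1) × b =>
        (⟨u ^ (q.1 : ℕ) • (q.2 : X), pow_smul_mem_str u P (hbP q.2.2) q.1 n (by
          have := q.1.2; omega)⟩ : str u P n)) := by
      apply LinearIndependent.of_comp (str u P n).subtype
      exact h2
    have h4 := h3.fintype_card_le_finrank
    simpa using h4
  have hb : ∀ n : ℕ, (n + 1) * Fintype.card b + n * finrank k P ≤
      finrank k P + n * finrank k (str u P 1) := by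
    intro n
    have := str_bound hu0 P n
    have := key n
    omega
  show finrank k P + Fintype.card b ≤ finrank k (str u P 1)
  by_contra hcon
  push Not at hcon
  have h5 := hb (finrank k P + 1)
  have h6 : (finrank k P + 1) * (finrank k (str u P 1) + 1) ≤
      (finrank k P + 1) * (finrank k P + Fintype.card b) := Nat.mul_le_mul_left _ hcon
  nlinarith [h5, h6]

end Str

end Run7.h134
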