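import Pool.Agent.Run7.h134.Window

set_option autoImplicit false

namespace Run7.h134

/-- A sequence with `f ≤ 4 (√(f(2n)/(n+1)+1) + 1) Δf` grows faster than `n^{3-ε}`. -/
theorem superpoly (f : ℕ → ℕ) (hpos : ∀ n, 1 ≤ f n) (hmono : ∀ n, f n ≤ f (n + 1)) (q n₀ : ℕ)
    (hgr : ∀ n ≥ n₀, (f n) ^ (q + 1) ≤ n ^ (3 * q + 2))
    (hstep : ∀ n, f n ≤ 4 * (Nat.sqrt (f (2 * n) / (n + 1) + 1) + 1) * (f (n + 1) - f n)) :
    False := by
  have hm : Monotone f := monotone_nat_of_le_succ hmono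
  obtain ⟨R₀, hR₀⟩ := exp_bound (64 * 4225 ^ (3 * q + 2)) (2 * (3 * q + 2))
  obtain ⟨R, hRR, hR1, hRn⟩ : ∃ R, R₀ ≤ R ∧ 1 ≤ R ∧ n₀ ≤ R :=
    ⟨max R₀ (max 1 n₀), le_max_left _ _, le_trans (le_max_left _ _) (le_max_right _ _),
      le_trans (le_max_right _ _) (le_max_right _ _)⟩
  have hexp := hR₀ R hRR
  set t := 4225 * R ^ 2 with ht
  have htR : R ≤ t := by
    rw [ht]
    nlinarith [hR1]
  have ht1 : 1 ≤ t := hR1.trans htR
  set n := t ^ (q + 1) with hn
  have htn : t ≤ n := Nat.le_self_pow (by omega) t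
  set β := f (4 * n) / (n + 1) + 1 with hβ
  set c := Nat.sqrt β + 1 with hc
  set M := 4 * c with hM
  have hM1 : 1 ≤ M := by omega
  -- claim 1
  have claim1 : ∀ m, n ≤ m → m ≤ 2 * n → f m ≤ M * (f (m + 1) - f m) := by
    intro m h1 h2
    refine (hstep m).trans ?_
    apply Nat.mul_le_mul_right
    rw [hM]
    apply Nat.mul_le_mul_left
    rw [hc]
    apply Nat.add_le_add_right
    apply Nat.sqrt_le_sqrt
    rw [hβ]
    apply Nat.add_le_add_right
    exact Nat.div_le_div (hm (by omega)) (by omega) (by omega)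
  -- claim 2
  have claim2 : ∀ m, n ≤ m → m + M ≤ 2 * n → 2 * f m ≤ f (m + M) := by
    intro m h1 h2
    have key : ∀ j ≤ M, M * f m + j * f m ≤ M * f (m + j) := by
      intro j
      induction j with
      | zero => intro _; simp
      | succ j ih =>
        intro hj
        have h3 := ih (by omega)
        have h4 := claim1 (m + j) (by omega) (by omega)
        have h5 := hmono (m + j)
        have h6 : f m ≤ f (m + j) := hm (by omega)
        rw [Nat.mul_sub] at h4
        have h7 : M * f (m + j) ≤ M * f (m + j + 1) := Nat.mul_le_mul_left _ h5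
        have e : (j + 1) * f m = j * f m + f m := by ring
        rw [e, ← add_assoc m j 1]
        omega
    have h3 := key M le_rfl
    have h4 : M * (2 * f m) ≤ M * f (m + M) := by
      calc M * (2 * f m) = M * f m + M * f m := by ring
        _ ≤ _ := h3
    exact Nat.le_of_mul_le_mul_left h4 (by omega)
  -- claim 3
  have claim3 : ∀ r, r * M ≤ n → 2 ^ r ≤ f (n + r * M) := by
    intro r
    induction r with
    | zero => intro _; simpa using hpos n
    | succ r ih =>
      intro hr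
      have e : (r + 1) * M = r * M + M := by ring
      rw [e] at hr ⊢
      have h1 := ih (by omega)
      have h2 := claim2 (n + r * M) (by omega) (by omega)
      rw [pow_succ, ← add_assoc]
      omega
  have hf4 : f (4 * n) ≤ 64 * t ^ (3 * q + 2) := by
    have h1 := hgr (4 * n) (by omega)
    have h2 : (4 * n) ^ (3 * q + 2) ≤ (64 * t ^ (3 * q + 2)) ^ (q + 1) := by
      calc (4 * n) ^ (3 * q + 2) = 4 ^ (3 * q + 2) * (t ^ (3 * q + 2)) ^ (q + 1) := by
            rw [mul_pow 4 n, hn, ← pow_mul t, ← pow_mul t]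
            congr 2
            ring
        _ ≤ 4 ^ (3 * (q + 1)) * (t ^ (3 * q + 2)) ^ (q + 1) := by
            apply Nat.mul_le_mul_right
            exact Nat.pow_le_pow_right (by norm_num) (by omega)
        _ = (64 * t ^ (3 * q + 2)) ^ (q + 1) := by
            rw [mul_pow 64 (t ^ (3 * q + 2)) (q + 1), pow_mul 4 3 (q + 1)]
            norm_num
    exact le_of_not_gt fun h => absurd (h1.trans h2)
      (not_le.mpr (Nat.pow_lt_pow_left h (by omega)))
  have hnt : n + 1 ≤ 2 * t ^ (3 * q + 2) := by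
    have h1 : n ≤ t ^ (3 * q + 2) := Nat.pow_le_pow_right ht1 (by omega)
    have h2 : 1 ≤ t ^ (3 * q + 2) := Nat.one_le_pow _ _ ht1
    omega
  -- claim 4
  have claim4 : R * M ≤ n := by
    by_contra hcon
    push Not at hcon
    have hβ1 : 1 ≤ β := Nat.le_add_left 1 _
    have hc2 : c ^ 2 ≤ 4 * β := by
      have h1 : Nat.sqrt β * Nat.sqrt β ≤ β := Nat.sqrt_le β
      have h2 : Nat.sqrt β ≤ β := Nat.sqrt_le_self β
      rw [hc]
      nlinarith
    have hM2 : M ^ 2 ≤ 64 * β := by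
      rw [hM]
      nlinarith
    have hnβ : n * β ≤ f (4 * n) + (n + 1) := by
      have h1 : (n + 1) * (f (4 * n) / (n + 1)) ≤ f (4 * n) := Nat.mul_div_le _ _
      have h2 : n * β ≤ (n + 1) * β := Nat.mul_le_mul_right _ (by omega)
      have h3 : (n + 1) * β = (n + 1) * (f (4 * n) / (n + 1)) + (n + 1) := by
        rw [hβ]; ring
      omega
    have h1 : n ^ 3 ≤ 64 * R ^ 2 * (66 * t ^ (3 * q + 2)) := by
      calc n ^ 3 = n * n ^ 2 := by ring
        _ ≤ n * (R * M) ^ 2 := Nat.mul_le_mul_left _ (Nat.pow_le_pow_left hcon.le 2)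
        _ = R ^ 2 * (n * M ^ 2) := by ring
        _ ≤ R ^ 2 * (n * (64 * β)) := Nat.mul_le_mul_left _ (Nat.mul_le_mul_left _ hM2)
        _ = 64 * R ^ 2 * (n * β) := by ring
        _ ≤ 64 * R ^ 2 * (66 * t ^ (3 * q + 2)) := by
            apply Nat.mul_le_mul_left
            omega
    have h2 : n ^ 3 = 4225 * R ^ 2 * t ^ (3 * q + 2) := by
      rw [hn, ← pow_mul, ← ht]
      rw [show (q + 1) * 3 = 3 * q + 2 + 1 by ring, pow_succ]
      ring
    have h3 : 1 ≤ R ^ 2 * t ^ (3 * q + 2) :=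
      Nat.mul_pos (pow_pos (by omega) 2) (pow_pos (by omega) _)
    nlinarith
  have h1 := claim3 R claim4
  have h2 : f (n + R * M) ≤ f (4 * n) := hm (by omega)
  have h3 : 64 * t ^ (3 * q + 2) ≤ 64 * 4225 ^ (3 * q + 2) * (2 * R + 2) ^ (2 * (3 * q + 2)) := by
    rw [ht, mul_pow, ← pow_mul, ← mul_assoc]
    apply Nat.mul_le_mul_left
    apply Nat.pow_le_pow_left
    omega
  omega

end Run7.h134
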