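import Pool.Agent.Run7.h134.Spans

set_option autoImplicit false
set_option linter.style.haveILetI false

namespace Run7.h134

open Module Submodule

/-- A division ring generated by a division subring `E` and an element `x` normalising `E`,
with the powers of `x` left independent over `E`. -/
structure Gr (k D : Type*) [Field k] [DivisionRing D] [Algebra k D] where
  E : Subfield D
  kE : ∀ c : k, algebraMap k D c ∈ E
  x : D
  x0 : x ≠ 0
  conj : ∀ e ∈ E, x * e * x⁻¹ ∈ E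
  conj' : ∀ e ∈ E, x⁻¹ * e * x ∈ E
  indep : ∀ (n : ℕ) (c : ℕ → D), (∀ i, c i ∈ E) → ∑ i ∈ Finset.range n, c i * x ^ i = 0 →
    ∀ i < n, c i = 0
  gen : ∀ S : Subfield D, E ≤ S → x ∈ S → S = ⊤

namespace Gr

variable {k D : Type*} [Field k] [DivisionRing D] [Algebra k D] (G : Gr k D)

lemma conj_zpow (s : ℤ) {e : D} (he : e ∈ G.E) : G.x ^ s * e * G.x ^ (-s) ∈ G.E := by
  have hx := G.x0
  induction s with
  | zero => simpa using he
  | succ i ih =>
    have := G.conj _ ih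
    rw [show G.x ^ ((i : ℤ) + 1) = G.x * G.x ^ (i : ℤ) by
      rw [add_comm, zpow_add₀ hx, zpow_one]]
    rw [show G.x ^ (-((i : ℤ) + 1)) = G.x ^ (-(i : ℤ)) * G.x⁻¹ by
      rw [neg_add, zpow_add₀ hx, zpow_neg_one]]
    simpa only [mul_assoc] using this
  | pred i ih =>
    have := G.conj' _ ih
    rw [show G.x ^ (-(i : ℤ) - 1) = G.x⁻¹ * G.x ^ (-(i : ℤ)) by
      rw [sub_eq_add_neg, add_comm, zpow_add₀ hx, zpow_neg_one]]
    rw [show G.x ^ (-(-(i : ℤ) - 1)) = G.x ^ (-(-(i : ℤ))) * G.x by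
      rw [neg_sub, sub_eq_add_neg, add_comm, zpow_add₀ hx, zpow_one]]
    simpa only [mul_assoc] using this

/-- homogeneous component `E x^s` -/
def Eg (s : ℤ) : Submodule k D where
  carrier := {a | a * G.x ^ (-s) ∈ G.E}
  add_mem' := by
    intro a b ha hb
    show (a + b) * G.x ^ (-s) ∈ G.E
    rw [add_mul]
    exact G.E.add_mem ha hb
  zero_mem' := by
    show (0 : D) * G.x ^ (-s) ∈ G.E
    rw [zero_mul]
    exact G.E.zero_mem
  smul_mem' := by
    intro c a ha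
    show (c • a) * G.x ^ (-s) ∈ G.E
    rw [Algebra.smul_def, mul_assoc]
    exact G.E.mul_mem (G.kE c) ha

lemma mem_Eg {s : ℤ} {a : D} : a ∈ G.Eg s ↔ a * G.x ^ (-s) ∈ G.E := Iff.rfl

lemma E_mem_Eg {e : D} (he : e ∈ G.E) : e ∈ G.Eg 0 := by
  rw [mem_Eg]
  simpa using he

lemma mul_mem_Eg {s t : ℤ} {a b : D} (ha : a ∈ G.Eg s) (hb : b ∈ G.Eg t) :
    a * b ∈ G.Eg (s + t) := by
  rw [mem_Eg] at ha hb ⊢
  have hx := G.x0
  have h1 := G.conj_zpow s hb
  have h2 := G.E.mul_mem ha h1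
  have e : a * G.x ^ (-s) * (G.x ^ s * (b * G.x ^ (-t)) * G.x ^ (-s)) =
      a * b * G.x ^ (-(s + t)) := by
    rw [show G.x ^ (-(s + t)) = G.x ^ (-t) * G.x ^ (-s) by
      rw [← zpow_add₀ hx]; congr 1; ring]
    calc a * G.x ^ (-s) * (G.x ^ s * (b * G.x ^ (-t)) * G.x ^ (-s))
        = a * (G.x ^ (-s) * G.x ^ s) * (b * G.x ^ (-t)) * G.x ^ (-s) := by
          simp only [mul_assoc]
      _ = a * b * (G.x ^ (-t) * G.x ^ (-s)) := by
          rw [← zpow_add₀ hx, neg_add_cancel, zpow_zero, mul_one]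
          simp only [mul_assoc]
  rw [e] at h2
  exact h2

lemma x_mem_Eg : G.x ∈ G.Eg 1 := by
  rw [mem_Eg, zpow_neg_one, mul_inv_cancel₀ G.x0]
  exact G.E.one_mem

lemma inv_mem_Eg {s : ℤ} {a : D} (ha : a ∈ G.Eg s) : a⁻¹ ∈ G.Eg (-s) := by
  rw [mem_Eg] at ha ⊢
  have hx := G.x0
  have h1 := G.conj_zpow (-s) (G.E.inv_mem ha)
  rw [mul_inv_rev, ← zpow_neg, neg_neg] at h1
  have e : G.x ^ (-s) * (G.x ^ s * a⁻¹) * G.x ^ s = a⁻¹ * G.x ^ s := by
    rw [← mul_assoc, ← zpow_add₀ hx, neg_add_cancel, zpow_zero, one_mul]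
  rw [e] at h1
  rwa [neg_neg]

lemma ind : iSupIndep G.Eg := by
  classical
  rw [iSupIndep_iff_finsetSum_eq_zero_imp_eq_zero]
  intro s v hv hsum
  have hx := G.x0
  obtain ⟨M, hM⟩ : ∃ M : ℕ, ∀ i ∈ s, -(M : ℤ) ≤ i ∧ i ≤ M := by
    refine ⟨∑ i ∈ s, i.natAbs, fun i hi => ?_⟩
    have : i.natAbs ≤ ∑ i ∈ s, i.natAbs := Finset.single_le_sum (f := fun i : ℤ => i.natAbs)
      (fun _ _ => Nat.zero_le _) hi
    omega
  let c : ℕ → D := fun n => if ((n : ℤ) - M) ∈ s then v ((n : ℤ) - M) * G.x ^ (-((n : ℤ) - M)) else 0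
  have hc : ∀ n, c n ∈ G.E := by
    intro n
    by_cases h : ((n : ℤ) - M) ∈ s
    · simp only [c, if_pos h]
      exact hv _ h
    · simp only [c, if_neg h]
      exact G.E.zero_mem
  have hsum2 : ∑ n ∈ Finset.range (2 * M + 1), c n * G.x ^ n = 0 := by
    have h1 : ∑ n ∈ Finset.range (2 * M + 1), c n * G.x ^ n =
        ∑ i ∈ s, v i * G.x ^ (M : ℤ) := by
      symm
      apply Finset.sum_bij_ne_zero (fun (i : ℤ) _ _ => (i + (M : ℤ)).toNat)
      · intro i hi _
        have := hM i hi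
        simp only [Finset.mem_range]
        omega
      · intro i hi _ j hj _ h
        have h1 := hM i hi
        have h2 := hM j hj
        omega
      · intro n hn hne
        by_cases h : ((n : ℤ) - M) ∈ s
        · refine ⟨(n : ℤ) - M, h, ?_, ?_⟩
          · intro h0
            apply hne
            have h3 : v ((n : ℤ) - M) = 0 := by
              rcases mul_eq_zero.mp h0 with h4 | h4
              · exact h4
              · exact absurd h4 (zpow_ne_zero _ hx)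
            simp only [c, if_pos h, h3, zero_mul]
          · simp
        · exfalso
          apply hne
          simp only [c, if_neg h, zero_mul]
      · intro i hi _
        have h1 := hM i hi
        have e1 : (((i + M).toNat : ℕ) : ℤ) = i + M := by omega
        have e2 : (((i + M).toNat : ℕ) : ℤ) - M = i := by omega
        have h2 : ((((i + M).toNat : ℕ) : ℤ) - M) ∈ s := by rw [e2]; exact hi
        simp only [c, if_pos h2]
        rw [e2, ← zpow_natCast G.x (i + M).toNat, e1, mul_assoc, ← zpow_add₀ hx]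
        congr 2
        ring
    rw [h1, ← Finset.sum_mul, hsum, zero_mul]
  intro i hi
  have h1 := hM i hi
  have h2 := G.indep _ c hc hsum2 ((i + M).toNat) (by omega)
  have e2 : (((i + M).toNat : ℕ) : ℤ) - M = i := by omega
  have h3 : ((((i + M).toNat : ℕ) : ℤ) - M) ∈ s := by rw [e2]; exact hi
  simp only [c, if_pos h3] at h2
  rw [e2] at h2
  rcases mul_eq_zero.mp h2 with h4 | h4
  · exact h4
  · exact absurd h4 (zpow_ne_zero _ hx)

/-- sums of homogeneous elements with degrees in `I` -/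
def RS (I : Set ℤ) : Submodule k D := ⨆ i ∈ I, G.Eg i

lemma Eg_le_RS {I : Set ℤ} {i : ℤ} (hi : i ∈ I) : G.Eg i ≤ G.RS I :=
  le_iSup₂_of_le i hi le_rfl

lemma RS_mono {I J : Set ℤ} (h : I ⊆ J) : G.RS I ≤ G.RS J :=
  iSup₂_le fun i hi => G.Eg_le_RS (h hi)

lemma RS_mul {I J K : Set ℤ} (h : ∀ i ∈ I, ∀ j ∈ J, i + j ∈ K) {a b : D} (ha : a ∈ G.RS I)
    (hb : b ∈ G.RS J) : a * b ∈ G.RS K := by
  have h1 : G.RS I * G.RS J ≤ G.RS K := by
    unfold RS
    simp only [Submodule.iSup_mul, Submodule.mul_iSup]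
    refine iSup_le fun i => iSup_le fun hi => iSup_le fun j => iSup_le fun hj => ?_
    rw [Submodule.mul_le]
    intro a ha b hb
    first
      | exact G.Eg_le_RS (h i hi j hj) (G.mul_mem_Eg ha hb)
      | exact G.Eg_le_RS (h j hj i hi) (G.mul_mem_Eg ha hb)
  exact h1 (Submodule.mul_mem_mul ha hb)

lemma eq_zero_of_mem {I : Set ℤ} {s : ℤ} {a : D} (ha : a ∈ G.Eg s) (hI : a ∈ G.RS I)
    (hs : s ∉ I) : a = 0 := by
  have h1 := G.ind s
  rw [Submodule.disjoint_def] at h1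
  apply h1 a ha
  have : G.RS I ≤ ⨆ j, ⨆ (_ : j ≠ s), G.Eg j := by
    refine iSup₂_le fun i hi => ?_
    exact le_iSup₂_of_le i (fun h => hs (h ▸ hi)) le_rfl
  exact this hI

/-- `h` of degree `s` is the leading term of `r` -/
def LT (r h : D) (s : ℤ) : Prop := h ∈ G.Eg s ∧ h ≠ 0 ∧ r - h ∈ G.RS (Set.Iio s)

lemma LT.mem {r h : D} {s : ℤ} (H : G.LT r h s) : r ∈ G.RS Set.univ := by
  have h1 : h ∈ G.RS Set.univ := G.Eg_le_RS (Set.mem_univ s) H.1
  have h2 : r - h ∈ G.RS Set.univ := G.RS_mono (Set.subset_univ _) H.2.2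
  have := add_mem h2 h1
  simpa using this

lemma LT_unique {r h h' : D} {s s' : ℤ} (H : G.LT r h s) (H' : G.LT r h' s') : s = s' ∧ h = h' := by
  have key : ∀ {r h h' : D} {s s' : ℤ}, G.LT r h s → G.LT r h' s' → ¬ s < s' := by
    intro r h h' s s' H H' hlt
    apply H'.2.1
    have h1 : r ∈ G.RS (Set.Iio s') := by
      have a1 : h ∈ G.RS (Set.Iio s') := G.Eg_le_RS (Set.mem_Iio.mpr hlt) H.1
      have a2 : r - h ∈ G.RS (Set.Iio s') :=
        G.RS_mono (Set.Iio_subset_Iio hlt.le) H.2.2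
      have := add_mem a2 a1
      simpa using this
    have h2 : h' ∈ G.RS (Set.Iio s') := by
      have := sub_mem h1 H'.2.2
      simpa using this
    exact G.eq_zero_of_mem H'.1 h2 (lt_irrefl s')
  have hs : s = s' := le_antisymm (not_lt.mp (key H' H)) (not_lt.mp (key H H'))
  subst hs
  refine ⟨rfl, ?_⟩
  have h1 : h - h' ∈ G.RS (Set.Iio s) := by
    have := sub_mem H'.2.2 H.2.2
    have e : r - h' - (r - h) = h - h' := by abel
    rwa [e] at this
  have h2 := G.eq_zero_of_mem (sub_mem H.1 H'.1) h1 (lt_irrefl s)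
  exact sub_eq_zero.mp h2

lemma LT_exists {r : D} (hr : r ∈ G.RS Set.univ) (h0 : r ≠ 0) : ∃ h s, G.LT r h s := by
  classical
  unfold RS at hr
  simp only [Set.mem_univ, iSup_pos] at hr
  rw [Submodule.mem_iSup_iff_exists_finsupp] at hr
  obtain ⟨f, hf, hsum⟩ := hr
  have hne : f.support.Nonempty := by
    rw [Finset.nonempty_iff_ne_empty]
    intro he
    apply h0
    rw [← hsum, Finsupp.sum, he, Finset.sum_empty]
  set s := f.support.max' hne with hs
  have hsm : s ∈ f.support := Finset.max'_mem _ _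
  refine ⟨f s, s, hf s, Finsupp.mem_support_iff.mp hsm, ?_⟩
  have h1 : r - f s = ∑ i ∈ f.support.erase s, f i := by
    rw [← hsum, Finsupp.sum, ← Finset.add_sum_erase _ _ hsm]
    abel
  rw [h1]
  apply Submodule.sum_mem
  intro i hi
  have hi1 : i ≠ s := Finset.ne_of_mem_erase hi
  have hi2 : i ≤ s := Finset.le_max' _ _ (Finset.mem_of_mem_erase hi)
  exact G.Eg_le_RS (Set.mem_Iio.mpr (lt_of_le_of_ne hi2 hi1)) (hf i)

lemma LT_mul {r h r' h' : D} {s s' : ℤ} (H : G.LT r h s) (H' : G.LT r' h' s') :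
    G.LT (r * r') (h * h') (s + s') := by
  refine ⟨G.mul_mem_Eg H.1 H'.1, mul_ne_zero H.2.1 H'.2.1, ?_⟩
  have e : r * r' - h * h' = (r - h) * r' + h * (r' - h') := by noncomm_ring
  rw [e]
  have hr' : r' ∈ G.RS (Set.Iic s') := by
    have a1 : h' ∈ G.RS (Set.Iic s') := G.Eg_le_RS (Set.mem_Iic.mpr le_rfl) H'.1
    have a2 : r' - h' ∈ G.RS (Set.Iic s') := G.RS_mono Set.Iio_subset_Iic_self H'.2.2
    have := add_mem a2 a1
    simpa using this
  apply add_mem
  · exact G.RS_mul (fun i hi j hj => by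
      simp only [Set.mem_Iio, Set.mem_Iic] at *; omega) H.2.2 hr'
  · have a1 : h ∈ G.RS (Set.Iic s) := G.Eg_le_RS (Set.mem_Iic.mpr le_rfl) H.1
    exact G.RS_mul (fun i hi j hj => by
      simp only [Set.mem_Iio, Set.mem_Iic] at *; omega) a1 H'.2.2

lemma LT_one : G.LT 1 1 0 := by
  refine ⟨G.E_mem_Eg G.E.one_mem, one_ne_zero, ?_⟩
  rw [sub_self]
  exact zero_mem _

lemma LT_self {h : D} {s : ℤ} (hh : h ∈ G.Eg s) (h0 : h ≠ 0) : G.LT h h s := by
  refine ⟨hh, h0, ?_⟩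
  rw [sub_self]
  exact zero_mem _

lemma LT.ne_zero {r h : D} {s : ℤ} (H : G.LT r h s) : r ≠ 0 := by
  rintro rfl
  apply H.2.1
  apply G.eq_zero_of_mem H.1 (I := Set.Iio s) _ (lt_irrefl s)
  have := neg_mem H.2.2
  simpa using this

lemma LT_cancel {t r h : D} {s : ℤ} (ht : G.LT t 1 0) (hr : r ∈ G.RS Set.univ)
    (H : G.LT (r * t) h s) : G.LT r h s := by
  have hr0 : r ≠ 0 := by
    rintro rfl
    exact LT.ne_zero G H (zero_mul t)
  obtain ⟨h', s', H'⟩ := G.LT_exists hr hr0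
  have h2 := G.LT_mul H' ht
  rw [mul_one, add_zero] at h2
  obtain ⟨rfl, rfl⟩ := G.LT_unique H h2
  exact H'

end Gr

end Run7.h134
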