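import Pool.Agent.Run7.h134.Sym

set_option autoImplicit false
set_option linter.style.haveILetI false

namespace Run7.h134

open Module Submodule

namespace Gr

variable {k D : Type*} [Field k] [DivisionRing D] [Algebra k D] (G : Gr k D)

/-- the left `E`-space spanned by `x^i`, `|i| ≤ n` -/
def Sp (n : ℕ) : Submodule G.E D :=
  span G.E (Set.range (fun i : Finset.Icc (-(n : ℤ)) n => G.x ^ (i : ℤ)))

lemma linInd_x : LinearIndependent G.E (fun i : ℤ => G.x ^ i) := by
  rw [linearIndependent_iff']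
  intro s g hg i hi
  have h1 := (iSupIndep_iff_finsetSum_eq_zero_imp_eq_zero G.Eg).mp G.ind s
    (fun i => (g i : D) * G.x ^ i) (by
      intro i _
      show (g i : D) * G.x ^ i * G.x ^ (-i) ∈ G.E
      rw [mul_assoc, ← zpow_add₀ G.x0, add_neg_cancel, zpow_zero, mul_one]
      exact (g i).2) hg i hi
  rcases mul_eq_zero.mp h1 with h2 | h2
  · exact Subtype.ext h2
  · exact absurd h2 (zpow_ne_zero _ G.x0)

lemma finrank_Sp (n : ℕ) : finrank G.E (G.Sp n) = 2 * n + 1 := by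
  have h1 : LinearIndependent G.E (fun i : Finset.Icc (-(n : ℤ)) n => G.x ^ (i : ℤ)) :=
    G.linInd_x.comp _ Subtype.val_injective
  unfold Sp
  rw [finrank_span_eq_card h1]
  simp
  omega

lemma finite_Sp (n : ℕ) : Module.Finite G.E (G.Sp n) :=
  Module.Finite.span_of_finite G.E (Set.finite_range _)

lemma zpow_mem_Sp {i : ℤ} {n : ℕ} (h1 : -(n : ℤ) ≤ i) (h2 : i ≤ n) : G.x ^ i ∈ G.Sp n :=
  subset_span ⟨⟨i, Finset.mem_Icc.mpr ⟨h1, h2⟩⟩, rfl⟩

lemma Sp_mono {n m : ℕ} (h : n ≤ m) : G.Sp n ≤ G.Sp m := by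
  apply span_le.mpr
  rintro _ ⟨⟨i, hi⟩, rfl⟩
  rw [Finset.mem_Icc] at hi
  show G.x ^ i ∈ _
  exact G.zpow_mem_Sp (by omega) (by omega)

lemma mem_Sp_of_RS {r : D} (hr : r ∈ G.RS Set.univ) : ∃ m, r ∈ G.Sp m := by
  unfold RS at hr
  simp only [Set.mem_univ, iSup_pos] at hr
  induction hr using Submodule.iSup_induction' with
  | mem i a ha =>
    refine ⟨i.natAbs, ?_⟩
    have h1 : G.x ^ i ∈ G.Sp i.natAbs := G.zpow_mem_Sp (by omega) (by omega)
    have h2 := (G.Sp i.natAbs).smul_mem (⟨_, ha⟩ : G.E) h1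
    have e : (⟨a * G.x ^ (-i), ha⟩ : G.E) • G.x ^ i = a := by
      show a * G.x ^ (-i) * G.x ^ i = a
      rw [mul_assoc, ← zpow_add₀ G.x0, neg_add_cancel, zpow_zero, mul_one]
    rwa [e] at h2
  | zero => exact ⟨0, Submodule.zero_mem _⟩
  | add a b _ _ ha hb =>
    obtain ⟨m, hm⟩ := ha
    obtain ⟨m', hm'⟩ := hb
    exact ⟨max m m', Submodule.add_mem _ (G.Sp_mono (le_max_left _ _) hm)
      (G.Sp_mono (le_max_right _ _) hm')⟩

lemma RS_of_mem_Sp {n : ℕ} {r : D} (hr : r ∈ G.Sp n) : r ∈ G.RS Set.univ := by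
  unfold Sp at hr
  induction hr using Submodule.span_induction with
  | mem y hy =>
    obtain ⟨⟨i, hi⟩, rfl⟩ := hy
    apply G.Eg_le_RS (Set.mem_univ i)
    show G.x ^ i * G.x ^ (-i) ∈ G.E
    rw [← zpow_add₀ G.x0, add_neg_cancel, zpow_zero]
    exact G.E.one_mem
  | zero => exact Submodule.zero_mem _
  | add a b _ _ ha hb => exact Submodule.add_mem _ ha hb
  | smul c a _ ha =>
    exact G.RS_mul (I := {0}) (J := Set.univ) (fun _ _ _ _ => Set.mem_univ _)
      (G.Eg_le_RS (Set.mem_singleton 0) (G.E_mem_Eg c.2)) ha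

lemma Sp_mul {n m : ℕ} {a b : D} (ha : a ∈ G.Sp n) (hb : b ∈ G.Sp m) : a * b ∈ G.Sp (n + m) := by
  unfold Sp at ha
  induction ha using Submodule.span_induction with
  | mem y hy =>
    obtain ⟨⟨i, hi⟩, rfl⟩ := hy
    rw [Finset.mem_Icc] at hi
    unfold Sp at hb
    induction hb using Submodule.span_induction with
    | mem y hy =>
      obtain ⟨⟨j, hj⟩, rfl⟩ := hy
      rw [Finset.mem_Icc] at hj
      show G.x ^ i * G.x ^ j ∈ _
      rw [← zpow_add₀ G.x0]
      exact G.zpow_mem_Sp (by push_cast; omega) (by push_cast; omega)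
    | zero =>
      rw [mul_zero]
      exact Submodule.zero_mem _
    | add a b _ _ ha hb =>
      rw [mul_add]
      exact Submodule.add_mem _ ha hb
    | smul c a _ ha =>
      show G.x ^ i * ((c : D) * a) ∈ _
      have e : G.x ^ i * ((c : D) * a) = (G.x ^ i * c * G.x ^ (-i)) * (G.x ^ i * a) := by
        calc G.x ^ i * ((c : D) * a) = G.x ^ i * c * (G.x ^ (-i) * G.x ^ i) * a := by
              rw [← zpow_add₀ G.x0, neg_add_cancel, zpow_zero, mul_one, mul_assoc]
          _ = _ := by simp only [mul_assoc]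
      rw [e]
      exact (G.Sp (n + m)).smul_mem (⟨_, G.conj_zpow i c.2⟩ : G.E) ha
  | zero =>
    rw [zero_mul]
    exact Submodule.zero_mem _
  | add a b _ _ ha hb =>
    rw [add_mul]
    exact Submodule.add_mem _ ha hb
  | smul c a _ ha =>
    rw [smul_mul_assoc]
    exact Submodule.smul_mem _ c ha

lemma ore {t r : D} (ht : t ∈ G.RS Set.univ) (ht0 : t ≠ 0) (hr : r ∈ G.RS Set.univ)
    (hr0 : r ≠ 0) : ∃ a ∈ G.RS Set.univ, ∃ b ∈ G.RS Set.univ, a ≠ 0 ∧ a * r = b * t := by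
  obtain ⟨m₁, hm₁⟩ := G.mem_Sp_of_RS ht
  obtain ⟨m₂, hm₂⟩ := G.mem_Sp_of_RS hr
  set m := max m₁ m₂ with hm
  have h1 : t ∈ G.Sp m := G.Sp_mono (le_max_left _ _) hm₁
  have h2 : r ∈ G.Sp m := G.Sp_mono (le_max_right _ _) hm₂
  have l1 : (G.Sp m).map (mulR G.E r) ≤ G.Sp (m + m) := by
    rintro _ ⟨y, hy, rfl⟩
    exact G.Sp_mul hy h2
  have l2 : (G.Sp m).map (mulR G.E t) ≤ G.Sp (m + m) := by
    rintro _ ⟨y, hy, rfl⟩
    exact G.Sp_mul hy h1
  have f0 := G.finite_Sp (m + m)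
  have f1 : Module.Finite G.E ((G.Sp m).map (mulR G.E r)) := Submodule.finiteDimensional_of_le l1
  have f2 : Module.Finite G.E ((G.Sp m).map (mulR G.E t)) := Submodule.finiteDimensional_of_le l2
  have h3 := Submodule.finrank_sup_add_finrank_inf_eq ((G.Sp m).map (mulR G.E r))
    ((G.Sp m).map (mulR G.E t))
  rw [finrank_map_injS _ (mulR_inj G.E hr0), finrank_map_injS _ (mulR_inj G.E ht0),
    G.finrank_Sp] at h3
  have h4 := Submodule.finrank_mono (sup_le l1 l2)
  rw [G.finrank_Sp] at h4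
  have h5 : ((G.Sp m).map (mulR G.E r) ⊓ (G.Sp m).map (mulR G.E t)) ≠ ⊥ := by
    intro hbot
    rw [hbot, finrank_bot] at h3
    omega
  obtain ⟨y, ⟨⟨a, ha, hay⟩, ⟨b, hb, hby⟩⟩, hy0⟩ := Submodule.exists_mem_ne_zero_of_ne_bot h5
  rw [mulR_apply] at hay hby
  refine ⟨a, G.RS_of_mem_Sp ha, b, G.RS_of_mem_Sp hb, ?_, ?_⟩
  · rintro rfl
    apply hy0
    rw [← hay, zero_mul]
  · rw [hay, hby]

lemma ore' {t r : D} (ht : G.LT t 1 0) (hr : r ∈ G.RS Set.univ) :
    ∃ t' r', G.LT t' 1 0 ∧ r' ∈ G.RS Set.univ ∧ t' * r = r' * t := by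
  by_cases hr0 : r = 0
  · refine ⟨1, 0, G.LT_one, Submodule.zero_mem _, ?_⟩
    rw [hr0, mul_zero, zero_mul]
  · obtain ⟨a, ha, b, hb, ha0, hab⟩ := G.ore (LT.mem G ht) (LT.ne_zero G ht) hr hr0
    obtain ⟨h, s, H⟩ := G.LT_exists ha ha0
    have h1 : G.LT h⁻¹ h⁻¹ (-s) := G.LT_self (G.inv_mem_Eg H.1) (inv_ne_zero H.2.1)
    have h2 := G.LT_mul h1 H
    rw [inv_mul_cancel₀ H.2.1, neg_add_cancel] at h2
    refine ⟨h⁻¹ * a, h⁻¹ * b, h2, ?_, ?_⟩
    · exact G.RS_mul (I := Set.univ) (J := Set.univ) (fun _ _ _ _ => Set.mem_univ _)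
        (LT.mem G h1) hb
    · rw [mul_assoc, hab, mul_assoc]

/-- leading terms for elements of the division ring -/
def Lead (d h : D) (s : ℤ) : Prop := ∃ t, G.LT t 1 0 ∧ G.LT (t * d) h s

lemma Lead_self {h : D} {s : ℤ} (hh : h ∈ G.Eg s) (h0 : h ≠ 0) : G.Lead h h s := by
  refine ⟨1, G.LT_one, ?_⟩
  rw [one_mul]
  exact G.LT_self hh h0

lemma Lead_mul {d h d' h' : D} {s s' : ℤ} (H : G.Lead d h s) (H' : G.Lead d' h' s') :
    G.Lead (d * d') (h * h') (s + s') := by
  obtain ⟨t, ht, H1⟩ := H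
  obtain ⟨t', ht', H1'⟩ := H'
  obtain ⟨t'', r', ht'', hr', he⟩ := G.ore' ht' (LT.mem G H1)
  have h1 := G.LT_mul ht'' H1
  rw [one_mul, zero_add, he] at h1
  have h2 := G.LT_cancel ht' hr' h1
  refine ⟨t'' * t, ?_, ?_⟩
  · have := G.LT_mul ht'' ht
    simpa using this
  · have h3 := G.LT_mul h2 H1'
    have e : t'' * t * (d * d') = r' * (t' * d') := by
      calc t'' * t * (d * d') = t'' * (t * d) * d' := by simp only [mul_assoc]
        _ = r' * t' * d' := by rw [he]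
        _ = _ := by rw [mul_assoc]
    rw [e]
    exact h3

lemma common {ι : Type*} [DecidableEq ι] (I : Finset ι) (d h : ι → D) (s : ι → ℤ)
    (H : ∀ i ∈ I, G.Lead (d i) (h i) (s i)) :
    ∃ t, G.LT t 1 0 ∧ ∀ i ∈ I, G.LT (t * d i) (h i) (s i) := by
  induction I using Finset.induction_on with
  | empty => exact ⟨1, G.LT_one, fun i hi => absurd hi (Finset.notMem_empty i)⟩
  | insert a I ha ih =>
    obtain ⟨t₁, ht₁, H₁⟩ := ih (fun i hi => H i (Finset.mem_insert_of_mem hi))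
    obtain ⟨t₂, ht₂, H₂⟩ := H a (Finset.mem_insert_self a I)
    obtain ⟨t', r', ht', hr', he⟩ := G.ore' ht₂ (LT.mem G ht₁)
    have h1 : G.LT (t' * t₁) 1 0 := by
      have := G.LT_mul ht' ht₁
      simpa using this
    have h1' := h1
    rw [he] at h1'
    have h2 := G.LT_cancel ht₂ hr' h1'
    refine ⟨t' * t₁, h1, ?_⟩
    intro i hi
    rcases Finset.mem_insert.mp hi with rfl | hi
    · rw [he, mul_assoc]
      have := G.LT_mul h2 H₂
      simpa using this
    · rw [mul_assoc]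
      have := G.LT_mul ht' (H₁ i hi)
      simpa using this

lemma Lead_indep {ι : Type*} [Fintype ι] (d h : ι → D) (s : ι → ℤ)
    (H : ∀ i, G.Lead (d i) (h i) (s i)) (hind : LinearIndependent k h) :
    LinearIndependent k d := by
  classical
  obtain ⟨t, ht, Ht⟩ := G.common Finset.univ d h s (fun i _ => H i)
  rw [Fintype.linearIndependent_iff]
  intro c hc
  by_contra hcon
  push Not at hcon
  set J := Finset.univ.filter (fun i => c i ≠ 0) with hJ
  have hJne : J.Nonempty := by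
    obtain ⟨i, hi⟩ := hcon
    exact ⟨i, by simp [hJ, hi]⟩
  obtain ⟨i₀, hi₀, hmax⟩ := Finset.exists_max_image J s hJne
  set S := s i₀ with hS
  set K := J.filter (fun i => s i = S) with hK
  have h0 : ∑ i ∈ J, c i • (t * d i) = 0 := by
    have h1 : ∑ i ∈ J, c i • (t * d i) = ∑ i, c i • (t * d i) := by
      apply Finset.sum_subset (Finset.subset_univ _)
      intro i _ hi
      have : c i = 0 := by
        by_contra h
        exact hi (by simp [hJ, h])
      rw [this, zero_smul]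
    rw [h1]
    have h2 : ∑ i, c i • (t * d i) = t * ∑ i, c i • d i := by
      rw [Finset.mul_sum]
      apply Finset.sum_congr rfl
      intro i _
      rw [mul_smul_comm]
    rw [h2, hc, mul_zero]
  have h1 : ∑ i ∈ K, c i • h i ∈ G.RS (Set.Iio S) := by
    have e : ∑ i ∈ K, c i • h i = -(∑ i ∈ K, c i • (t * d i - h i)) -
        ∑ i ∈ J \ K, c i • (t * d i) := by
      have e1 : ∑ i ∈ J \ K, c i • (t * d i) + ∑ i ∈ K, c i • (t * d i) = 0 := by
        rw [Finset.sum_sdiff (Finset.filter_subset _ _), h0]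
      have e2 : ∑ i ∈ K, c i • (t * d i - h i) =
          ∑ i ∈ K, c i • (t * d i) - ∑ i ∈ K, c i • h i := by
        rw [← Finset.sum_sub_distrib]
        apply Finset.sum_congr rfl
        intro i _
        rw [smul_sub]
      rw [e2, eq_neg_iff_add_eq_zero.mpr e1]
      abel
    rw [e]
    apply sub_mem
    · apply neg_mem
      apply Submodule.sum_mem
      intro i hi
      apply Submodule.smul_mem
      have h2 := (Ht i (Finset.mem_univ i)).2.2
      have h3 : s i = S := (Finset.mem_filter.mp hi).2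
      rwa [h3] at h2
    · apply Submodule.sum_mem
      intro i hi
      apply Submodule.smul_mem
      have hiJ : i ∈ J := (Finset.mem_sdiff.mp hi).1
      have hlt : s i < S := by
        refine lt_of_le_of_ne (hmax i hiJ) ?_
        intro h
        exact (Finset.mem_sdiff.mp hi).2 (Finset.mem_filter.mpr ⟨hiJ, h⟩)
      have h2 := Ht i (Finset.mem_univ i)
      have a1 : h i ∈ G.RS (Set.Iio S) := G.Eg_le_RS (Set.mem_Iio.mpr hlt) h2.1
      have a2 : t * d i - h i ∈ G.RS (Set.Iio S) := G.RS_mono (Set.Iio_subset_Iio hlt.le) h2.2.2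
      have := add_mem a2 a1
      simpa using this
  have h2 : ∑ i ∈ K, c i • h i ∈ G.Eg S := by
    apply Submodule.sum_mem
    intro i hi
    apply Submodule.smul_mem
    have h3 : s i = S := (Finset.mem_filter.mp hi).2
    rw [← h3]
    exact (Ht i (Finset.mem_univ i)).1
  have h3 := G.eq_zero_of_mem h2 h1 (lt_irrefl S)
  have h4 := (linearIndependent_iff'.mp hind) K c h3 i₀ (Finset.mem_filter.mpr ⟨hi₀, rfl⟩)
  have h5 : c i₀ ≠ 0 := by
    have := hi₀
    simp only [hJ, Finset.mem_filter, Finset.mem_univ, true_and] at this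
    exact this
  exact h5 h4

/-- fractions form a division subring -/
def Fr : Subfield D where
  carrier := {d | ∃ t, G.LT t 1 0 ∧ t * d ∈ G.RS Set.univ}
  mul_mem' := by
    rintro d d' ⟨t, ht, hd⟩ ⟨t', ht', hd'⟩
    obtain ⟨t'', r', ht'', hr', he⟩ := G.ore' ht' hd
    refine ⟨t'' * t, ?_, ?_⟩
    · have := G.LT_mul ht'' ht
      simpa using this
    · have e : t'' * t * (d * d') = r' * (t' * d') := by
        calc t'' * t * (d * d') = t'' * (t * d) * d' := by simp only [mul_assoc]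
          _ = r' * t' * d' := by rw [he]
          _ = _ := by rw [mul_assoc]
      rw [e]
      exact G.RS_mul (I := Set.univ) (J := Set.univ) (fun _ _ _ _ => Set.mem_univ _) hr' hd'
  one_mem' := ⟨1, G.LT_one, by rw [one_mul]; exact LT.mem G G.LT_one⟩
  add_mem' := by
    rintro d d' ⟨t, ht, hd⟩ ⟨t', ht', hd'⟩
    obtain ⟨t'', r', ht'', hr', he⟩ := G.ore' ht' (LT.mem G ht)
    refine ⟨t'' * t, ?_, ?_⟩
    · have := G.LT_mul ht'' ht
      simpa using this
    · rw [mul_add]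
      apply add_mem
      · rw [mul_assoc]
        exact G.RS_mul (I := Set.univ) (J := Set.univ) (fun _ _ _ _ => Set.mem_univ _)
          (LT.mem G ht'') hd
      · rw [he, mul_assoc]
        exact G.RS_mul (I := Set.univ) (J := Set.univ) (fun _ _ _ _ => Set.mem_univ _) hr' hd'
  zero_mem' := ⟨1, G.LT_one, by rw [mul_zero]; exact Submodule.zero_mem _⟩
  neg_mem' := by
    rintro d ⟨t, ht, hd⟩
    refine ⟨t, ht, ?_⟩
    rw [mul_neg]
    exact neg_mem hd
  inv_mem' := by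
    rintro d ⟨t, ht, hd⟩
    by_cases hd0 : d = 0
    · subst hd0
      refine ⟨1, G.LT_one, ?_⟩
      rw [inv_zero, mul_zero]
      exact Submodule.zero_mem _
    · have hr0 : t * d ≠ 0 := mul_ne_zero (LT.ne_zero G ht) hd0
      obtain ⟨h, s, H⟩ := G.LT_exists hd hr0
      have h1 : G.LT h⁻¹ h⁻¹ (-s) := G.LT_self (G.inv_mem_Eg H.1) (inv_ne_zero H.2.1)
      have h2 := G.LT_mul h1 H
      rw [inv_mul_cancel₀ H.2.1, neg_add_cancel] at h2
      refine ⟨h⁻¹ * (t * d), h2, ?_⟩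
      rw [mul_assoc, mul_assoc, mul_inv_cancel₀ hd0, mul_one]
      exact G.RS_mul (I := Set.univ) (J := Set.univ) (fun _ _ _ _ => Set.mem_univ _)
        (LT.mem G h1) (LT.mem G ht)

lemma Lead_exists {d : D} (hd : d ≠ 0) : ∃ h s, G.Lead d h s := by
  have htop : G.Fr = ⊤ := by
    apply G.gen
    · intro e he
      refine ⟨1, G.LT_one, ?_⟩
      rw [one_mul]
      exact G.Eg_le_RS (Set.mem_univ 0) (G.E_mem_Eg he)
    · refine ⟨1, G.LT_one, ?_⟩
      rw [one_mul]
      exact G.Eg_le_RS (Set.mem_univ 1) G.x_mem_Eg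
  have h1 : d ∈ G.Fr := by rw [htop]; trivial
  obtain ⟨t, ht, hr⟩ := h1
  obtain ⟨h, s, H⟩ := G.LT_exists hr (mul_ne_zero (LT.ne_zero G ht) hd)
  exact ⟨h, s, t, ht, H⟩

end Gr

end Run7.h134
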