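import Pool.Agent.Run7.h134.HN
import Pool.Agent.Run7.h134.SuperPoly
import Pool.Agent.Run7.h134.Core2
import Pool.Agent.Run7.h134.KP
import Pool.Agent.Run7.h134.TdegX

set_option autoImplicit false
set_option linter.style.haveILetI false

namespace Run7.h134

open Module Submodule

section

variable {k D : Type*} [Field k] [DivisionRing D] [Algebra k D]

/-- powers of `bV` -/
def PP (V : Submodule k D) (b : D) (n : ℕ) : Submodule k D := (V.map (LinearMap.mulLeft k b)) ^ n

lemma fdPP (V : Submodule k D) (hV : FiniteDimensional k V) (b : D) (n : ℕ) :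
    FiniteDimensional k (PP V b n) :=
  (Submodule.fg_iff_finiteDimensional _).mp
    (((Submodule.fg_iff_finiteDimensional (V.map (LinearMap.mulLeft k b))).mpr inferInstance).pow n)

lemma PP_left {V : Submodule k D} {b : D} {n : ℕ} {y p : D} (hy : y ∈ V) (hp : p ∈ PP V b n) :
    b * y * p ∈ PP V b (n + 1) := by
  unfold PP
  rw [pow_succ']
  exact Submodule.mul_mem_mul ⟨y, hy, rfl⟩ hp

lemma PP_right {V : Submodule k D} {b : D} {n : ℕ} {y p : D} (hy : y ∈ V) (hp : p ∈ PP V b n) :
    p * (b * y) ∈ PP V b (n + 1) := by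
  unfold PP
  rw [pow_succ]
  exact Submodule.mul_mem_mul hp ⟨y, hy, rfl⟩

lemma PP_mono {V : Submodule k D} (hV : FiniteDimensional k V) {b : D} (hb : b ≠ 0)
    (h1 : (1 : D) ∈ V) (n : ℕ) :
    finrank k (PP V b n) ≤ finrank k (PP V b (n + 1)) := by
  have f1 := fdPP V hV b (n + 1)
  rw [← finrank_map_inj (LinearMap.mulLeft k b) (fun x y h => mul_left_cancel₀ hb h)]
  apply Submodule.finrank_mono
  rintro _ ⟨p, hp, rfl⟩
  have := PP_left h1 hp
  rwa [mul_one] at this

lemma PP_pos {V : Submodule k D} (hV : FiniteDimensional k V) {b : D} (hb : b ≠ 0)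
    (h1 : (1 : D) ∈ V) (n : ℕ) : 1 ≤ finrank k (PP V b n) := by
  have h : b ^ n ∈ PP V b n := by
    apply Submodule.pow_mem_pow
    exact ⟨1, h1, by simp⟩
  have f1 := fdPP V hV b n
  have : 0 < finrank k (PP V b n) := by
    rw [Module.finrank_pos_iff_exists_ne_zero]
    refine ⟨⟨b ^ n, h⟩, ?_⟩
    intro h0
    exact pow_ne_zero n hb (congrArg Subtype.val h0)
  exact this

section KPart

variable (S : Subfield D) [Algebra k S] [IsScalarTower k S D]

lemma K_step (hkS : ∀ c : k, algebraMap k D c ∈ S) (hinf : ¬ Module.Finite S D)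
    (V : Submodule k D) (hV : FiniteDimensional k V) {b : D} (hb : b ≠ 0) (oneV : (1 : D) ∈ V)
    (hgen : ∀ T : Subfield D, (∀ c : k, algebraMap k D c ∈ T) → (∀ y ∈ V, y ∈ T) → T = ⊤)
    {a : ℕ} (ha : 1 ≤ a) (n : ℕ) (hne : TT S a (PP V b n) ≠ ⊥) :
    finrank S (TT S a (PP V b n)) + 1 ≤ finrank S (TT S a (PP V b (n + 1))) := by
  have fP := fdPP V hV b n
  have fP' := fdPP V hV b (n + 1)
  have fT := (TT_QQ (S := S) ha (PP V b n)).1
  have fT' := (TT_QQ (S := S) ha (PP V b (n + 1))).1
  by_contra hcon
  push Not at hcon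
  have hle : ∀ y ∈ V, y ≠ 0 → (TT S a (PP V b n)).map (mulR S (b * y)) = TT S a (PP V b (n + 1)) := by
    intro y hy hy0
    have hinj := mulR_inj S (mul_ne_zero hb hy0)
    have h1 : (TT S a (PP V b n)).map (mulR S (b * y)) ≤ TT S a (PP V b (n + 1)) := by
      refine (TT_map ha (PP V b n) (mulR S (b * y)) (LinearMap.mulRight k (b * y))
        (fun z => rfl) hinj).trans ?_
      have : FiniteDimensional k ((PP V b n).map (LinearMap.mulRight k (b * y))) := inferInstance
      apply TT_mono ha
      rintro _ ⟨p, hp, rfl⟩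
      exact PP_right hy hp
    apply Submodule.eq_of_le_of_finrank_le h1
    rw [finrank_map_injS _ hinj]
    omega
  apply hinf
  set T' := TT S a (PP V b (n + 1)) with hT'
  have hb1 : (TT S a (PP V b n)).map (mulR S (b * 1)) = T' := hle 1 oneV one_ne_zero
  have hstab : stabR S T' fT' = ⊤ := by
    apply hgen
    · intro c z hz
      rw [← Algebra.commutes]
      exact T'.smul_mem (⟨_, hkS c⟩ : S) hz
    · intro y hy z hz
      by_cases hy0 : y = 0
      · rw [hy0, mul_zero]
        exact Submodule.zero_mem _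
      · rw [← hb1] at hz
        obtain ⟨t, ht, rfl⟩ := hz
        rw [← hle y hy hy0]
        refine ⟨t, ht, ?_⟩
        simp only [mulR_apply, mul_one, mul_assoc]
  have hT'ne : T' ≠ ⊥ := by
    intro h0
    rw [h0] at hb1
    apply hne
    rw [eq_bot_iff]
    intro z hz
    have h2 : mulR S (b * 1) z ∈ (⊥ : Submodule S D) := by
      rw [← hb1]
      exact ⟨z, hz, rfl⟩
    rw [Submodule.mem_bot, mulR_apply, mul_one] at h2
    rcases mul_eq_zero.mp h2 with h3 | h3
    · rw [h3]; exact Submodule.zero_mem _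
    · exact absurd h3 hb
  obtain ⟨z, hz, hz0⟩ := Submodule.exists_mem_ne_zero_of_ne_bot hT'ne
  have htop : T' = ⊤ := by
    rw [eq_top_iff]
    intro d _
    have hd : z⁻¹ * d ∈ stabR S T' fT' := by rw [hstab]; trivial
    have := hd z hz
    rwa [← mul_assoc, mul_inv_cancel₀ hz0, one_mul] at this
  have h2 : Module.Finite S (⊤ : Submodule S D) := by
    rw [← htop]; exact fT'
  exact Module.Finite.equiv (Submodule.topEquiv (R := S) (M := D))

lemma K_growth (hkS : ∀ c : k, algebraMap k D c ∈ S) (hinf : ¬ Module.Finite S D)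
    (V : Submodule k D) (hV : FiniteDimensional k V) {b : D} (hb : b ≠ 0) (oneV : (1 : D) ∈ V)
    (hgen : ∀ T : Subfield D, (∀ c : k, algebraMap k D c ∈ T) → (∀ y ∈ V, y ∈ T) → T = ⊤)
    {a : ℕ} (ha : 1 ≤ a) (n : ℕ) (hne : TT S a (PP V b n) ≠ ⊥) (j : ℕ) :
    a * (j + 1) ≤ finrank k (PP V b (n + j)) := by
  have key : ∀ j, j + 1 ≤ finrank S (TT S a (PP V b (n + j))) := by
    intro j
    induction j with
    | zero =>
      have fP := fdPP V hV b n
      have fT := (TT_QQ (S := S) ha (PP V b n)).1
      have : finrank S (TT S a (PP V b n)) ≠ 0 := fun h => hne (Submodule.finrank_eq_zero.mp h)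
      show 0 + 1 ≤ finrank S (TT S a (PP V b n))
      omega
    | succ j ih =>
      have h1 : TT S a (PP V b (n + j)) ≠ ⊥ := by
        intro h
        rw [h, finrank_bot] at ih
        omega
      have h2 := K_step S hkS hinf V hV hb oneV hgen ha (n + j) h1
      rw [← add_assoc]
      omega
  have fP := fdPP V hV b (n + j)
  have h1 := (TT_QQ (S := S) ha (PP V b (n + j))).dim_le
  have h2 := ph_le (PP V b (n + j)) (TT S a (PP V b (n + j)))
  have h3 := Nat.mul_le_mul_left a (key j)
  omega

end KPart

section LPart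

variable (L K : Subfield D) [Algebra k L] [IsScalarTower k L D] [Algebra k K] [IsScalarTower k K D]

lemma span_fin_of_le (hLK : L ≤ K) (T : Submodule L D) (hT : Module.Finite L T) :
    Module.Finite K (span K (T : Set D)) := by
  obtain ⟨t, ht⟩ := (Submodule.fg_iff_finiteDimensional T).mpr hT
  have h0 : ∀ y ∈ span L (t : Set D), y ∈ span K (t : Set D) := by
    intro y hy
    induction hy using Submodule.span_induction with
    | mem y hy => exact subset_span hy
    | zero => exact Submodule.zero_mem _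
    | add a b _ _ ha hb => exact Submodule.add_mem _ ha hb
    | smul c a _ ha => exact (span K (t : Set D)).smul_mem (⟨c, hLK c.2⟩ : K) ha
  have h1 : span K (T : Set D) ≤ span K (t : Set D) := by
    apply span_le.mpr
    intro y hy
    exact h0 y (by rw [ht]; exact hy)
  have : Module.Finite K (span K (t : Set D)) := Module.Finite.span_of_finite K t.finite_toSet
  exact Submodule.finiteDimensional_of_le h1

/-- left multiplication by an element commuting with `L` -/
def mulC (v : D) (hv : ∀ l ∈ L, v * l = l * v) : D →ₗ[L] D where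
  toFun y := v * y
  map_add' := mul_add v
  map_smul' c y := by
    show v * ((c : D) * y) = (c : D) * (v * y)
    rw [← mul_assoc, hv c c.2, mul_assoc]

lemma string_LK (hLK : L ≤ K) (v : D) (hvK : v ∈ K) (hv0 : v ≠ 0) (hv : ∀ l ∈ L, v * l = l * v)
    (hind : ∀ (n : ℕ) (c : ℕ → D), (∀ i, c i ∈ L) → ∑ i ∈ Finset.range n, c i * v ^ i = 0 →
      ∀ i < n, c i = 0)
    (T : Submodule L D) (hT : Module.Finite L T) :
    finrank L T + finrank K (span K (T : Set D)) ≤
      finrank L ((T ⊔ T.map (mulC L v hv) : Submodule L D)) := by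
  classical
  have fK := span_fin_of_le L K hLK T hT
  obtain ⟨s, hsT, hspan, hli⟩ := exists_linearIndependent K (T : Set D)
  have hfin : s.Finite := by
    have hli2 : LinearIndependent K (fun y : s => (⟨y.1, Submodule.subset_span (hsT y.2)⟩ :
        Submodule.span K (T : Set D))) := by
      apply LinearIndependent.of_comp (Submodule.span K (T : Set D)).subtype
      exact hli
    have := hli2.finite
    exact Set.toFinite s
  letI := hfin.fintype
  have hcard : finrank K (Submodule.span K (T : Set D)) = Fintype.card s := by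
    rw [← hspan]
    rw [finrank_span_set_eq_card hli]
    simp
  rw [hcard]
  have hinj : Function.Injective (mulC L v hv) := fun x y h => mul_left_cancel₀ hv0 h
  have hpow : ∀ (j : ℕ) (y : D), ((mulC L v hv) ^ j) y = v ^ j * y := by
    intro j
    induction j with
    | zero => intro y; simp
    | succ j ih =>
      intro y
      rw [pow_succ']
      show v * (((mulC L v hv) ^ j) y) = _
      rw [ih, pow_succ', mul_assoc]
  refine string_abs (mulC L v hv) hinj T hT (fun i : s => (i : D)) (fun i => hsT i.2) ?_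
  intro n
  rw [Fintype.linearIndependent_iff]
  intro g hg
  have h1 : ∑ i : s, (∑ j : Fin (n + 1), (g (j, i) : D) * v ^ (j : ℕ)) * (i : D) = 0 := by
    rw [← hg, Fintype.sum_prod_type_right]
    apply Finset.sum_congr rfl
    intro i _
    rw [Finset.sum_mul]
    apply Finset.sum_congr rfl
    intro j _
    show _ = (g (j, i) : D) * (((mulC L v hv) ^ (j : ℕ)) (i : D))
    rw [hpow, mul_assoc]
  have hmemK : ∀ i : s, (∑ j : Fin (n + 1), (g (j, i) : D) * v ^ (j : ℕ)) ∈ K := by
    intro i
    apply Subfield.sum_mem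
    intro j _
    exact K.mul_mem (hLK (g (j, i)).2) (K.pow_mem hvK _)
  have h2 := (Fintype.linearIndependent_iff.mp hli)
    (fun i => (⟨_, hmemK i⟩ : K)) h1
  rintro ⟨j, i⟩
  have h3 : ∑ j : Fin (n + 1), (g (j, i) : D) * v ^ (j : ℕ) = 0 := congrArg Subtype.val (h2 i)
  let c : ℕ → D := fun m => if h : m < n + 1 then (g (⟨m, h⟩, i) : D) else 0
  have hc : ∀ m, c m ∈ L := by
    intro m
    by_cases h : m < n + 1
    · simp only [c, dif_pos h]
      exact (g (⟨m, h⟩, i)).2
    · simp only [c, dif_neg h]
      exact L.zero_mem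
  have h4 : ∑ m ∈ Finset.range (n + 1), c m * v ^ m = 0 := by
    rw [Finset.sum_range, ← h3]
    apply Finset.sum_congr rfl
    intro m _
    simp only [c, dif_pos m.2]
  have h5 := hind (n + 1) c hc h4 j j.2
  simp only [c, dif_pos j.2] at h5
  exact Subtype.ext h5

end LPart

end

/-- string lemma with the ambient algebra structure -/
lemma stringL' {k D : Type*} [Field k] [DivisionRing D] [Algebra k D]
    (U : Subfield D) [Algebra k U] [IsScalarTower k U D] (hk : ∀ c : k, algebraMap k D c ∈ U)
    {u : D} (huU : u ∈ U) (hu : Transcendental k u) (P : Submodule k D)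
    (hP : FiniteDimensional k P) :
    finrank k P + finrank U (span U (P : Set D)) ≤
      finrank k ((P ⊔ P.map (LinearMap.mulLeft k u) : Submodule k D)) :=
  stringL U hk huU hu P hP

/-- Key inequality. -/
lemma key_ineq {k D : Type*} [Field k] [DivisionRing D] [Algebra k D]
    (L K : Subfield D) [Algebra k L] [IsScalarTower k L D] [Algebra k K] [IsScalarTower k K D]
    (hLK : L ≤ K) (hkL : ∀ c : k, algebraMap k D c ∈ L)
    (u v : D) (huL : u ∈ L) (hu : Transcendental k u) (hvK : v ∈ K) (hv0 : v ≠ 0)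
    (hv : ∀ l ∈ L, v * l = l * v)
    (hind : ∀ (n : ℕ) (c : ℕ → D), (∀ i, c i ∈ L) → ∑ i ∈ Finset.range n, c i * v ^ i = 0 →
      ∀ i < n, c i = 0)
    (hinf : ¬ Module.Finite K D)
    (V : Submodule k D) (hV : FiniteDimensional k V) {b : D} (hb : b ≠ 0) (oneV : (1 : D) ∈ V)
    (uV : u ∈ V) (vV : v ∈ V)
    (hgen : ∀ T : Subfield D, (∀ c : k, algebraMap k D c ∈ T) → (∀ y ∈ V, y ∈ T) → T = ⊤)
    (n : ℕ) :
    finrank k (PP V b n) ≤
      4 * (Nat.sqrt (finrank k (PP V b (2 * n)) / (n + 1) + 1) + 1) *
        (finrank k (PP V b (n + 1)) - finrank k (PP V b n)) := by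
  have fP := fdPP V hV b n
  have fP1 := fdPP V hV b (n + 1)
  set α := finrank k (PP V b (2 * n)) / (n + 1) + 1 with hα
  have hα1 : 1 ≤ α := Nat.le_add_left 1 _
  set P := PP V b n with hP
  set F := finrank k P with hF
  set F1 := finrank k (PP V b (n + 1)) with hF1
  -- slopes over K
  have hbot : TT K α P = ⊥ := by
    by_contra hne
    have h1 := K_growth K (fun c => hLK (hkL c)) hinf V hV hb oneV hgen hα1 n hne n
    rw [← two_mul] at h1
    have h2 := Nat.div_add_mod (finrank k (PP V b (2 * n))) (n + 1)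
    have h3 := Nat.mod_lt (finrank k (PP V b (2 * n))) (Nat.succ_pos n)
    have h4 : α * (n + 1) = (n + 1) * (finrank k (PP V b (2 * n)) / (n + 1)) + (n + 1) := by
      rw [hα]; ring
    rw [Nat.succ_eq_add_one] at h3
    omega
  have hslope := slope (S := K) hα1 P hbot
  -- string over L
  have fLP := span_eq_of_fg (S := L) P
  have hinjb : Function.Injective (LinearMap.mulLeft k b) := fun x y h => mul_left_cancel₀ hb h
  have hL1 : F + finrank L (span L (P : Set D)) ≤ F1 := by
    have h1 := stringL' L hkL huL hu P fP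
    refine h1.trans ?_
    rw [← finrank_map_inj (LinearMap.mulLeft k b) hinjb]
    apply Submodule.finrank_mono
    rw [Submodule.map_sup]
    apply sup_le
    · rintro _ ⟨p, hp, rfl⟩
      have := PP_left oneV hp
      rwa [mul_one] at this
    · rintro _ ⟨_, ⟨p, hp, rfl⟩, rfl⟩
      have := PP_left uV hp
      simpa [mul_assoc] using this
  -- `P + vP`
  let P' : Submodule k D := P ⊔ P.map (LinearMap.mulLeft k v)
  have fP' : FiniteDimensional k P' := by
    show FiniteDimensional k ((P ⊔ P.map (LinearMap.mulLeft k v) : Submodule k D))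
    infer_instance
  have hP' : finrank k P' ≤ F1 := by
    rw [← finrank_map_inj (LinearMap.mulLeft k b) hinjb]
    apply Submodule.finrank_mono
    show (P ⊔ P.map (LinearMap.mulLeft k v)).map (LinearMap.mulLeft k b) ≤ _
    rw [Submodule.map_sup]
    apply sup_le
    · rintro _ ⟨p, hp, rfl⟩
      have := PP_left oneV hp
      rwa [mul_one] at this
    · rintro _ ⟨_, ⟨p, hp, rfl⟩, rfl⟩
      have := PP_left vV hp
      simpa [mul_assoc] using this
  let T : ℕ → Submodule L D := fun a => TT L (a + 1) P
  have fT : ∀ a, Module.Finite L ↥(T a) := fun a => (TT_QQ (S := L) (Nat.le_add_left 1 a) P).1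
  let t : ℕ → ℕ := fun a => finrank L ↥(T a)
  let r : ℕ → ℕ := fun a => finrank K (span K (T a : Set D))
  have hinjv : Function.Injective (mulC L v hv) := fun x y h => mul_left_cancel₀ hv0 h
  have hTr : ∀ a, t a + r a ≤ finrank L ↥(TT L (a + 1) P') := by
    intro a
    have h1 := string_LK L K hLK v hvK hv0 hv hind (T a) (fT a)
    refine h1.trans ?_
    have fT' := (TT_QQ (S := L) (Nat.le_add_left 1 a) P').1
    apply Submodule.finrank_mono
    apply sup_le
    · exact TT_mono (Nat.le_add_left 1 a) le_sup_left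
    · refine (TT_map (Nat.le_add_left 1 a) P (mulC L v hv) (LinearMap.mulLeft k v)
        (fun z => rfl) hinjv).trans ?_
      exact TT_mono (Nat.le_add_left 1 a) le_sup_right
  have hsum1 : ∑ a ∈ Finset.range F, (t a + r a) ≤ F1 :=
    (Finset.sum_le_sum (fun a _ => hTr a)).trans ((sum_TT_le (S := L) P' F).trans hP')
  have hsum2 : F ≤ finrank L (span L (P : Set D)) + ∑ a ∈ Finset.range F, t a :=
    le_sum_TT (S := L) P F le_rfl
  have hslope2 : ∀ a, (a + 1) * t a ≤ α * r a := by
    intro a
    have h1 := (TT_QQ (S := L) (Nat.le_add_left 1 a) P).dim_le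
    have h2 : ph P (T a) ≤ ph P (span K (T a : Set D)) := by
      have := fd_inf P (span K (T a : Set D))
      apply Submodule.finrank_mono
      exact inf_le_inf le_rfl (fun y hy => subset_span hy)
    have h3 := hslope (span K (T a : Set D)) (span_fin_of_le L K hLK (T a) (fT a))
    exact h1.trans (h2.trans h3)
  have htle : ∀ a, t a ≤ finrank L (span L (P : Set D)) := fun a =>
    Submodule.finrank_mono (TT_le_span (Nat.le_add_left 1 a) P)
  set ρ := finrank L (span L (P : Set D)) with hρ
  set c := Nat.sqrt α + 1 with hc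
  have hαc : α ≤ c * c := (Nat.lt_succ_sqrt α).le
  have hct : ∀ a, c * t a ≤ (if a < c then c * ρ else 0) + α * r a := by
    intro a
    by_cases h : a < c
    · rw [if_pos h]
      have := Nat.mul_le_mul_left c (htle a)
      omega
    · rw [if_neg h, zero_add]
      exact (Nat.mul_le_mul_right _ (by omega)).trans (hslope2 a)
  have hsum3 : c * ∑ a ∈ Finset.range F, t a ≤ c * (c * ρ) + α * ∑ a ∈ Finset.range F, r a := by
    rw [Finset.mul_sum, Finset.mul_sum]
    refine (Finset.sum_le_sum (fun a _ => hct a)).trans ?_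
    rw [Finset.sum_add_distrib]
    apply Nat.add_le_add_right
    rw [← Finset.sum_filter, Finset.sum_const, smul_eq_mul]
    apply Nat.mul_le_mul_right
    have h1 : (Finset.range F).filter (fun a => a < c) ⊆ Finset.range c := by
      intro a ha
      rw [Finset.mem_filter] at ha
      exact Finset.mem_range.mpr ha.2
    have := Finset.card_le_card h1
    rwa [Finset.card_range] at this
  rw [Finset.sum_add_distrib] at hsum1
  set X := ∑ a ∈ Finset.range F, t a with hX
  set Y := ∑ a ∈ Finset.range F, r a with hY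
  have hFF1 : F ≤ F1 := by omega
  obtain ⟨Δ, hΔ⟩ := Nat.exists_eq_add_of_le hFF1
  have e : F1 - F = Δ := by omega
  rw [e]
  have hρΔ : ρ ≤ Δ := by omega
  have hYΔ : Y ≤ 2 * Δ := by omega
  have h5 : c * X ≤ c * (3 * c * Δ) := by
    calc c * X ≤ c * (c * ρ) + α * Y := hsum3
      _ ≤ c * (c * Δ) + (c * c) * (2 * Δ) := by
          apply Nat.add_le_add
          · exact Nat.mul_le_mul_left _ (Nat.mul_le_mul_left _ hρΔ)
          · exact Nat.mul_le_mul hαc hYΔ
      _ = c * (3 * c * Δ) := by ring
  have h6 : X ≤ 3 * c * Δ := Nat.le_of_mul_le_mul_left h5 (by omega)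
  calc F ≤ ρ + X := hsum2
    _ ≤ Δ + 3 * c * Δ := Nat.add_le_add hρΔ h6
    _ ≤ 4 * c * Δ := by
      have : Δ ≤ c * Δ := Nat.le_mul_of_pos_left _ (by omega)
      nlinarith

end Run7.h134
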